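import Mathlib
import Pool.Agent.Lib.MP_04add8_pr.One.BetaA
import Pool.Agent.Lib.MP_04add8_pr.One.BetaB

open MeasureTheory ProbabilityTheory Filter Topology
open scoped ENNReal

set_option linter.unusedSectionVars false

namespace Pool.Agent.Lib.MP_04add8_pr.U

open BetaAux

variable {ν : Measure ℝ} [IsProbabilityMeasure ν]

/-- the root of `M β * lap ν (β + θ) = 1` -/
noncomputable def rootM (ν : Measure ℝ) (M : ℝ → ℝ) (θ : ℝ) : ℝ :=
  sInf {β : ℝ | 0 ≤ β ∧ 1 ≤ M β * lap ν (β + θ)}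

lemma rootM_nonneg (M : ℝ → ℝ) (θ : ℝ) : 0 ≤ rootM ν M θ :=
  Real.sInf_nonneg fun _ h => h.1

lemma rootM_le {M : ℝ → ℝ} {θ β : ℝ} (h0 : 0 ≤ β) (h1 : 1 ≤ M β * lap ν (β + θ)) :
    rootM ν M θ ≤ β :=
  csInf_le ⟨0, fun _ h => h.1⟩ ⟨h0, h1⟩

lemma le_rootM {M : ℝ → ℝ} {θ β b : ℝ} (h0 : 0 ≤ β) (h1 : 1 ≤ M β * lap ν (β + θ))
    (hb : ∀ β' : ℝ, 0 ≤ β' → 1 ≤ M β' * lap ν (β' + θ) → b ≤ β') : b ≤ rootM ν M θ :=
  le_csInf ⟨β, h0, h1⟩ fun β' h => hb β' h.1 h.2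

/-- a smooth moment generating function on `[0, r]` -/
structure MG (M M1 : ℝ → ℝ) (E τ C r : ℝ) : Prop where
  zero : M 0 = 1
  one : M1 0 ≤ E
  low : ∀ y, 0 ≤ y → y ≤ r → E - τ ≤ M1 y
  tay : ∀ x y, 0 ≤ x → x ≤ r → 0 ≤ y → y ≤ r →
    0 ≤ M x - M y - M1 y * (x - y) ∧ M x - M y - M1 y * (x - y) ≤ C * (x - y) ^ 2

lemma MG.diff {M M1 : ℝ → ℝ} {E τ C r : ℝ} (G : MG M M1 E τ C r) {x y : ℝ} (hy : 0 ≤ y)
    (hyx : y ≤ x) (hx : x ≤ r) : (E - τ) * (x - y) ≤ M x - M y := by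
  have h1 := (G.tay x y (hy.trans hyx) hx hy (hyx.trans hx)).1
  have h2 := mul_le_mul_of_nonneg_right (G.low y hy (hyx.trans hx)) (sub_nonneg.2 hyx)
  linarith

lemma MG.le {M M1 : ℝ → ℝ} {E τ C r : ℝ} (G : MG M M1 E τ C r) {x : ℝ} (hx0 : 0 ≤ x)
    (hx : x ≤ r) : M x ≤ 1 + E * x + C * x ^ 2 := by
  have h1 := (G.tay x 0 hx0 hx le_rfl (hx0.trans hx)).2
  have h2 := mul_le_mul_of_nonneg_right G.one hx0
  rw [G.zero, sub_zero] at h1
  linarith

lemma MG.ge {M M1 : ℝ → ℝ} {E τ C r : ℝ} (G : MG M M1 E τ C r) {x : ℝ} (hx0 : 0 ≤ x)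
    (hx : x ≤ r) : 1 + (E - τ) * x ≤ M x := by
  have h1 := G.diff le_rfl hx0 hx
  rw [G.zero, sub_zero] at h1
  linarith

lemma MG.one_le {M M1 : ℝ → ℝ} {E τ C r : ℝ} (G : MG M M1 E τ C r) (hC : 0 ≤ C) {y : ℝ}
    (hy0 : 0 ≤ y) (hy : y ≤ r) : M1 y ≤ E + 2 * C * y := by
  rcases hy0.eq_or_lt with rfl | hy1
  · have := G.one
    linarith
  · have h1 := (G.tay 0 y le_rfl (hy0.trans hy) hy0 hy).2
    have h2 := G.le hy0 hy
    rw [G.zero] at h1
    have h3 : M1 y * y ≤ (E + 2 * C * y) * y := by nlinarith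
    exact le_of_mul_le_mul_right h3 hy1

lemma MG.cont {M M1 : ℝ → ℝ} {E τ C r : ℝ} (G : MG M M1 E τ C r) (hC : 0 ≤ C)
    (hE : 0 ≤ E - τ) : ContinuousOn M (Set.Icc 0 r) := by
  have hlip : ∀ x ∈ Set.Icc 0 r, ∀ y ∈ Set.Icc 0 r, y ≤ x →
      |M x - M y| ≤ (E + 3 * C * r) * |x - y| := by
    intro x hx y hy hyx
    have h1 := G.diff hy.1 hyx hx.2
    have h2 := (G.tay x y hx.1 hx.2 hy.1 hy.2).2
    have h3 := G.one_le hC hy.1 hy.2
    have h4 : 0 ≤ x - y := sub_nonneg.2 hyx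
    have h5 : 0 ≤ (E - τ) * (x - y) := mul_nonneg hE h4
    rw [abs_of_nonneg (h5.trans h1), abs_of_nonneg h4]
    have h6 : M1 y * (x - y) ≤ (E + 2 * C * r) * (x - y) := by
      apply mul_le_mul_of_nonneg_right _ h4
      have : 2 * C * y ≤ 2 * C * r := mul_le_mul_of_nonneg_left hy.2 (by positivity)
      linarith
    have h7 : C * (x - y) ^ 2 ≤ C * r * (x - y) := by
      have h8 : x - y ≤ r := by linarith [hx.2, hy.1]
      calc C * (x - y) ^ 2 = C * (x - y) * (x - y) := by ring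
        _ ≤ C * r * (x - y) := by
          apply mul_le_mul_of_nonneg_right _ h4
          exact mul_le_mul_of_nonneg_left h8 hC
    linarith
  intro y hy
  have hr : 0 ≤ r := hy.1.trans hy.2
  have hEE : 0 ≤ E + 3 * C * r := by
    by_contra hcon
    push Not at hcon
    have h1 := G.one
    have h2 := G.low 0 le_rfl hr
    have : 0 ≤ 3 * C * r := by positivity
    linarith
  have hL : LipschitzOnWith (Real.toNNReal (E + 3 * C * r)) M (Set.Icc 0 r) := by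
    apply LipschitzOnWith.of_dist_le_mul
    intro x hx z hz
    rw [Real.dist_eq, Real.dist_eq, Real.coe_toNNReal _ hEE]
    rcases le_total z x with h | h
    · exact hlip x hx z hz h
    · rw [abs_sub_comm, abs_sub_comm x z]
      exact hlip z hz x hx h
  exact hL.continuousOn y hy

/-- **the root to first order** -/
theorem rootM_lim (hν0 : ∀ᵐ t ∂ν, 0 ≤ t) (hνi : Integrable (fun t : ℝ => t) ν) {E : ℝ}
    (hgt : (∫ t, t ∂ν) < E) (hlt : E < 2 * ∫ t, t ∂ν) {ω : ℝ} (hω : 0 < ω) :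
    ∃ τ δ : ℝ, 0 < τ ∧ 0 < δ ∧ ∀ (M : ℝ → ℝ) (r : ℝ),
      (∀ β, 0 ≤ β → β ≤ r → 1 + (E - τ) * β ≤ M β ∧ M β ≤ 1 + (E + τ) * β) →
      ∀ θ, 0 < θ → θ ≤ δ → ((∫ t, t ∂ν) / (E - ∫ t, t ∂ν) + ω) * θ ≤ r →
        1 ≤ M (((∫ t, t ∂ν) / (E - ∫ t, t ∂ν) + ω) * θ) *
          lap ν (((∫ t, t ∂ν) / (E - ∫ t, t ∂ν) + ω) * θ + θ) ∧
        ((∫ t, t ∂ν) / (E - ∫ t, t ∂ν) - ω) * θ ≤ rootM ν M θ ∧
        rootM ν M θ ≤ ((∫ t, t ∂ν) / (E - ∫ t, t ∂ν) + ω) * θ := by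
  set m := ∫ t, t ∂ν with hm
  have hm0 : 0 < m := by linarith
  have hEm : 0 < E - m := by linarith
  have hE0 : 0 < E := by linarith
  obtain ⟨ρ, hρ⟩ : ∃ ρ, ρ = m / (E - m) := ⟨_, rfl⟩
  have hρE : (E - m) * ρ = m := by rw [hρ]; field_simp
  have hρ0 : 0 < ρ := by rw [hρ]; positivity
  rw [← hρ]
  obtain ⟨A, hA⟩ : ∃ A, A = ρ + ω + 1 := ⟨_, rfl⟩
  have hA0 : 0 < A := by rw [hA]; positivity
  obtain ⟨τ, hτ0, hτ1, hτ2⟩ : ∃ τ : ℝ, 0 < τ ∧ τ * (3 * A) ≤ (E - m) * ω ∧ τ ≤ m / 2 := by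
    refine ⟨min ((E - m) * ω / (3 * A)) (m / 2), by positivity, ?_, min_le_right _ _⟩
    have : min ((E - m) * ω / (3 * A)) (m / 2) ≤ (E - m) * ω / (3 * A) := min_le_left _ _
    rwa [le_div_iff₀ (by positivity)] at this
  -- the Laplace transform near `0`
  have hlap : ∀ᶠ q in 𝓝[>] (0 : ℝ), lap ν q ≤ 1 - (m - τ) * q := by
    filter_upwards [(tendsto_lap hν0 hνi).eventually (lt_mem_nhds (show m - τ < m by linarith)),
      self_mem_nhdsWithin] with q h1 hq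
    have hq : 0 < q := hq
    rw [lt_div_iff₀ hq] at h1
    linarith
  obtain ⟨q0, hq0, hq⟩ := (mem_nhdsGT_iff_exists_Ioo_subset).1 hlap
  have hq0 : 0 < q0 := hq0
  obtain ⟨δ, hδ0, hδ1, hδ2⟩ : ∃ δ : ℝ, 0 < δ ∧ A * δ < q0 ∧ 3 * (E * m * A ^ 2) * δ ≤
      (E - m) * ω := by
    refine ⟨min (q0 / (2 * A)) ((E - m) * ω / (3 * (E * m * A ^ 2))), by positivity, ?_, ?_⟩
    · have h1 : A * min (q0 / (2 * A)) ((E - m) * ω / (3 * (E * m * A ^ 2))) ≤
          A * (q0 / (2 * A)) := mul_le_mul_of_nonneg_left (min_le_left _ _) hA0.le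
      have h2 : A * (q0 / (2 * A)) = q0 / 2 := by field_simp
      linarith
    · have h1 : 3 * (E * m * A ^ 2) *
          min (q0 / (2 * A)) ((E - m) * ω / (3 * (E * m * A ^ 2))) ≤
          3 * (E * m * A ^ 2) * ((E - m) * ω / (3 * (E * m * A ^ 2))) :=
        mul_le_mul_of_nonneg_left (min_le_right _ _) (by positivity)
      have h2 : 3 * (E * m * A ^ 2) * ((E - m) * ω / (3 * (E * m * A ^ 2))) = (E - m) * ω := by
        field_simp
      linarith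
  refine ⟨τ, δ, hτ0, hδ0, ?_⟩
  intro M r hM θ hθ hθδ hr
  obtain ⟨b, hb⟩ : ∃ b, b = (ρ + ω) * θ := ⟨_, rfl⟩
  rw [← hb] at hr ⊢
  have hb0 : 0 ≤ b := by rw [hb]; positivity
  have hbA : b + θ = A * θ := by rw [hb, hA]; ring
  have hτE : τ ≤ E := by linarith
  -- the upper point
  have hup : 1 ≤ M b * lap ν (b + θ) := by
    have h1 := (hM b hb0 hr).1
    have h2 := lap_ge hν0 hνi (q := b + θ) (by linarith)
    have h3 := lap_nonneg (ν := ν) (b + θ)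
    rw [← hm] at h2
    have h4 : 0 ≤ 1 + (E - τ) * b := by
      have : 0 ≤ (E - τ) * b := mul_nonneg (by linarith) hb0
      linarith
    have h5 : (1 + (E - τ) * b) * (1 - m * (b + θ)) ≤ M b * lap ν (b + θ) :=
      (mul_le_mul_of_nonneg_left h2 h4).trans (mul_le_mul_of_nonneg_right h1 h3)
    refine le_trans ?_ h5
    have h6 : (1 + (E - τ) * b) * (1 - m * (b + θ)) = 1 + ((E - m) * b - m * θ) - τ * b -
      (E - τ) * b * (m * (b + θ)) := by ring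
    rw [h6]
    have h7 : (E - m) * b - m * θ = (E - m) * ω * θ := by
      calc (E - m) * b - m * θ = ((E - m) * ρ) * θ + (E - m) * ω * θ - m * θ := by
            rw [hb]; ring
        _ = _ := by rw [hρE]; ring
    rw [h7]
    have hbA' : b ≤ A * θ := by linarith
    have h8 : 3 * (τ * b) ≤ (E - m) * ω * θ := by
      calc 3 * (τ * b) ≤ 3 * (τ * (A * θ)) := by gcongr
        _ = τ * (3 * A) * θ := by ring
        _ ≤ (E - m) * ω * θ := mul_le_mul_of_nonneg_right hτ1 hθ.le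
    have h9 : 3 * ((E - τ) * b * (m * (b + θ))) ≤ (E - m) * ω * θ := by
      calc 3 * ((E - τ) * b * (m * (b + θ))) ≤ 3 * (E * (A * θ) * (m * (A * θ))) := by
            rw [hbA]
            have : E - τ ≤ E := by linarith
            gcongr
        _ = 3 * (E * m * A ^ 2) * θ * θ := by ring
        _ ≤ 3 * (E * m * A ^ 2) * δ * θ := by gcongr
        _ ≤ (E - m) * ω * θ := mul_le_mul_of_nonneg_right hδ2 hθ.le
    have h10 : 0 ≤ (E - m) * ω * θ := by positivity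
    linarith
  refine ⟨hup, ?_, rootM_le hb0 hup⟩
  apply le_rootM hb0 hup
  intro β hβ hβ1
  by_contra hcon
  push Not at hcon
  have hωθ : 0 < ω * θ := by positivity
  have hβb : β ≤ b := by
    have h1 : (ρ - ω) * θ = (ρ + ω) * θ - 2 * (ω * θ) := by ring
    rw [hb]
    linarith
  have h1 := hM β hβ (hβb.trans hr)
  have h2 := lap_nonneg (ν := ν) (β + θ)
  have hAθ : A * θ ≤ A * δ := mul_le_mul_of_nonneg_left hθδ hA0.le
  have h3 : lap ν (β + θ) ≤ 1 - (m - τ) * (β + θ) :=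
    hq (⟨by linarith, by linarith⟩ : β + θ ∈ Set.Ioo 0 q0)
  have h4 : 0 ≤ M β := by
    have : 0 ≤ (E - τ) * β := mul_nonneg (by linarith) hβ
    linarith [h1.1]
  have h5 : M β * lap ν (β + θ) ≤ (1 + (E + τ) * β) * (1 - (m - τ) * (β + θ)) :=
    (mul_le_mul_of_nonneg_left h3 h4).trans (mul_le_mul_of_nonneg_right h1.2 (h2.trans h3))
  have h6 : (1 + (E + τ) * β) * (1 - (m - τ) * (β + θ)) = 1 + ((E - m) * β - m * θ) +
      τ * (2 * β + θ) - (E + τ) * β * ((m - τ) * (β + θ)) := by ring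
  have h7 : 0 ≤ (E + τ) * β * ((m - τ) * (β + θ)) := by
    apply mul_nonneg (mul_nonneg (by linarith) hβ) (mul_nonneg (by linarith) (by linarith))
  have h8 : (E - m) * β - m * θ < -((E - m) * ω * θ) := by
    have h9 : (E - m) * β < (E - m) * ((ρ - ω) * θ) := mul_lt_mul_of_pos_left hcon hEm
    have h10 : (E - m) * ((ρ - ω) * θ) = ((E - m) * ρ) * θ - (E - m) * ω * θ := by ring
    rw [h10, hρE] at h9
    linarith
  have h9 : τ * (2 * β + θ) ≤ (E - m) * ω * θ := by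
    have h10 : 2 * β + θ ≤ 3 * A * θ := by
      have : β ≤ A * θ := by linarith
      have : θ ≤ A * θ := by
        rw [← hbA]
        linarith
      linarith
    calc τ * (2 * β + θ) ≤ τ * (3 * A * θ) := mul_le_mul_of_nonneg_left h10 hτ0.le
      _ = τ * (3 * A) * θ := by ring
      _ ≤ _ := mul_le_mul_of_nonneg_right hτ1 hθ.le
  linarith

/-- the root is exact -/
theorem rootM_exact (hν0 : ∀ᵐ t ∂ν, 0 ≤ t) (hνi : Integrable (fun t : ℝ => t) ν)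
    {M : ℝ → ℝ} {θ b : ℝ} (hθ : 0 ≤ θ) (hc : ContinuousOn M (Set.Icc 0 b))
    (h0 : M 0 * lap ν (0 + θ) < 1) (hb : 0 ≤ b) (h1 : 1 ≤ M b * lap ν (b + θ)) :
    M (rootM ν M θ) * lap ν (rootM ν M θ + θ) = 1 := by
  have hF : ContinuousOn (fun β => M β * lap ν (β + θ)) (Set.Icc 0 b) := by
    apply hc.mul
    have h2 : ContinuousOn ((lap ν) ∘ (fun β : ℝ => β + θ)) (Set.Icc 0 b) := by
      refine (continuousOn_lap hν0 hνi).comp (by fun_prop) ?_
      intro β hβ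
      exact Set.mem_Ici.2 (by linarith [hβ.1])
    exact h2
  set S : Set ℝ := {β : ℝ | 0 ≤ β ∧ 1 ≤ M β * lap ν (β + θ)} with hS
  have hSb : b ∈ S := ⟨hb, h1⟩
  have hbd : BddBelow S := ⟨0, fun _ h => h.1⟩
  set S' : Set ℝ := Set.Icc 0 b ∩ (fun β => M β * lap ν (β + θ)) ⁻¹' Set.Ici 1 with hS'
  have hcl : IsCompact S' := by
    have : IsClosed S' := hF.preimage_isClosed_of_isClosed isClosed_Icc isClosed_Ici
    exact isCompact_Icc.of_isClosed_subset this Set.inter_subset_left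
  have hS'b : b ∈ S' := ⟨⟨hb, le_rfl⟩, h1⟩
  have hmem : sInf S' ∈ S' := hcl.sInf_mem ⟨b, hS'b⟩
  have heq : rootM ν M θ = sInf S' := by
    apply le_antisymm
    · exact csInf_le hbd ⟨hmem.1.1, hmem.2⟩
    · apply le_csInf ⟨b, hSb⟩
      intro β hβ
      rcases le_total β b with h | h
      · exact csInf_le hcl.bddBelow ⟨⟨hβ.1, h⟩, hβ.2⟩
      · exact (csInf_le hcl.bddBelow hS'b).trans h
  rw [heq]
  set c := sInf S' with hc'
  have hge : 1 ≤ M c * lap ν (c + θ) := hmem.2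
  refine le_antisymm ?_ hge
  by_contra hcon
  push Not at hcon
  have hc0 : 0 ≤ c := hmem.1.1
  have hivt : Set.Icc (M 0 * lap ν (0 + θ)) (M c * lap ν (c + θ)) ⊆
      (fun β => M β * lap ν (β + θ)) '' Set.Icc 0 c :=
    intermediate_value_Icc hc0 (hF.mono (Set.Icc_subset_Icc le_rfl hmem.1.2))
  obtain ⟨d, hd, hd1⟩ := hivt ⟨h0.le, hcon.le⟩
  have hd1 : M d * lap ν (d + θ) = 1 := hd1
  have hdS : d ∈ S' := ⟨⟨hd.1, hd.2.trans hmem.1.2⟩, by
    change 1 ≤ M d * lap ν (d + θ)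
    rw [hd1]⟩
  have h3 : c ≤ d := csInf_le hcl.bddBelow hdS
  have h4 : d = c := le_antisymm hd.2 h3
  rw [h4] at hd1
  linarith

end Pool.Agent.Lib.MP_04add8_pr.U
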