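import Mathlib
import Pool.Agent.Lib.MP_04add8_pr.U.Root

open MeasureTheory ProbabilityTheory Filter Topology
open scoped ENNReal

set_option linter.unusedSectionVars false

namespace Pool.Agent.Lib.MP_04add8_pr.U

open BetaAux

variable {ν : Measure ℝ} [IsProbabilityMeasure ν]

/-- the derivative of the root -/
noncomputable def rootD (ν : Measure ℝ) (M M1 : ℝ → ℝ) (θ : ℝ) : ℝ :=
  M (rootM ν M θ) * lap1 ν (rootM ν M θ + θ) /
    (M1 (rootM ν M θ) * lap ν (rootM ν M θ + θ) - M (rootM ν M θ) * lap1 ν (rootM ν M θ + θ))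

/-- the slope in `β` -/
theorem MG.slope (hν0 : ∀ᵐ t ∂ν, 0 ≤ t) (hνi : Integrable (fun t : ℝ => t) ν) {E C : ℝ}
    (hgt : (∫ t, t ∂ν) < E) (hC : 0 ≤ C) :
    ∃ τ δ : ℝ, 0 < τ ∧ 0 < δ ∧ ∀ (M M1 : ℝ → ℝ) (r : ℝ), MG M M1 E τ C r → r ≤ δ →
      ∀ θ β β' : ℝ, 0 ≤ θ → θ ≤ δ → 0 ≤ β → β ≤ β' → β' ≤ r →
      (E - ∫ t, t ∂ν) / 2 * (β' - β) ≤ M β' * lap ν (β' + θ) - M β * lap ν (β + θ) := by
  set m := ∫ t, t ∂ν with hm
  have hm0 : 0 ≤ m := mean_nonneg hν0
  have hEm : 0 < E - m := by linarith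
  have hE0 : 0 < E := by linarith
  obtain ⟨D, hD⟩ : ∃ D, D = 2 * E * m + (E + C) * m + 1 := ⟨_, rfl⟩
  have hD0 : 0 < D := by rw [hD]; positivity
  obtain ⟨δ, hδ0, hδ1, hδ2, hδ3⟩ : ∃ δ : ℝ, 0 < δ ∧ δ ≤ 1 ∧ D * δ ≤ (E - m) / 4 ∧
      2 * m * δ ≤ 1 := by
    refine ⟨min 1 (min ((E - m) / (4 * D)) (1 / (2 * m + 1))), ?_, min_le_left _ _, ?_, ?_⟩
    · positivity
    · have h1 : D * min 1 (min ((E - m) / (4 * D)) (1 / (2 * m + 1))) ≤
          D * ((E - m) / (4 * D)) :=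
        mul_le_mul_of_nonneg_left ((min_le_right _ _).trans (min_le_left _ _)) hD0.le
      have h2 : D * ((E - m) / (4 * D)) = (E - m) / 4 := by field_simp
      linarith
    · have h1 : 2 * m * min 1 (min ((E - m) / (4 * D)) (1 / (2 * m + 1))) ≤
          2 * m * (1 / (2 * m + 1)) :=
        mul_le_mul_of_nonneg_left ((min_le_right _ _).trans (min_le_right _ _)) (by positivity)
      have h2 : 2 * m * (1 / (2 * m + 1)) ≤ 1 := by
        rw [mul_one_div, div_le_one (by positivity)]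
        linarith
      linarith
  refine ⟨(E - m) / 4, δ, by positivity, hδ0, ?_⟩
  intro M M1 r G hr θ β β' hθ0 hθ hβ hββ' hβ'
  have h1 := G.diff hβ hββ' hβ'
  have h2 := lap_sub_le hν0 hνi (q := β + θ) (q' := β' + θ) (by linarith) (by linarith)
  have h3 := G.le hβ (hββ'.trans hβ')
  have h4 := G.ge hβ (hββ'.trans hβ')
  have h5 := lap_ge hν0 hνi (q := β' + θ) (by linarith)
  have h7 := lap_nonneg (ν := ν) (β' + θ)
  rw [← hm] at h2 h5
  set P := M β
  set P' := M β'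
  set L := lap ν (β + θ)
  set L' := lap ν (β' + θ)
  have e : P' * L' - P * L = (P' - P) * L' - P * (L - L') := by ring
  rw [e]
  have hd : 0 ≤ β' - β := by linarith
  have hEτ : 0 ≤ E - (E - m) / 4 := by linarith
  have hP1 : 0 ≤ P := by
    have : 0 ≤ (E - (E - m) / 4) * β := mul_nonneg hEτ hβ
    linarith
  have g1 : ((E - (E - m) / 4) * (β' - β)) * (1 - m * (2 * δ)) ≤ (P' - P) * L' := by
    have q1 : 1 - m * (2 * δ) ≤ L' := by
      have : m * (β' + θ) ≤ m * (2 * δ) := mul_le_mul_of_nonneg_left (by linarith) hm0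
      linarith
    calc ((E - (E - m) / 4) * (β' - β)) * (1 - m * (2 * δ)) ≤
          ((E - (E - m) / 4) * (β' - β)) * L' :=
          mul_le_mul_of_nonneg_left q1 (mul_nonneg hEτ hd)
      _ ≤ (P' - P) * L' := mul_le_mul_of_nonneg_right h1 h7
  have g2 : P * (L - L') ≤ (1 + (E + C) * δ) * (m * (β' - β)) := by
    have q1 : L - L' ≤ m * (β' - β) := by
      have : β' + θ - (β + θ) = β' - β := by ring
      rwa [this] at h2
    have q2 : P ≤ 1 + (E + C) * δ := by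
      have hβδ : β ≤ δ := by linarith
      have h8 : E * β ≤ E * δ := mul_le_mul_of_nonneg_left hβδ hE0.le
      have h9 : C * β ^ 2 ≤ C * δ := by
        apply mul_le_mul_of_nonneg_left _ hC
        calc β ^ 2 = β * β := sq β
          _ ≤ 1 * δ := mul_le_mul (by linarith) hβδ hβ zero_le_one
          _ = δ := one_mul δ
      linarith
    calc P * (L - L') ≤ P * (m * (β' - β)) := mul_le_mul_of_nonneg_left q1 hP1
      _ ≤ _ := mul_le_mul_of_nonneg_right q2 (by positivity)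
  have g3 : ((E - (E - m) / 4) * (β' - β)) * (1 - m * (2 * δ)) -
      (1 + (E + C) * δ) * (m * (β' - β)) =
      (3 / 4 * (E - m) - (2 * (E - (E - m) / 4) * m + (E + C) * m) * δ) * (β' - β) := by ring
  have g4 : (E - m) / 2 ≤ 3 / 4 * (E - m) - (2 * (E - (E - m) / 4) * m + (E + C) * m) * δ := by
    have : (2 * (E - (E - m) / 4) * m + (E + C) * m) * δ ≤ D * δ := by
      apply mul_le_mul_of_nonneg_right _ hδ0.le
      rw [hD]
      have : 0 ≤ (E - m) / 4 * m := by positivity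
      linarith
    linarith
  have g5 : (E - m) / 2 * (β' - β) ≤
      (3 / 4 * (E - m) - (2 * (E - (E - m) / 4) * m + (E + C) * m) * δ) * (β' - β) :=
    mul_le_mul_of_nonneg_right g4 hd
  linarith

set_option maxHeartbeats 1000000 in
/-- **the root to second order**, uniformly in the moment generating function -/
theorem rootM_expand (hν0 : ∀ᵐ t ∂ν, 0 ≤ t) (hνi : Integrable (fun t : ℝ => t) ν) {E C : ℝ}
    (hgt : (∫ t, t ∂ν) < E) (hlt : E < 2 * ∫ t, t ∂ν) (hC : 0 ≤ C) {ω : ℝ} (hω : 0 < ω) :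
    ∃ τ δ : ℝ, 0 < τ ∧ 0 < δ ∧ ∀ (M M1 : ℝ → ℝ) (r : ℝ), MG M M1 E τ C r → r ≤ δ →
      ∀ θ, 0 < θ → θ ≤ δ → 2 * ((∫ t, t ∂ν) / (E - ∫ t, t ∂ν) + 2) * θ ≤ r →
        M (rootM ν M θ) * lap ν (rootM ν M θ + θ) = 1 ∧
        |rootM ν M θ - (∫ t, t ∂ν) / (E - ∫ t, t ∂ν) * θ| ≤ ω * θ ∧
        (∀ β β' : ℝ, 0 ≤ β → β ≤ β' → β' ≤ r →
          (E - ∫ t, t ∂ν) / 2 * (β' - β) ≤ M β' * lap ν (β' + θ) - M β * lap ν (β + θ)) ∧
        ∀ u : ℝ, |u| ≤ θ / 2 →
          |rootM ν M (θ + u) - rootM ν M θ - rootD ν M M1 θ * u| ≤ ω / θ * u ^ 2 := by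
  set m := ∫ t, t ∂ν with hm
  have hm0 : 0 < m := by linarith
  have hEm : 0 < E - m := by linarith
  have hE0 : 0 < E := by linarith
  obtain ⟨ρ, hρ⟩ : ∃ ρ, ρ = m / (E - m) := ⟨_, rfl⟩
  have hρ1 : 1 < ρ := by rw [hρ, lt_div_iff₀ hEm]; linarith
  -- reduce to small `ω`
  obtain ⟨w, hw0, hw1, hw2⟩ : ∃ w : ℝ, 0 < w ∧ w ≤ ω ∧ w ≤ 1 / 8 :=
    ⟨min ω (1 / 8), by positivity, min_le_left _ _, min_le_right _ _⟩
  obtain ⟨τ1, δ1, hτ1, hδ1, hlim⟩ := rootM_lim hν0 hνi hgt hlt hw0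
  obtain ⟨τ2, δ2, hτ2, hδ2, hslope⟩ := MG.slope hν0 hνi (C := C) hgt hC
  rw [← hm, ← hρ] at hlim
  rw [← hm] at hslope
  rw [← hρ]
  -- the parameter `s`
  have hq : Tendsto (fun s : ℝ => (1 + s) * m / ((E - s) * (1 - s) - (1 + s) * m)) (𝓝 0)
      (𝓝 ((1 + 0) * m / ((E - 0) * (1 - 0) - (1 + 0) * m))) := by
    apply Tendsto.div
    · exact ((tendsto_id.const_add 1).mul_const m)
    · exact ((tendsto_id.const_sub E).mul (tendsto_id.const_sub 1)).sub
        ((tendsto_id.const_add 1).mul_const m)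
    · have : (E - 0) * (1 - 0) - (1 + 0) * m = E - m := by ring
      rw [this]
      exact hEm.ne'
  have hq2 : Tendsto (fun s : ℝ => (E - s) * (1 - s) - (1 + s) * m) (𝓝 0)
      (𝓝 ((E - 0) * (1 - 0) - (1 + 0) * m)) :=
    ((tendsto_id.const_sub E).mul (tendsto_id.const_sub 1)).sub
        ((tendsto_id.const_add 1).mul_const m)
  have hv1 : (1 + 0) * m / ((E - 0) * (1 - 0) - (1 + 0) * m) = ρ := by rw [hρ]; ring
  have hv2 : (E - 0) * (1 - 0) - (1 + 0) * m = E - m := by ring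
  rw [hv1] at hq
  rw [hv2] at hq2
  have hev := (hq.eventually (gt_mem_nhds (show ρ < ρ + 1 / 8 by linarith))).and
    (hq2.eventually (lt_mem_nhds (show (E - m) / 2 < E - m by linarith)))
  have hev2 : ∀ᶠ s in 𝓝[>] (0 : ℝ), _ := eventually_nhdsWithin_of_eventually_nhds hev
  have hsm : ∀ᶠ s in 𝓝[>] (0 : ℝ), s < 1 / 4 :=
    eventually_nhdsWithin_of_eventually_nhds (gt_mem_nhds (by norm_num))
  have hsE : ∀ᶠ s in 𝓝[>] (0 : ℝ), s < E :=
    eventually_nhdsWithin_of_eventually_nhds (gt_mem_nhds hE0)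
  obtain ⟨s, ⟨⟨⟨hs1, hs2⟩, hs3⟩, hs5⟩, hs4⟩ := (((hev2.and hsm).and hsE).and
    (self_mem_nhdsWithin : ∀ᶠ s in 𝓝[>] (0 : ℝ), s ∈ Set.Ioi (0 : ℝ))).exists
  have hs0 : 0 < s := hs4
  obtain ⟨A, hA⟩ : ∃ A, A = ρ + 1 / 4 := ⟨_, rfl⟩
  have hA0 : 0 < A := by linarith
  -- smallness of the second derivative
  have hid : Tendsto (fun θ : ℝ => θ) (𝓝[>] (0 : ℝ)) (𝓝 0) :=
    (continuous_id.tendsto 0).mono_left nhdsWithin_le_nhds
  obtain ⟨C2, hC2⟩ : ∃ C2, C2 = C * A ^ 2 + (E + 1 + C) * A * (m * (A + 1)) := ⟨_, rfl⟩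
  have hL2 : Tendsto (fun θ => θ * (2 * (A + 1) ^ 2 * lap2 ν (θ / 2) + C2)) (𝓝[>] 0) (𝓝 0) := by
    have h1 := (tendsto_lap2 hν0 hνi).comp (tendsto_mul_right_zero (r := 1 / 2) (by norm_num))
    have h2 := (h1.const_mul (4 * (A + 1) ^ 2)).add (hid.mul_const C2)
    simp only [mul_zero, zero_mul, add_zero] at h2
    refine h2.congr ?_
    intro θ
    simp only [Function.comp]
    have : 1 / 2 * θ = θ / 2 := by ring
    rw [this]
    ring
  have hpos : 0 < (E - m) / 4 * w := by positivity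
  obtain ⟨δ3, hδ3, hδ3'⟩ := (mem_nhdsGT_iff_exists_Ioo_subset).1
    (hL2.eventually (gt_mem_nhds hpos))
  have hδ3 : 0 < δ3 := hδ3
  -- the choice of `τ` and `δ`
  obtain ⟨τ, hτ0, hτa, hτb, hτc⟩ : ∃ τ : ℝ, 0 < τ ∧ τ ≤ τ1 ∧ τ ≤ τ2 ∧ τ ≤ s :=
    ⟨min τ1 (min τ2 s), by positivity, min_le_left _ _,
      (min_le_right _ _).trans (min_le_left _ _), (min_le_right _ _).trans (min_le_right _ _)⟩
  obtain ⟨δ, hδ0, hδa, hδb, hδc, hδd, hδe, hδf, hδg⟩ : ∃ δ : ℝ, 0 < δ ∧ 2 * δ ≤ δ1 ∧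
      2 * δ ≤ δ2 ∧ 2 * δ ≤ δ3 ∧ C * δ ≤ τ1 ∧ (E + C + 2 * m) * δ ≤ s ∧ 2 * C * δ ≤ 1 ∧
      δ ≤ 1 := by
    refine ⟨min (min (δ1 / 2) (min (δ2 / 2) (δ3 / 2))) (min (τ1 / (C + 1))
      (min (s / (E + C + 2 * m)) (min (1 / (2 * C + 1)) 1))), ?_, ?_, ?_, ?_, ?_, ?_, ?_, ?_⟩
    · positivity
    all_goals
      set δ := min (min (δ1 / 2) (min (δ2 / 2) (δ3 / 2))) (min (τ1 / (C + 1))
        (min (s / (E + C + 2 * m)) (min (1 / (2 * C + 1)) 1))) with hδ
      have hδ0 : 0 < δ := by positivity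
      have k1 : δ ≤ δ1 / 2 := (min_le_left _ _).trans (min_le_left _ _)
      have k2 : δ ≤ δ2 / 2 := (min_le_left _ _).trans ((min_le_right _ _).trans (min_le_left _ _))
      have k3 : δ ≤ δ3 / 2 :=
        (min_le_left _ _).trans ((min_le_right _ _).trans (min_le_right _ _))
      have k4 : δ ≤ τ1 / (C + 1) := (min_le_right _ _).trans (min_le_left _ _)
      have k5 : δ ≤ s / (E + C + 2 * m) :=
        (min_le_right _ _).trans ((min_le_right _ _).trans (min_le_left _ _))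
      have k6 : δ ≤ 1 / (2 * C + 1) := (min_le_right _ _).trans ((min_le_right _ _).trans
        ((min_le_right _ _).trans (min_le_left _ _)))
      have k7 : δ ≤ 1 := (min_le_right _ _).trans ((min_le_right _ _).trans
        ((min_le_right _ _).trans (min_le_right _ _)))
      rw [le_div_iff₀ (by positivity)] at k4 k5 k6
    · linarith
    · linarith
    · linarith
    · linarith
    · linarith
    · linarith
    · exact k7
  refine ⟨τ, δ, hτ0, hδ0, ?_⟩
  intro M M1 r G hr θ hθ hθδ hθr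
  have hr0 : 0 ≤ r := by
    refine le_trans ?_ hθr
    have : 0 < ρ := by linarith
    positivity
  -- the moment generating function to first order
  have hMl : ∀ β, 0 ≤ β → β ≤ r → 1 + (E - τ1) * β ≤ M β ∧ M β ≤ 1 + (E + τ1) * β := by
    intro β h0 h1
    have h2 := G.ge h0 h1
    have h3 := G.le h0 h1
    have h4 : (E - τ1) * β ≤ (E - τ) * β := mul_le_mul_of_nonneg_right (by linarith) h0
    have h5 : C * β ^ 2 ≤ τ1 * β := by
      calc C * β ^ 2 = (C * β) * β := by ring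
        _ ≤ (C * δ) * β := by
          have := mul_le_mul_of_nonneg_left (h1.trans hr) hC
          exact mul_le_mul_of_nonneg_right this h0
        _ ≤ τ1 * β := mul_le_mul_of_nonneg_right hδd h0
    constructor
    · linarith
    · linarith
  have hGs : MG M M1 E τ2 C r := ⟨G.zero, G.one, fun y h0 h1 => by
    have := G.low y h0 h1
    linarith, G.tay⟩
  have hsl : ∀ θ' : ℝ, 0 ≤ θ' → θ' ≤ 2 * δ → ∀ β β' : ℝ, 0 ≤ β → β ≤ β' → β' ≤ r →
      (E - m) / 2 * (β' - β) ≤ M β' * lap ν (β' + θ') - M β * lap ν (β + θ') :=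
    fun θ' h0 h1 β β' h2 h3 h4 => hslope M M1 r hGs (by linarith) θ' β β' h0 (by linarith) h2 h3 h4
  have hcont : ContinuousOn M (Set.Icc 0 r) := G.cont hC (by linarith)
  -- the root at `θ'`
  have hroot : ∀ θ' : ℝ, 0 < θ' → θ' ≤ 3 / 2 * θ →
      M (rootM ν M θ') * lap ν (rootM ν M θ' + θ') = 1 ∧
      (ρ - w) * θ' ≤ rootM ν M θ' ∧ rootM ν M θ' ≤ (ρ + w) * θ' ∧ rootM ν M θ' ≤ r := by
    intro θ' h0 h1
    have h2 : (ρ + w) * θ' ≤ r := by
      refine le_trans ?_ hθr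
      have h3 : (ρ + w) * θ' ≤ (ρ + w) * (3 / 2 * θ) :=
        mul_le_mul_of_nonneg_left h1 (by linarith)
      nlinarith
    obtain ⟨a1, a2, a3⟩ := hlim M r hMl θ' h0 (by linarith) h2
    refine ⟨?_, a2, a3, a3.trans h2⟩
    refine rootM_exact hν0 hνi h0.le (b := (ρ + w) * θ')
      (hcont.mono (Set.Icc_subset_Icc le_rfl h2)) ?_ ?_ a1
    · -- `M 0 lap θ' < 1`
      have h5 := hsl θ' h0.le (by linarith) 0 (rootM ν M θ') le_rfl (rootM_nonneg M θ')
        (a3.trans h2)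
      rw [G.zero, one_mul, zero_add]
      have h6 : lap ν θ' ≤ 1 := lap_le_one hν0 h0.le
      rcases h6.lt_or_eq with h7 | h7
      · exact h7
      · exfalso
        -- then `0` is a root, against `a2`
        have h8 : rootM ν M θ' ≤ 0 := rootM_le le_rfl (by rw [G.zero, one_mul, zero_add, h7])
        have h9 : 0 < (ρ - w) * θ' := mul_pos (by linarith) h0
        linarith
    · have : 0 ≤ ρ + w := by linarith
      positivity
  obtain ⟨g1, g8, g9, g10⟩ := hroot θ hθ (by linarith)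
  refine ⟨g1, ?_, hsl θ hθ.le (by linarith), ?_⟩
  · rw [abs_le]
    have : w * θ ≤ ω * θ := mul_le_mul_of_nonneg_right hw1 hθ.le
    constructor <;> linarith
  intro u hu
  rcases eq_or_ne u 0 with rfl | hu0
  · simp
  have hu2 : 0 < u ^ 2 := by positivity
  have hu' := abs_le.1 hu
  obtain ⟨a4, a5, a6, a7⟩ := hroot (θ + u) (by linarith) (by linarith)
  have hr1 := rootM_nonneg (ν := ν) M θ
  have hrδ : rootM ν M θ ≤ δ := g10.trans hr
  have hP1 : M1 (rootM ν M θ) ≤ E + 1 := by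
    have h1 := G.one_le hC hr1 g10
    have h2 : 2 * C * rootM ν M θ ≤ 2 * C * δ := mul_le_mul_of_nonneg_left hrδ (by positivity)
    linarith
  have hP1' : E - s ≤ M1 (rootM ν M θ) := by
    have := G.low _ hr1 g10
    linarith
  have hPge : 1 ≤ M (rootM ν M θ) := by
    have h1 := G.ge hr1 g10
    have : 0 ≤ (E - τ) * rootM ν M θ := mul_nonneg (by linarith) hr1
    linarith
  have hPle : M (rootM ν M θ) ≤ 1 + s := by
    have h1 := G.le hr1 g10
    have h2 : E * rootM ν M θ ≤ E * δ := mul_le_mul_of_nonneg_left hrδ hE0.le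
    have h3 : C * rootM ν M θ ^ 2 ≤ C * δ := by
      apply mul_le_mul_of_nonneg_left _ hC
      calc rootM ν M θ ^ 2 = rootM ν M θ * rootM ν M θ := sq _
        _ ≤ 1 * δ := mul_le_mul (by linarith) hrδ hr1 zero_le_one
        _ = δ := one_mul δ
    have h4 : 0 ≤ 2 * m * δ := by positivity
    linarith
  have hL1le := lap1_le hν0 hνi (q := rootM ν M θ + θ) (by linarith)
  have hL1nn := lap1_nonneg hν0 (rootM ν M θ + θ)
  have hLle := lap_le_one hν0 (q := rootM ν M θ + θ) (by linarith)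
  have hLnn := lap_nonneg (ν := ν) (rootM ν M θ + θ)
  have hLge : 1 - s ≤ lap ν (rootM ν M θ + θ) := by
    have h1 := lap_ge hν0 hνi (q := rootM ν M θ + θ) (by linarith)
    rw [← hm] at h1
    have h2 : m * (rootM ν M θ + θ) ≤ m * (δ + δ) :=
      mul_le_mul_of_nonneg_left (by linarith) hm0.le
    have h3 : 0 ≤ (E + C) * δ := by positivity
    linarith
  rw [← hm] at hL1le
  obtain ⟨D, hDdef⟩ : ∃ D, D = M1 (rootM ν M θ) * lap ν (rootM ν M θ + θ) -
    M (rootM ν M θ) * lap1 ν (rootM ν M θ + θ) := ⟨_, rfl⟩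
  have hDge : (E - s) * (1 - s) - (1 + s) * m ≤ D := by
    rw [hDdef]
    have h1 : (E - s) * (1 - s) ≤ M1 (rootM ν M θ) * lap ν (rootM ν M θ + θ) :=
      mul_le_mul hP1' hLge (by linarith) (by linarith)
    have h2 : M (rootM ν M θ) * lap1 ν (rootM ν M θ + θ) ≤ (1 + s) * m :=
      mul_le_mul hPle hL1le hL1nn (by linarith)
    linarith
  have g4 : (E - m) / 2 ≤ D := by linarith
  have hD0 : 0 < D := by linarith
  obtain ⟨Bb, hBdef⟩ : ∃ Bb, Bb = rootD ν M M1 θ := ⟨_, rfl⟩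
  have hBeq : Bb = M (rootM ν M θ) * lap1 ν (rootM ν M θ + θ) / D := by
    rw [hBdef, hDdef]
    rfl
  have hDB : D * Bb = M (rootM ν M θ) * lap1 ν (rootM ν M θ + θ) := by
    rw [hBeq]
    field_simp
  have g5 : 0 ≤ Bb := by
    rw [hBeq]
    exact div_nonneg (mul_nonneg (by linarith) hL1nn) hD0.le
  have g6 : Bb ≤ ρ + 1 / 8 := by
    refine le_trans ?_ hs1.le
    rw [hBeq]
    apply div_le_div₀ (by positivity) _ (by linarith) hDge
    exact mul_le_mul hPle hL1le hL1nn (by linarith)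
  rw [← hBdef]
  set β := rootM ν M θ with hβ
  set P := M β with hP
  set P1 := M1 β with hP1d
  set L := lap ν (β + θ) with hL
  set L1 := lap1 ν (β + θ) with hL1
  -- the core estimate
  have hcore : ∀ σ : ℝ, |σ| = w / θ * u ^ 2 → 0 ≤ β + (Bb * u + σ) ∧ β + (Bb * u + σ) ≤ r ∧
      |M (β + (Bb * u + σ)) * lap ν (β + (Bb * u + σ) + (θ + u)) - 1 - D * σ| ≤
        (E - m) / 4 * (w / θ * u ^ 2) := by
    intro σ hσ
    set v := Bb * u + σ with hv
    have hu0' : 0 ≤ |u| := abs_nonneg u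
    have hsb : |σ| ≤ 1 / 8 * |u| := by
      rw [hσ]
      have : u ^ 2 = |u| * |u| := by rw [← abs_mul, ← sq, abs_of_nonneg (sq_nonneg u)]
      rw [this]
      have h1 : w / θ * (|u| * |u|) = (w / θ * |u|) * |u| := by ring
      rw [h1]
      apply mul_le_mul_of_nonneg_right _ hu0'
      calc w / θ * |u| ≤ w / θ * (θ / 2) := mul_le_mul_of_nonneg_left hu (by positivity)
        _ = w / 2 := by field_simp
        _ ≤ 1 / 8 := by linarith
    have hvb : |v| ≤ A * |u| := by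
      calc |v| ≤ |Bb * u| + |σ| := abs_add_le _ _
        _ = Bb * |u| + |σ| := by rw [abs_mul, abs_of_nonneg g5]
        _ ≤ (ρ + 1 / 8) * |u| + 1 / 8 * |u| := by
            have := mul_le_mul_of_nonneg_right g6 hu0'
            linarith only [this, hsb]
        _ = A * |u| := by rw [hA]; ring
    have hwb : |u + v| ≤ (A + 1) * |u| := by
      have := abs_add_le u v
      linarith only [this, hvb]
    have hAu : A * |u| ≤ A * (θ / 2) := mul_le_mul_of_nonneg_left hu hA0.le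
    have hv1 : 0 ≤ β + v := by
      have h1 := (abs_le.1 hvb).1
      have h6 : 0 ≤ (ρ - w) * θ - A * (θ / 2) := by
        have h7 : (ρ - w) * θ - A * (θ / 2) = (ρ / 2 - w - 1 / 8) * θ := by rw [hA]; ring
        rw [h7]
        apply mul_nonneg _ hθ.le
        linarith only [hρ1, hw2]
      linarith only [h1, h6, g8, hAu]
    have hv2 : β + v ≤ r := by
      have h1 := (abs_le.1 hvb).2
      have h6 : (ρ + w) * θ + A * (θ / 2) ≤ 2 * (ρ + 2) * θ := by
        rw [hA]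
        have h7 : 2 * (ρ + 2) * θ - ((ρ + w) * θ + (ρ + 1 / 4) * (θ / 2)) =
          (ρ / 2 + 4 - w - 1 / 8) * θ := by ring
        have h8 : 0 ≤ (ρ / 2 + 4 - w - 1 / 8) * θ := by
          apply mul_nonneg _ hθ.le
          linarith only [hρ1, hw2]
        linarith only [h7, h8]
      linarith only [h1, h6, hAu, g9, hθr]
    refine ⟨hv1, hv2, ?_⟩
    -- Taylor expansions
    obtain ⟨t1, t2⟩ := G.tay (β + v) β hv1 hv2 hr1 g10
    have t3 := lap_taylor hν0 hνi (c := θ / 2) (q := β + θ) (w := u + v) (by linarith only [hθ])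
      (by linarith only [hθ, hr1]) (by linarith only [hv1, hu'.1])
    have eq1 : β + θ + (u + v) = β + v + (θ + u) := by ring
    rw [eq1] at t3
    have eq2 : β + v - β = v := by ring
    rw [eq2] at t1 t2
    have hv1' : |v| ≤ 1 := by
      rw [abs_le]
      constructor
      · linarith only [hv1, hrδ, hδg]
      · linarith only [hv2, hr, hδg, hr1]
    have hLip := lipschitz_lap hν0 hνi (q := β + v + (θ + u)) (q' := β + θ)
      (by linarith only [hv1, hu'.1, hθ]) (by linarith only [hθ, hr1])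
    have eq3 : β + v + (θ + u) - (β + θ) = u + v := by ring
    rw [eq3, ← hm] at hLip
    set P' := M (β + v) with hP'
    set L' := lap ν (β + v + (θ + u)) with hL'
    set M2 := lap2 ν (θ / 2) with hM2
    have hM0 : 0 ≤ M2 := lap2_nonneg _
    set e1 := P' - P - P1 * v with he1
    set e2 := L' - L + (u + v) * L1 with he2
    have hexp : P' * L' - 1 - D * σ = P * e2 + e1 * L + (P' - P) * (L' - L) := by
      have hPL : P * L = 1 := g1
      have h1 : D * σ = D * v - D * Bb * u := by rw [hv]; ring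
      rw [h1, hDB, hDdef, he1, he2]
      linear_combination hPL
    rw [hexp]
    have hu2' : |u| * |u| = u ^ 2 := by rw [← abs_mul, ← sq, abs_of_nonneg (sq_nonneg u)]
    have hw2' : (u + v) ^ 2 ≤ (A + 1) ^ 2 * u ^ 2 := by
      calc (u + v) ^ 2 = |u + v| ^ 2 := (sq_abs _).symm
        _ ≤ ((A + 1) * |u|) ^ 2 := by gcongr
        _ = _ := by rw [mul_pow, sq_abs]
    have hv22 : v ^ 2 ≤ A ^ 2 * u ^ 2 := by
      calc v ^ 2 = |v| ^ 2 := (sq_abs _).symm
        _ ≤ (A * |u|) ^ 2 := by gcongr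
        _ = _ := by rw [mul_pow, sq_abs]
    have b1 : |P * e2| ≤ 2 * ((A + 1) ^ 2 * u ^ 2 * M2) := by
      rw [abs_mul, abs_of_nonneg (by linarith only [hPge] : 0 ≤ P)]
      calc P * |e2| ≤ 2 * ((u + v) ^ 2 * M2) :=
            mul_le_mul (by linarith only [hPle, hs3]) t3 (abs_nonneg _) (by norm_num)
        _ ≤ 2 * ((A + 1) ^ 2 * u ^ 2 * M2) := by gcongr
    have b2 : |e1 * L| ≤ C * (A ^ 2 * u ^ 2) := by
      rw [abs_mul, abs_of_nonneg t1, abs_of_nonneg hLnn]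
      calc e1 * L ≤ e1 * 1 := mul_le_mul_of_nonneg_left hLle t1
        _ = e1 := mul_one _
        _ ≤ C * v ^ 2 := t2
        _ ≤ _ := by gcongr
    have b3 : |P' - P| ≤ (E + 1 + C) * (A * |u|) := by
      have h1 : P' - P = P1 * v + e1 := by rw [he1]; ring
      have h2 : C * v ^ 2 ≤ C * |v| := by
        apply mul_le_mul_of_nonneg_left _ hC
        rw [← sq_abs]
        nlinarith only [abs_nonneg v, hv1']
      have h3 : 0 ≤ P1 := by linarith only [hP1', hs5]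
      calc |P' - P| ≤ |P1 * v| + |e1| := by rw [h1]; exact abs_add_le _ _
        _ = P1 * |v| + e1 := by rw [abs_mul, abs_of_nonneg h3, abs_of_nonneg t1]
        _ ≤ (E + 1) * |v| + C * |v| := by
            have := mul_le_mul_of_nonneg_right hP1 (abs_nonneg v)
            linarith only [this, h2, t2]
        _ = (E + 1 + C) * |v| := by ring
        _ ≤ _ := by gcongr
    have b4 : |L' - L| ≤ m * ((A + 1) * |u|) :=
      hLip.trans (mul_le_mul_of_nonneg_left hwb hm0.le)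
    have b5 : |(P' - P) * (L' - L)| ≤ (E + 1 + C) * A * (m * (A + 1)) * u ^ 2 := by
      rw [abs_mul]
      calc |P' - P| * |L' - L| ≤ ((E + 1 + C) * (A * |u|)) * (m * ((A + 1) * |u|)) :=
            mul_le_mul b3 b4 (abs_nonneg _) (by positivity)
        _ = (E + 1 + C) * A * (m * (A + 1)) * (|u| * |u|) := by ring
        _ = _ := by rw [hu2']
    have b6 : |P * e2 + e1 * L + (P' - P) * (L' - L)| ≤
        (2 * (A + 1) ^ 2 * M2 + C2) * u ^ 2 := by
      calc |P * e2 + e1 * L + (P' - P) * (L' - L)|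
          ≤ |P * e2| + |e1 * L| + |(P' - P) * (L' - L)| := abs_add_three _ _ _
        _ ≤ 2 * ((A + 1) ^ 2 * u ^ 2 * M2) + C * (A ^ 2 * u ^ 2) +
            (E + 1 + C) * A * (m * (A + 1)) * u ^ 2 := by linarith only [b1, b2, b5]
        _ = _ := by rw [hC2]; ring
    refine b6.trans ?_
    have g3 : θ * (2 * (A + 1) ^ 2 * M2 + C2) < (E - m) / 4 * w :=
      hδ3' (⟨hθ, by linarith only [hθδ, hδc, hδ0]⟩ : θ ∈ Set.Ioo 0 δ3)
    have b7 : 2 * (A + 1) ^ 2 * M2 + C2 ≤ (E - m) / 4 * w / θ := by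
      rw [le_div_iff₀ hθ]
      linarith only [g3]
    calc (2 * (A + 1) ^ 2 * M2 + C2) * u ^ 2
        ≤ (E - m) / 4 * w / θ * u ^ 2 := mul_le_mul_of_nonneg_right b7 (sq_nonneg u)
      _ = _ := by ring
  set σ := w / θ * u ^ 2 with hσ
  have hσ0 : 0 < σ := by positivity
  have hσle : σ ≤ ω / θ * u ^ 2 := by
    rw [hσ]
    gcongr
  obtain ⟨p1, p2, p3⟩ := hcore σ (abs_of_pos hσ0)
  obtain ⟨m1, m2, m3⟩ := hcore (-σ) (by rw [abs_neg, abs_of_pos hσ0])
  have hDσ : (E - m) / 2 * σ ≤ D * σ := mul_le_mul_of_nonneg_right g4 hσ0.le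
  have hEσ : 0 < (E - m) / 4 * σ := by positivity
  have up : rootM ν M (θ + u) ≤ β + (Bb * u + σ) := by
    apply rootM_le p1
    have := (abs_le.1 p3).1
    linarith
  have low : β + (Bb * u + -σ) ≤ rootM ν M (θ + u) := by
    by_contra hcon
    push Not at hcon
    have hF := hsl (θ + u) (by linarith) (by linarith) _ _ (rootM_nonneg M (θ + u)) hcon.le m2
    rw [a4] at hF
    have h4 : 0 ≤ (E - m) / 2 * (β + (Bb * u + -σ) - rootM ν M (θ + u)) := by
      apply mul_nonneg (by linarith) (by linarith)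
    have h5 := (abs_le.1 m3).2
    linarith
  rw [abs_le]
  constructor <;> linarith

end Pool.Agent.Lib.MP_04add8_pr.U
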