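import Mathlib
import Pool.Agent.Lib.MP_04add8_pr.Cv.Beta
import Pool.Agent.Lib.MP_04add8_pr.Cv.Near
import Pool.Agent.Lib.MP_04add8_pr.Cv.OptA
import Pool.Agent.Lib.MP_04add8_pr.Cv.SLvl

open MeasureTheory ProbabilityTheory Filter Topology
open scoped ENNReal

set_option linter.unusedSectionVars false

namespace Pool.Agent.Lib.MP_04add8_pr.U

open Pool.Agent.Lib.MP_04add8_pr.Gen Pool.Agent.Lib.MP_04add8_pr.Cv

variable {h h' : ℝ → ℝ} {μ ν : Measure ℝ} [IsProbabilityMeasure μ]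
  [IsProbabilityMeasure ν]

/-- `β x` is the slope used at the level `x`: an almost exact root of the tilted walk with jobs of
size at most `B x`, with the first and second order behaviour of the Cramer root, for tilts of
order at most `h x / x` -/
structure Slp (μ ν : Measure ℝ) [IsProbabilityMeasure μ] [IsProbabilityMeasure ν]
    (h : ℝ → ℝ) (B : ℝ → ℝ) (β β1 : ℝ → ℝ → ℝ) : Prop where
  nn : ∀ x θ : ℝ, 0 ≤ β x θ
  lim : ∀ M ω : ℝ, 0 < ω → ∀ᶠ x : ℝ in atTop, ∀ θ : ℝ, 0 < θ → θ ≤ M * (h x / x) →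
    |β x θ - (eta μ ν - 1) * θ| ≤ ω * θ
  expn : ∀ M ω : ℝ, 0 < ω → ∀ᶠ x : ℝ in atTop, ∀ θ : ℝ, 0 < θ → θ ≤ M * (h x / x) →
    ∀ u : ℝ, |u| ≤ θ / 2 → |β x (θ + u) - β x θ - β1 x θ * u| ≤ ω / θ * u ^ 2
  phi : ∀ M ω : ℝ, 0 < ω → ∀ᶠ x : ℝ in atTop, ∀ θ : ℝ, 0 < θ → θ ≤ M * (h x / x) →
    trPhi μ ν (B x) (β x θ) θ ≤ ENNReal.ofReal (1 + ω / x)
  phil : ∀ M ω : ℝ, 0 < ω → ∀ᶠ x : ℝ in atTop, ∀ θ : ℝ, 0 < θ → θ ≤ M * (h x / x) →
    ENNReal.ofReal (1 - ω / x) ≤ trPhi μ ν (B x) (β x θ) θ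

private lemma Slp_convex (H : HazC h h') : ConvexOn ℝ (Set.Ioi 0) (hG h) := by
  refine ⟨convex_Ioi 0, fun x hx y hy p q hp hq hpq => ?_⟩
  have hx' : (0 : ℝ) < x := hx
  have hy' : (0 : ℝ) < y := hy
  refine csSup_le ⟨h 0 - (p • x + q • y) * 0, 0, Set.mem_Ici.2 le_rfl, rfl⟩ ?_
  rintro _ ⟨z, hz, rfl⟩
  have hz' : (0 : ℝ) ≤ z := hz
  change h z - (p • x + q • y) * z ≤ p • hG h x + q • hG h y
  simp only [smul_eq_mul]
  have h1 := mul_le_mul_of_nonneg_left (le_hG H hx' hz') hp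
  have h2 := mul_le_mul_of_nonneg_left (le_hG H hy' hz') hq
  have h3 : h z = p * h z + q * h z := by rw [← add_mul, hpq, one_mul]
  nlinarith

private lemma Slp_cont (H : HazC h h') : ContinuousOn (hG h) (Set.Ioi 0) :=
  (Slp_convex H).continuousOn isOpen_Ioi

/-- the expansion gives the derivative -/
private lemma Slp_der {β β1 : ℝ → ℝ} {ω θ0 : ℝ} (hω : 0 < ω)
    (hexp : ∀ θ, 0 < θ → θ ≤ θ0 → ∀ u : ℝ, |u| ≤ θ / 2 →
      |β (θ + u) - β θ - β1 θ * u| ≤ ω / θ * u ^ 2) :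
    ∀ θ, 0 < θ → θ ≤ θ0 → HasDerivAt β (β1 θ) θ := by
  intro θ h0 h1
  rw [hasDerivAt_iff_isLittleO_nhds_zero]
  rw [Asymptotics.isLittleO_iff]
  intro c hc
  have : ∀ᶠ u : ℝ in 𝓝 0, |u| < min (θ / 2) (c * θ / ω) := by
    have := Metric.ball_mem_nhds (0 : ℝ) (lt_min (by linarith) (by positivity) :
      0 < min (θ / 2) (c * θ / ω))
    filter_upwards [this] with u hu
    simpa [Real.dist_eq] using hu
  filter_upwards [this] with u hu
  have hu1 : |u| ≤ θ / 2 := (hu.le.trans (min_le_left _ _))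
  have hu2 : |u| ≤ c * θ / ω := (hu.le.trans (min_le_right _ _))
  have h3 := hexp θ h0 h1 u hu1
  rw [Real.norm_eq_abs, Real.norm_eq_abs]
  have e : β (θ + u) - β θ - u • β1 θ = β (θ + u) - β θ - β1 θ * u := by
    rw [smul_eq_mul, mul_comm]
  rw [e]
  refine h3.trans ?_
  have h4 : ω / θ * u ^ 2 = (ω / θ * |u|) * |u| := by
    rw [mul_assoc, ← pow_two, sq_abs]
  rw [h4]
  apply mul_le_mul_of_nonneg_right _ (abs_nonneg u)
  calc ω / θ * |u| ≤ ω / θ * (c * θ / ω) := by gcongr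
    _ = c := by field_simp

/-- the derivative of `β` tends to `η - 1` -/
private lemma Slp_beta1 {η : ℝ} {β β1 : ℝ → ℝ} {τ d : ℝ} (hτ : 0 < τ)
    (hb : ∀ θ, 0 < θ → θ ≤ 2 * d → |β θ - (η - 1) * θ| ≤ τ / 10 * θ)
    (hexp : ∀ θ, 0 < θ → θ ≤ 2 * d → ∀ u : ℝ, |u| ≤ θ / 2 →
      |β (θ + u) - β θ - β1 θ * u| ≤ τ / 10 / θ * u ^ 2) :
    ∀ θ, 0 < θ → θ ≤ d → |β1 θ - (η - 1)| ≤ τ ∧
      |β θ - (η - 1) * θ| ≤ τ * θ := by
  intro θ h0 h2
  have b1 := abs_le.1 (hb θ h0 (by linarith))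
  have b2 := abs_le.1 (hb (θ + θ / 2) (by linarith) (by linarith))
  have b3 := abs_le.1 (hexp θ h0 (by linarith) (θ / 2) (by rw [abs_of_pos (by linarith)]))
  have e : τ / 10 / θ * (θ / 2) ^ 2 = τ / 40 * θ := by
    field_simp
    ring
  rw [e] at b3
  constructor
  · rw [abs_le]
    constructor
    · by_contra hcon
      push Not at hcon
      have h5 : (β1 θ - (η - 1)) * θ < -τ * θ := mul_lt_mul_of_pos_right hcon h0
      nlinarith [b1.1, b1.2, b2.1, b2.2, b3.1, b3.2]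
    · by_contra hcon
      push Not at hcon
      have h5 : τ * θ < (β1 θ - (η - 1)) * θ := mul_lt_mul_of_pos_right hcon h0
      nlinarith [b1.1, b1.2, b2.1, b2.2, b3.1, b3.2]
  · rw [abs_le]
    have h6 : 0 < τ * θ := by positivity
    constructor <;> nlinarith [b1.1, b1.2]

/-- first-order condition -/
private lemma Slp_dual (H : HazC h h') {x θ b : ℝ} (hθ : 0 < θ) {β : ℝ → ℝ}
    (hd : HasDerivAt β b θ)
    (hmin : ∀ θ' : ℝ, 0 < θ' → hG h θ + x * (θ + β θ) ≤ hG h θ' + x * (θ' + β θ'))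
    (hX : 0 < x * (1 + b)) : h' (x * (1 + b)) = θ := by
  refine hG_dual H hθ hX fun θ' hθ' => ?_
  set g : ℝ → ℝ := fun t => (1 - t) * hG h θ + t * hG h θ' +
    x * ((θ + t * (θ' - θ)) + β (θ + t * (θ' - θ))) with hg
  have hg0 : HasDerivAt g ((0 - 1) * hG h θ + 1 * hG h θ' +
      x * ((0 + 1 * (θ' - θ)) + b * (0 + 1 * (θ' - θ)))) 0 := by
    have h1 : HasDerivAt (fun t : ℝ => (1 - t) * hG h θ) ((0 - 1) * hG h θ) 0 :=
      ((hasDerivAt_const (0 : ℝ) (1 : ℝ)).sub (hasDerivAt_id (0 : ℝ))).mul_const _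
    have h2 : HasDerivAt (fun t : ℝ => t * hG h θ') (1 * hG h θ') 0 :=
      (hasDerivAt_id (0 : ℝ)).mul_const _
    have h3 : HasDerivAt (fun t : ℝ => θ + t * (θ' - θ)) (0 + 1 * (θ' - θ)) 0 :=
      (hasDerivAt_const (0 : ℝ) θ).add ((hasDerivAt_id (0 : ℝ)).mul_const _)
    have h4 : HasDerivAt (fun t : ℝ => β (θ + t * (θ' - θ))) (b * (0 + 1 * (θ' - θ))) 0 := by
      have hd' : HasDerivAt β b (θ + 0 * (θ' - θ)) := by
        rw [zero_mul, add_zero]
        exact hd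
      exact hd'.comp (0 : ℝ) h3
    exact (h1.add h2).add ((h3.add h4).const_mul x)
  have h1 := hg0.tendsto_slope_zero_right
  have h2 : ∀ᶠ t : ℝ in 𝓝[>] 0, 0 ≤ t⁻¹ • (g (0 + t) - g 0) := by
    have h3 : ∀ᶠ t : ℝ in 𝓝[>] 0, t < 1 :=
      eventually_nhdsWithin_of_eventually_nhds (gt_mem_nhds one_pos)
    filter_upwards [h3, self_mem_nhdsWithin] with t ht1 ht0
    have ht0' : (0 : ℝ) < t := ht0
    rw [smul_eq_mul, zero_add]
    refine mul_nonneg (inv_pos.2 ht0').le (sub_nonneg.2 ?_)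
    have h4 : 0 < (1 - t) * θ + t * θ' :=
      add_pos (mul_pos (by linarith) hθ) (mul_pos ht0' hθ')
    have h5 : θ + t * (θ' - θ) = (1 - t) * θ + t * θ' := by ring
    have h6 := (Slp_convex H).2 (show θ ∈ Set.Ioi (0 : ℝ) from hθ)
      (show θ' ∈ Set.Ioi (0 : ℝ) from hθ') (show 0 ≤ 1 - t by linarith) ht0'.le (by ring)
    simp only [smul_eq_mul] at h6
    have h7 := hmin _ h4
    simp only [hg]
    rw [h5]
    have h8 : (1 - 0) * hG h θ + 0 * hG h θ' + x * ((1 - 0) * θ + 0 * θ' +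
        β (θ + 0 * (θ' - θ))) = hG h θ + x * (θ + β θ) := by
      simp
    have h9 : θ + 0 * (θ' - θ) = θ := by ring
    rw [h9]
    simp only [zero_mul, sub_zero, one_mul, add_zero]
    linarith
  have h3 := ge_of_tendsto h1 h2
  nlinarith

/-- **The optimal tilt** -/
theorem gopt (S : StdC μ ν h h') {B : ℝ → ℝ} {β β1 : ℝ → ℝ → ℝ} (P : Slp μ ν h B β β1)
    {ω : ℝ} (hω : 0 < ω) :
    ∀ᶠ x : ℝ in atTop, ∃ θ X : ℝ, 0 < θ ∧ 0 < X ∧ h' X = θ ∧
      |θ - h' (eta μ ν * x)| ≤ ω * h' (eta μ ν * x) ∧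
      |X - eta μ ν * x| ≤ ω * (eta μ ν * x) ∧
      hRate h (β x) x = hG h θ + x * (θ + β x θ) ∧
      |hRate h (β x) x - h (eta μ ν * x)| ≤ ω * (x * h' (eta μ ν * x)) ∧
      ∀ u : ℝ, |u| ≤ θ / 2 →
        -(h X) + (θ + u) * X - x * (θ + u + β x (θ + u)) ≤
          -(hRate h (β x) x) + ω / θ * x * u ^ 2 := by
  have H := S.haz
  obtain ⟨η, hηd⟩ : ∃ η, η = eta μ ν := ⟨_, rfl⟩
  have hη : 1 < η := by rw [hηd]; linarith [two_lt_eta S]
  have hη0 : 0 < η := by linarith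
  have hPlim := P.lim
  rw [← hηd] at hPlim ⊢
  -- choice of the parameters
  obtain ⟨w, hw0, hw1, hwX⟩ := H.deriv_near hω
  obtain ⟨C0, hC0, hdb⟩ := H.doubling
  obtain ⟨D2, hD2⟩ : ∃ D2 : ℝ, D2 = (2 : ℝ) ^ C0 := ⟨_, rfl⟩
  have hD20 : 0 < D2 := by rw [hD2]; positivity
  obtain ⟨c, hc, hdiff⟩ := H.diff_two
  obtain ⟨ε, hε0, hε1, hε2, hε3, hε4, hε5⟩ : ∃ ε : ℝ, 0 < ε ∧ ε ≤ η * w ∧ ε ≤ η * ω ∧
      ε ≤ 1 / 4 ∧ ε ≤ c * η / 4 ∧ ε ≤ ω / (3 + D2) := by
    refine ⟨min (η * w) (min (η * ω) (min (1 / 4) (min (c * η / 4) (ω / (3 + D2))))), ?_, ?_, ?_,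
      ?_,
      ?_, ?_⟩
    · exact lt_min (by positivity) (lt_min (by positivity) (lt_min (by norm_num)
        (lt_min (by positivity) (by positivity))))
    · exact min_le_left _ _
    · exact (min_le_right _ _).trans (min_le_left _ _)
    · exact (min_le_right _ _).trans ((min_le_right _ _).trans (min_le_left _ _))
    · exact (min_le_right _ _).trans ((min_le_right _ _).trans ((min_le_right _ _).trans
        (min_le_left _ _)))
    · exact (min_le_right _ _).trans ((min_le_right _ _).trans ((min_le_right _ _).trans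
        (min_le_right _ _)))
  filter_upwards [hPlim (8 * η) (ε / 10) (by positivity), P.expn (8 * η) (ε / 10) (by positivity),
    P.expn (8 * η) ω hω, eventually_gt_atTop (0 : ℝ), H.tendsto_h.eventually_gt_atTop 0]
    with x hlimx hexpx hexpω0 hx0 hhx
  obtain ⟨bt, hbt⟩ : ∃ bt, bt = β x := ⟨_, rfl⟩
  obtain ⟨bt1, hbt1⟩ : ∃ bt1, bt1 = β1 x := ⟨_, rfl⟩
  have hβ0 : ∀ θ, 0 ≤ bt θ := by rw [hbt]; exact P.nn x
  rw [← hbt] at hlimx ⊢
  rw [← hbt, ← hbt1] at hexpx hexpω0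
  obtain ⟨θ₂, hθ₂⟩ : ∃ θ₂, θ₂ = 4 * η * (h x / x) := ⟨_, rfl⟩
  have hq' : 0 < h x / x := by positivity
  have hθ₂0 : 0 < θ₂ := by rw [hθ₂]; positivity
  have hθ₂2 : 2 * θ₂ = 8 * η * (h x / x) := by rw [hθ₂]; ring
  rw [← hθ₂2] at hlimx hexpx hexpω0
  have hβ := Slp_beta1 hε0 hlimx hexpx
  have hexpω : ∀ θ, 0 < θ → θ ≤ θ₂ → ∀ u : ℝ, |u| ≤ θ / 2 →
      |bt (θ + u) - bt θ - bt1 θ * u| ≤ ω / θ * u ^ 2 :=
    fun θ h0 h1 => hexpω0 θ h0 (by linarith)
  have hder := Slp_der hω hexpω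
  set y := η * x with hy
  have hy0 : 0 < y := by positivity
  obtain ⟨q, hq⟩ : ∃ q, q = h' y := ⟨_, rfl⟩
  rw [← hq]
  have hq0 : 0 < q := by rw [hq]; exact H.pos y hy0
  have hxy : x ≤ y := by rw [hy]; exact le_mul_of_one_le_left hx0.le hη.le
  have hqx : q ≤ h x / x := by
    rw [hq, le_div_iff₀ hx0]
    have h1 := H.anti x y hx0 hxy
    have h2 := H.mul_deriv_le hx0
    nlinarith
  have hx3 : q ≤ θ₂ := by
    rw [hθ₂]
    nlinarith
  have hxθ₂ : x * θ₂ = 4 * (η * h x) := by rw [hθ₂]; field_simp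
  set Fn : ℝ → ℝ := fun θ => hG h θ + x * (θ + bt θ) with hFn
  have hyq : y * q = η * (x * q) := by rw [hy]; ring
  have hxq : 0 < x * q := mul_pos hx0 hq0
  -- upper bound at `q`
  have hF1 : Fn q ≤ h y + ε * (x * q) := by
    have h1 := abs_le.1 (hβ q hq0 hx3).2
    have h2 : hG h q = h y - q * y := by rw [hq]; exact hG_deriv H hy0
    simp only [hFn]
    rw [h2]
    have h3 := mul_le_mul_of_nonneg_left h1.2 hx0.le
    nlinarith
  -- lower bound below `θ₂`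
  have hF2 : ∀ θ, 0 < θ → θ ≤ θ₂ → h y - D2 * (ε * (x * q)) ≤ Fn θ := by
    intro θ hθ hθd
    have h1 := abs_le.1 (hβ θ hθ hθd).2
    obtain ⟨z, hz⟩ : ∃ z, z = (η - ε) * x := ⟨_, rfl⟩
    have hz1 : y / 2 ≤ z := by
      rw [hz, hy]
      nlinarith
    have hz0 : 0 < z := by linarith
    have hz2 : z ≤ y := by
      rw [hz, hy]
      nlinarith
    have h2 := le_hG H hθ hz0.le
    have h3 := H.upper_deriv hz0 hz2
    have h4 : h' z ≤ D2 * q := by
      have h5 : h' (y / 2) ≤ D2 * q := by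
        have h6 := hdb (y / 2) 2 (by positivity) (by norm_num)
        rwa [mul_div_cancel₀ y two_ne_zero, ← hD2, ← hq] at h6
      exact (H.anti _ _ (by positivity) hz1).trans h5
    have h5 : (y - z) * h' z ≤ ε * x * (D2 * q) := by
      have h6 : y - z = ε * x := by rw [hz, hy]; ring
      rw [h6]
      exact mul_le_mul_of_nonneg_left h4 (by positivity)
    have h6 := mul_le_mul_of_nonneg_left h1.1 hx0.le
    simp only [hFn]
    have h7 : θ * z = x * ((η - ε) * θ) := by rw [hz]; ring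
    have h8 : x * (θ + bt θ) = x * (bt θ - (η - 1) * θ) + (x * ((η - ε) * θ) -
      x * -(ε * θ)) := by ring
    have h9 : ε * x * (D2 * q) = D2 * (ε * (x * q)) := by ring
    linarith
  -- far to the right
  have hF3 : ∀ θ, θ₂ ≤ θ → Fn q < Fn θ := by
    intro θ hθ
    have hθ' : 0 < θ := by linarith
    have h1 := hG_nonneg H hθ'
    have h2 : x * θ₂ ≤ x * (θ + bt θ) :=
      mul_le_mul_of_nonneg_left (by linarith [hβ0 θ]) hx0.le
    have h3 : h y ≤ η * h x := by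
      rw [hy]
      exact H.mul_ge hη.le hx0.le
    have h4 : ε * (x * q) ≤ η * h x := by
      have h5 : x * q ≤ h x := by
        have := mul_le_mul_of_nonneg_left hqx hx0.le
        rwa [mul_div_cancel₀ _ hx0.ne'] at this
      have h6 : ε * (x * q) ≤ 1 / 4 * (x * q) := mul_le_mul_of_nonneg_right hε3 hxq.le
      nlinarith
    have h5 : 0 < η * h x := by positivity
    simp only [hFn] at hF1 ⊢
    linarith
  -- far to the left
  obtain ⟨c₂, hc₂0, hc₂1, hc₂2⟩ : ∃ c₂ : ℝ, 0 < c₂ ∧ c₂ ≤ c / 4 ∧ c₂ ≤ 1 / 2 :=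
    ⟨min (c / 4) (1 / 2), by positivity, min_le_left _ _, min_le_right _ _⟩
  have hF4 : ∀ θ, 0 < θ → θ ≤ c₂ * q → Fn q < Fn θ := by
    intro θ hθ hθq
    have h1 := le_hG H hθ (show 0 ≤ 2 * y by positivity)
    have h2 := hdiff y hy0
    rw [← hq] at h2
    have h3 : 0 ≤ x * (θ + bt θ) := mul_nonneg hx0.le (by linarith [hβ0 θ])
    have h4 : θ * (2 * y) ≤ c / 2 * (y * q) := by
      have h5 : θ * (2 * y) ≤ c₂ * q * (2 * y) := mul_le_mul_of_nonneg_right hθq (by positivity)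
      have h6 : c₂ * q * (2 * y) ≤ c / 4 * q * (2 * y) := by gcongr
      nlinarith
    have h5 : ε * (x * q) ≤ c / 4 * (y * q) := by
      have h6 : ε * (x * q) ≤ c * η / 4 * (x * q) := mul_le_mul_of_nonneg_right hε4 hxq.le
      rw [hyq]
      linarith
    have h6 : 0 < c * (y * q) := by positivity
    simp only [hFn] at hF1 ⊢
    nlinarith
  -- the minimum
  have hI : c₂ * q ≤ q ∧ q ≤ θ₂ := ⟨by nlinarith, hx3⟩
  have hIθ : ∀ θ ∈ Set.Icc (c₂ * q) θ₂, 0 < θ ∧ θ ≤ θ₂ := by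
    intro θ hθ
    exact ⟨lt_of_lt_of_le (by positivity) hθ.1, hθ.2⟩
  have hcont : ContinuousOn Fn (Set.Icc (c₂ * q) θ₂) := by
    refine ContinuousOn.add ((Slp_cont H).mono fun θ hθ => (hIθ θ hθ).1) ?_
    refine ContinuousOn.mul continuousOn_const (ContinuousOn.add continuousOn_id ?_)
    intro θ hθ
    exact (hder θ (hIθ θ hθ).1 (hIθ θ hθ).2).continuousAt.continuousWithinAt
  obtain ⟨θ, hθI, hθmin⟩ := isCompact_Icc.exists_isMinOn (Set.nonempty_Icc.2 (hI.1.trans hI.2))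
    hcont
  obtain ⟨hθpos, hθd⟩ := hIθ θ hθI
  have hle : Fn θ ≤ Fn q := hθmin hI
  have hglob : ∀ θ', 0 < θ' → Fn θ ≤ Fn θ' := by
    intro θ' h0
    by_cases hc : θ' ∈ Set.Icc (c₂ * q) θ₂
    · exact hθmin hc
    · rw [Set.mem_Icc, not_and_or, not_le, not_le] at hc
      rcases hc with hc | hc
      · exact hle.trans (hF4 θ' h0 hc.le).le
      · exact hle.trans (hF3 θ' hc.le).le
  have hrate : hRate h bt x = Fn θ := by
    have : IsLeast ((fun θ : ℝ => hG h θ + x * (θ + bt θ)) '' Set.Ioi 0) (Fn θ) := by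
      refine ⟨⟨θ, hθpos, rfl⟩, ?_⟩
      rintro _ ⟨θ', h', rfl⟩
      exact hglob θ' h'
    exact this.csInf_eq
  -- the maximiser
  obtain ⟨X, hX⟩ : ∃ X, X = x * (1 + bt1 θ) := ⟨_, rfl⟩
  have hb1 := (hβ θ hθpos hθd).1
  have hXy : |X - y| ≤ ε * x := by
    have h1 : X - y = x * (bt1 θ - (η - 1)) := by rw [hX, hy]; ring
    rw [h1, abs_mul, abs_of_pos hx0, mul_comm]
    exact mul_le_mul_of_nonneg_right hb1 hx0.le
  have hXw : |X - y| ≤ w * y := by
    refine hXy.trans ?_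
    have h1 : ε * x ≤ η * w * x := mul_le_mul_of_nonneg_right hε1 hx0.le
    rw [hy]
    linarith
  have hXω : |X - y| ≤ ω * y := by
    refine hXy.trans ?_
    have h1 : ε * x ≤ η * ω * x := mul_le_mul_of_nonneg_right hε2 hx0.le
    rw [hy]
    linarith
  have hXpos : 0 < X := by
    have h1 := (abs_le.1 hXw).1
    nlinarith
  have hXθ : h' X = θ := by
    rw [hX] at hXpos ⊢
    exact Slp_dual H hθpos (hder θ hθpos hθd) hglob hXpos
  have hGθ : hG h θ = h X - θ * X := by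
    rw [← hXθ]
    exact hG_deriv H hXpos
  refine ⟨θ, X, hθpos, hXpos, hXθ, ?_, hXω, hrate, ?_, ?_⟩
  · have h1 := hwX y X hy0 hXw
    rwa [hXθ, ← hq] at h1
  · rw [hrate, abs_le]
    have h1 := hF2 θ hθpos hθd
    have h2 : (3 + D2) * (ε * (x * q)) ≤ ω * (x * q) := by
      have h4 : (3 + D2) * ε ≤ ω := by
        rw [le_div_iff₀ (by positivity)] at hε5
        linarith
      calc (3 + D2) * (ε * (x * q)) = (3 + D2) * ε * (x * q) := by ring
        _ ≤ ω * (x * q) := mul_le_mul_of_nonneg_right h4 hxq.le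
    have h3 : 0 < ε * (x * q) := by positivity
    have h4 : 0 < D2 * (ε * (x * q)) := by positivity
    constructor <;> linarith
  · intro u hu
    rw [hrate]
    have h1 := hexpω θ hθpos hθd u hu
    have h2 := (abs_le.1 h1).1
    have h3 := mul_le_mul_of_nonneg_left h2 hx0.le
    simp only [hFn]
    rw [hGθ]
    have e : -(h X) + (θ + u) * X - x * (θ + u + bt (θ + u)) =
        -(h X - θ * X + x * (θ + bt θ)) +
          (u * (X - x) - x * (bt (θ + u) - bt θ)) := by ring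
    rw [e]
    have e2 : u * (X - x) - x * (bt (θ + u) - bt θ) =
        -(x * (bt (θ + u) - bt θ - bt1 θ * u)) := by rw [hX]; ring
    rw [e2]
    have e3 : x * -(ω / θ * u ^ 2) = -(ω / θ * x * u ^ 2) := by ring
    rw [e3] at h3
    linarith

end Pool.Agent.Lib.MP_04add8_pr.U
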