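import Mathlib
import Pool.Agent.Lib.MP_04add8_pr.U.RootE
import Pool.Agent.Lib.MP_04add8_pr.U.Slp
import Pool.Agent.Lib.MP_04add8_pr.One.Phi
import Pool.Agent.Lib.MP_04add8_pr.Upper

open MeasureTheory ProbabilityTheory Filter Topology
open scoped ENNReal

set_option linter.unusedSectionVars false

namespace Pool.Agent.Lib.MP_04add8_pr.U

open Pool.Agent.Lib.MP_04add8_pr.Gen Pool.Agent.Lib.MP_04add8_pr.Cv

variable {h h' : ℝ → ℝ} {μ ν : Measure ℝ} [IsProbabilityMeasure μ]
  [IsProbabilityMeasure ν]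

/-- moment generating function of `min s B` -/
noncomputable def mgB (μ : Measure ℝ) (B β : ℝ) : ℝ := ∫ s, Real.exp (β * min s B) ∂μ

/-- its derivative -/
noncomputable def mgB1 (μ : Measure ℝ) (B β : ℝ) : ℝ :=
  ∫ s, min s B * Real.exp (β * min s B) ∂μ

private lemma BetaTr_int (B β : ℝ) (hβ : 0 ≤ β) :
    Integrable (fun s : ℝ => Real.exp (β * min s B)) μ := by
  apply Integrable.mono' (integrable_const (Real.exp (β * B))) (by fun_prop)
  filter_upwards with s
  rw [Real.norm_eq_abs, Real.abs_exp]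
  exact Real.exp_le_exp.2 (mul_le_mul_of_nonneg_left (min_le_right _ _) hβ)

private lemma BetaTr_int1 (hnn : ∀ᵐ s ∂μ, 0 ≤ s) {B β : ℝ} (hB : 0 ≤ B) (hβ : 0 ≤ β) :
    Integrable (fun s : ℝ => min s B * Real.exp (β * min s B)) μ := by
  apply Integrable.mono' (integrable_const (B * Real.exp (β * B))) (by fun_prop)
  filter_upwards [hnn] with s hs
  have h1 : 0 ≤ min s B := le_min hs hB
  rw [Real.norm_eq_abs, abs_mul, Real.abs_exp, abs_of_nonneg h1]
  have h2 : min s B ≤ B := min_le_right _ _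
  gcongr

/-- second order Taylor remainder of the exponential -/
lemma exp_tay {a x y r : ℝ} (ha : 0 ≤ a) (hx : x ≤ r) (hy : y ≤ r) :
    0 ≤ Real.exp (x * a) - Real.exp (y * a) - a * Real.exp (y * a) * (x - y) ∧
    Real.exp (x * a) - Real.exp (y * a) - a * Real.exp (y * a) * (x - y) ≤
      a ^ 2 * Real.exp (r * a) * (x - y) ^ 2 := by
  obtain ⟨z, hz⟩ : ∃ z, z = (x - y) * a := ⟨_, rfl⟩
  have e : Real.exp (x * a) - Real.exp (y * a) - a * Real.exp (y * a) * (x - y) =
      Real.exp (y * a) * (Real.exp z - 1 - z) := by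
    have : Real.exp (x * a) = Real.exp (y * a) * Real.exp z := by
      rw [← Real.exp_add, hz]; ring_nf
    rw [this, hz]; ring
  have h0 : 0 ≤ Real.exp z - 1 - z := by
    have := Real.add_one_le_exp z
    linarith
  rw [e]
  refine ⟨mul_nonneg (Real.exp_pos _).le h0, ?_⟩
  have hya : Real.exp (y * a) ≤ Real.exp (r * a) :=
    Real.exp_le_exp.2 (mul_le_mul_of_nonneg_right hy ha)
  have hxa : Real.exp (x * a) ≤ Real.exp (r * a) :=
    Real.exp_le_exp.2 (mul_le_mul_of_nonneg_right hx ha)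
  have hz2 : z ^ 2 = a ^ 2 * (x - y) ^ 2 := by rw [hz]; ring
  rcases le_total z 0 with h1 | h1
  · have h2 := BetaAux.exp_taylor_nonpos h1
    have h3 : Real.exp z - 1 - z ≤ z ^ 2 := by nlinarith [sq_nonneg z]
    calc Real.exp (y * a) * (Real.exp z - 1 - z) ≤ Real.exp (r * a) * z ^ 2 :=
          mul_le_mul hya h3 h0 (Real.exp_pos _).le
      _ = _ := by rw [hz2]; ring
  · have h2 : Real.exp z * Real.exp (-z) = 1 := by rw [← Real.exp_add]; simp
    have h3 : 0 < Real.exp z := Real.exp_pos z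
    have h4 := Real.add_one_le_exp (-z)
    have h5 : (1 - z) * Real.exp z ≤ 1 := by nlinarith
    have h6 : Real.exp z - 1 - z ≤ z ^ 2 * Real.exp z := by
      nlinarith [mul_le_mul_of_nonneg_left h5 (by linarith : 0 ≤ 1 + z)]
    have h7 : Real.exp (y * a) * Real.exp z = Real.exp (x * a) := by
      rw [← Real.exp_add, hz]; ring_nf
    calc Real.exp (y * a) * (Real.exp z - 1 - z) ≤ Real.exp (y * a) * (z ^ 2 * Real.exp z) :=
          mul_le_mul_of_nonneg_left h6 (Real.exp_pos _).le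
      _ = z ^ 2 * Real.exp (x * a) := by rw [← h7]; ring
      _ ≤ z ^ 2 * Real.exp (r * a) := mul_le_mul_of_nonneg_left hxa (sq_nonneg z)
      _ = _ := by rw [hz2]; ring

theorem mg_mgB (S : StdC μ ν h h') :
    ∃ C : ℝ, 0 ≤ C ∧ ∀ τ : ℝ, 0 < τ → ∃ B0 : ℝ, 0 ≤ B0 ∧ ∀ B : ℝ, B0 ≤ B → ∀ r : ℝ, 0 ≤ r →
      Tilt h r B → MG (mgB μ B) (mgB1 μ B) (∫ s, s ∂μ) τ C r := by
  have H := S.haz
  have L := S.law
  have hnn := L.nn
  have hE := law_integrable_pow H L 1
  simp only [pow_one] at hE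
  have hi : Integrable (fun s : ℝ => s ^ 2 * Real.exp (1 / 4 * h s)) μ :=
    law_integrable H L (by norm_num) 2
  have hμ0 : μ (Set.Iio 0) = 0 := by
    have h1 : μ {s | ¬ 0 ≤ s} = 0 := hnn
    refine measure_mono_null ?_ h1
    intro s hs
    exact not_le.2 hs
  refine ⟨∫ s, s ^ 2 * Real.exp (1 / 4 * h s) ∂μ,
    integral_nonneg fun s => by positivity, fun τ hτ => ?_⟩
  have hlim := tendsto_integral_min hμ0 hE
  obtain ⟨n0, hn0⟩ := (hlim.eventually (lt_mem_nhds
    (show (∫ s, s ∂μ) - τ < ∫ s, s ∂μ by linarith))).exists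
  refine ⟨n0, Nat.cast_nonneg n0, fun B hB r hr hT => ?_⟩
  have hB0 : 0 ≤ B := (Nat.cast_nonneg n0).trans hB
  have hmi : Integrable (fun s : ℝ => min s B) μ := by
    have := BetaTr_int1 (μ := μ) hnn hB0 (le_refl (0 : ℝ))
    simpa using this
  have hmge : (∫ s, s ∂μ) - τ ≤ ∫ s, min s B ∂μ := by
    refine hn0.le.trans ?_
    have h2 : Integrable (fun s : ℝ => min s (n0 : ℝ)) μ := by
      have := BetaTr_int1 (μ := μ) hnn (Nat.cast_nonneg n0) (le_refl (0 : ℝ))
      simpa using this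
    apply integral_mono h2 hmi
    intro s
    exact min_le_min_left _ hB
  refine ⟨?_, ?_, ?_, ?_⟩
  · simp [mgB]
  · have h1 : mgB1 μ B 0 = ∫ s, min s B ∂μ := by simp [mgB1]
    rw [h1]
    exact integral_mono hmi hE fun s => min_le_left _ _
  · intro y hy _
    refine hmge.trans ?_
    unfold mgB1
    apply integral_mono_ae hmi (BetaTr_int1 hnn hB0 hy)
    filter_upwards [hnn] with s hs
    have h1 : 0 ≤ min s B := le_min hs hB0
    exact le_mul_of_one_le_right h1 (Real.one_le_exp (mul_nonneg hy h1))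
  · intro x y hx hxr hy hyr
    have i1 := BetaTr_int (μ := μ) B x hx
    have i2 := BetaTr_int (μ := μ) B y hy
    have i3 := BetaTr_int1 (μ := μ) hnn hB0 hy
    have e : mgB μ B x - mgB μ B y - mgB1 μ B y * (x - y) =
        ∫ s, (Real.exp (x * min s B) - Real.exp (y * min s B) -
          min s B * Real.exp (y * min s B) * (x - y)) ∂μ := by
      have q1 := integral_sub (i1.sub i2) (i3.mul_const (x - y))
      have q2 := integral_sub i1 i2
      simp only [Pi.sub_apply] at q1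
      rw [q1, q2, integral_mul_const]
      rfl
    rw [e]
    constructor
    · apply integral_nonneg_of_ae
      filter_upwards [hnn] with s hs
      exact (exp_tay (le_min hs hB0) hxr hyr).1
    · rw [← integral_mul_const]
      apply integral_mono_ae ((i1.sub i2).sub (i3.mul_const _)) (hi.mul_const _)
      filter_upwards [hnn] with s hs
      have hm0 : 0 ≤ min s B := le_min hs hB0
      refine (exp_tay hm0 hxr hyr).2.trans ?_
      apply mul_le_mul_of_nonneg_right _ (sq_nonneg _)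
      have h1 := hT (min s B) hm0 (min_le_right _ _)
      have h2 : h (min s B) ≤ h s := H.mono (min_le_left _ _)
      have h3 : min s B ≤ s := min_le_left _ _
      have h4 : Real.exp (r * min s B) ≤ Real.exp (1 / 4 * h s) :=
        Real.exp_le_exp.2 (by linarith)
      gcongr

/-- `∫_{s ≤ B} e^{β s}` and `mgB` -/
lemma mgB_up (hnn : ∀ᵐ s ∂μ, 0 ≤ s) {B β : ℝ} (hβ : 0 ≤ β) :
    ∫⁻ s, (Set.Iic B).indicator (fun _ => (1 : ℝ≥0∞)) s *
      ENNReal.ofReal (Real.exp (β * s)) ∂μ ≤ ENNReal.ofReal (mgB μ B β) := by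
  rw [mgB, ofReal_integral_eq_lintegral_ofReal (BetaTr_int B β hβ)
    (Eventually.of_forall fun s => (Real.exp_pos _).le)]
  refine lintegral_mono fun s => ?_
  by_cases hs : s ≤ B
  · simp only [Set.indicator_of_mem (show s ∈ Set.Iic B from hs), one_mul, min_eq_left hs]
    exact le_rfl
  · simp only [Set.indicator_of_notMem (show s ∉ Set.Iic B from hs), zero_mul]
    exact zero_le

lemma mgB_low {B β : ℝ} (hβ : 0 ≤ β) :
    ENNReal.ofReal (mgB μ B β - Real.exp (β * B) * μ.real (Set.Ioi B)) ≤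
    ∫⁻ s, (Set.Iic B).indicator (fun _ => (1 : ℝ≥0∞)) s *
      ENNReal.ofReal (Real.exp (β * s)) ∂μ := by
  have i1 := BetaTr_int (μ := μ) B β hβ
  have i2 : Integrable (fun s : ℝ => (Set.Ioi B).indicator (fun _ => Real.exp (β * B)) s) μ :=
    (integrable_const _).indicator measurableSet_Ioi
  have e : mgB μ B β - Real.exp (β * B) * μ.real (Set.Ioi B) =
      ∫ s, (Real.exp (β * min s B) - (Set.Ioi B).indicator (fun _ => Real.exp (β * B)) s) ∂μ := by
    rw [integral_sub i1 i2, integral_indicator measurableSet_Ioi, setIntegral_const, smul_eq_mul,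
      mul_comm (μ.real (Set.Ioi B))]
    rfl
  rw [e]
  refine (phi_ofReal_le (i1.sub i2)).trans (lintegral_mono ?_)
  intro s
  simp only [Pi.sub_apply]
  by_cases hs : s ≤ B
  · have hs2 : s ∉ Set.Ioi B := fun hc => absurd hs (not_le.2 hc)
    simp only [Set.indicator_of_mem (show s ∈ Set.Iic B from hs), one_mul,
      Set.indicator_of_notMem hs2, sub_zero, min_eq_left hs]
    exact le_rfl
  · have hs3 : B < s := not_le.1 hs
    have hs2 : s ∈ Set.Ioi B := hs3
    simp only [Set.indicator_of_mem hs2, min_eq_right hs3.le, sub_self, ENNReal.ofReal_zero]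
    exact zero_le

/-- **The root of the truncated walk is a slope** -/
theorem slp_root (S : StdC μ ν h h') {B : ℝ → ℝ} (T : SLvl h B)
    (hB : ∀ K : ℝ, ∀ᶠ x : ℝ in atTop, K * Real.log x ≤ h (B x)) :
    Slp μ ν h B (fun x θ => rootM ν (mgB μ (B x)) θ)
      (fun x θ => rootD ν (mgB μ (B x)) (mgB1 μ (B x)) θ) := by
  have H := S.haz
  have hν0 := BetaAux.ae_nonneg S.hν
  obtain ⟨C, hC, hmg⟩ := mg_mgB S
  have hgt := S.hgt
  have hlt := S.hlt
  have hm := S.hm
  obtain ⟨ρ, hρ⟩ : ∃ ρ, ρ = (∫ t, t ∂ν) / ((∫ s, s ∂μ) - ∫ t, t ∂ν) := ⟨_, rfl⟩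
  have hEm : 0 < (∫ s, s ∂μ) - ∫ t, t ∂ν := by linarith
  have hρ0 : 0 < ρ := by rw [hρ]; positivity
  have hη : eta μ ν - 1 = ρ := by
    rw [hρ]
    unfold eta
    field_simp
    ring
  -- the common statement
  have key : ∀ M ω : ℝ, 0 < ω → ∀ᶠ x : ℝ in atTop, ∀ θ : ℝ, 0 < θ → θ ≤ M * (h x / x) →
      (mgB μ (B x) (rootM ν (mgB μ (B x)) θ) *
        lap ν (rootM ν (mgB μ (B x)) θ + θ) = 1 ∧
      |rootM ν (mgB μ (B x)) θ - ρ * θ| ≤ ω * θ ∧
      ∀ u : ℝ, |u| ≤ θ / 2 →
        |rootM ν (mgB μ (B x)) (θ + u) - rootM ν (mgB μ (B x)) θ -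
          rootD ν (mgB μ (B x)) (mgB1 μ (B x)) θ * u| ≤ ω / θ * u ^ 2) ∧
      Tilt h (rootM ν (mgB μ (B x)) θ) (B x) := by
    intro M ω hω
    obtain ⟨τ, δ, hτ, hδ, hex⟩ := rootM_expand hν0 S.hνi hgt hlt hC (ω := min ω 1)
      (by positivity)
    obtain ⟨B0, hB0, hmg2⟩ := hmg τ hτ
    obtain ⟨A, hA⟩ : ∃ A, A = 2 * (ρ + 2) * (|M| + 1) := ⟨_, rfl⟩
    have hA0 : 0 < A := by rw [hA]; positivity
    have ht : Tendsto (fun x => A * (h x / x)) atTop (𝓝 (A * 0)) := H.tendsto_div.const_mul _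
    rw [mul_zero] at ht
    filter_upwards [T.tilt A, T.top.eventually_ge_atTop B0, ht.eventually (ge_mem_nhds hδ),
      eventually_gt_atTop 0] with x e1 e2 e3 hx θ hθ hθM
    have hq : 0 ≤ h x / x := div_nonneg (H.nonneg x) hx.le
    have hθM' : θ ≤ (|M| + 1) * (h x / x) := by
      refine hθM.trans (mul_le_mul_of_nonneg_right ?_ hq)
      linarith [le_abs_self M]
    have hr : 2 * (ρ + 2) * θ ≤ A * (h x / x) := by
      calc 2 * (ρ + 2) * θ ≤ 2 * (ρ + 2) * ((|M| + 1) * (h x / x)) := by gcongr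
        _ = _ := by rw [hA]; ring
    have hG := hmg2 (B x) e2 (A * (h x / x)) (mul_nonneg hA0.le hq) e1
    have hθδ : θ ≤ δ := by
      refine le_trans ?_ e3
      refine le_trans ?_ hr
      nlinarith
    obtain ⟨a1, a2, -, a4⟩ := hex _ _ _ hG e3 θ hθ hθδ (by rw [← hρ]; exact hr)
    rw [← hρ] at a2
    have hω1 : min ω 1 ≤ ω := min_le_left _ _
    refine ⟨⟨a1, a2.trans (mul_le_mul_of_nonneg_right hω1 hθ.le), fun u hu => ?_⟩, ?_⟩
    · refine (a4 u hu).trans ?_
      gcongr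
    · intro s hs hsB
      refine le_trans (mul_le_mul_of_nonneg_right ?_ hs) (e1 s hs hsB)
      refine le_trans ?_ hr
      have h1 := (abs_le.1 a2).2
      have h2 : min ω 1 * θ ≤ 1 * θ := mul_le_mul_of_nonneg_right (min_le_right _ _) hθ.le
      nlinarith
  refine ⟨fun x θ => rootM_nonneg _ _, ?_, ?_, ?_, ?_⟩
  · intro M ω hω
    filter_upwards [key M ω hω] with x hx θ hθ hθM
    rw [hη]
    exact (hx θ hθ hθM).1.2.1
  · intro M ω hω
    filter_upwards [key M ω hω] with x hx θ hθ hθM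
    exact (hx θ hθ hθM).1.2.2
  · intro M ω hω
    filter_upwards [key M ω hω, eventually_gt_atTop 0] with x hx hx0 θ hθ hθM
    obtain ⟨⟨a1, -, -⟩, -⟩ := hx θ hθ hθM
    have hβ := rootM_nonneg (ν := ν) (mgB μ (B x)) θ
    rw [phi_factor S.hν hβ hθ.le]
    refine (mul_le_mul_left (mgB_up S.law.nn hβ) _).trans ?_
    rw [← ENNReal.ofReal_mul' (BetaAux.lap_nonneg _), a1]
    apply ENNReal.ofReal_le_ofReal
    have : 0 ≤ ω / x := by positivity
    linarith
  · intro M ω hω
    obtain ⟨C3, hC3, hup⟩ := S.law.up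
    filter_upwards [key M ω hω, hB 4, eventually_ge_atTop (C3 / ω), eventually_ge_atTop 1,
      T.top.eventually_ge_atTop 0] with x hx e1 e2 hx1 hBx θ hθ hθM
    have hx0 : 0 < x := by linarith
    obtain ⟨⟨a1, -, -⟩, a5⟩ := hx θ hθ hθM
    have hβ := rootM_nonneg (ν := ν) (mgB μ (B x)) θ
    have hl1 := BetaAux.lap_le_one hν0 (q := rootM ν (mgB μ (B x)) θ + θ) (by linarith)
    have hl0 := BetaAux.lap_nonneg (ν := ν) (rootM ν (mgB μ (B x)) θ + θ)
    rw [phi_factor S.hν hβ hθ.le]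
    refine le_trans ?_ (mul_le_mul_left (mgB_low hβ) _)
    rw [← ENNReal.ofReal_mul' hl0]
    apply ENNReal.ofReal_le_ofReal
    rw [sub_mul, a1]
    have hlog : 0 ≤ Real.log x := Real.log_nonneg hx1
    have h1 := a5 (B x) hBx le_rfl
    have h2 : μ.real (Set.Ioi (B x)) ≤ C3 * Real.exp (-(h (B x))) :=
      ENNReal.toReal_le_of_le_ofReal (by positivity) (hup (B x))
    have h3 : Real.exp (rootM ν (mgB μ (B x)) θ * B x) * μ.real (Set.Ioi (B x)) ≤
        C3 * Real.exp (-(2 * Real.log x)) := by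
      calc Real.exp (rootM ν (mgB μ (B x)) θ * B x) * μ.real (Set.Ioi (B x)) ≤
          Real.exp (h (B x) / 4) * (C3 * Real.exp (-(h (B x)))) :=
            mul_le_mul (Real.exp_le_exp.2 h1) h2 measureReal_nonneg (Real.exp_pos _).le
        _ = C3 * Real.exp (h (B x) / 4 + -(h (B x))) := by rw [Real.exp_add]; ring
        _ ≤ C3 * Real.exp (-(2 * Real.log x)) := by
            gcongr
            linarith
    have h4 : Real.exp (-(2 * Real.log x)) = 1 / (x * x) := by
      rw [Real.exp_neg, mul_comm, Real.exp_mul, Real.exp_log hx0, one_div]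
      norm_cast
      rw [sq]
    have h5 : C3 * Real.exp (-(2 * Real.log x)) ≤ ω / x := by
      rw [h4]
      rw [div_le_iff₀ hω] at e2
      rw [mul_one_div, div_le_div_iff₀ (by positivity) hx0]
      nlinarith
    have h6 : Real.exp (rootM ν (mgB μ (B x)) θ * B x) * μ.real (Set.Ioi (B x)) *
        lap ν (rootM ν (mgB μ (B x)) θ + θ) ≤ ω / x := by
      refine le_trans (mul_le_of_le_one_right ?_ hl1) (h3.trans h5)
      exact mul_nonneg (Real.exp_pos _).le measureReal_nonneg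
    linarith

end Pool.Agent.Lib.MP_04add8_pr.U
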