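import Mathlib
import Pool.Agent.Lib.MP_04add8_pr.U.BetaTr

open MeasureTheory ProbabilityTheory Filter Topology
open scoped ENNReal

set_option linter.unusedSectionVars false

namespace Pool.Agent.Lib.MP_04add8_pr.U

open Pool.Agent.Lib.MP_04add8_pr.Gen Pool.Agent.Lib.MP_04add8_pr.Cv

variable {h h' : ℝ → ℝ} {μ ν : Measure ℝ} [IsProbabilityMeasure μ]
  [IsProbabilityMeasure ν]

/-- the tempered moment generating function: `E min (e^{β σ}, e P(σ > s)^{-1/2})` at `s = σ` -/
noncomputable def mStar (μ : Measure ℝ) (β : ℝ) : ℝ :=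
  ∫ s, min (Real.exp (β * s)) (Real.exp 1 / √(μ.real (Set.Ioi s))) ∂μ

/-- the canonical root: the least `β ≥ 0` with `mStar μ β * lap ν (β + θ) ≥ 1` -/
noncomputable def betaStar (μ ν : Measure ℝ) (θ : ℝ) : ℝ :=
  sInf {β : ℝ | 0 ≤ β ∧ 1 ≤ mStar μ β * lap ν (β + θ)}

lemma betaStar_eq (μ ν : Measure ℝ) (θ : ℝ) : betaStar μ ν θ = rootM ν (mStar μ) θ := rfl

/-- the cap -/
noncomputable def kS (μ : Measure ℝ) (s : ℝ) : ℝ := Real.exp 1 / √(μ.real (Set.Ioi s))

lemma kS_meas : Measurable (kS μ) := by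
  have h1 : Antitone fun s : ℝ => μ.real (Set.Ioi s) := fun a b hab =>
    measureReal_mono (Set.Ioi_subset_Ioi hab)
  exact (measurable_const.div (h1.measurable.sqrt))

lemma tail_pos (L : Law μ h) (s : ℝ) : 0 < μ.real (Set.Ioi s) := by
  obtain ⟨x, hx, hxs⟩ := ((L.asy (1 / 2) (by norm_num)).and (eventually_ge_atTop s)).exists
  have h1 : 0 < μ (Set.Ioi x) := by
    refine lt_of_lt_of_le ?_ hx.1
    rw [ENNReal.ofReal_pos]
    positivity
  have h2 : 0 < μ.real (Set.Ioi x) := ENNReal.toReal_pos h1.ne' (measure_ne_top _ _)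
  exact h2.trans_le (measureReal_mono (Set.Ioi_subset_Ioi hxs))

lemma kS_ge (L : Law μ h) (s : ℝ) : Real.exp 1 ≤ kS μ s := by
  have h1 := tail_pos L s
  unfold kS
  rw [le_div_iff₀ (Real.sqrt_pos.2 h1)]
  have h2 : √(μ.real (Set.Ioi s)) ≤ 1 := by
    rw [Real.sqrt_le_one]
    exact measureReal_le_one
  exact mul_le_of_le_one_right (Real.exp_pos _).le h2

/-- `kS ≤ C e^{h/2}` -/
lemma kS_le (H : HazC h h') (L : Law μ h) :
    ∃ C : ℝ, 0 < C ∧ ∀ s : ℝ, kS μ s ≤ C * Real.exp (1 / 2 * h s) := by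
  obtain ⟨x1, hx1⟩ := (L.asy (1 / 2) (by norm_num)).exists_forall_of_atTop
  obtain ⟨c, hc⟩ : ∃ c, c = 1 / 2 * Real.exp (-(h x1)) := ⟨_, rfl⟩
  have hc0 : 0 < c := by rw [hc]; positivity
  have hlow : ∀ s : ℝ, c * Real.exp (-(h s)) ≤ μ.real (Set.Ioi s) := by
    intro s
    have h0 := H.nonneg s
    have h01 := H.nonneg x1
    rcases le_total x1 s with hs | hs
    · have h1 := (hx1 s hs).1
      have h2 : (1 - 1 / 2) * Real.exp (-(h s)) ≤ μ.real (Set.Ioi s) := by
        rwa [ENNReal.ofReal_le_iff_le_toReal (measure_ne_top _ _)] at h1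
      refine le_trans ?_ h2
      have h3 : Real.exp (-(h x1)) ≤ 1 := by
        rw [Real.exp_le_one_iff]
        linarith
      have h4 := Real.exp_pos (-(h s))
      rw [hc]
      nlinarith
    · have h1 := (hx1 x1 le_rfl).1
      have h2 : (1 - 1 / 2) * Real.exp (-(h x1)) ≤ μ.real (Set.Ioi x1) := by
        rwa [ENNReal.ofReal_le_iff_le_toReal (measure_ne_top _ _)] at h1
      have h3 : μ.real (Set.Ioi x1) ≤ μ.real (Set.Ioi s) :=
        measureReal_mono (Set.Ioi_subset_Ioi hs)
      have h4 : Real.exp (-(h s)) ≤ 1 := by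
        rw [Real.exp_le_one_iff]
        linarith
      have h5 : c * Real.exp (-(h s)) ≤ c := mul_le_of_le_one_right hc0.le h4
      rw [hc] at h5 ⊢
      linarith
  refine ⟨Real.exp 1 / √c, by positivity, fun s => ?_⟩
  unfold kS
  have h1 : √c * Real.exp (-(1 / 2 * h s)) ≤ √(μ.real (Set.Ioi s)) := by
    apply Real.le_sqrt_of_sq_le
    refine le_trans (le_of_eq ?_) (hlow s)
    rw [mul_pow, Real.sq_sqrt hc0.le, ← Real.exp_nat_mul]
    congr 2
    push_cast
    ring
  have h2 : 0 < √c * Real.exp (-(1 / 2 * h s)) := by positivity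
  calc Real.exp 1 / √(μ.real (Set.Ioi s)) ≤ Real.exp 1 / (√c * Real.exp (-(1 / 2 * h s))) := by
        gcongr
    _ = Real.exp 1 / √c * Real.exp (1 / 2 * h s) := by
        rw [Real.exp_neg]
        field_simp

/-- small tilts are not affected by the cap -/
lemma exp_le_kS (H : HazC h h') (L : Law μ h) :
    ∃ b : ℝ, 0 < b ∧ ∀ β : ℝ, 0 ≤ β → β ≤ b → ∀ B : ℝ, Tilt h β B → ∀ s : ℝ, 0 ≤ s → s ≤ B →
      Real.exp (β * s) ≤ kS μ s := by
  obtain ⟨C, hC, hup⟩ := L.up
  obtain ⟨s0, hs0⟩ := (H.tendsto_h.eventually_ge_atTop (2 * (C + 1))).exists_forall_of_atTop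
  obtain ⟨s1, hs1, hs01⟩ : ∃ s1 : ℝ, 1 ≤ s1 ∧ s0 ≤ s1 := ⟨max s0 1, le_max_right _ _, le_max_left _ _⟩
  have hs1p : 0 < s1 := by linarith
  have he2 : (2 : ℝ) ≤ Real.exp 1 := by
    have := Real.add_one_le_exp (1 : ℝ)
    linarith
  refine ⟨1 / s1, by positivity, fun β hβ hβb B hT s hs hsB => ?_⟩
  rcases le_total s s1 with h1 | h1
  · refine le_trans (Real.exp_le_exp.2 ?_) (kS_ge L s)
    calc β * s ≤ 1 / s1 * s1 := mul_le_mul hβb h1 hs (by positivity)
      _ = 1 := by field_simp
  · have h2 := hs0 s (hs01.trans h1)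
    have h3 := hT s hs hsB
    have h4 := tail_pos L s
    unfold kS
    rw [le_div_iff₀ (Real.sqrt_pos.2 h4)]
    have h5 : μ.real (Set.Ioi s) ≤ C * Real.exp (-(h s)) :=
      ENNReal.toReal_le_of_le_ofReal (by positivity) (hup s)
    have h6 : √(μ.real (Set.Ioi s)) ≤ (C + 1) * Real.exp (-(1 / 2 * h s)) := by
      rw [Real.sqrt_le_left (by positivity), mul_pow, ← Real.exp_nat_mul]
      have e1 : ((2 : ℕ) : ℝ) * -(1 / 2 * h s) = -(h s) := by push_cast; ring
      rw [e1]
      refine h5.trans (mul_le_mul_of_nonneg_right ?_ (Real.exp_pos _).le)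
      nlinarith
    calc Real.exp (β * s) * √(μ.real (Set.Ioi s)) ≤
          Real.exp (h s / 4) * ((C + 1) * Real.exp (-(1 / 2 * h s))) :=
          mul_le_mul (Real.exp_le_exp.2 h3) h6 (Real.sqrt_nonneg _) (Real.exp_pos _).le
      _ = (C + 1) * Real.exp (-(h s / 4)) := by
          have : Real.exp (-(h s / 4)) = Real.exp (h s / 4) * Real.exp (-(1 / 2 * h s)) := by
            rw [← Real.exp_add]
            congr 1
            ring
          rw [this]
          ring
      _ ≤ (2 * (h s / 4)) * Real.exp (-(h s / 4)) := by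
          apply mul_le_mul_of_nonneg_right _ (Real.exp_pos _).le
          linarith
      _ = 2 * (h s / 4 * Real.exp (-(h s / 4))) := by ring
      _ ≤ 2 * 1 := by
          have := BetaAux.mul_exp_neg_le (x := h s / 4)
          linarith
      _ ≤ Real.exp 1 := by linarith

lemma mStar_int (S : StdC μ ν h h') (β : ℝ) :
    Integrable (fun s : ℝ => min (Real.exp (β * s)) (kS μ s)) μ ∧ Integrable (kS μ) μ := by
  obtain ⟨C, hC, hle⟩ := kS_le S.haz S.law
  have hi := (law_integrable_exp S.haz S.law (c := 1 / 2) (by norm_num)).const_mul C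
  have hm := kS_meas (μ := μ)
  have h0 : ∀ s, 0 < kS μ s := fun s => (Real.exp_pos 1).trans_le (kS_ge S.law s)
  constructor
  · refine Integrable.mono' hi ?_ ?_
    · exact (Measurable.min (by fun_prop) hm).aestronglyMeasurable
    · filter_upwards with s
      have h1 : 0 ≤ min (Real.exp (β * s)) (kS μ s) := le_min (Real.exp_pos _).le (h0 s).le
      rw [Real.norm_eq_abs, abs_of_nonneg h1]
      exact (min_le_right _ _).trans (hle s)
  · refine Integrable.mono' hi hm.aestronglyMeasurable ?_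
    filter_upwards with s
    rw [Real.norm_eq_abs, abs_of_pos (h0 s)]
    exact hle s

lemma mStar_zero (S : StdC μ ν h h') : mStar μ 0 = 1 := by
  have h1 : ∀ s : ℝ, min (Real.exp (0 * s)) (kS μ s) = 1 := by
    intro s
    rw [zero_mul, Real.exp_zero]
    apply min_eq_left
    have h2 := kS_ge S.law s
    have := Real.add_one_le_exp (1 : ℝ)
    linarith
  change ∫ s, min (Real.exp (0 * s)) (kS μ s) ∂μ = 1
  simp only [h1, integral_const, probReal_univ, smul_eq_mul, mul_one]

lemma mStar_nonneg (S : StdC μ ν h h') (β : ℝ) : 0 ≤ mStar μ β := by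
  apply integral_nonneg
  intro s
  have h0 : 0 < kS μ s := (Real.exp_pos 1).trans_le (kS_ge S.law s)
  exact le_min (Real.exp_pos _).le h0.le

lemma mStar_cont (S : StdC μ ν h h') : Continuous (mStar μ) := by
  have h0 : ∀ s, 0 < kS μ s := fun s => (Real.exp_pos 1).trans_le (kS_ge S.law s)
  refine continuous_of_dominated (F := fun β s => min (Real.exp (β * s)) (kS μ s))
    (bound := kS μ) ?_ ?_ (mStar_int S 0).2 ?_
  · intro β
    exact (Measurable.min (by fun_prop) kS_meas).aestronglyMeasurable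
  · intro β
    filter_upwards with s
    have h1 : 0 ≤ min (Real.exp (β * s)) (kS μ s) := le_min (Real.exp_pos _).le (h0 s).le
    rw [Real.norm_eq_abs, abs_of_nonneg h1]
    exact min_le_right _ _
  · filter_upwards with s
    fun_prop

/-- `mStar` to first order at `0` -/
lemma mStar_lin (S : StdC μ ν h h') {τ : ℝ} (hτ : 0 < τ) :
    ∃ r : ℝ, 0 < r ∧ ∀ β : ℝ, 0 ≤ β → β ≤ r →
      1 + ((∫ s, s ∂μ) - τ) * β ≤ mStar μ β ∧ mStar μ β ≤ 1 + ((∫ s, s ∂μ) + τ) * β := by
  have H := S.haz
  have L := S.law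
  have hnn := L.nn
  have hE := law_integrable_pow H L 1
  simp only [pow_one] at hE
  have hμ0 : μ (Set.Iio 0) = 0 := by
    have h1 : μ {s | ¬ 0 ≤ s} = 0 := hnn
    refine measure_mono_null ?_ h1
    intro s hs
    exact not_le.2 hs
  have hlim := tendsto_integral_min hμ0 hE
  obtain ⟨n0, hn0, hn1⟩ := ((hlim.eventually (lt_mem_nhds
    (show (∫ s, s ∂μ) - τ < ∫ s, s ∂μ by linarith))).and (eventually_ge_atTop 1)).exists
  have hn1' : (1 : ℝ) ≤ n0 := by exact_mod_cast hn1
  have hmi : Integrable (fun s : ℝ => min s (n0 : ℝ)) μ := by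
    apply Integrable.mono' (integrable_const (n0 : ℝ)) (by fun_prop)
    filter_upwards [hnn] with s hs
    rw [Real.norm_eq_abs, abs_of_nonneg (le_min hs (by linarith))]
    exact min_le_right _ _
  obtain ⟨C, hC, hle⟩ := kS_le H L
  have hi2 : Integrable (fun s : ℝ => s ^ 2 * (C * Real.exp (1 / 2 * h s))) μ := by
    refine ((law_integrable H L (c := 1 / 2) (by norm_num) 2).const_mul C).congr ?_
    filter_upwards with s
    ring
  obtain ⟨D, hD⟩ : ∃ D, D = ∫ s, s ^ 2 * (C * Real.exp (1 / 2 * h s)) ∂μ := ⟨_, rfl⟩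
  have hD0 : 0 ≤ D := by
    rw [hD]
    exact integral_nonneg fun s => by positivity
  have he2 : (2 : ℝ) ≤ Real.exp 1 := by
    have := Real.add_one_le_exp (1 : ℝ)
    linarith
  refine ⟨min (1 / n0) (τ / (D + 1)), by positivity, fun β hβ hβr => ?_⟩
  have hβ1 : β * n0 ≤ 1 := by
    have h1 : β ≤ 1 / n0 := hβr.trans (min_le_left _ _)
    rwa [le_div_iff₀ (by linarith)] at h1
  have hβ2 : β * (D + 1) ≤ τ := by
    have h1 : β ≤ τ / (D + 1) := hβr.trans (min_le_right _ _)
    rwa [le_div_iff₀ (by positivity)] at h1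
  have hmint := (mStar_int S β).1
  constructor
  · have h1 : 1 + ((∫ s, s ∂μ) - τ) * β ≤ ∫ s, (1 + β * min s (n0 : ℝ)) ∂μ := by
      rw [integral_add (integrable_const _) (hmi.const_mul β), integral_const, probReal_univ,
        one_smul, integral_const_mul]
      have h2 := mul_le_mul_of_nonneg_left hn0.le hβ
      linarith
    refine h1.trans ?_
    change _ ≤ ∫ s, min (Real.exp (β * s)) (kS μ s) ∂μ
    apply integral_mono_ae ((integrable_const _).add (hmi.const_mul β)) hmint
    filter_upwards [hnn] with s hs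
    change 1 + β * min s (n0 : ℝ) ≤ min (Real.exp (β * s)) (kS μ s)
    have h3 : β * min s (n0 : ℝ) ≤ β * s := mul_le_mul_of_nonneg_left (min_le_left _ _) hβ
    have h4 : β * min s (n0 : ℝ) ≤ 1 :=
      (mul_le_mul_of_nonneg_left (min_le_right _ _) hβ).trans hβ1
    apply le_min
    · have := Real.add_one_le_exp (β * s)
      linarith
    · have := kS_ge L s
      linarith
  · change ∫ s, min (Real.exp (β * s)) (kS μ s) ∂μ ≤ _
    have h1 : ∫ s, min (Real.exp (β * s)) (kS μ s) ∂μ ≤
        ∫ s, (1 + β * s + β ^ 2 * (s ^ 2 * (C * Real.exp (1 / 2 * h s)))) ∂μ := by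
      apply integral_mono_ae hmint (((integrable_const _).add (hE.const_mul β)).add
        (hi2.const_mul _))
      filter_upwards [hnn] with s hs
      change min (Real.exp (β * s)) (kS μ s) ≤
        1 + β * s + β ^ 2 * (s ^ 2 * (C * Real.exp (1 / 2 * h s)))
      have hβs : 0 ≤ β * s := mul_nonneg hβ hs
      have hk := kS_ge L s
      have hk0 : 0 < kS μ s := (Real.exp_pos 1).trans_le hk
      have h2 : (β * s) ^ 2 * kS μ s ≤ β ^ 2 * (s ^ 2 * (C * Real.exp (1 / 2 * h s))) := by
        rw [mul_pow, mul_assoc]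
        gcongr
        exact hle s
      refine le_trans ?_ (add_le_add_right h2 _)
      rcases le_or_gt (β * s) 1 with h3 | h3
      · refine (min_le_left _ _).trans ?_
        have h4 := (exp_tay (a := 1) (x := β * s) (y := 0) (r := β * s) zero_le_one le_rfl hβs).2
        simp only [mul_one, Real.exp_zero, one_pow, one_mul, sub_zero] at h4
        have h5 : Real.exp (β * s) ≤ kS μ s := (Real.exp_le_exp.2 h3).trans hk
        have h6 : Real.exp (β * s) * (β * s) ^ 2 ≤ (β * s) ^ 2 * kS μ s := by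
          rw [mul_comm]
          exact mul_le_mul_of_nonneg_left h5 (sq_nonneg _)
        linarith
      · refine (min_le_right _ _).trans ?_
        have h4 : kS μ s ≤ (β * s) ^ 2 * kS μ s := by
          apply le_mul_of_one_le_left hk0.le
          nlinarith
        linarith
    refine h1.trans (le_of_eq ?_ |>.trans (?_ : 1 + β * (∫ s, s ∂μ) + β ^ 2 * D ≤ _))
    · have q1 := integral_add ((integrable_const (1 : ℝ)).add (hE.const_mul β)) (hi2.const_mul (β ^ 2))
      have q2 := integral_add (integrable_const (μ := μ) (1 : ℝ)) (hE.const_mul β)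
      simp only [Pi.add_apply] at q1
      rw [q1, q2, integral_const, probReal_univ, one_smul, integral_const_mul,
        integral_const_mul, hD]
    · have h5 : β ^ 2 * D ≤ τ * β := by
        calc β ^ 2 * D = β * (β * D) := by ring
          _ ≤ β * τ := by
            apply mul_le_mul_of_nonneg_left _ hβ
            linarith
          _ = τ * β := by ring
      linarith

/-- comparison with the truncated moment generating function -/
lemma mStar_mgB (S : StdC μ ν h h') :
    ∃ b C : ℝ, 0 < b ∧ 0 < C ∧ ∀ β : ℝ, 0 ≤ β → β ≤ b → ∀ B : ℝ, 0 ≤ B → Tilt h β B →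
      |mStar μ β - mgB μ B β| ≤ C * Real.exp (-(h B / 4)) := by
  have H := S.haz
  have L := S.law
  have hnn := L.nn
  obtain ⟨b, hb, hexp⟩ := exp_le_kS H L
  obtain ⟨C, hC, hle⟩ := kS_le H L
  have hi := law_integrable_exp H L (c := 3 / 4) (by norm_num)
  obtain ⟨I, hI⟩ : ∃ I, I = ∫ s, Real.exp (3 / 4 * h s) ∂μ := ⟨_, rfl⟩
  have hI0 : 0 ≤ I := by
    rw [hI]
    exact integral_nonneg fun s => (Real.exp_pos _).le
  refine ⟨b, (C + 1) * I + 1, hb, by positivity, fun β hβ hβb B hB hT => ?_⟩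
  have i1 := (mStar_int S β).1
  have i2 : Integrable (fun s : ℝ => Real.exp (β * min s B)) μ := by
    apply Integrable.mono' (integrable_const (Real.exp (β * B))) (by fun_prop)
    filter_upwards with s
    rw [Real.norm_eq_abs, Real.abs_exp]
    exact Real.exp_le_exp.2 (mul_le_mul_of_nonneg_left (min_le_right _ _) hβ)
  have e : mStar μ β - mgB μ B β =
      ∫ s, (min (Real.exp (β * s)) (kS μ s) - Real.exp (β * min s B)) ∂μ := by
    rw [integral_sub i1 i2]
    rfl
  rw [e]
  refine (abs_integral_le_integral_abs).trans ?_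
  have h1 : ∫ s, |min (Real.exp (β * s)) (kS μ s) - Real.exp (β * min s B)| ∂μ ≤
      ∫ s, (C + 1) * Real.exp (-(h B / 4)) * Real.exp (3 / 4 * h s) ∂μ := by
    apply integral_mono_ae (i1.sub i2).abs (hi.const_mul _)
    filter_upwards [hnn] with s hs
    change |min (Real.exp (β * s)) (kS μ s) - Real.exp (β * min s B)| ≤
      (C + 1) * Real.exp (-(h B / 4)) * Real.exp (3 / 4 * h s)
    rcases le_total s B with h2 | h2
    · rw [min_eq_left h2, min_eq_left (hexp β hβ hβb B hT s hs h2), sub_self, abs_zero]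
      positivity
    · rw [min_eq_right h2]
      have h3 := hT B hB le_rfl
      have h4 : h B ≤ h s := H.mono h2
      have h5 := H.nonneg B
      have h6 : Real.exp (β * B) ≤ Real.exp (-(h B / 4)) * Real.exp (3 / 4 * h s) := by
        rw [← Real.exp_add]
        apply Real.exp_le_exp.2
        linarith
      have h7 : kS μ s ≤ C * (Real.exp (-(h B / 4)) * Real.exp (3 / 4 * h s)) := by
        refine (hle s).trans ?_
        rw [← Real.exp_add]
        apply mul_le_mul_of_nonneg_left _ hC.le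
        apply Real.exp_le_exp.2
        linarith
      have h8 : 0 ≤ min (Real.exp (β * s)) (kS μ s) :=
        le_min (Real.exp_pos _).le ((Real.exp_pos 1).le.trans (kS_ge L s))
      have h9 : min (Real.exp (β * s)) (kS μ s) ≤ kS μ s := min_le_right _ _
      have h10 := Real.exp_pos (β * B)
      have h11 : 0 ≤ C * (Real.exp (-(h B / 4)) * Real.exp (3 / 4 * h s)) := by positivity
      have h12 : 0 ≤ Real.exp (-(h B / 4)) * Real.exp (3 / 4 * h s) := by positivity
      rw [abs_le]
      constructor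
      · linarith
      · linarith
  refine h1.trans ?_
  rw [integral_const_mul, ← hI]
  have h2 := Real.exp_pos (-(h B / 4))
  nlinarith

end Pool.Agent.Lib.MP_04add8_pr.U
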