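import Mathlib
import Pool.Agent.Lib.MP_04add8_pr.U.MStar
import Pool.Agent.Lib.MP_04add8_pr.Cv.DefsP
import Pool.Agent.Lib.MP_04add8_pr.Cv.LogConv

open MeasureTheory ProbabilityTheory Filter Topology
open scoped ENNReal

set_option linter.unusedSectionVars false

namespace Pool.Agent.Lib.MP_04add8_pr.U

open Pool.Agent.Lib.MP_04add8_pr.Gen Pool.Agent.Lib.MP_04add8_pr.Cv

variable {h h' : ℝ → ℝ} {μ ν : Measure ℝ} [IsProbabilityMeasure μ]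
  [IsProbabilityMeasure ν]

/-- `∫_{s ≤ B} e^{βs} ≤ mStar` for small tilts -/
lemma trunc_le_mStar (S : StdC μ ν h h') :
    ∃ b : ℝ, 0 < b ∧ ∀ β : ℝ, 0 ≤ β → β ≤ b → ∀ B : ℝ, Tilt h β B →
      (∫⁻ s, (Set.Iic B).indicator (fun _ => (1 : ℝ≥0∞)) s *
        ENNReal.ofReal (Real.exp (β * s)) ∂μ) ≤ ENNReal.ofReal (mStar μ β) := by
  obtain ⟨b, hb, hexp⟩ := exp_le_kS S.haz S.law
  refine ⟨b, hb, fun β hβ hβb B hT => ?_⟩
  have i1 := (mStar_int S β).1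
  have h0 : ∀ s : ℝ, 0 ≤ min (Real.exp (β * s)) (kS μ s) := fun s =>
    le_min (Real.exp_pos _).le ((Real.exp_pos 1).le.trans (kS_ge S.law s))
  have e : ENNReal.ofReal (mStar μ β) =
      ∫⁻ s, ENNReal.ofReal (min (Real.exp (β * s)) (kS μ s)) ∂μ :=
    ofReal_integral_eq_lintegral_ofReal i1 (Eventually.of_forall h0)
  rw [e]
  apply lintegral_mono_ae
  filter_upwards [S.law.nn] with s hs
  by_cases h1 : s ∈ Set.Iic B
  · rw [Set.indicator_of_mem h1, one_mul]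
    apply ENNReal.ofReal_le_ofReal
    exact le_min le_rfl (hexp β hβ hβb B hT s hs h1)
  · rw [Set.indicator_of_notMem h1, zero_mul]
    exact zero_le

/-- the basic facts on the canonical root -/
theorem betaStar_basic (S : StdC μ ν h h') {ω : ℝ} (hω : 0 < ω) :
    ∃ θ0 : ℝ, 0 < θ0 ∧ ∀ θ : ℝ, 0 < θ → θ ≤ θ0 →
      1 ≤ mStar μ ((eta μ ν - 1 + ω) * θ) * lap ν ((eta μ ν - 1 + ω) * θ + θ) ∧
      (eta μ ν - 1 - ω) * θ ≤ betaStar μ ν θ ∧ betaStar μ ν θ ≤ (eta μ ν - 1 + ω) * θ ∧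
      mStar μ (betaStar μ ν θ) * lap ν (betaStar μ ν θ + θ) = 1 := by
  have hν0 := BetaAux.ae_nonneg S.hν
  have hη2 := two_lt_eta S
  have hgt := S.hgt
  have hlt := S.hlt
  have hm := S.hm
  have hEm : 0 < (∫ s, s ∂μ) - ∫ t, t ∂ν := by linarith
  have hη : (∫ t, t ∂ν) / ((∫ s, s ∂μ) - ∫ t, t ∂ν) = eta μ ν - 1 := by
    unfold eta
    field_simp
    ring
  obtain ⟨τ, δ, hτ, hδ, hlim⟩ := rootM_lim hν0 S.hνi hgt hlt hω
  rw [hη] at hlim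
  obtain ⟨r, hr, hlin⟩ := mStar_lin S hτ
  obtain ⟨A, hA⟩ : ∃ A, A = eta μ ν - 1 + ω := ⟨_, rfl⟩
  have hA0 : 0 < A := by rw [hA]; linarith
  obtain ⟨cL, hcL, hll⟩ := lap_lin S.hν S.hm (one_pos : (0 : ℝ) < 1)
  refine ⟨min (min δ 1) (r / A), by positivity, fun θ hθ hθ0 => ?_⟩
  have h1 : θ ≤ δ := hθ0.trans ((min_le_left _ _).trans (min_le_left _ _))
  have h1' : θ ≤ 1 := hθ0.trans ((min_le_left _ _).trans (min_le_right _ _))
  have h2 : A * θ ≤ r := by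
    have h3 : θ ≤ r / A := hθ0.trans (min_le_right _ _)
    rw [le_div_iff₀ hA0] at h3
    linarith
  rw [hA] at h2
  obtain ⟨g1, g2, g3⟩ := hlim (mStar μ) r hlin θ hθ h1 h2
  refine ⟨g1, g2, g3, ?_⟩
  have hb0 : 0 ≤ (eta μ ν - 1 + ω) * θ := by
    rw [← hA]
    positivity
  refine rootM_exact hν0 S.hνi hθ.le (mStar_cont S).continuousOn ?_ hb0 g1
  rw [mStar_zero S, zero_add, one_mul]
  have h4 := hll θ hθ h1'
  have : 0 < cL * θ := by positivity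
  linarith

/-- monotonicity of the canonical root -/
theorem betaStar_mono (S : StdC μ ν h h') :
    ∃ θ0 : ℝ, 0 < θ0 ∧ ∀ θ θ' : ℝ, 0 < θ → θ ≤ θ' → θ' ≤ θ0 →
      betaStar μ ν θ ≤ betaStar μ ν θ' := by
  have hν0 := BetaAux.ae_nonneg S.hν
  obtain ⟨θ0, hθ0, hb⟩ := betaStar_basic S one_pos
  have hη2 := two_lt_eta S
  refine ⟨θ0, hθ0, fun θ θ' hθ hθθ' hθ' => ?_⟩
  have hθ'0 : 0 < θ' := hθ.trans_le hθθ'
  obtain ⟨g1, -, -, -⟩ := hb θ' hθ'0 hθ'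
  have hb0 : 0 ≤ (eta μ ν - 1 + 1) * θ' := by
    apply mul_nonneg _ hθ'0.le
    linarith
  refine le_rootM (M := mStar μ) hb0 g1 ?_
  intro β' hβ' h1
  apply rootM_le hβ'
  refine h1.trans (mul_le_mul_of_nonneg_left ?_ (mStar_nonneg S β'))
  apply BetaAux.lap_anti hν0
  · linarith
  · linarith

/-- **the canonical potential** -/
theorem potS (S : StdC μ ν h h') :
    ∃ θ0 : ℝ, 0 < θ0 ∧ θ0 ≤ 1 ∧ ∀ θ1 : ℝ, 0 < θ1 → θ1 ≤ θ0 →
      Pot μ ν h (betaStar μ ν) θ1 ((eta μ ν - 2) / 2) (eta μ ν) 0 := by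
  have hν0 := BetaAux.ae_nonneg S.hν
  have hη2 := two_lt_eta S
  obtain ⟨ω, hω, hω1, hω2⟩ : ∃ ω : ℝ, 0 < ω ∧ ω ≤ 1 ∧ ω ≤ (eta μ ν - 2) / 2 :=
    ⟨min 1 ((eta μ ν - 2) / 2), lt_min one_pos (by linarith), min_le_left _ _, min_le_right _ _⟩
  obtain ⟨θa, hθa, hbas⟩ := betaStar_basic S hω
  obtain ⟨θb, hθb, hmono⟩ := betaStar_mono S
  obtain ⟨b, hb, htr⟩ := trunc_le_mStar S
  obtain ⟨η, hη⟩ : ∃ η, η = eta μ ν := ⟨_, rfl⟩
  rw [← hη] at hη2 hω2 hbas ⊢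
  have hη0 : 0 < η := by linarith
  refine ⟨min (min 1 θa) (min θb (b / η)), by positivity,
    (min_le_left _ _).trans (min_le_left _ _), fun θ1 hθ1 hθ10 => ?_⟩
  have k1 : θ1 ≤ θa := hθ10.trans ((min_le_left _ _).trans (min_le_right _ _))
  have k2 : θ1 ≤ θb := hθ10.trans ((min_le_right _ _).trans (min_le_left _ _))
  have k3 : θ1 * η ≤ b := by
    have : θ1 ≤ b / η := hθ10.trans ((min_le_right _ _).trans (min_le_right _ _))
    rwa [le_div_iff₀ hη0] at this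
  have hup : ∀ θ : ℝ, 0 < θ → θ ≤ θ1 → betaStar μ ν θ ≤ η * θ := by
    intro θ hθ hθ'
    refine (hbas θ hθ (hθ'.trans k1)).2.2.1.trans (mul_le_mul_of_nonneg_right ?_ hθ.le)
    linarith
  refine ⟨hθ1, by linarith, by linarith, le_rfl, ?_, hup, ?_, ?_, ?_⟩
  · intro θ hθ hθ'
    refine le_trans (mul_le_mul_of_nonneg_right ?_ hθ.le) (hbas θ hθ (hθ'.trans k1)).2.1
    linarith
  · intro θ θ' hθ hθθ' hθ'
    exact hmono θ θ' hθ hθθ' (hθ'.trans k2)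
  · intro θ hθ hθ'
    have := BetaAux.lap_le_one hν0 hθ.le
    linarith
  · intro θ B hθ hθ' hT
    have hβ0 : 0 ≤ betaStar μ ν θ := rootM_nonneg _ _
    have hβ1 := hup θ hθ hθ'
    have hT' : Tilt h (betaStar μ ν θ) B := fun s hs hsB =>
      (mul_le_mul_of_nonneg_right hβ1 hs).trans (hT s hs hsB)
    have hβb : betaStar μ ν θ ≤ b := by
      have : η * θ ≤ η * θ1 := mul_le_mul_of_nonneg_left hθ' hη0.le
      linarith
    rw [phi_factor S.hν hβ0 hθ.le]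
    refine (mul_le_mul_left (htr _ hβ0 hβb B hT') _).trans ?_
    rw [← ENNReal.ofReal_mul' (BetaAux.lap_nonneg _), (hbas θ hθ (hθ'.trans k1)).2.2.2]
    apply ENNReal.ofReal_le_ofReal
    linarith

end Pool.Agent.Lib.MP_04add8_pr.U
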