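import Mathlib
import Pool.Agent.Lib.MP_04add8_pr.U.PotS
import Pool.Agent.Lib.MP_04add8_pr.U.Err

open MeasureTheory ProbabilityTheory Filter Topology
open scoped ENNReal

set_option linter.unusedSectionVars false

namespace Pool.Agent.Lib.MP_04add8_pr.U

open Pool.Agent.Lib.MP_04add8_pr.Gen Pool.Agent.Lib.MP_04add8_pr.Cv

variable {h h' : ℝ → ℝ} {μ ν : Measure ℝ} [IsProbabilityMeasure μ]
  [IsProbabilityMeasure ν]

/-- **the truncated root and the canonical root** -/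
theorem beta_cmp (S : StdC μ ν h h') {B : ℝ → ℝ} (T : SLvl h B)
    (hB : ∀ K : ℝ, ∀ᶠ x : ℝ in atTop, K * Real.log x ≤ h (B x)) (M : ℝ) {ω : ℝ} (hω : 0 < ω) :
    ∀ᶠ x : ℝ in atTop, ∀ θ : ℝ, 0 < θ → θ ≤ M * (h x / x) →
      |rootM ν (mgB μ (B x)) θ - betaStar μ ν θ| ≤ ω / x := by
  have H := S.haz
  have hν0 := BetaAux.ae_nonneg S.hν
  obtain ⟨C, hC, hmg⟩ := mg_mgB S
  have hgt := S.hgt
  have hlt := S.hlt
  have hm := S.hm
  obtain ⟨ρ, hρ⟩ : ∃ ρ, ρ = (∫ t, t ∂ν) / ((∫ s, s ∂μ) - ∫ t, t ∂ν) := ⟨_, rfl⟩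
  have hEm : 0 < (∫ s, s ∂μ) - ∫ t, t ∂ν := by linarith
  have hρ0 : 0 < ρ := by rw [hρ]; positivity
  have hη : eta μ ν - 1 = ρ := by
    rw [hρ]
    unfold eta
    field_simp
    ring
  obtain ⟨θ0, hθ0, hbas⟩ := betaStar_basic S one_pos
  rw [hη] at hbas
  obtain ⟨b, C1, hb, hC1, hcmp⟩ := mStar_mgB S
  obtain ⟨τ, δ, hτ, hδ, hex⟩ := rootM_expand hν0 S.hνi hgt hlt hC (ω := 1) one_pos
  obtain ⟨B0, hB0, hmg2⟩ := hmg τ hτ
  obtain ⟨A, hA⟩ : ∃ A, A = 2 * (ρ + 2) * (|M| + 1) := ⟨_, rfl⟩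
  have hA0 : 0 < A := by rw [hA]; positivity
  have ht : Tendsto (fun x => A * (h x / x)) atTop (𝓝 (A * 0)) := H.tendsto_div.const_mul _
  rw [mul_zero] at ht
  have hmin : 0 < min δ (min θ0 b) := by positivity
  filter_upwards [T.tilt A, T.top.eventually_ge_atTop B0, ht.eventually (ge_mem_nhds hmin),
    hB 8, eventually_ge_atTop (2 * C1 / ((∫ s, s ∂μ) - ∫ t, t ∂ν) / ω), eventually_ge_atTop 1,
    T.top.eventually_ge_atTop 0] with x e1 e2 e3 e4 e5 hx1 hBx θ hθ hθM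
  have hx : 0 < x := by linarith
  have e31 : A * (h x / x) ≤ δ := e3.trans (min_le_left _ _)
  have e32 : A * (h x / x) ≤ θ0 := e3.trans ((min_le_right _ _).trans (min_le_left _ _))
  have e33 : A * (h x / x) ≤ b := e3.trans ((min_le_right _ _).trans (min_le_right _ _))
  have hq : 0 ≤ h x / x := div_nonneg (H.nonneg x) hx.le
  have hθM' : θ ≤ (|M| + 1) * (h x / x) := by
    refine hθM.trans (mul_le_mul_of_nonneg_right ?_ hq)
    linarith [le_abs_self M]
  have hr : 2 * (ρ + 2) * θ ≤ A * (h x / x) := by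
    calc 2 * (ρ + 2) * θ ≤ 2 * (ρ + 2) * ((|M| + 1) * (h x / x)) := by gcongr
      _ = _ := by rw [hA]; ring
  have hG := hmg2 (B x) e2 (A * (h x / x)) (mul_nonneg hA0.le hq) e1
  have hθr : θ ≤ A * (h x / x) := by
    refine le_trans ?_ hr
    nlinarith
  obtain ⟨a1, a2, a3, -⟩ := hex _ _ _ hG e31 θ hθ (hθr.trans e31) (by rw [← hρ]; exact hr)
  rw [← hρ, one_mul] at a2
  obtain ⟨-, -, b2, b3⟩ := hbas θ hθ (hθr.trans e32)
  have hs0 : 0 ≤ betaStar μ ν θ := rootM_nonneg _ _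
  have hr0 : 0 ≤ rootM ν (mgB μ (B x)) θ := rootM_nonneg _ _
  generalize hrr : rootM ν (mgB μ (B x)) θ = βB at a1 a2 hr0 ⊢
  generalize hss : betaStar μ ν θ = βs at b2 b3 hs0 ⊢
  have hsr : βs ≤ A * (h x / x) := by
    refine le_trans ?_ hr
    nlinarith
  have hBr : βB ≤ A * (h x / x) := by
    refine le_trans ?_ hr
    have := (abs_le.1 a2).2
    nlinarith
  have hTs : Tilt h βs (B x) := fun s hs hsB =>
    (mul_le_mul_of_nonneg_right hsr hs).trans (e1 s hs hsB)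
  have c1 := abs_le.1 (hcmp βs hs0 (hsr.trans e33) (B x) hBx hTs)
  have hl1 := BetaAux.lap_le_one hν0 (q := βs + θ) (by linarith)
  have hl0 := BetaAux.lap_nonneg (ν := ν) (βs + θ)
  have hE := Real.exp_pos (-(h (B x) / 4))
  have hCE : 0 ≤ C1 * Real.exp (-(h (B x) / 4)) := by positivity
  have c2 : |mgB μ (B x) βs * lap ν (βs + θ) - 1| ≤ C1 * Real.exp (-(h (B x) / 4)) := by
    rw [← b3, abs_le]
    have d1 : mgB μ (B x) βs * lap ν (βs + θ) - mStar μ βs * lap ν (βs + θ) =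
        -((mStar μ βs - mgB μ (B x) βs) * lap ν (βs + θ)) := by ring
    rw [d1]
    have d2 : (mStar μ βs - mgB μ (B x) βs) * lap ν (βs + θ) ≤
        C1 * Real.exp (-(h (B x) / 4)) := by
      refine (mul_le_mul_of_nonneg_right c1.2 hl0).trans ?_
      exact mul_le_of_le_one_right hCE hl1
    have d3 : -(C1 * Real.exp (-(h (B x) / 4))) ≤
        (mStar μ βs - mgB μ (B x) βs) * lap ν (βs + θ) := by
      refine le_trans ?_ (mul_le_mul_of_nonneg_right c1.1 hl0)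
      rw [neg_mul]
      have := mul_le_of_le_one_right hCE hl1
      linarith
    constructor <;> linarith
  have c3 : ((∫ s, s ∂μ) - ∫ t, t ∂ν) / 2 * |βB - βs| ≤ C1 * Real.exp (-(h (B x) / 4)) := by
    have c4 := abs_le.1 c2
    rcases le_total βB βs with hc | hc
    · have d1 := a3 βB βs hr0 hc hsr
      rw [a1] at d1
      rw [abs_sub_comm, abs_of_nonneg (by linarith)]
      linarith
    · have d1 := a3 βs βB hs0 hc hBr
      rw [a1] at d1
      rw [abs_of_nonneg (by linarith)]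
      linarith
  have c5 : Real.exp (-(h (B x) / 4)) ≤ 1 / (x * x) := by
    have d1 : Real.exp (-(h (B x) / 4)) ≤ Real.exp (-(2 * Real.log x)) := by
      apply Real.exp_le_exp.2
      linarith
    have d2 : Real.exp (-(2 * Real.log x)) = 1 / (x * x) := by
      rw [Real.exp_neg, mul_comm, Real.exp_mul, Real.exp_log hx, one_div]
      norm_cast
      rw [sq]
    rwa [d2] at d1
  have c6 : C1 * Real.exp (-(h (B x) / 4)) ≤ C1 / x / x := by
    calc C1 * Real.exp (-(h (B x) / 4)) ≤ C1 * (1 / (x * x)) := by gcongr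
      _ = C1 / x / x := by field_simp
  have c7 : 2 * C1 ≤ ((∫ s, s ∂μ) - ∫ t, t ∂ν) * (ω * x) := by
    rw [div_div, div_le_iff₀ (by positivity)] at e5
    linarith
  rw [le_div_iff₀ hx]
  have c8 : ((∫ s, s ∂μ) - ∫ t, t ∂ν) / 2 * (|βB - βs| * x) ≤
      ((∫ s, s ∂μ) - ∫ t, t ∂ν) / 2 * ω := by
    calc ((∫ s, s ∂μ) - ∫ t, t ∂ν) / 2 * (|βB - βs| * x) =
          (((∫ s, s ∂μ) - ∫ t, t ∂ν) / 2 * |βB - βs|) * x := by ring
      _ ≤ (C1 / x / x) * x := mul_le_mul_of_nonneg_right (c3.trans c6) hx.le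
      _ = C1 / x := by field_simp
      _ ≤ ((∫ s, s ∂μ) - ∫ t, t ∂ν) / 2 * ω := by
          rw [div_le_iff₀ hx]
          linarith
  exact le_of_mul_le_mul_left c8 (by positivity)

variable {B : ℝ → ℝ} {β β1 : ℝ → ℝ → ℝ}

/-- two slopes which differ by `o(1/x)` give the same rate up to `o(1)` -/
theorem rate_cmp (S : StdC μ ν h h') (P : Slp μ ν h B β β1) {γ : ℝ → ℝ} (hγ : ∀ θ, 0 ≤ γ θ)
    (hc : ∀ M ω : ℝ, 0 < ω → ∀ᶠ x : ℝ in atTop, ∀ θ : ℝ, 0 < θ → θ ≤ M * (h x / x) →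
      |β x θ - γ θ| ≤ ω / x) {ω : ℝ} (hω : 0 < ω) :
    ∀ᶠ x : ℝ in atTop, |hRate h (β x) x - hRate h γ x| ≤ ω := by
  have H := S.haz
  have hη2 := two_lt_eta S
  filter_upwards [gopt S P one_pos, hc (2 * eta μ ν) ω hω, eventually_gt_atTop 0] with x e1 e2 hx
  obtain ⟨θ, X, hθ, hX, hXθ, g1, g2, g3, g4, -⟩ := e1
  generalize eta μ ν = η at hη2 e2 g1 g2 g4
  have hη0 : 0 < η := by linarith
  have hηx : 0 < η * x := by positivity
  have hhx := H.nonneg x
  have hpos := H.pos _ hηx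
  have k1 : h (η * x) ≤ η * h x := H.mul_ge (by linarith) hx.le
  have k2 : x * h' (η * x) ≤ h x := by
    have e3 := H.mul_deriv_le hx
    have e4 := H.anti x (η * x) hx (by nlinarith)
    exact (mul_le_mul_of_nonneg_left e4 hx.le).trans e3
  have hR2 : hRate h (β x) x ≤ 2 * η * h x := by
    have := (abs_le.1 g4).2
    nlinarith
  have hbd : ∀ δ : ℝ → ℝ, (∀ θ, 0 ≤ δ θ) → ∀ θ : ℝ, 0 < θ →
      hRate h δ x ≤ hG h θ + x * (θ + δ θ) := by
    intro δ hδ θ hθ
    refine csInf_le ⟨0, ?_⟩ ⟨θ, hθ, rfl⟩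
    rintro _ ⟨θ', hθ', rfl⟩
    have hθ'' : (0 : ℝ) < θ' := hθ'
    have f2 := hG_nonneg H hθ''
    have f3 := hδ θ'
    change 0 ≤ hG h θ' + x * (θ' + δ θ')
    positivity
  have hxω : x * (ω / x) = ω := by field_simp
  rw [abs_le]
  constructor
  · -- `hRate γ ≤ hRate β + ω`
    have hθM : θ ≤ 2 * η * (h x / x) := by
      have h1 := (abs_le.1 g1).2
      have h2 : θ ≤ 2 * h' (η * x) := by linarith
      have h3 : h' (η * x) ≤ h x / x := by
        rw [le_div_iff₀ hx]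
        linarith
      have h4 : 0 ≤ h x / x := by positivity
      nlinarith
    have h1 := (abs_le.1 (e2 θ hθ hθM)).1
    have h2 := hbd γ hγ θ hθ
    have h3 := mul_le_mul_of_nonneg_left h1 hx.le
    rw [mul_neg, hxω] at h3
    rw [g3]
    nlinarith
  · have hR : hRate h (β x) x - ω ≤ hRate h γ x := by
      refine le_csInf ⟨_, ⟨1, Set.mem_Ioi.2 one_pos, rfl⟩⟩ ?_
      rintro _ ⟨θ', hθ', rfl⟩
      have hθ'' : (0 : ℝ) < θ' := hθ'
      change hRate h (β x) x - ω ≤ hG h θ' + x * (θ' + γ θ')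
      rcases le_total θ' (2 * η * (h x / x)) with hcs | hcs
      · have h1 := (abs_le.1 (e2 θ' hθ'' hcs)).2
        have h2 := hbd (β x) (P.nn x) θ' hθ''
        have h3 := mul_le_mul_of_nonneg_left h1 hx.le
        rw [hxω] at h3
        nlinarith
      · have f1 := hG_nonneg H hθ''
        have f4 : 2 * η * h x ≤ x * θ' := by
          calc 2 * η * h x = x * (2 * η * (h x / x)) := by field_simp
            _ ≤ x * θ' := mul_le_mul_of_nonneg_left hcs hx.le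
        have f5 : 0 ≤ x * γ θ' := mul_nonneg hx.le (hγ θ')
        rw [mul_add]
        linarith
    linarith

/-- the one-big-job terms for the two slopes -/
theorem fS_cmp (S : StdC μ ν h h') (P : Slp μ ν h B β β1) {γ : ℝ → ℝ} (hγ : ∀ θ, 0 ≤ γ θ)
    (hc : ∀ M ω : ℝ, 0 < ω → ∀ᶠ x : ℝ in atTop, ∀ θ : ℝ, 0 < θ → θ ≤ M * (h x / x) →
      |β x θ - γ θ| ≤ ω / x) {ω : ℝ} (hω : 0 < ω) :
    ∀ᶠ x : ℝ in atTop, fS h h' μ ν (β x) x ≤ (1 + ω) * fS h h' μ ν γ x ∧
      fS h h' μ ν γ x ≤ (1 + ω) * fS h h' μ ν (β x) x := by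
  have hl : 0 < Real.log (1 + ω) := Real.log_pos (by linarith)
  have hη2 := two_lt_eta S
  filter_upwards [rate_cmp S P hγ hc hl, eventually_gt_atTop 0] with x e1 hx
  have e2 := abs_le.1 e1
  have hηx : 0 < eta μ ν * x := by
    have : 0 < eta μ ν := by linarith
    positivity
  have hp := S.haz.pos _ hηx
  have h5 : 0 < 2 * (∫ t, t ∂ν) - ∫ s, s ∂μ := by
    have := S.hlt
    linarith
  have hexp : Real.exp (Real.log (1 + ω)) = 1 + ω := Real.exp_log (by linarith)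
  unfold fS
  constructor
  · rw [← mul_div_assoc]
    apply div_le_div_of_nonneg_right _ (by positivity)
    rw [← hexp, ← Real.exp_add]
    apply Real.exp_le_exp.2
    linarith
  · rw [← mul_div_assoc]
    apply div_le_div_of_nonneg_right _ (by positivity)
    rw [← hexp, ← Real.exp_add]
    apply Real.exp_le_exp.2
    linarith

/-- the exponential without the factor `1 / h'` is negligible -/
theorem exp_rate_err (S : StdC μ ν h h') (γ : ℝ → ℝ) {ω : ℝ} (hω : 0 < ω) :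
    ∀ᶠ x : ℝ in atTop, Real.exp (-(hRate h γ x)) ≤ ω * fS h h' μ ν γ x := by
  have H := S.haz
  have hη0 : 0 < eta μ ν := by linarith [two_lt_eta S]
  have hD : 0 < 2 * (∫ t, t ∂ν) - ∫ s, s ∂μ := by
    have := S.hlt
    linarith
  have hηx : Tendsto (fun x : ℝ => eta μ ν * x) atTop atTop := tendsto_id.const_mul_atTop hη0
  have h0 : (0 : ℝ) < ω / (2 * (∫ t, t ∂ν) - ∫ s, s ∂μ) := by positivity
  filter_upwards [(H.tendsto_deriv.comp hηx).eventually_le_const h0, eventually_gt_atTop 0]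
    with x h2 hx
  simp only [Function.comp_apply] at h2
  have hp : 0 < h' (eta μ ν * x) := H.pos _ (by positivity)
  unfold fS
  rw [← mul_div_assoc, le_div_iff₀ (by positivity)]
  rw [le_div_iff₀ hD] at h2
  have h3 := Real.exp_pos (-(hRate h γ x))
  nlinarith

end Pool.Agent.Lib.MP_04add8_pr.U
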