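import Mathlib
import Pool.Agent.Lib.MP_04add8_pr.Cv.QU
import Pool.Agent.Lib.MP_04add8_pr.One.OneMain
import Pool.Agent.Lib.MP_04add8_pr.U.Slp

open MeasureTheory ProbabilityTheory Filter Topology
open scoped ENNReal

set_option linter.unusedSectionVars false

namespace Pool.Agent.Lib.MP_04add8_pr.U

open Pool.Agent.Lib.MP_04add8_pr.Gen Pool.Agent.Lib.MP_04add8_pr.Cv

variable {h h' : ℝ → ℝ} {μ ν : Measure ℝ} [IsProbabilityMeasure μ]
  [IsProbabilityMeasure ν]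

variable {B : ℝ → ℝ} {β β1 : ℝ → ℝ → ℝ}

/-- `θ ≤ β x θ` and `θ + β x θ` close to `η θ` -/
lemma Slp.small (S : StdC μ ν h h') (P : Slp μ ν h B β β1) (M : ℝ) {σ : ℝ} (hσ : 0 < σ) :
    ∀ᶠ x : ℝ in atTop, ∀ θ : ℝ, 0 < θ → θ ≤ M * (h x / x) →
      θ ≤ β x θ ∧ (eta μ ν - σ) * θ ≤ θ + β x θ ∧ θ + β x θ ≤ (eta μ ν + σ) * θ := by
  have hη := two_lt_eta S
  filter_upwards [P.lim M σ hσ, P.lim M (eta μ ν - 2) (by linarith)] with x h1 h2 θ hθ hθM
  have h3 := abs_le.1 (h1 θ hθ hθM)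
  have h4 := abs_le.1 (h2 θ hθ hθM)
  refine ⟨by nlinarith, by nlinarith, by nlinarith⟩

lemma gom_tilt (S : StdC μ ν h h') (P : Slp μ ν h B β β1) (A : ℝ) :
    ∀ ω C : ℝ, 0 < ω →
    ∀ᶠ x : ℝ in atTop, ∀ θ : ℝ, 0 < θ → θ ≤ A * (h x / x) → ∀ N : ℕ, (N : ℝ) ≤ C * x →
      ∀ w : ℝ × ℝ, 0 ≤ w.1 → w.1 ≤ w.2 →
      ∑ n ∈ Finset.range N, tiltOne μ ν x (B x) θ n w ≤
        (∑ n ∈ Finset.range N, lvlA μ ν (B x) θ n) * ENNReal.ofReal (1 + ω) *
          ENNReal.ofReal (Real.exp (-((θ + β x θ) * (x - w.2)))) := by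
  intro ω C hω
  obtain ⟨κ, hκ0, hκ⟩ : ∃ κ : ℝ, 0 < κ ∧ |C| * κ ≤ Real.log (1 + ω) := by
    have hl : 0 < Real.log (1 + ω) := Real.log_pos (by linarith)
    refine ⟨Real.log (1 + ω) / (|C| + 1), by positivity, ?_⟩
    rw [mul_div_assoc', div_le_iff₀ (by positivity)]
    nlinarith
  filter_upwards [P.small S A one_pos, P.phi A κ hκ0, eventually_gt_atTop 0] with x h1 h2 hx
    θ hθ hθ' N hN w hw0 hw1
  obtain ⟨hb1, -, -⟩ := h1 θ hθ hθ'
  have hφ := h2 θ hθ hθ'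
  have hκx : 0 ≤ κ / x := by positivity
  have hφ1 : (1 : ℝ≥0∞) ≤ ENNReal.ofReal (1 + κ / x) := by
    rw [← ENNReal.ofReal_one]
    exact ENNReal.ofReal_le_ofReal (by linarith)
  have h6 := tilt_upper (μ := μ) (ν := ν) hθ.le hb1 hφ1 hφ N x hw0 hw1
  refine h6.trans ?_
  gcongr
  rw [← ENNReal.ofReal_pow (by positivity)]
  refine ENNReal.ofReal_le_ofReal ?_
  calc (1 + κ / x) ^ N
      ≤ (Real.exp (κ / x)) ^ N := by
        refine pow_le_pow_left₀ (by positivity) ?_ _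
        rw [add_comm]
        exact Real.add_one_le_exp _
    _ = Real.exp (N * (κ / x)) := by rw [← Real.exp_nat_mul]
    _ ≤ Real.exp (Real.log (1 + ω)) := by
        refine Real.exp_le_exp.2 (le_trans ?_ hκ)
        have : (N : ℝ) ≤ |C| * x := hN.trans (mul_le_mul_of_nonneg_right (le_abs_self C) hx.le)
        calc (N : ℝ) * (κ / x) ≤ (|C| * x) * (κ / x) := by
              gcongr
          _ = _ := by field_simp
    _ = 1 + ω := Real.exp_log (by linarith)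

lemma gom_err (S : StdC μ ν h h') (T : SLvl h B) (P : Slp μ ν h B β β1) (A : ℝ) :
    ∀ σ ε0 C : ℝ, 0 < σ → ε0 ≤ 1 →
    ∀ᶠ x : ℝ in atTop, ∀ θ : ℝ, 0 < θ → θ ≤ A * (h x / x) → ∀ N : ℕ, (N : ℝ) ≤ C * x →
      ∀ w : ℝ × ℝ, 0 ≤ w.1 → w.1 ≤ w.2 → w.2 ≤ ε0 * x →
      ∑ n ∈ Finset.range N, tiltOne μ ν x (B x) θ n w ≤
        ENNReal.ofReal (4 / ((2 * (∫ t, t ∂ν) - ∫ s, s ∂μ) * θ) *
          Real.exp (-((1 - σ) * (1 - ε0) * (eta μ ν * θ * x)))) := by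
  have H := S.haz
  have hη0 : 0 < eta μ ν := by linarith [two_lt_eta S]
  have htilt := gom_tilt S P A
  obtain ⟨θ0, hθ0, hq⟩ := gqsum_upper S one_pos
  intro σ ε0 C hσ hε0
  have hx1 : Tendsto (fun x : ℝ => |A| * (h x / x)) atTop (𝓝 0) := by
    simpa using H.tendsto_div.const_mul |A|
  filter_upwards [hx1.eventually_lt_const hθ0, P.small S A (σ := σ * eta μ ν) (by positivity),
    htilt 1 C one_pos, T.tilt |A|,
    eventually_gt_atTop 0] with x h1 h2 h3 h4 hx θ hθ hθ' N hN w hw0 hw1 hw2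
  have hr0 : 0 ≤ h x / x := div_nonneg (H.nonneg x) hx.le
  have hθ'' : θ ≤ |A| * (h x / x) := hθ'.trans (mul_le_mul_of_nonneg_right (le_abs_self A) hr0)
  have h5 := h3 θ hθ hθ' N hN w hw0 hw1
  have hT : Tilt h θ (B x) := fun s hs hsB =>
    (mul_le_mul_of_nonneg_right hθ'' hs).trans (h4 s hs hsB)
  have h6 := hq θ hθ (hθ''.trans h1.le) (B x) hT N
  obtain ⟨-, hs1, -⟩ := h2 θ hθ hθ'
  have hlt := S.hlt
  have hE : 0 < (2 * (∫ t, t ∂ν) - ∫ s, s ∂μ) * θ := mul_pos (by linarith) hθ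
  have hwx : (1 - ε0) * x ≤ x - w.2 := by linarith
  have hw' : 0 ≤ x - w.2 := le_trans (mul_nonneg (by linarith) hx.le) hwx
  have h7 : (1 - σ) * (1 - ε0) * (eta μ ν * θ * x) ≤
      (θ + β x θ) * (x - w.2) := by
    have h8 : (1 - σ) * (eta μ ν * θ) ≤ θ + β x θ := by
      refine le_trans (le_of_eq ?_) hs1
      ring
    have h9 : (1 - σ) * (eta μ ν * θ) * (x - w.2) ≤ (θ + β x θ) * (x - w.2) :=
      mul_le_mul_of_nonneg_right h8 hw'
    rcases le_total σ 1 with hσ1 | hσ1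
    · have h10 : 0 ≤ (1 - σ) * (eta μ ν * θ) := mul_nonneg (by linarith) (by positivity)
      have h11 := mul_le_mul_of_nonneg_left hwx h10
      calc (1 - σ) * (1 - ε0) * (eta μ ν * θ * x) =
          (1 - σ) * (eta μ ν * θ) * ((1 - ε0) * x) := by ring
        _ ≤ _ := h11.trans h9
    · have h10 : (1 - σ) * (1 - ε0) * (eta μ ν * θ * x) ≤ 0 := by
        refine mul_nonpos_of_nonpos_of_nonneg ?_ (by positivity)
        exact mul_nonpos_of_nonpos_of_nonneg (by linarith) (by linarith)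
      have hgb : 0 ≤ θ + β x θ := by
        have h12 := P.nn x θ
        linarith
      exact h10.trans (mul_nonneg hgb hw')
  calc ∑ n ∈ Finset.range N, tiltOne μ ν x (B x) θ n w ≤ _ := h5
    _ ≤ ENNReal.ofReal ((1 + 1) / ((2 * (∫ t, t ∂ν) - ∫ s, s ∂μ) * θ)) * ENNReal.ofReal (1 + 1) *
          ENNReal.ofReal (Real.exp (-((1 - σ) * (1 - ε0) * (eta μ ν * θ * x)))) := by
        refine mul_le_mul' (mul_le_mul' h6 le_rfl) (ENNReal.ofReal_le_ofReal ?_)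
        exact Real.exp_le_exp.2 (neg_le_neg h7)
    _ = _ := by
        rw [← ENNReal.ofReal_mul (by positivity), ← ENNReal.ofReal_mul (by positivity)]
        congr 1
        ring

end Pool.Agent.Lib.MP_04add8_pr.U
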