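import Mathlib
import Pool.Agent.Lib.MP_04add8_pr.Cv.OmA
import Pool.Agent.Lib.MP_04add8_pr.Cv.Mix
import Pool.Agent.Lib.MP_04add8_pr.Cv.Pt
import Pool.Agent.Lib.MP_04add8_pr.U.OmTilt
import Pool.Agent.Lib.MP_04add8_pr.U.Err

open MeasureTheory ProbabilityTheory Filter Topology
open scoped ENNReal

set_option linter.unusedSectionVars false

namespace Pool.Agent.Lib.MP_04add8_pr.U

open Pool.Agent.Lib.MP_04add8_pr.Gen Pool.Agent.Lib.MP_04add8_pr.Cv

variable {h h' : ℝ → ℝ} {μ ν : Measure ℝ} [IsProbabilityMeasure μ]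
  [IsProbabilityMeasure ν]

variable {B : ℝ → ℝ} {β β1 : ℝ → ℝ → ℝ}

private lemma OneMain_num {θ g u w : ℝ} (hθ0 : 0 < θ) (hg : 0 < g) (hw0 : 0 < w) (hw1 : w ≤ 1)
    (hθ : |θ - g| ≤ w / 16 * g) (hu : |u| ≤ w / 16 * θ) :
    0 < θ - u ∧ θ - u ≤ (17 / 16) ^ 2 * g ∧ |u| ≤ θ / 2 ∧ g ≤ (1 + w) * (θ - u) := by
  have h1 := abs_le.1 hθ
  have h2 := abs_le.1 hu
  have h3 : w / 16 * g ≤ 1 / 16 * g := mul_le_mul_of_nonneg_right (by linarith) hg.le
  have h4 : w / 16 * θ ≤ 1 / 16 * θ := mul_le_mul_of_nonneg_right (by linarith) hθ0.le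
  refine ⟨by linarith, by linarith, hu.trans (by linarith), ?_⟩
  have h5 : (1 - w / 16) * θ ≤ θ - u := by linarith
  have h6 : (1 - w / 16) * g ≤ θ := by linarith
  have h7 : (1 - w / 16) * ((1 - w / 16) * g) ≤ (1 - w / 16) * θ :=
    mul_le_mul_of_nonneg_left h6 (by linarith)
  have h8 : 1 ≤ (1 + w) * ((1 - w / 16) * (1 - w / 16)) := by
    have h9 : (1 + w) * ((1 - w / 16) * (1 - w / 16)) =
        1 + 1 / 8 * w + (1 / 8 * (w * (1 - w)) + 5 / 8 * w) + (w ^ 2 / 256 + w ^ 3 / 256) := by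
      ring
    rw [h9]
    have h10 : 0 ≤ w * (1 - w) := mul_nonneg hw0.le (by linarith)
    have h11 : 0 ≤ w ^ 2 / 256 + w ^ 3 / 256 := by positivity
    linarith
  calc g = 1 * g := (one_mul g).symm
    _ ≤ (1 + w) * ((1 - w / 16) * (1 - w / 16)) * g := mul_le_mul_of_nonneg_right h8 hg.le
    _ = (1 + w) * ((1 - w / 16) * ((1 - w / 16) * g)) := by ring
    _ ≤ (1 + w) * (θ - u) := mul_le_mul_of_nonneg_left (h7.trans h5) (by linarith)

/-- **Main estimate, one big job, `n ≤ C x`**. Original: `one_main` in `One/OneMain.lean`.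
`y = η x`, `(θ, X)` from `gopt`, mixture from `gmix`, three error terms from `gpt`:
(i) tilt `T = (32/ε) h x / x` (harmless for jobs `≤ B x`), total exponent `≤ - 4 η h x`,
absorbed by `gerr_one`; (ii) tilt `c h' y`: total exponent
`h y + δ y h' y - (1 - (1-σ)(1-ε0)) c y h' y`, prefactor `C / h' y`, absorbed by `gerr_phi`;
(iii) `N exp (-h (2y)) ≤ C x exp (-(h y + c' y h' y))` (`HazC.diff_two`), absorbed by `gerr_phi`
(`C x = C (x h' y) / h' y`). Main term: `exp ((θ-u+β(θ-u)) w.2) ≤ exp (2 η h' (η x) w.2)`. -/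
theorem gone_main (S : StdC μ ν h h') (TB : SLvl h B) (P : Slp μ ν h B β β1) {ω : ℝ}
    (hω : 0 < ω) :
    ∃ ε0 : ℝ, 0 < ε0 ∧ ∀ C : ℝ,
      ∀ᶠ x : ℝ in atTop, ∀ w : ℝ × ℝ, 0 ≤ w.1 → w.1 ≤ w.2 → w.2 ≤ ε0 * x →
        ∀ N : ℕ, (N : ℝ) ≤ C * x →
        ∑ n ∈ Finset.range N, mainH μ ν h x (B x) n w ≤
          ENNReal.ofReal ((1 + ω) * fS h h' μ ν (β x) x *
            Real.exp (2 * eta μ ν * h' (eta μ ν * x) * w.2)) := by
  have H := S.haz
  have hη2 : 2 < eta μ ν := two_lt_eta S
  have hferr := fun {δ ω : ℝ} (hδ : 0 < δ) (hω : 0 < ω) (C : ℝ) => gerr_phi S P hδ hω C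
  have hferr1 := fun {δ ω : ℝ} (hδ : 0 < δ) (hω : 0 < ω) (C p : ℝ) => gerr_one S P hδ hω C p
  have hfpos : ∀ x : ℝ, 0 < x → 0 < fS h h' μ ν (β x) x := fun x hx => fS_pos S _ hx
  have herr0 := fun A => gom_err S TB P A
  have hfdef : ∀ x : ℝ, fS h h' μ ν (β x) x = Real.exp (-(hRate h (β x) x)) /
    ((2 * (∫ t, t ∂ν) - ∫ s, s ∂μ) * h' (eta μ ν * x)) := fun x => rfl
  have hopt0 := fun {ω : ℝ} (hω : 0 < ω) => gopt S P hω
  have hsm0 := fun {σ : ℝ} (hσ : 0 < σ) => P.small S 2 hσ
  generalize hη : eta μ ν = η at hη2 hferr hferr1 herr0 hfdef hopt0 hsm0 ⊢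
  have hη0 : 0 < η := by linarith
  obtain ⟨M, hM⟩ : ∃ M, M = 2 * (∫ t, t ∂ν) - ∫ s, s ∂μ := ⟨_, rfl⟩
  have hM0 : 0 < M := by have := S.hlt; rw [hM]; linarith
  rw [← hM] at hfdef
  -- the parameters
  set ω0 : ℝ := min (ω / 20) 1 with hω0d
  have hω0 : 0 < ω0 := by positivity
  have hω0a : ω0 ≤ 1 := min_le_right _ _
  have hω0b : (1 + ω0) ^ 4 + 3 * ω0 ≤ 1 + ω := by
    have e0 : ω0 ≤ ω / 20 := min_le_left _ _
    have e1 : 0 ≤ ω0 * (1 - ω0) := mul_nonneg hω0.le (sub_nonneg.2 hω0a)
    have e2 : 0 ≤ ω0 * ω0 * (1 - ω0) := mul_nonneg (mul_nonneg hω0.le hω0.le) (sub_nonneg.2 hω0a)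
    have e4 : 0 ≤ ω0 * ω0 * ω0 * (1 - ω0) :=
      mul_nonneg (mul_nonneg (mul_nonneg hω0.le hω0.le) hω0.le) (sub_nonneg.2 hω0a)
    have e3 : (1 + ω0) ^ 4 = 1 + 15 * ω0 - 11 * (ω0 * (1 - ω0)) - 5 * (ω0 * ω0 * (1 - ω0)) -
      ω0 * ω0 * ω0 * (1 - ω0) := by ring
    rw [e3]
    linarith
  obtain ⟨ω2, hω2, hmix⟩ := gmix H hω0
  obtain ⟨θq, hθq, hqs⟩ := gqsum_upper S hω0
  rw [← hM] at hqs
  obtain ⟨ε, hε, hε1, hmix⟩ := hmix (ω0 / 16) (by positivity) (by linarith)
  obtain ⟨δ, c, hδ, hc, hc1, hpt⟩ := gpt H hε hε1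
  set ω3 : ℝ := min (min ω2 (ω0 / 16)) (ε / 4) with hω3
  have hω30 : 0 < ω3 := by positivity
  have hω3a : ω3 ≤ ω2 := (min_le_left _ _).trans (min_le_left _ _)
  have hω3b' : ω3 ≤ ω0 / 16 := (min_le_left _ _).trans (min_le_right _ _)
  have hω3b : ω3 ≤ 1 / 16 := by linarith
  have hω3c : ω3 ≤ ε / 4 := min_le_right _ _
  have hopt := hopt0 hω30
  have hsm1 := hsm0 (σ := η / 8) (by positivity)
  obtain ⟨c', hc', hdiff⟩ := H.diff_two
  -- the exponents of the error terms
  obtain ⟨l, hl⟩ : ∃ l, l = 1 - ε / 4 := ⟨_, rfl⟩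
  have hl0 : 7 / 8 ≤ l := by rw [hl]; linarith
  have hl00 : 0 < l := by linarith
  have hl1 : l < 1 := by rw [hl]; linarith
  set s : ℝ := min (min (ε / 16) (δ / 4)) (1 / 2) with hs
  have hs0 : 0 < s := by positivity
  have hsa : s ≤ ε / 16 := (min_le_left _ _).trans (min_le_left _ _)
  have hsb : s ≤ δ / 4 := (min_le_left _ _).trans (min_le_right _ _)
  have hsc : s ≤ 1 / 2 := min_le_right _ _
  have hex1 : l + ε / 8 ≤ (1 - s) * (1 - s) := by
    have e1 : (1 - s) * (1 - s) = 1 - 2 * s + s ^ 2 := by ring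
    have e2 : 0 ≤ s ^ 2 := sq_nonneg s
    rw [e1, hl]
    linarith
  obtain ⟨AT, hAT⟩ : ∃ AT : ℝ, AT = 32 / ε := ⟨_, rfl⟩
  have hAT0 : 0 < AT := by rw [hAT]; positivity
  have hATε : AT * ε = 32 := by rw [hAT]; field_simp
  have hAT2 : 2 ≤ AT := by nlinarith
  have hex2 : δ / 2 ≤ δ - c + (1 - s) * (1 - s) * c := by
    have e1 : 0 ≤ s * (1 - c) := mul_nonneg hs0.le (sub_nonneg.2 hc1)
    have e2 : 0 ≤ c * s ^ 2 := mul_nonneg hc.le (sq_nonneg s)
    have e3 : (1 - s) * (1 - s) * c = c - 2 * s + 2 * (s * (1 - c)) + c * s ^ 2 := by ring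
    rw [e3]
    linarith
  have htl := gom_tilt S P 2
  have herr := herr0 AT
  refine ⟨s, hs0, ?_⟩
  intro C
  have hηx : Tendsto (fun x : ℝ => η * x) atTop atTop := tendsto_id.const_mul_atTop hη0
  obtain ⟨X0, hX0⟩ := eventually_atTop.1 hmix
  have hsmall : ∀ᶠ x : ℝ in atTop, 2 * (h x / x) < θq := by
    have h1 : Tendsto (fun x : ℝ => 2 * (h x / x)) atTop (𝓝 0) := by
      simpa using H.tendsto_div.const_mul 2
    exact h1.eventually_lt_const hθq
  filter_upwards [herr s s C hs0 (by linarith), htl ω0 C hω0, TB.tilt 2,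
    hopt, hsmall, hsm1, H.tendsto_h.eventually_ge_atTop 1,
    hferr1 one_pos hω0 (4 / M) 1, hferr (show 0 < δ / 2 by positivity) hω0 (4 / (M * c)),
    hferr hc' hω0 |C|, eventually_gt_atTop 0,
    hηx.eventually (eventually_ge_atTop (2 * X0))] with x he ht hts ho hs2 hsm hhx hE1 hE2
    hE3 hx hXX w hw0 hw1 hw2 N hN
  obtain ⟨θ, X, hθ0, hXpos, hθX, ho1, ho2, -, -, ho5⟩ := ho
  have hw2' : 0 ≤ w.2 := hw0.trans hw1
  obtain ⟨y, hy⟩ : ∃ y, y = η * x := ⟨_, rfl⟩
  rw [← hy] at hE1 hE2 hE3 hXX ho1 ho2 ⊢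
  have hy0 : 0 < y := by rw [hy]; positivity
  obtain ⟨g, hg⟩ : ∃ g, g = h' y := ⟨_, rfl⟩
  have hg0 : 0 < g := by rw [hg]; exact H.pos y hy0
  rw [← hg] at hE2 hE3 ho1 ⊢
  have hxy : 2 * x ≤ y := by rw [hy]; exact mul_le_mul_of_nonneg_right hη2.le hx.le
  have hgx : g ≤ h x / x := by
    rw [hg, le_div_iff₀ hx, mul_comm]
    calc x * h' y ≤ x * h' x :=
          mul_le_mul_of_nonneg_left (H.anti x y hx (by linarith)) hx.le
      _ ≤ h x := H.mul_deriv_le hx
  have ho1' := abs_le.1 ho1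
  have ho2' := abs_le.1 ho2
  have hω3y : ω3 * y ≤ 1 / 16 * y := mul_le_mul_of_nonneg_right hω3b hy0.le
  have hX2 : x ≤ X := by linarith
  have hXX' : X0 ≤ X := by linarith
  obtain ⟨γ, hγf, hγs, hγm, hγi⟩ := hX0 X hXX'
  have hθg : |θ - g| ≤ ω0 / 16 * g := ho1.trans (mul_le_mul_of_nonneg_right hω3b' hg0.le)
  rw [hθX] at hγs hγi
  have hXy : |X - y| ≤ ε / 4 * y := ho2.trans (mul_le_mul_of_nonneg_right hω3c hy0.le)
  obtain ⟨T, hT⟩ : ∃ T, T = AT * (h x / x) := ⟨_, rfl⟩
  have hTx : AT * h x = T * x := by rw [hT]; field_simp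
  have hT0 : 0 < T := by rw [hT]; positivity
  have hint := fun n => gom_integrated (μ := μ) (ν := ν) H hy0 hθX hε hε1 hXy hγm
    (hpt y hy0 T hT0.le) x (B x) n w
  rw [← hg, ← hl] at hint
  obtain ⟨f, hf⟩ : ∃ f, f = fS h h' μ ν (β x) x := ⟨_, rfl⟩
  have hf0 : 0 < f := by rw [hf]; exact hfpos x hx
  have hfd : f = Real.exp (-(hRate h (β x) x)) / (M * g) := by
    rw [hf, hfdef, ← hy, ← hg]
  rw [← hf] at hE1 hE2 hE3 ⊢
  have hexp1 : 1 ≤ Real.exp (2 * η * g * w.2) := Real.one_le_exp (by positivity)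
  -- the main term
  have hA : ∑ n ∈ Finset.range N, ∫⁻ u, ENNReal.ofReal (Real.exp (-(h X) + (θ - u) * X)) *
      tiltOne μ ν x (B x) (θ - u) n w ∂γ ≤
      ENNReal.ofReal ((1 + ω0) ^ 4 * f * Real.exp (2 * η * g * w.2)) := by
    rw [← lintegral_finsetSum' _ (fun n _ => by
      refine Measurable.aemeasurable (Measurable.mul ?_ (OneMainAux.measurable_tiltOne _ _ _ _ _))
      fun_prop)]
    simp_rw [← Finset.mul_sum]
    obtain ⟨R, hR⟩ : ∃ R, R = hRate h (β x) x := ⟨_, rfl⟩
    rw [← hR] at ho5 hfd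
    obtain ⟨Q, hQ⟩ : ∃ Q, Q = (1 + ω0) * ((1 + ω0) / (M * g)) := ⟨_, rfl⟩
    have hQ0 : 0 ≤ Q := by rw [hQ]; positivity
    calc ∫⁻ u, ENNReal.ofReal (Real.exp (-(h X) + (θ - u) * X)) *
          ∑ n ∈ Finset.range N, tiltOne μ ν x (B x) (θ - u) n w ∂γ
        ≤ ∫⁻ u, ENNReal.ofReal (Q * (1 + ω0) * Real.exp (-R + 2 * η * g * w.2)) *
          ENNReal.ofReal (Real.exp (ω2 * X * u ^ 2 / θ)) ∂γ := by
          refine lintegral_mono_ae ?_
          filter_upwards [hγs] with u hu
          obtain ⟨ht0, ht2, ht4, ht5⟩ := OneMain_num hθ0 hg0 hω0 hω0a hθg hu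
          have ht3 : θ - u ≤ 2 * (h x / x) := by
            refine ht2.trans ?_
            calc (17 / 16 : ℝ) ^ 2 * g ≤ 2 * g := mul_le_mul_of_nonneg_right (by norm_num) hg0.le
              _ ≤ 2 * (h x / x) := mul_le_mul_of_nonneg_left hgx (by norm_num)
          have hT := ht (θ - u) ht0 ht3 N hN w hw0 hw1
          have htil : Tilt h (θ - u) (B x) := by
            intro v hv0 hv1
            exact (mul_le_mul_of_nonneg_right ht3 hv0).trans (hts v hv0 hv1)
          have hL := hqs (θ - u) ht0 (ht3.trans hs2.le) (B x) htil N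
          have hL2 : ENNReal.ofReal ((1 + ω0) / (M * (θ - u))) ≤ ENNReal.ofReal Q := by
            refine ENNReal.ofReal_le_ofReal ?_
            rw [hQ, ← mul_div_assoc, div_le_div_iff₀ (by positivity) (by positivity)]
            have h1 : (1 + ω0) * M * g ≤ (1 + ω0) * M * ((1 + ω0) * (θ - u)) :=
              mul_le_mul_of_nonneg_left ht5 (by positivity)
            linarith
          have hexp := ho5 (-u) (by rw [abs_neg]; exact ht4)
          rw [← sub_eq_add_neg, neg_sq] at hexp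
          set β' := β x (θ - u) with hβ'
          have hs3 := (hsm (θ - u) ht0 ht3).2.2
          have h10 : (θ - u + β') * w.2 ≤ 2 * η * g * w.2 := by
            refine mul_le_mul_of_nonneg_right ?_ hw2'
            calc θ - u + β' ≤ (η + η / 8) * (θ - u) := hs3
              _ ≤ (η + η / 8) * ((17 / 16) ^ 2 * g) := by gcongr
              _ = (9 / 8 * (17 / 16) ^ 2) * (η * g) := by ring
              _ ≤ 2 * (η * g) := by gcongr; norm_num
              _ = 2 * η * g := by ring
          have h11 : ω3 / θ * x * u ^ 2 ≤ ω2 * X * u ^ 2 / θ := by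
            rw [div_mul_eq_mul_div, div_mul_eq_mul_div]
            gcongr
          calc ENNReal.ofReal (Real.exp (-(h X) + (θ - u) * X)) *
                ∑ n ∈ Finset.range N, tiltOne μ ν x (B x) (θ - u) n w
              ≤ ENNReal.ofReal (Real.exp (-(h X) + (θ - u) * X)) *
                (ENNReal.ofReal Q * ENNReal.ofReal (1 + ω0) *
                  ENNReal.ofReal (Real.exp (-((θ - u + β') * (x - w.2))))) := by
                gcongr
                refine hT.trans ?_
                gcongr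
                exact hL.trans hL2
            _ = ENNReal.ofReal (Q * (1 + ω0) * Real.exp (-(h X) + (θ - u) * X +
                  -((θ - u + β') * (x - w.2)))) := by
                rw [Real.exp_add _ (-((θ - u + β') * (x - w.2))), ← ENNReal.ofReal_mul hQ0,
                  ← ENNReal.ofReal_mul (by positivity), ← ENNReal.ofReal_mul (Real.exp_nonneg _)]
                congr 1
                ring
            _ ≤ ENNReal.ofReal (Q * (1 + ω0) * Real.exp ((-R + 2 * η * g * w.2) +
                  ω2 * X * u ^ 2 / θ)) := by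
                refine ENNReal.ofReal_le_ofReal (mul_le_mul_of_nonneg_left
                  (Real.exp_le_exp.2 ?_) (by positivity))
                linarith
            _ = _ := by
                rw [← ENNReal.ofReal_mul (by positivity), Real.exp_add]
                congr 1
                ring
      _ = ENNReal.ofReal (Q * (1 + ω0) * Real.exp (-R + 2 * η * g * w.2)) *
          ∫⁻ u, ENNReal.ofReal (Real.exp (ω2 * X * u ^ 2 / θ)) ∂γ :=
          lintegral_const_mul' _ _ ENNReal.ofReal_ne_top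
      _ ≤ ENNReal.ofReal (Q * (1 + ω0) * Real.exp (-R + 2 * η * g * w.2)) *
          ENNReal.ofReal (1 + ω0) := by
          gcongr
      _ ≤ _ := by
          rw [← ENNReal.ofReal_mul (by positivity)]
          refine ENNReal.ofReal_le_ofReal (le_of_eq ?_)
          rw [hfd, Real.exp_add, hQ]
          ring
  -- the first error term
  have hyy : η * x = y := hy.symm
  rw [← hM] at he
  have hB : ENNReal.ofReal (Real.exp (T * (l * y))) *
      ∑ n ∈ Finset.range N, tiltOne μ ν x (B x) T n w ≤ ENNReal.ofReal (ω0 * f) := by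
    have h1 := he T hT0 hT.le N hN w hw0 hw1 hw2
    calc ENNReal.ofReal (Real.exp (T * (l * y))) *
          ∑ n ∈ Finset.range N, tiltOne μ ν x (B x) T n w
        ≤ ENNReal.ofReal (Real.exp (T * (l * y))) *
          ENNReal.ofReal (4 / (M * T) * Real.exp (-((1 - s) * (1 - s) * (η * T * x)))) := by
          gcongr
      _ = ENNReal.ofReal (4 / (M * T) * Real.exp (T * (l * y) +
            -((1 - s) * (1 - s) * (η * T * x)))) := by
          rw [← ENNReal.ofReal_mul (Real.exp_nonneg _), Real.exp_add _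
            (-((1 - s) * (1 - s) * (η * T * x)))]
          congr 1
          ring
      _ ≤ ENNReal.ofReal (ω0 * f) := by
          refine ENNReal.ofReal_le_ofReal (le_trans ?_ hE1)
          have h2 : 4 / (M * T) ≤ 4 / M * x ^ (1 : ℝ) := by
            rw [Real.rpow_one, div_le_iff₀ (by positivity)]
            have h3 : 1 ≤ T * x := by
              rw [← hTx]
              nlinarith
            have h6 : 4 / M * x * (M * T) = 4 * (T * x) := by
              field_simp
            rw [h6]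
            linarith
          have h7 : T * (l * y) + -((1 - s) * (1 - s) * (η * T * x)) ≤ -((1 + 1) * h y) := by
            have h8 : (l + ε / 8) * (T * y) ≤ (1 - s) * (1 - s) * (T * y) :=
              mul_le_mul_of_nonneg_right hex1 (by positivity)
            have h9 : η * T * x = T * y := by rw [hy]; ring
            have h10 : ε / 8 * (T * y) = 4 * (η * h x) := by
              have h11 : ε / 8 * (T * y) = ε / 8 * η * (T * x) := by rw [hy]; ring
              rw [h11, ← hTx]
              have h12 : ε / 8 * η * (AT * h x) = (AT * ε) / 8 * (η * h x) := by ring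
              rw [h12, hATε]
              ring
            have h11 : h y ≤ η * h x := by
              rw [hy]
              exact H.mul_ge (by linarith) hx.le
            have h12 := H.nonneg y
            rw [h9]
            linarith
          gcongr
  have hC : ENNReal.ofReal (Real.exp (-(h y + δ * (y * g)) + c * g * y)) *
      ∑ n ∈ Finset.range N, tiltOne μ ν x (B x) (c * g) n w ≤ ENNReal.ofReal (ω0 * f) := by
    have hcg : 0 < c * g := by positivity
    have hcg2 : c * g ≤ AT * (h x / x) := by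
      have h1 : c * g ≤ 1 * g := mul_le_mul_of_nonneg_right hc1 hg0.le
      have h2 : 0 ≤ h x / x := div_nonneg (H.nonneg x) hx.le
      nlinarith
    have h1 := he (c * g) hcg hcg2 N hN w hw0 hw1 hw2
    calc ENNReal.ofReal (Real.exp (-(h y + δ * (y * g)) + c * g * y)) *
          ∑ n ∈ Finset.range N, tiltOne μ ν x (B x) (c * g) n w
        ≤ ENNReal.ofReal (Real.exp (-(h y + δ * (y * g)) + c * g * y)) *
          ENNReal.ofReal (4 / (M * (c * g)) *
            Real.exp (-((1 - s) * (1 - s) * (η * (c * g) * x)))) := by gcongr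
      _ = ENNReal.ofReal (4 / (M * (c * g)) * Real.exp (-(h y + δ * (y * g)) + c * g * y +
            -((1 - s) * (1 - s) * (η * (c * g) * x)))) := by
          rw [← ENNReal.ofReal_mul (Real.exp_nonneg _), Real.exp_add _
            (-((1 - s) * (1 - s) * (η * (c * g) * x)))]
          congr 1
          ring
      _ ≤ ENNReal.ofReal (ω0 * f) := by
          refine ENNReal.ofReal_le_ofReal (le_trans ?_ hE2)
          have h2 : -(h y + δ * (y * g)) + c * g * y +
              -((1 - s) * (1 - s) * (η * (c * g) * x)) ≤ -(h y + δ / 2 * (x * g)) := by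
            have h3 : -(h y + δ * (y * g)) + c * g * y +
                -((1 - s) * (1 - s) * (η * (c * g) * x)) =
                -(h y + (δ - c + (1 - s) * (1 - s) * c) * (y * g)) := by
              rw [hy]; ring
            rw [h3]
            have h4 : δ / 2 * (y * g) ≤ (δ - c + (1 - s) * (1 - s) * c) * (y * g) :=
              mul_le_mul_of_nonneg_right hex2 (by positivity)
            have h5 : δ / 2 * (x * g) ≤ δ / 2 * (y * g) := by
              gcongr
              linarith
            linarith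
          have h6 : 0 ≤ x * g := by positivity
          calc 4 / (M * (c * g)) * Real.exp (-(h y + δ * (y * g)) + c * g * y +
                -((1 - s) * (1 - s) * (η * (c * g) * x)))
              ≤ 4 / (M * (c * g)) * Real.exp (-(h y + δ / 2 * (x * g))) := by gcongr
            _ = 4 / (M * c) * 1 * Real.exp (-(h y + δ / 2 * (x * g))) / g := by
                field_simp
            _ ≤ 4 / (M * c) * (1 + x * g) * Real.exp (-(h y + δ / 2 * (x * g))) / g := by
                gcongr
                linarith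
  have hD : ∑ _n ∈ Finset.range N, ENNReal.ofReal (Real.exp (-(h (2 * y)))) ≤
      ENNReal.ofReal (ω0 * f) := by
    have hCx : 0 ≤ C * x := (Nat.cast_nonneg N).trans hN
    have hdy := hdiff y hy0
    rw [← hg] at hdy
    have h1 : -(h (2 * y)) ≤ -(h y + c' * (x * g)) := by
      have h2 : c' * (x * g) ≤ c' * (y * g) := by
        gcongr
        linarith
      linarith
    rw [Finset.sum_const, Finset.card_range, nsmul_eq_mul]
    calc (N : ℝ≥0∞) * ENNReal.ofReal (Real.exp (-(h (2 * y))))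
        ≤ ENNReal.ofReal (C * x) * ENNReal.ofReal (Real.exp (-(h y + c' * (x * g)))) := by
          gcongr
          rw [← ENNReal.ofReal_natCast]
          exact ENNReal.ofReal_le_ofReal hN
      _ = ENNReal.ofReal (C * x * Real.exp (-(h y + c' * (x * g)))) := by
          rw [← ENNReal.ofReal_mul hCx]
      _ ≤ ENNReal.ofReal (ω0 * f) := by
          refine ENNReal.ofReal_le_ofReal (le_trans ?_ hE3)
          have h2 : 0 ≤ x * g := by positivity
          calc C * x * Real.exp (-(h y + c' * (x * g)))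
              ≤ |C| * x * Real.exp (-(h y + c' * (x * g))) := by
                gcongr
                exact le_abs_self C
            _ = |C| * (0 + x * g) * Real.exp (-(h y + c' * (x * g))) / g := by
                field_simp
                ring
            _ ≤ |C| * (1 + x * g) * Real.exp (-(h y + c' * (x * g))) / g := by
                gcongr
                norm_num
  refine (Finset.sum_le_sum fun n _ => hint n).trans ?_
  rw [Finset.sum_add_distrib, Finset.sum_add_distrib, Finset.sum_add_distrib, ← Finset.mul_sum,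
    ← Finset.mul_sum]
  refine (add_le_add (add_le_add (add_le_add hA hB) hC) hD).trans ?_
  rw [← ENNReal.ofReal_add (by positivity) (by positivity),
    ← ENNReal.ofReal_add (by positivity) (by positivity),
    ← ENNReal.ofReal_add (by positivity) (by positivity)]
  refine ENNReal.ofReal_le_ofReal ?_
  have h1 : ω0 * f ≤ ω0 * f * Real.exp (2 * η * g * w.2) :=
    le_mul_of_one_le_right (by positivity) hexp1
  calc (1 + ω0) ^ 4 * f * Real.exp (2 * η * g * w.2) + ω0 * f + ω0 * f + ω0 * f ≤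
        (1 + ω0) ^ 4 * f * Real.exp (2 * η * g * w.2) + 3 * (ω0 * f * Real.exp (2 * η * g * w.2)) := by
        linarith
    _ = ((1 + ω0) ^ 4 + 3 * ω0) * (f * Real.exp (2 * η * g * w.2)) := by ring
    _ ≤ (1 + ω) * (f * Real.exp (2 * η * g * w.2)) :=
        mul_le_mul_of_nonneg_right hω0b (by positivity)
    _ = _ := by ring

end Pool.Agent.Lib.MP_04add8_pr.U
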