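import Mathlib
import Pool.Agent.Lib.MP_04add8_pr.U.ConeB
import Pool.Agent.Lib.MP_04add8_pr.U.OneSum
import Pool.Agent.Lib.MP_04add8_pr.Cv.ThrF
import Pool.Agent.Lib.MP_04add8_pr.Cv.PMom

open MeasureTheory ProbabilityTheory Filter Topology
open scoped ENNReal

set_option linter.unusedSectionVars false

namespace Pool.Agent.Lib.MP_04add8_pr.U

open Pool.Agent.Lib.MP_04add8_pr.Gen Pool.Agent.Lib.MP_04add8_pr.Cv

variable {h h' : ℝ → ℝ} {μ ν : Measure ℝ} [IsProbabilityMeasure μ]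
  [IsProbabilityMeasure ν]

variable {B : ℝ → ℝ} {β β1 : ℝ → ℝ → ℝ}

/-- **One nonsmall job, regime (i)**: the excursions above the level `v x` of length at most
`2 x ^ 20` with at most one nonsmall job. `gone_sum` (nonsmall job at step `0`), `csm_sum` (no nonsmall
job), `late_sum` (nonsmall job later: then the start is in `(v/2, v]`). -/
theorem cone_sum (S : StdC μ ν h h') {v : ℝ → ℝ} (T : Thr h h' B v) (P : Slp μ ν h B β β1)
    {ω : ℝ} (hω : 0 < ω) :
    ∀ᶠ x : ℝ in atTop, ∀ π : Measure (ℝ × ℝ), IsStationaryKW μ ν π → ∀ (Y : ℝ) (N : ℕ),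
      (N : ℝ) ≤ 2 * x ^ 20 →
      ∑ n ∈ Finset.Icc 1 N, (π.prod (noise μ ν)) (Cone x (v x) (B x) Y n) ≤
      ENNReal.ofReal ((1 + ω) * fS h h' μ ν (β x) x + ω * (Qf h h' x) ^ 2) := by
  have H := S.haz
  have TB := T.slvl H
  have hv : ∀ e : ℝ, 0 < e → ∀ᶠ x : ℝ in atTop, v x ≤ e * x := fun e he => T.v_le he
  have hvt := T.tendsto_v H
  filter_upwards [gone_sum S TB P hv (fun A ω' _ hω' => pmom_one S T A hω')
      (ω := ω / 4) (by positivity),
    csm_sum S TB hv (ω := ω / 4) (by positivity),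
    late_sum S TB P hv hvt (T.lin_le H) (pmom_two S T) (ω := ω / 4) (by positivity),
    H.log_le 21, T.mul_le H 2, hvt.eventually_ge_atTop 0, eventually_ge_atTop 2]
    with x e1 e2 e3 e4 e5 e6 hx2 π hπ Y N hN
  have hx : 0 < x := by linarith
  have hf0 : 0 < fS h h' μ ν (β x) x := fS_pos S _ hx
  have hQ0 : 0 ≤ (Qf h h' x) ^ 2 := sq_nonneg _
  have hNe : (N : ℝ) ≤ Real.exp (h x) := by
    refine hN.trans ?_
    have h1 : Real.exp (21 * Real.log x) = x ^ 21 := by
      rw [mul_comm, Real.exp_mul, Real.exp_log hx]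
      norm_cast
    have h2 : Real.exp (21 * Real.log x) ≤ Real.exp (h x) := Real.exp_le_exp.2 e4
    rw [h1] at h2
    refine le_trans ?_ h2
    have h3 : x ^ 21 = x * x ^ 20 := by ring
    rw [h3]
    gcongr
  refine (Cone_sum _ e6 (by linarith) N).trans ?_
  refine (add_le_add (add_le_add (e1 π hπ N hNe) (e2 π hπ N hN)) (e3 π hπ N hN)).trans ?_
  rw [← ENNReal.ofReal_add (by positivity) (by positivity),
    ← ENNReal.ofReal_add (by positivity) (by positivity)]
  apply ENNReal.ofReal_le_ofReal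
  nlinarith [mul_nonneg hω.le hf0.le, mul_nonneg hω.le hQ0]

end Pool.Agent.Lib.MP_04add8_pr.U
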