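import Mathlib
import Pool.Agent.Lib.MP_04add8_pr.One.DetL
import Pool.Agent.Lib.MP_04add8_pr.Two.Path

open MeasureTheory ProbabilityTheory Filter Topology
open scoped ENNReal

set_option linter.unusedSectionVars false

namespace Pool.Agent.Lib.MP_04add8_pr.U

/-- the first `n` jobs have size at most `B`, and each of them is at most `c` plus the sum of
the later ones: the last job is at most `c`, the one before it at most `c` plus the last one, and
so on -/
def gdSet (B : ℝ) : ℕ → ℝ → Set (ℕ → ℝ × ℝ)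
  | 0, _ => Set.univ
  | n + 1, c => {z | (z n).1 ≤ B ∧ (z n).1 ≤ c ∧ z ∈ gdSet B n (c + (z n).1)}

lemma mem_gdSet_succ {B c : ℝ} {n : ℕ} {z : ℕ → ℝ × ℝ} :
    z ∈ gdSet B (n + 1) c ↔ (z n).1 ≤ B ∧ (z n).1 ≤ c ∧ z ∈ gdSet B n (c + (z n).1) := Iff.rfl

lemma gdSet_allLe {B : ℝ} : ∀ {n : ℕ} {c : ℝ} {z : ℕ → ℝ × ℝ}, z ∈ gdSet B n c →
    ∀ k < n, (z k).1 ≤ B := by
  intro n
  induction n with
  | zero =>
    intro c z _ k hk
    exact absurd hk (Nat.not_lt_zero k)
  | succ n ih =>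
    intro c z hz k hk
    obtain ⟨h1, -, h3⟩ := hz
    rcases Nat.lt_succ_iff_lt_or_eq.1 hk with h | h
    · exact ih h3 k h
    · rw [h]; exact h1

lemma gdSet_subset {B : ℝ} {n : ℕ} {c : ℝ} : gdSet B n c ⊆ allLe B n :=
  fun _ hz => gdSet_allLe hz

/-- for `c ≥ B` there is no further condition -/
lemma allLe_gdSet {B : ℝ} : ∀ {n : ℕ} {c : ℝ} {z : ℕ → ℝ × ℝ}, B ≤ c →
    (∀ k, 0 ≤ (z k).1 ∧ 0 ≤ (z k).2) → z ∈ allLe B n → z ∈ gdSet B n c := by
  intro n
  induction n with
  | zero =>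
    intro c z _ _ _
    exact Set.mem_univ _
  | succ n ih =>
    intro c z hc hz0 hz
    have h1 := hz n (Nat.lt_succ_self n)
    refine ⟨h1, h1.trans hc, ih ?_ hz0 fun k hk => hz k (Nat.lt_succ_of_lt hk)⟩
    linarith [(hz0 n).1]

lemma gdSet_congr {B : ℝ} : ∀ {n : ℕ} {c : ℝ} {z z' : ℕ → ℝ × ℝ}, (∀ k < n, z k = z' k) →
    (z ∈ gdSet B n c ↔ z' ∈ gdSet B n c) := by
  intro n
  induction n with
  | zero =>
    intro c z z' _
    exact Iff.rfl
  | succ n ih =>
    intro c z z' h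
    rw [mem_gdSet_succ, mem_gdSet_succ, h n (Nat.lt_succ_self n),
      ih fun k hk => h k (Nat.lt_succ_of_lt hk)]

lemma measurableSet_gdSet2 (B : ℝ) (n : ℕ) :
    MeasurableSet {q : ℝ × (ℕ → ℝ × ℝ) | q.2 ∈ gdSet B n q.1} := by
  induction n with
  | zero =>
    have : {q : ℝ × (ℕ → ℝ × ℝ) | q.2 ∈ gdSet B 0 q.1} = Set.univ := by
      ext q
      simp [gdSet]
    rw [this]
    exact MeasurableSet.univ
  | succ n ih =>
    have h1 : Measurable (fun q : ℝ × (ℕ → ℝ × ℝ) => (q.2 n).1) := by fun_prop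
    have h2 : Measurable (fun q : ℝ × (ℕ → ℝ × ℝ) => (q.1 + (q.2 n).1, q.2)) :=
      (measurable_fst.add h1).prodMk measurable_snd
    have h3 : {q : ℝ × (ℕ → ℝ × ℝ) | q.2 ∈ gdSet B (n + 1) q.1} =
        {q : ℝ × (ℕ → ℝ × ℝ) | (q.2 n).1 ≤ B} ∩ ({q : ℝ × (ℕ → ℝ × ℝ) | (q.2 n).1 ≤ q.1} ∩
          (fun q : ℝ × (ℕ → ℝ × ℝ) => (q.1 + (q.2 n).1, q.2)) ⁻¹'
            {q : ℝ × (ℕ → ℝ × ℝ) | q.2 ∈ gdSet B n q.1}) := by
      ext q
      rfl
    rw [h3]
    exact (measurableSet_le h1 measurable_const).inter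
      ((measurableSet_le h1 measurable_fst).inter (h2 ih))

lemma measurableSet_gdSet (B : ℝ) (n : ℕ) (c : ℝ) : MeasurableSet (gdSet B n c) := by
  have h1 : Measurable (fun z : ℕ → ℝ × ℝ => (c, z)) := measurable_const.prodMk measurable_id
  exact h1 (measurableSet_gdSet2 B n)

section stoch

variable {μ ν : Measure ℝ} [IsProbabilityMeasure μ] [IsProbabilityMeasure ν]

/-- separating the last step -/
lemma lintegral_noise_snoc (n : ℕ) {f : (ℕ → ℝ × ℝ) → ℝ≥0∞} (hf : Measurable f)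
    {g : (ℕ → ℝ × ℝ) → ℝ × ℝ → ℝ≥0∞} (hg : ∀ z p z', f (cat n z (gcons p z')) = g z p) :
    ∫⁻ z, f z ∂(noise μ ν) = ∫⁻ z, ∫⁻ p, g z p ∂(μ.prod ν) ∂(noise μ ν) := by
  rw [lintegral_noise_cat n hf]
  apply lintegral_congr
  intro z
  have hm : Measurable fun z' : ℕ → ℝ × ℝ => f (cat n z z') :=
    hf.comp ((measurable_cat n).comp (measurable_const.prodMk measurable_id))
  rw [lintegral_noise_cons hm]
  apply lintegral_congr
  intro p
  simp only [hg, lintegral_const, measure_univ, mul_one]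

end stoch

namespace GoodAux

lemma inv_step {e a r s t : ℝ} {v : ℝ × ℝ} (h1 : v.1 ≤ v.2) (hs : 0 ≤ s)
    (hse : s ≤ e) (h : DetL.Inv (e + s) a r v) :
    DetL.Inv e (a - t) (max (r + s - t) 0) (kwStep v s t) := by
  rcases h with ⟨hv, hr, hra⟩ | ⟨hd, hsum, ha⟩
  · subst hv
    by_cases hc : max (r + s - t) 0 ≤ a - t
    · left
      have h0 : 0 ≤ a - t := le_trans (le_max_right _ _) hc
      refine ⟨?_, le_max_right _ _, hc⟩
      unfold kwStep
      simp only
      rw [max_eq_left h0, min_eq_left hc, max_eq_right hc]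
    · right
      push Not at hc
      have hc' : max (a - t) 0 ≤ max (r + s - t) 0 := max_le hc.le (le_max_right _ _)
      unfold kwStep
      simp only
      rw [min_eq_right hc', max_eq_left hc']
      refine ⟨?_, ?_, hc.le⟩
      · refine max_le ?_ ?_
        · have := le_max_left (a - t) 0
          linarith
        · have := le_max_right (a - t) 0
          linarith
      · have := le_max_left (a - t) 0
        linarith
  · right
    unfold kwStep
    simp only
    refine ⟨?_, ?_, ?_⟩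
    · have k1 : max (v.1 + s - t) 0 ≤ max (v.2 - t) 0 + e := by
        refine max_le ?_ ?_
        · have := le_max_left (v.2 - t) 0
          linarith
        · have := le_max_right (v.2 - t) 0
          linarith
      have k2 : max (v.2 - t) 0 ≤ max (v.1 + s - t) 0 + e := by
        refine max_le ?_ ?_
        · have := le_max_left (v.1 + s - t) 0
          linarith
        · have := le_max_right (v.1 + s - t) 0
          linarith
      rcases le_total (max (v.1 + s - t) 0) (max (v.2 - t) 0) with h | h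
      · rw [max_eq_right h, min_eq_left h]; exact k2
      · rw [max_eq_left h, min_eq_right h]; exact k1
    · rw [min_add_max]
      have k1 := le_max_left (v.1 + s - t) 0
      have k2 := le_max_left (v.2 - t) 0
      have k3 := le_max_right (v.1 + s - t) 0
      have k4 : max (r + s - t) 0 ≤ max (v.1 + s - t) 0 + max (v.2 - t) 0 - (a - t) := by
        refine max_le ?_ ?_
        · linarith
        · linarith
      linarith
    · have k2 := le_max_left (v.2 - t) 0
      have k3 := le_max_right (max (v.1 + s - t) 0) (max (v.2 - t) 0)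
      linarith

end GoodAux

/-- `det_one_lower` with a condition on the sizes in terms of the later jobs only -/
theorem det_one_good {x B b : ℝ} (hx : 0 ≤ x) (hb : 0 ≤ b) {w : ℝ × ℝ} (h0 : 0 ≤ w.1)
    (h1 : w.1 ≤ w.2) {p : ℝ × ℝ} (hp : 0 ≤ p.1 ∧ 0 ≤ p.2) {z : ℕ → ℝ × ℝ}
    (hz : ∀ k, 0 ≤ (z k).1 ∧ 0 ≤ (z k).2) (n : ℕ) (hze : z ∈ gdSet B n b)
    (hr : x < reflW 0 z n) (hy : 2 * x + b + p.2 + sumA z n - reflW 0 z n < p.1) :
    x < (pIter (kwStep w p.1 p.2) z n).1 := by
  set v := kwStep ((0, 0) : ℝ × ℝ) p.1 p.2 with hv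
  have v0 : 0 ≤ v.1 := kwStep_fst_nonneg _ _ _
  have v1 : v.1 ≤ v.2 := kwStep_fst_le_snd _ _ _
  have hle : v ≤ kwStep w p.1 p.2 := kwStep_mono (Prod.mk_le_mk.mpr ⟨h0, h0.trans h1⟩) _ _
  have hmono := pIter_mono hle z n
  refine lt_of_lt_of_le ?_ hmono.1
  have hinv : ∀ k (c : ℝ), 0 ≤ c → z ∈ gdSet B k c →
      DetL.Inv c (p.1 - p.2 - sumA z k) (reflW 0 z k) (pIter v z k) := by
    intro k
    induction k with
    | zero =>
      intro c hc0 _
      have hs0 : sumA z 0 = 0 := by simp [sumA]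
      rw [pIter_zero, reflW_zero, hs0, sub_zero]
      have hvv : v = (min (max (0 + p.1 - p.2) 0) (max (0 - p.2) 0),
        max (max (0 + p.1 - p.2) 0) (max (0 - p.2) 0)) := rfl
      have hb : max (0 - p.2) 0 = 0 := max_eq_right (by linarith [hp.2])
      rw [hb, zero_add, min_eq_right (le_max_right _ _), max_eq_left (le_max_right _ _)] at hvv
      by_cases hc : 0 ≤ p.1 - p.2
      · left
        refine ⟨?_, le_rfl, hc⟩
        rw [hvv, max_eq_left hc]
      · right
        push Not at hc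
        rw [hvv, max_eq_right hc.le]
        refine ⟨?_, ?_, ?_⟩ <;> simp <;> linarith
    | succ k ih =>
      intro c hc0 hk
      obtain ⟨-, hk2, hk3⟩ := hk
      have h3 := ih (c + (z k).1) (by linarith [(hz k).1]) hk3
      have h4 := GoodAux.inv_step (s := (z k).1) (t := (z k).2) (pIter_ordered v0 v1 z k).2
        (hz k).1 hk2 h3
      rw [pIter_succ, reflW_succ, sumA_succ]
      have h5 : p.1 - p.2 - (sumA z k + (z k).2) = p.1 - p.2 - sumA z k - (z k).2 := by ring
      rw [h5]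
      exact h4
  rcases hinv n b hb hze with ⟨h3, -, -⟩ | ⟨h3, h4, -⟩
  · rw [h3]; exact hr
  · linarith

end Pool.Agent.Lib.MP_04add8_pr.U
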