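import Mathlib
import Pool.Agent.Lib.MP_04add8_pr.One.Lvl
import Pool.Agent.Lib.MP_04add8_pr.U.Good

open MeasureTheory ProbabilityTheory Filter Topology
open scoped ENNReal

set_option linter.unusedSectionVars false

namespace Pool.Agent.Lib.MP_04add8_pr.U

section stoch

variable {μ ν : Measure ℝ} [IsProbabilityMeasure μ] [IsProbabilityMeasure ν]

/-- discounted overshoot over the level `y` on the good paths -/
noncomputable def lvG (μ ν : Measure ℝ) [IsProbabilityMeasure μ] [IsProbabilityMeasure ν]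
    (B θ : ℝ) (n : ℕ) (y c : ℝ) : ℝ≥0∞ :=
  ∫⁻ z, (gdSet B n c).indicator (fun _ => (1 : ℝ≥0∞)) z *
    (ENNReal.ofReal (Real.exp (-(θ * sumA z n))) * revF θ y (reflW 0 z n)) ∂(noise μ ν)

lemma LvlG_ind (B : ℝ) (n : ℕ) : Measurable (fun q : (ℝ × ℝ) × (ℕ → ℝ × ℝ) =>
    (gdSet B n q.1.2).indicator (fun _ => (1 : ℝ≥0∞)) q.2) := by
  have h1 : Measurable (fun q : (ℝ × ℝ) × (ℕ → ℝ × ℝ) => (q.1.2, q.2)) :=
    (measurable_snd.comp measurable_fst).prodMk measurable_snd
  have h2 : MeasurableSet {q : (ℝ × ℝ) × (ℕ → ℝ × ℝ) | q.2 ∈ gdSet B n q.1.2} :=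
    h1 (measurableSet_gdSet2 B n)
  have h3 : (fun q : (ℝ × ℝ) × (ℕ → ℝ × ℝ) =>
      (gdSet B n q.1.2).indicator (fun _ => (1 : ℝ≥0∞)) q.2) =
      {q : (ℝ × ℝ) × (ℕ → ℝ × ℝ) | q.2 ∈ gdSet B n q.1.2}.indicator (fun _ => (1 : ℝ≥0∞)) := by
    funext q
    by_cases hq : q.2 ∈ gdSet B n q.1.2
    · rw [Set.indicator_of_mem hq]
      exact (Set.indicator_of_mem (s := {q : (ℝ × ℝ) × (ℕ → ℝ × ℝ) | q.2 ∈ gdSet B n q.1.2})
        hq (fun _ => (1 : ℝ≥0∞))).symm
    · rw [Set.indicator_of_notMem hq]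
      exact (Set.indicator_of_notMem
        (s := {q : (ℝ × ℝ) × (ℕ → ℝ × ℝ) | q.2 ∈ gdSet B n q.1.2}) hq
        (fun _ => (1 : ℝ≥0∞))).symm
  rw [h3]
  exact measurable_const.indicator h2

lemma LvlG_integrand (B θ : ℝ) (n : ℕ) : Measurable (fun q : (ℝ × ℝ) × (ℕ → ℝ × ℝ) =>
    (gdSet B n q.1.2).indicator (fun _ => (1 : ℝ≥0∞)) q.2 *
      (ENNReal.ofReal (Real.exp (-(θ * sumA q.2 n))) * revF θ q.1.1 (reflW 0 q.2 n))) := by
  have h2 : Measurable (fun q : (ℝ × ℝ) × (ℕ → ℝ × ℝ) =>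
      ENNReal.ofReal (Real.exp (-(θ * sumA q.2 n)))) := by
    have : Measurable (fun q : (ℝ × ℝ) × (ℕ → ℝ × ℝ) => sumA q.2 n) :=
      (rev_meas_sumA n).comp measurable_snd
    exact (Real.measurable_exp.comp ((measurable_const.mul this).neg)).ennreal_ofReal
  have h3 : Measurable (fun q : (ℝ × ℝ) × (ℕ → ℝ × ℝ) => revF θ q.1.1 (reflW 0 q.2 n)) :=
    (revF_meas2 θ).comp ((measurable_fst.comp measurable_fst).prodMk
      ((measurable_reflW_right 0 n).comp measurable_snd))
  exact (LvlG_ind B n).mul (h2.mul h3)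

lemma measurable_lvG (B θ : ℝ) (n : ℕ) :
    Measurable (fun q : ℝ × ℝ => lvG μ ν B θ n q.1 q.2) := by
  unfold lvG
  exact Measurable.lintegral_prod_right' (LvlG_integrand B θ n)

/-- the recursion: strip the last step -/
theorem lvG_succ (B θ : ℝ) (n : ℕ) {y : ℝ} (hy : 0 ≤ y) (c : ℝ) :
    lvG μ ν B θ (n + 1) y c =
      ∫⁻ p, lvlG B θ p * (if p.1 ≤ c then lvG μ ν B θ n (y - (p.1 - p.2)) (c + p.1) else 0)
        ∂(μ.prod ν) := by
  have hm : Measurable (fun z : ℕ → ℝ × ℝ => (gdSet B (n + 1) c).indicator (fun _ => (1 : ℝ≥0∞)) z *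
      (ENNReal.ofReal (Real.exp (-(θ * sumA z (n + 1)))) * revF θ y (reflW 0 z (n + 1)))) :=
    (LvlG_integrand B θ (n + 1)).comp
      ((measurable_const (a := ((y, c) : ℝ × ℝ))).prodMk measurable_id)
  have hcat : ∀ (z : ℕ → ℝ × ℝ) (p : ℝ × ℝ) (z' : ℕ → ℝ × ℝ), ∀ k < n,
      cat n z (gcons p z') k = z k := fun z p z' k hk => cat_lt _ _ hk
  have hcatn : ∀ (z : ℕ → ℝ × ℝ) (p : ℝ × ℝ) (z' : ℕ → ℝ × ℝ), cat n z (gcons p z') n = p := by
    intro z p z'
    have := cat_add n 0 z (gcons p z')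
    exact this
  have hrefl : ∀ (z z1 : ℕ → ℝ × ℝ) (m : ℕ), (∀ k < m, z k = z1 k) →
      reflW 0 z m = reflW 0 z1 m := by
    intro z z1 m
    induction m with
    | zero => intro _; rfl
    | succ m ih =>
      intro hk
      rw [reflW_succ, reflW_succ, ih fun k hk' => hk k (Nat.lt_succ_of_lt hk'),
        hk m (Nat.lt_succ_self m)]
  have hsum : ∀ (z z1 : ℕ → ℝ × ℝ) (m : ℕ), (∀ k < m, z k = z1 k) → sumA z m = sumA z1 m := by
    intro z z1 m hk
    unfold sumA
    apply Finset.sum_congr rfl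
    intro i hi
    rw [hk i (Finset.mem_range.1 hi)]
  unfold lvG
  rw [lintegral_noise_snoc n hm (g := fun z p => lvlG B θ p * (if p.1 ≤ c then
    (gdSet B n (c + p.1)).indicator (fun _ => (1 : ℝ≥0∞)) z *
      (ENNReal.ofReal (Real.exp (-(θ * sumA z n))) *
        revF θ (y - (p.1 - p.2)) (reflW 0 z n)) else 0))]
  · -- swap
    have hj : Measurable (fun q : (ℕ → ℝ × ℝ) × (ℝ × ℝ) => lvlG B θ q.2 * (if q.2.1 ≤ c then
        (gdSet B n (c + q.2.1)).indicator (fun _ => (1 : ℝ≥0∞)) q.1 *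
          (ENNReal.ofReal (Real.exp (-(θ * sumA q.1 n))) *
            revF θ (y - (q.2.1 - q.2.2)) (reflW 0 q.1 n)) else 0)) := by
      apply ((lvlG_meas B θ).comp measurable_snd).mul
      apply Measurable.ite _ _ measurable_const
      · exact measurableSet_le (measurable_fst.comp measurable_snd) measurable_const
      · have h1 : Measurable (fun q : (ℕ → ℝ × ℝ) × (ℝ × ℝ) =>
            (((y - (q.2.1 - q.2.2), c + q.2.1) : ℝ × ℝ), q.1)) := by
          refine Measurable.prodMk (Measurable.prodMk ?_ ?_) measurable_fst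
          · fun_prop
          · fun_prop
        exact (LvlG_integrand B θ n).comp h1
    rw [lintegral_lintegral_swap hj.aemeasurable]
    apply lintegral_congr
    intro p
    by_cases hp : p.1 ≤ c
    · simp only [if_pos hp]
      rw [lintegral_const_mul]
      exact (LvlG_integrand B θ n).comp
        ((measurable_const (a := ((y - (p.1 - p.2), c + p.1) : ℝ × ℝ))).prodMk measurable_id)
    · simp only [if_neg hp, mul_zero, lintegral_const, zero_mul]
  · intro z p z'
    have hz := hcat z p z'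
    have hs : sumA (cat n z (gcons p z')) (n + 1) = sumA z n + p.2 := by
      rw [sumA_succ, hsum _ z n hz, hcatn]
    have hr : reflW 0 (cat n z (gcons p z')) (n + 1) = max (reflW 0 z n + p.1 - p.2) 0 := by
      rw [reflW_succ, hrefl _ z n hz, hcatn]
    rw [hs, hr, revF_max hy]
    have e1 : reflW 0 z n + p.1 - p.2 = reflW 0 z n + (p.1 - p.2) := by ring
    rw [e1, revF_shift]
    have e2 : ENNReal.ofReal (Real.exp (-(θ * (sumA z n + p.2)))) =
        ENNReal.ofReal (Real.exp (-(θ * p.2))) * ENNReal.ofReal (Real.exp (-(θ * sumA z n))) := by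
      rw [← ENNReal.ofReal_mul (Real.exp_nonneg _), ← Real.exp_add]
      congr 2
      ring
    rw [e2]
    have hmem : cat n z (gcons p z') ∈ gdSet B (n + 1) c ↔
        p.1 ≤ B ∧ p.1 ≤ c ∧ z ∈ gdSet B n (c + p.1) := by
      rw [mem_gdSet_succ, hcatn, gdSet_congr hz]
    unfold lvlG
    by_cases h1 : p.1 ≤ B
    · by_cases h2 : p.1 ≤ c
      · by_cases h3 : z ∈ gdSet B n (c + p.1)
        · rw [Set.indicator_of_mem (hmem.2 ⟨h1, h2, h3⟩), if_pos h2, Set.indicator_of_mem h3,
            Set.indicator_of_mem (Set.mem_Iic.2 h1)]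
          ring
        · rw [Set.indicator_of_notMem (fun hh => h3 (hmem.1 hh).2.2), if_pos h2,
            Set.indicator_of_notMem h3]
          simp
      · rw [Set.indicator_of_notMem (fun hh => h2 (hmem.1 hh).2.1), if_neg h2]
        simp
    · rw [Set.indicator_of_notMem (fun hh => h1 (hmem.1 hh).1),
        Set.indicator_of_notMem (fun hh => h1 (Set.mem_Iic.1 hh))]
      simp

lemma lvG_zero {B θ : ℝ} {y : ℝ} (hy : 0 ≤ y) (c : ℝ) : lvG μ ν B θ 0 y c = 0 := by
  unfold lvG
  have h : ∀ z : ℕ → ℝ × ℝ, (gdSet B 0 c).indicator (fun _ => (1 : ℝ≥0∞)) z *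
      (ENNReal.ofReal (Real.exp (-(θ * sumA z 0))) * revF θ y (reflW 0 z 0)) = 0 := by
    intro z
    unfold revF
    rw [reflW_zero, if_neg (not_lt.2 hy), mul_zero, mul_zero]
  simp only [h, lintegral_const, zero_mul]

/-- the recursion for the sums -/
lemma lvG_sum_succ (B θ : ℝ) (N : ℕ) {y : ℝ} (hy : 0 ≤ y) (c : ℝ) :
    ∑ n ∈ Finset.range (N + 1), lvG μ ν B θ n y c =
      ∫⁻ p, lvlG B θ p * (if p.1 ≤ c then
        ∑ n ∈ Finset.range N, lvG μ ν B θ n (y - (p.1 - p.2)) (c + p.1) else 0) ∂(μ.prod ν) := by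
  rw [Finset.sum_range_succ', lvG_zero hy, add_zero]
  have h1 : ∀ n ∈ Finset.range N, lvG μ ν B θ (n + 1) y c =
      ∫⁻ p, lvlG B θ p * (if p.1 ≤ c then lvG μ ν B θ n (y - (p.1 - p.2)) (c + p.1) else 0)
        ∂(μ.prod ν) := fun n _ => lvG_succ B θ n hy c
  rw [Finset.sum_congr rfl h1, ← lintegral_finsetSum]
  · apply lintegral_congr
    intro p
    rw [← Finset.mul_sum]
    by_cases hp : p.1 ≤ c
    · simp only [if_pos hp]
    · simp only [if_neg hp, Finset.sum_const_zero]
  · intro n _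
    apply (lvlG_meas B θ).mul
    apply Measurable.ite (measurableSet_le measurable_fst measurable_const) _ measurable_const
    have : Measurable (fun p : ℝ × ℝ => ((y - (p.1 - p.2), c + p.1) : ℝ × ℝ)) := by
      refine Measurable.prodMk ?_ ?_
      · fun_prop
      · fun_prop
    exact (measurable_lvG B θ n).comp this

/-- below `0` with `c ≥ B` the functional is at least the unrestricted one -/
lemma lvG_neg (hμ0 : ∀ᵐ z ∂(noise μ ν), ∀ k, 0 ≤ (z k).1 ∧ 0 ≤ (z k).2) {B θ : ℝ} (hθ : 0 ≤ θ)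
    (n : ℕ) {y c : ℝ} (hy : y < 0) (hc : B ≤ c) : lvlA μ ν B θ n ≤ lvG μ ν B θ n y c := by
  unfold lvlA lvG
  apply lintegral_mono_ae
  filter_upwards [hμ0] with z hz
  by_cases hz1 : z ∈ allLe B n
  · rw [Set.indicator_of_mem hz1, Set.indicator_of_mem (allLe_gdSet hc hz hz1), one_mul]
    unfold revF
    rw [if_pos (lt_of_lt_of_le hy (reflW_nonneg le_rfl z n)),
      ← ENNReal.ofReal_mul (Real.exp_nonneg _), ← Real.exp_add]
    apply ENNReal.ofReal_le_ofReal
    apply Real.exp_le_exp.2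
    have : θ * y ≤ 0 := mul_nonpos_of_nonneg_of_nonpos hθ hy.le
    linarith
  · rw [Set.indicator_of_notMem hz1]
    exact zero_le

/-- **Lower bound for the level functional on the good paths.** `Wt` is a supersolution for the
overshoot at the level `0` and for the bad jobs. -/
theorem lvG_lower (hz0 : ∀ᵐ z ∂(noise μ ν), ∀ k, 0 ≤ (z k).1 ∧ 0 ≤ (z k).2)
    (hp0 : ∀ᵐ p ∂(μ.prod ν), 0 ≤ p.1 ∧ 0 ≤ p.2) {B b θ β lam : ℝ} (hθ : 0 ≤ θ) (hlam : 0 ≤ lam)
    {Wt : ℝ → ℝ → ℝ≥0∞} (hWm : Measurable (fun q : ℝ × ℝ => Wt q.1 q.2))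
    (hW1 : ∀ y c : ℝ, y < 0 → ENNReal.ofReal (Real.exp (-(β * y))) ≤
      1 + ENNReal.ofReal (Real.exp (-(β * y))) * Wt y c)
    (hW2 : ∀ y c : ℝ, 0 ≤ y → b ≤ c →
      ∫⁻ p, lvlG B θ p * ENNReal.ofReal (Real.exp (-(β * (y - (p.1 - p.2))))) *
        (if p.1 ≤ c then Wt (y - (p.1 - p.2)) (c + p.1) else 1) ∂(μ.prod ν) ≤
      max 1 (trPhi μ ν B β θ) * (ENNReal.ofReal (Real.exp (-(β * y))) * Wt y c))
    (N J : ℕ) {y c : ℝ} (hc : b ≤ c) (hyc : B ≤ c + y) :
    (∑ n ∈ Finset.range J, lvlA μ ν B θ n) *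
        trPhi μ ν B β θ ^ N * ENNReal.ofReal (Real.exp (-(β * y))) ≤
      (max 1 (trPhi μ ν B β θ)) ^ N * (∑ n ∈ Finset.range (N + J), lvG μ ν B θ n y c +
        (∑ n ∈ Finset.range J, lvlA μ ν B θ n) *
          (ENNReal.ofReal (Real.exp (-(β * y))) * Wt y c)) +
      (∑ n ∈ Finset.range J, lvlA μ ν B θ n) *
        trPhi μ ν B (β - lam) θ ^ N * ENNReal.ofReal (Real.exp (-((β - lam) * y))) := by
  set Q : ℝ≥0∞ := ∑ n ∈ Finset.range J, lvlA μ ν B θ n with hQ
  set Φ := trPhi μ ν B β θ with hΦ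
  set Φ' := trPhi μ ν B (β - lam) θ with hΦ'
  -- the case `y < 0`
  have hneg : ∀ (N : ℕ) (y c : ℝ), B ≤ c + y → y < 0 →
      Q * Φ ^ N * ENNReal.ofReal (Real.exp (-(β * y))) ≤
      (max 1 Φ) ^ N * (∑ n ∈ Finset.range (N + J), lvG μ ν B θ n y c +
        Q * (ENNReal.ofReal (Real.exp (-(β * y))) * Wt y c)) := by
    intro N y c hyc hy0
    have h1 := hW1 y c hy0
    have h2 : Q ≤ ∑ n ∈ Finset.range (N + J), lvG μ ν B θ n y c := by
      rw [hQ]
      refine le_trans (Finset.sum_le_sum fun n _ => lvG_neg hz0 hθ n hy0 (by linarith : B ≤ c)) ?_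
      exact Finset.sum_le_sum_of_subset (Finset.range_mono (by omega))
    calc Q * Φ ^ N * ENNReal.ofReal (Real.exp (-(β * y)))
        = Φ ^ N * (Q * ENNReal.ofReal (Real.exp (-(β * y)))) := by ring
      _ ≤ (max 1 Φ) ^ N * (Q * (1 + ENNReal.ofReal (Real.exp (-(β * y))) * Wt y c)) := by
          gcongr
          exact le_max_right _ _
      _ = (max 1 Φ) ^ N * (Q + Q * (ENNReal.ofReal (Real.exp (-(β * y))) * Wt y c)) := by ring
      _ ≤ _ := by gcongr
  induction N generalizing y c with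
  | zero =>
    rcases lt_or_ge y 0 with hy0 | hy0
    · exact (hneg 0 y c hyc hy0).trans le_self_add
    · refine le_trans ?_ le_add_self
      rw [pow_zero, pow_zero]
      gcongr
      nlinarith
  | succ N ih =>
    rcases lt_or_ge y 0 with hy0 | hy0
    · exact (hneg (N + 1) y c hyc hy0).trans le_self_add
    · have hsum : ∑ n ∈ Finset.range (N + 1 + J), lvG μ ν B θ n y c =
          ∫⁻ p, lvlG B θ p * (if p.1 ≤ c then
            ∑ n ∈ Finset.range (N + J), lvG μ ν B θ n (y - (p.1 - p.2)) (c + p.1) else 0)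
              ∂(μ.prod ν) := by
        have : N + 1 + J = (N + J) + 1 := by omega
        rw [this]
        exact lvG_sum_succ B θ (N + J) hy0 c
      have hmexp : ∀ β' : ℝ, Measurable (fun p : ℝ × ℝ =>
          lvlG B θ p * ENNReal.ofReal (Real.exp (-(β' * (y - (p.1 - p.2)))))) := by
        intro β'
        apply (lvlG_meas B θ).mul
        fun_prop
      have hmap : Measurable (fun p : ℝ × ℝ => ((y - (p.1 - p.2), c + p.1) : ℝ × ℝ)) := by
        refine Measurable.prodMk ?_ ?_
        · fun_prop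
        · fun_prop
      have hmsum : Measurable (fun p : ℝ × ℝ => lvlG B θ p * (if p.1 ≤ c then
          ∑ n ∈ Finset.range (N + J), lvG μ ν B θ n (y - (p.1 - p.2)) (c + p.1) else 0)) := by
        apply (lvlG_meas B θ).mul
        apply Measurable.ite (measurableSet_le measurable_fst measurable_const) _ measurable_const
        apply Finset.measurable_sum
        intro n _
        exact (measurable_lvG B θ n).comp hmap
      have hmW : Measurable (fun p : ℝ × ℝ =>
          lvlG B θ p * ENNReal.ofReal (Real.exp (-(β * (y - (p.1 - p.2))))) *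
            (if p.1 ≤ c then Wt (y - (p.1 - p.2)) (c + p.1) else 1)) := by
        apply (hmexp β).mul
        apply Measurable.ite (measurableSet_le measurable_fst measurable_const) _ measurable_const
        exact hWm.comp hmap
      have hpt : ∀ᵐ p ∂(μ.prod ν), Q * Φ ^ N *
          (lvlG B θ p * ENNReal.ofReal (Real.exp (-(β * (y - (p.1 - p.2)))))) ≤
          (max 1 Φ) ^ N * (lvlG B θ p * (if p.1 ≤ c then
            ∑ n ∈ Finset.range (N + J), lvG μ ν B θ n (y - (p.1 - p.2)) (c + p.1) else 0) +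
            Q * (lvlG B θ p * ENNReal.ofReal (Real.exp (-(β * (y - (p.1 - p.2))))) *
              (if p.1 ≤ c then Wt (y - (p.1 - p.2)) (c + p.1) else 1))) +
          Q * Φ' ^ N *
            (lvlG B θ p * ENNReal.ofReal (Real.exp (-((β - lam) * (y - (p.1 - p.2)))))) := by
        filter_upwards [hp0] with p hp
        by_cases hpB : p.1 ≤ B
        · by_cases hpc : p.1 ≤ c
          · simp only [if_pos hpc]
            have h1 := ih (y := y - (p.1 - p.2)) (c := c + p.1) (by linarith) (by linarith)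
            have h2 := mul_le_mul_right h1 (lvlG B θ p)
            calc Q * Φ ^ N *
                (lvlG B θ p * ENNReal.ofReal (Real.exp (-(β * (y - (p.1 - p.2))))))
                = lvlG B θ p * (Q * Φ ^ N *
                    ENNReal.ofReal (Real.exp (-(β * (y - (p.1 - p.2)))))) := by ring
              _ ≤ _ := h2
              _ = _ := by ring
          · simp only [if_neg hpc, mul_zero, zero_add, mul_one]
            refine le_trans ?_ le_self_add
            calc Q * Φ ^ N *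
                (lvlG B θ p * ENNReal.ofReal (Real.exp (-(β * (y - (p.1 - p.2))))))
                = Φ ^ N * (Q * (lvlG B θ p *
                    ENNReal.ofReal (Real.exp (-(β * (y - (p.1 - p.2))))))) := by ring
              _ ≤ _ := by
                gcongr
                exact le_max_right _ _
        · have : lvlG B θ p = 0 := by
            unfold lvlG
            rw [Set.indicator_of_notMem (fun h => hpB (Set.mem_Iic.1 h)), zero_mul]
          rw [this]
          simp
      have hmadd : Measurable (fun p : ℝ × ℝ => lvlG B θ p * (if p.1 ≤ c then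
          ∑ n ∈ Finset.range (N + J), lvG μ ν B θ n (y - (p.1 - p.2)) (c + p.1) else 0) +
            Q * (lvlG B θ p * ENNReal.ofReal (Real.exp (-(β * (y - (p.1 - p.2))))) *
              (if p.1 ≤ c then Wt (y - (p.1 - p.2)) (c + p.1) else 1))) :=
        hmsum.add (hmW.const_mul _)
      have hint := lintegral_mono_ae hpt
      rw [lintegral_const_mul _ (hmexp β), lintegral_add_right _ ((hmexp (β - lam)).const_mul _),
        lintegral_const_mul _ hmadd,
        lintegral_add_left hmsum, lintegral_const_mul _ hmW,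
        lintegral_const_mul _ (hmexp (β - lam)), lvlG_exp, lvlG_exp, ← hsum] at hint
      calc Q * Φ ^ (N + 1) * ENNReal.ofReal (Real.exp (-(β * y)))
          = Q * Φ ^ N * (Φ * ENNReal.ofReal (Real.exp (-(β * y)))) := by rw [pow_succ]; ring
        _ ≤ _ := hint
        _ ≤ (max 1 Φ) ^ N * (max 1 Φ * (∑ n ∈ Finset.range (N + 1 + J), lvG μ ν B θ n y c) +
              Q * (max 1 Φ * (ENNReal.ofReal (Real.exp (-(β * y))) * Wt y c))) +
              Q * Φ' ^ N * (Φ' * ENNReal.ofReal (Real.exp (-((β - lam) * y)))) := by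
            gcongr
            · calc ∑ n ∈ Finset.range (N + 1 + J), lvG μ ν B θ n y c
                  = 1 * ∑ n ∈ Finset.range (N + 1 + J), lvG μ ν B θ n y c := (one_mul _).symm
                _ ≤ _ := by
                  gcongr
                  exact le_max_left _ _
            · exact hW2 y c hy0 hc
        _ = _ := by rw [pow_succ Φ' N, pow_succ (max 1 Φ) N]; ring

end stoch

end Pool.Agent.Lib.MP_04add8_pr.U
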