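import Mathlib
import Pool.Agent.Lib.MP_04add8_pr.Crit.LowOne
import Pool.Agent.Lib.MP_04add8_pr.U.LowPtG
import Pool.Agent.Lib.MP_04add8_pr.U.LvlG

open MeasureTheory ProbabilityTheory Filter Topology
open scoped ENNReal

set_option linter.unusedSectionVars false

namespace Pool.Agent.Lib.MP_04add8_pr.U

open Pool.Agent.Lib.MP_04add8_pr.Gen

variable {h h' : ℝ → ℝ} {μ ν : Measure ℝ} [IsProbabilityMeasure μ]
  [IsProbabilityMeasure ν]

lemma mid_lowerG {x B b θ : ℝ} (n : ℕ) :
    ENNReal.ofReal (Real.exp (-(θ * x))) * lvG μ ν B θ n x b ≤ midG μ ν x B b θ n +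
      ENNReal.ofReal (Real.exp (-(θ * x / 2))) * lvl μ ν B θ n (3 / 2 * x) := by
  unfold lvG midG lvl
  rw [← lintegral_const_mul' _ _ ENNReal.ofReal_ne_top,
    ← lintegral_const_mul' _ _ ENNReal.ofReal_ne_top]
  have hr := measurable_reflW_right 0 n
  have hA := measurable_sumA n
  have hm : Measurable (fun z : ℕ → ℝ × ℝ => (gdSet B n b).indicator (fun z =>
      if x < reflW 0 z n ∧ reflW 0 z n ≤ 3 / 2 * x then
      ENNReal.ofReal (Real.exp (-(θ * (2 * x + sumA z n - reflW 0 z n)))) else 0) z) := by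
    apply Measurable.indicator _ (measurableSet_gdSet B n b)
    apply Measurable.ite _ _ measurable_const
    · exact (measurableSet_lt measurable_const hr).inter (measurableSet_le hr measurable_const)
    · fun_prop
  rw [← lintegral_add_left hm]
  apply lintegral_mono
  intro z
  by_cases hz : z ∈ gdSet B n b
  · have hz' : z ∈ allLe B n := gdSet_subset hz
    simp only [Set.indicator_of_mem hz, Set.indicator_of_mem hz', one_mul]
    unfold revF
    by_cases h1 : x < reflW 0 z n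
    · rw [if_pos h1, ← ENNReal.ofReal_mul (Real.exp_pos _).le, ← Real.exp_add,
        ← ENNReal.ofReal_mul (Real.exp_pos _).le, ← Real.exp_add]
      have e1 : -(θ * x) + (-(θ * sumA z n) + θ * (reflW 0 z n - x)) =
          -(θ * (2 * x + sumA z n - reflW 0 z n)) := by ring
      rw [e1]
      by_cases h2 : reflW 0 z n ≤ 3 / 2 * x
      · rw [if_pos ⟨h1, h2⟩]
        exact le_self_add
      · push Not at h2
        rw [if_pos h2, ← ENNReal.ofReal_mul (Real.exp_pos _).le, ← Real.exp_add]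
        have e2 : -(θ * x / 2) + (θ * (reflW 0 z n - 3 / 2 * x) - θ * sumA z n) =
          -(θ * (2 * x + sumA z n - reflW 0 z n)) := by ring
        rw [e2]
        exact le_add_self
    · rw [if_neg h1, mul_zero, mul_zero]
      exact zero_le
  · simp only [Set.indicator_of_notMem hz, zero_mul, mul_zero]
    exact zero_le

/-- lower bound for the sum over the time since the big job -/
noncomputable def glowG (μ ν : Measure ℝ) [IsProbabilityMeasure μ]
    [IsProbabilityMeasure ν] (G x B b θ τ : ℝ) (M : ℕ) : ℝ≥0∞ :=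
  ∑ n ∈ Finset.range M,
    ν (Set.Iic τ) * ENNReal.ofReal (Real.exp (-(G + θ * (b + τ)))) * midG μ ν x B b θ n

lemma core_sumG (hz0 : ∀ᵐ z ∂(noise μ ν), ∀ k, 0 ≤ (z k).1 ∧ 0 ≤ (z k).2)
    (hp0 : ∀ᵐ p ∂(μ.prod ν), 0 ≤ p.1 ∧ 0 ≤ p.2)
    {G x θ β B b τ t D hh : ℝ} {N J : ℕ} (hx : 0 < x) (hθ : 0 < θ)
    (hhp : 0 < hh) (hD : 0 < D) (ht : 0 < t) (ht16 : t ≤ 1 / 16) (hbθ : θ * b ≤ t)
    (hB : B ≤ b + x) (hτ : 0 ≤ τ) (hντ : ENNReal.ofReal (1 - t) ≤ ν (Set.Iic τ))
    (hθτ : θ * τ ≤ t) (hθβ : θ ≤ β)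
    {Wt : ℝ → ℝ → ℝ≥0∞} (hWm : Measurable (fun q : ℝ × ℝ => Wt q.1 q.2))
    (hW1 : ∀ y c : ℝ, y < 0 → ENNReal.ofReal (Real.exp (-(β * y))) ≤
      1 + ENNReal.ofReal (Real.exp (-(β * y))) * Wt y c)
    (hW2 : ∀ y c : ℝ, 0 ≤ y → b ≤ c →
      ∫⁻ p, lvlG B θ p * ENNReal.ofReal (Real.exp (-(β * (y - (p.1 - p.2))))) *
        (if p.1 ≤ c then Wt (y - (p.1 - p.2)) (c + p.1) else 1) ∂(μ.prod ν) ≤
      max 1 (trPhi μ ν B β θ) * (ENNReal.ofReal (Real.exp (-(β * y))) * Wt y c))
    (hW3 : Wt x b ≤ ENNReal.ofReal t)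
    (hQ : ENNReal.ofReal ((1 - 2 * t) / (D * hh)) ≤ ∑ n ∈ Finset.range J, lvlA μ ν B θ n)
    (hQ2 : ∑ n ∈ Finset.range (N + J), lvlA μ ν B θ n ≤ ENNReal.ofReal (2 / (D * hh)))
    (hΦ1 : ENNReal.ofReal (1 - t) ≤ trPhi μ ν B β θ ^ N)
    (hΦ2 : (max 1 (trPhi μ ν B β θ)) ^ N ≤ ENNReal.ofReal (1 + t))
    (hΦ3 : (max 1 (trPhi μ ν B β θ)) ^ (N + J) ≤ ENNReal.ofReal 2)
    (hΦl : trPhi μ ν B (β - θ) θ ^ N ≤ ENNReal.ofReal (Real.exp (-(2 * θ * x))))
    (hs1 : 2 * Real.exp (-(θ * x)) ≤ t) (hs2 : 4 * Real.exp (-((β - θ) * x / 2)) ≤ t) :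
    ENNReal.ofReal ((1 - 12 * t) * (Real.exp (-(G + x * (θ + β))) / (D * hh))) ≤
      glowG μ ν G x B b θ τ (N + J) := by
  have hβ0 : 0 ≤ β := hθ.le.trans hθβ
  have hDh : 0 < D * hh := mul_pos hD hhp
  set Q := ∑ n ∈ Finset.range J, lvlA μ ν B θ n with hQdef
  set S := ∑ n ∈ Finset.range (N + J), lvG μ ν B θ n x b with hS
  set Mid := ∑ n ∈ Finset.range (N + J), midG μ ν x B b θ n with hMid
  have hQle : Q ≤ ENNReal.ofReal (2 / (D * hh)) := by
    refine le_trans ?_ hQ2
    rw [hQdef]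
    apply Finset.sum_le_sum_of_subset
    intro i hi
    rw [Finset.mem_range] at hi ⊢
    omega
  have h1t : 0 ≤ 1 - t := by linarith
  have h2t : 0 ≤ (1 - 2 * t) / (D * hh) := by
    apply div_nonneg _ hDh.le; linarith
  -- (1) the level recursion
  have s1 := lvG_lower (μ := μ) (ν := ν) hz0 hp0 hθ.le hθ.le (B := B) (b := b) (β := β)
    (lam := θ) hWm hW1 hW2 N J (y := x) (c := b) le_rfl hB
  rw [← hQdef, ← hS] at s1
  set A : ℝ := ((1 - 2 * t) / (D * hh)) * (1 - t) * Real.exp (-(β * x)) with hA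
  have s2 : ENNReal.ofReal A ≤ Q *
        trPhi μ ν B β θ ^ N * ENNReal.ofReal (Real.exp (-(β * x))) := by
    rw [hA, ENNReal.ofReal_mul (by positivity), ENNReal.ofReal_mul h2t]
    gcongr
  have s3 : Q * trPhi μ ν B (β - θ) θ ^ N * ENNReal.ofReal (Real.exp (-((β - θ) * x))) ≤
      ENNReal.ofReal (t / (D * hh) * Real.exp (-(β * x))) := by
    calc Q * trPhi μ ν B (β - θ) θ ^ N * ENNReal.ofReal (Real.exp (-((β - θ) * x)))
        ≤ ENNReal.ofReal (2 / (D * hh)) * ENNReal.ofReal (Real.exp (-(2 * θ * x))) *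
          ENNReal.ofReal (Real.exp (-((β - θ) * x))) := by gcongr
      _ = ENNReal.ofReal (2 / (D * hh) * Real.exp (-(2 * θ * x)) *
          Real.exp (-((β - θ) * x))) := by
          rw [← ENNReal.ofReal_mul (by positivity), ← ENNReal.ofReal_mul (by positivity)]
      _ ≤ _ := by
          apply ENNReal.ofReal_le_ofReal
          have e2 : 2 / (D * hh) * Real.exp (-(2 * θ * x)) * Real.exp (-((β - θ) * x)) =
              (2 * Real.exp (-(θ * x))) / (D * hh) * Real.exp (-(β * x)) := by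
            have e3 : Real.exp (-(2 * θ * x)) * Real.exp (-((β - θ) * x)) =
                Real.exp (-(θ * x)) * Real.exp (-(β * x)) := by
              rw [← Real.exp_add, ← Real.exp_add]
              congr 1
              ring
            calc 2 / (D * hh) * Real.exp (-(2 * θ * x)) * Real.exp (-((β - θ) * x))
                = 2 / (D * hh) * (Real.exp (-(2 * θ * x)) * Real.exp (-((β - θ) * x))) := by ring
              _ = _ := by rw [e3]; ring
          rw [e2]
          gcongr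
  have s3' : Q * (ENNReal.ofReal (Real.exp (-(β * x))) * Wt x b) ≤
      ENNReal.ofReal (2 * t / (D * hh) * Real.exp (-(β * x))) := by
    calc Q * (ENNReal.ofReal (Real.exp (-(β * x))) * Wt x b)
        ≤ ENNReal.ofReal (2 / (D * hh)) * (ENNReal.ofReal (Real.exp (-(β * x))) *
          ENNReal.ofReal t) := by gcongr
      _ = ENNReal.ofReal (2 / (D * hh) * (Real.exp (-(β * x)) * t)) := by
          rw [← ENNReal.ofReal_mul (by positivity), ← ENNReal.ofReal_mul (by positivity)]
      _ = _ := by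
          congr 1
          ring
  set c1 : ℝ := (1 + t) * (2 * t / (D * hh) * Real.exp (-(β * x))) +
    t / (D * hh) * Real.exp (-(β * x)) with hc1
  have s4 : ENNReal.ofReal (A - c1) ≤ ENNReal.ofReal (1 + t) * S := by
    apply ofReal_sub_le (by positivity)
    refine s2.trans (s1.trans ?_)
    calc (max 1 (trPhi μ ν B β θ)) ^ N * (S +
          Q * (ENNReal.ofReal (Real.exp (-(β * x))) * Wt x b)) +
          Q * trPhi μ ν B (β - θ) θ ^ N * ENNReal.ofReal (Real.exp (-((β - θ) * x)))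
        ≤ ENNReal.ofReal (1 + t) * (S + ENNReal.ofReal (2 * t / (D * hh) *
          Real.exp (-(β * x)))) + ENNReal.ofReal (t / (D * hh) * Real.exp (-(β * x))) := by
          gcongr
      _ = _ := by
          rw [mul_add, ← ENNReal.ofReal_mul (show (0 : ℝ) ≤ 1 + t by linarith), add_assoc,
            ← ENNReal.ofReal_add (by positivity) (by positivity)]
  -- (2) middle part
  have s5 : ENNReal.ofReal (Real.exp (-(θ * x))) * S ≤ Mid +
      ENNReal.ofReal (t / (D * hh) * Real.exp (-((β + θ) * x))) := by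
    have e1 : ENNReal.ofReal (Real.exp (-(θ * x))) * S ≤ Mid +
        ENNReal.ofReal (Real.exp (-(θ * x / 2))) *
          ∑ n ∈ Finset.range (N + J), lvl μ ν B θ n (3 / 2 * x) := by
      rw [hS, hMid, Finset.mul_sum, Finset.mul_sum, ← Finset.sum_add_distrib]
      exact Finset.sum_le_sum fun n _ => mid_lowerG n
    refine e1.trans ?_
    gcongr
    have e2 := lvl_upper (μ := μ) (ν := ν) hθ.le hθβ (le_max_left 1 (trPhi μ ν B β θ))
      (le_max_right 1 (trPhi μ ν B β θ)) (N + J) (3 / 2 * x)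
    calc ENNReal.ofReal (Real.exp (-(θ * x / 2))) *
          ∑ n ∈ Finset.range (N + J), lvl μ ν B θ n (3 / 2 * x)
        ≤ ENNReal.ofReal (Real.exp (-(θ * x / 2))) * (ENNReal.ofReal (2 / (D * hh)) *
          ENNReal.ofReal 2 * ENNReal.ofReal (Real.exp (-(β * (3 / 2 * x))))) := by
          gcongr
          exact e2.trans (by gcongr)
      _ = ENNReal.ofReal (Real.exp (-(θ * x / 2)) * (2 / (D * hh) * 2 *
          Real.exp (-(β * (3 / 2 * x))))) := by
          rw [← ENNReal.ofReal_mul (by positivity), ← ENNReal.ofReal_mul (by positivity),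
            ← ENNReal.ofReal_mul (by positivity)]
      _ ≤ _ := by
          apply ENNReal.ofReal_le_ofReal
          have e3 : Real.exp (-(θ * x / 2)) * (2 / (D * hh) * 2 *
              Real.exp (-(β * (3 / 2 * x)))) =
              (4 * Real.exp (-((β - θ) * x / 2))) / (D * hh) * Real.exp (-((β + θ) * x)) := by
            have e4 : Real.exp (-(θ * x / 2)) * Real.exp (-(β * (3 / 2 * x))) =
                Real.exp (-((β - θ) * x / 2)) * Real.exp (-((β + θ) * x)) := by
              rw [← Real.exp_add, ← Real.exp_add]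
              congr 1
              ring
            calc Real.exp (-(θ * x / 2)) * (2 / (D * hh) * 2 * Real.exp (-(β * (3 / 2 * x))))
                = 4 / (D * hh) * (Real.exp (-(θ * x / 2)) *
                  Real.exp (-(β * (3 / 2 * x)))) := by ring
              _ = _ := by rw [e4]; ring
          rw [e3]
          gcongr
  set A2 : ℝ := Real.exp (-(θ * x)) * (A - c1) with hA2
  set b2 : ℝ := (1 + t) * (t / (D * hh) * Real.exp (-((β + θ) * x))) with hb2
  have s6 : ENNReal.ofReal (A2 - b2) ≤ ENNReal.ofReal (1 + t) * Mid := by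
    apply ofReal_sub_le (by positivity)
    rw [hA2, ENNReal.ofReal_mul (by positivity)]
    calc ENNReal.ofReal (Real.exp (-(θ * x))) * ENNReal.ofReal (A - c1)
        ≤ ENNReal.ofReal (Real.exp (-(θ * x))) * (ENNReal.ofReal (1 + t) * S) := by gcongr
      _ = ENNReal.ofReal (1 + t) * (ENNReal.ofReal (Real.exp (-(θ * x))) * S) := by ring
      _ ≤ ENNReal.ofReal (1 + t) * (Mid +
          ENNReal.ofReal (t / (D * hh) * Real.exp (-((β + θ) * x)))) := by gcongr
      _ = _ := by
          rw [mul_add, ← ENNReal.ofReal_mul (by positivity)]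
  -- (3) the probability
  have s7 : ENNReal.ofReal (1 - t) * ENNReal.ofReal ((1 - 2 * t) * Real.exp (-(G))) * Mid ≤
      glowG μ ν G x B b θ τ (N + J) := by
    unfold glowG
    rw [hMid, Finset.mul_sum]
    apply Finset.sum_le_sum
    intro n _
    have e1 : (1 - 2 * t) * Real.exp (-(G)) ≤
        Real.exp (-(G + θ * (b + τ))) := by
      have e2 : Real.exp (-(G + θ * (b + τ))) =
          Real.exp (-(θ * (b + τ))) * Real.exp (-(G)) := by
        rw [← Real.exp_add]; congr 1; ring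
      rw [e2]
      have e3 := Real.add_one_le_exp (-(θ * (b + τ)))
      have e4 : 1 - 2 * t ≤ Real.exp (-(θ * (b + τ))) := by
        have : θ * (b + τ) = θ * b + θ * τ := by ring
        linarith
      gcongr
    gcongr
  -- (4) conclusion
  have ht1 : 0 < 1 + t := by linarith
  have s8 : ENNReal.ofReal ((1 - t) * ((1 - 2 * t) * Real.exp (-(G))) * (A2 - b2)) ≤
      ENNReal.ofReal (1 + t) * glowG μ ν G x B b θ τ (N + J) := by
    have h2t : 0 ≤ 1 - 2 * t := by linarith
    rw [ENNReal.ofReal_mul (by positivity), ENNReal.ofReal_mul h1t]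
    calc ENNReal.ofReal (1 - t) * ENNReal.ofReal ((1 - 2 * t) * Real.exp (-(G))) *
          ENNReal.ofReal (A2 - b2)
        ≤ ENNReal.ofReal (1 - t) * ENNReal.ofReal ((1 - 2 * t) * Real.exp (-(G))) *
          (ENNReal.ofReal (1 + t) * Mid) := by gcongr
      _ = ENNReal.ofReal (1 + t) * (ENNReal.ofReal (1 - t) *
          ENNReal.ofReal ((1 - 2 * t) * Real.exp (-(G))) * Mid) := by ring
      _ ≤ _ := by gcongr
  have e5 : (1 - 12 * t) * (Real.exp (-(G + x * (θ + β))) / (D * hh)) ≤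
      (1 + t)⁻¹ * ((1 - t) * ((1 - 2 * t) * Real.exp (-(G))) * (A2 - b2)) := by
    have e6 : Real.exp (-(G + x * (θ + β))) = Real.exp (-(G)) *
        (Real.exp (-(θ * x)) * Real.exp (-(β * x))) := by
      rw [← Real.exp_add, ← Real.exp_add]; congr 1; ring
    have e7 : Real.exp (-((β + θ) * x)) = Real.exp (-(θ * x)) * Real.exp (-(β * x)) := by
      rw [← Real.exp_add]; congr 1; ring
    obtain ⟨F, hF⟩ : ∃ F : ℝ, F = Real.exp (-G) * (Real.exp (-(θ * x)) * Real.exp (-(β * x))) /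
      (D * hh) := ⟨_, rfl⟩
    have hF0 : 0 ≤ F := by rw [hF]; positivity
    have e8 : (1 + t)⁻¹ * ((1 - t) * ((1 - 2 * t) * Real.exp (-(G))) * (A2 - b2)) =
        (1 + t)⁻¹ * ((1 - t) * (1 - 2 * t) * (1 - 7 * t - t ^ 2)) * F := by
      rw [hA2, hb2, hA, hc1, e7, hF]
      field_simp
      ring
    rw [e8, e6, ← hF]
    apply mul_le_mul_of_nonneg_right _ hF0
    rw [inv_mul_eq_div, le_div_iff₀ ht1]
    nlinarith [mul_pos ht ht, mul_pos (mul_pos ht ht) ht, mul_pos (mul_pos (mul_pos ht ht) ht) ht]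
  refine (ENNReal.ofReal_le_ofReal e5).trans ?_
  rw [ENNReal.ofReal_mul (by positivity)]
  calc ENNReal.ofReal (1 + t)⁻¹ *
        ENNReal.ofReal ((1 - t) * ((1 - 2 * t) * Real.exp (-(G))) * (A2 - b2))
      ≤ ENNReal.ofReal (1 + t)⁻¹ * (ENNReal.ofReal (1 + t) *
          glowG μ ν G x B b θ τ (N + J)) := by gcongr
    _ = glowG μ ν G x B b θ τ (N + J) := by
        rw [← mul_assoc, ← ENNReal.ofReal_mul (by positivity), inv_mul_cancel₀ ht1.ne',
          ENNReal.ofReal_one, one_mul]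

end Pool.Agent.Lib.MP_04add8_pr.U
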