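import Mathlib
import Pool.Agent.Lib.MP_04add8_pr.U.ConeI
import Pool.Agent.Lib.MP_04add8_pr.U.Comp
import Pool.Agent.Lib.MP_04add8_pr.Cv.RRf
import Pool.Agent.Lib.MP_04add8_pr.Cv.UpGen

open MeasureTheory ProbabilityTheory Filter Topology
open scoped ENNReal

set_option linter.unusedSectionVars false

namespace Pool.Agent.Lib.MP_04add8_pr.U

open Pool.Agent.Lib.MP_04add8_pr.Gen Pool.Agent.Lib.MP_04add8_pr.Cv

variable {h h' : ℝ → ℝ} {μ ν : Measure ℝ} [IsProbabilityMeasure μ]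
  [IsProbabilityMeasure ν]

variable {B v : ℝ → ℝ}

/-- the threshold dominates the logarithm -/
lemma thr_hB (H : HazC h h') (T : Thr h h' B v) :
    ∀ K : ℝ, ∀ᶠ x : ℝ in atTop, K * Real.log x ≤ h (B x) := by
  intro K
  filter_upwards [T.g K, T.pos] with x h1 h2
  have h3 := (H.pos _ h2).le
  have h4 : 0 ≤ B x * h' (B x) := by positivity
  unfold gg at h1
  linarith

/-- **Upper bound, canonical slope** -/
theorem gupperU (S : StdC μ ν h h') (T : Thr h h' B v) {ω : ℝ} (hω : 0 < ω) :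
    ∀ᶠ x : ℝ in atTop, ∀ π : Measure (ℝ × ℝ), IsStationaryKW μ ν π →
      π {w | x < w.1} ≤ ENNReal.ofReal ((1 + ω) * fS h h' μ ν (betaStar μ ν) x +
        (K2 μ ν + ω) * (Qf h h' x) ^ 2) := by
  have H := S.haz
  have TB := T.slvl H
  have hB := thr_hB H T
  have Psl := slp_root S TB hB
  obtain ⟨θ0, hθ0, -, hP⟩ := potS S
  have P := hP θ0 hθ0 le_rfl
  have hγ : ∀ θ, 0 ≤ betaStar μ ν θ := fun θ => rootM_nonneg _ _
  obtain ⟨e, he0, he1, he2⟩ : ∃ e : ℝ, 0 < e ∧ e ≤ 1 / 4 ∧ e ≤ ω / 4 :=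
    ⟨min (1 / 4) (ω / 4), by positivity, min_le_left _ _, min_le_right _ _⟩
  filter_upwards [up_gen S T P (ω := ω / 4) (by positivity) 0,
    cone_sum S T Psl (ω := e) he0,
    fS_cmp S Psl hγ (fun M ω hω => beta_cmp S TB hB M hω) (ω := e) he0,
    exp_rate_err S (betaStar μ ν) (ω := ω / 4) (by positivity), eventually_ge_atTop 1]
    with x e1 e2 e3 e4 hx1 π hπ
  have hx : 0 < x := by linarith
  have e3 := e3.1
  have hf1 : 0 < fS h h' μ ν (fun θ => rootM ν (mgB μ (B x)) θ) x := fS_pos S _ hx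
  obtain ⟨f, hf⟩ : ∃ f, f = fS h h' μ ν (betaStar μ ν) x := ⟨_, rfl⟩
  have hf0 : 0 < f := by rw [hf]; exact fS_pos S _ hx
  have hQ0 : 0 ≤ (Qf h h' x) ^ 2 := sq_nonneg _
  have hK2 : 0 ≤ K2 μ ν := by
    have h1 := S.hlt
    have h2 := S.hm
    unfold K2
    positivity
  have hN : (⌈x ^ 20⌉₊ : ℝ) ≤ 2 * x ^ 20 := by
    have h1 := (Nat.ceil_lt_add_one (show 0 ≤ x ^ 20 by positivity)).le
    have h2 : 1 ≤ x ^ 20 := one_le_pow₀ hx1
    linarith
  rw [← hf] at e3 e4 ⊢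
  rw [neg_zero, Real.rpow_zero, one_mul] at e1
  -- the rate of the potential
  have hRR : Real.exp (-(RR h (betaStar μ ν) θ0 x)) ≤
      Real.exp (-(hRate h (betaStar μ ν) x)) := by
    apply Real.exp_le_exp.2
    apply neg_le_neg
    refine le_RR H P fun θ hθ _ => ?_
    refine csInf_le ⟨0, ?_⟩ ⟨θ, hθ, rfl⟩
    rintro _ ⟨θ', hθ', rfl⟩
    have hθ'' : (0 : ℝ) < θ' := hθ'
    have f2 := hG_nonneg H hθ''
    have f3 := hγ θ'
    change 0 ≤ hG h θ' + x * (θ' + betaStar μ ν θ')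
    positivity
  refine (e1 π hπ).trans ((add_le_add_left (e2 π hπ (x ^ 2) _ hN) _).trans ?_)
  have h1 := Real.exp_pos (-(RR h (betaStar μ ν) θ0 x))
  generalize fS h h' μ ν (fun θ => rootM ν (mgB μ (B x)) θ) x = g at e3 hf1 ⊢
  generalize (Qf h h' x) ^ 2 = q at hQ0 ⊢
  rw [← ENNReal.ofReal_add (by positivity) (by positivity)]
  apply ENNReal.ofReal_le_ofReal
  have h2 : (1 + e) * g ≤ (1 + e) * ((1 + e) * f) :=
    mul_le_mul_of_nonneg_left e3 (by linarith)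
  have h3 : (1 + e) * ((1 + e) * f) ≤ (1 + ω / 4 * 3) * f := by
    have : (1 + e) * (1 + e) ≤ 1 + ω / 4 * 3 := by nlinarith
    calc (1 + e) * ((1 + e) * f) = ((1 + e) * (1 + e)) * f := by ring
      _ ≤ _ := mul_le_mul_of_nonneg_right this hf0.le
  have h4 : e * q ≤ ω / 4 * q := mul_le_mul_of_nonneg_right he2 hQ0
  have h5 := mul_nonneg hω.le hQ0
  have h6 := mul_nonneg hω.le hf0.le
  linarith

end Pool.Agent.Lib.MP_04add8_pr.U
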