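import Mathlib
import Pool.Agent.Lib.MP_04add8_pr.U.UpperU
import Pool.Agent.Lib.MP_04add8_pr.Cv.TailInt
import Pool.Agent.Lib.MP_04add8_pr.Cv.Err

open MeasureTheory ProbabilityTheory Filter Topology
open scoped ENNReal

set_option linter.unusedSectionVars false

namespace Pool.Agent.Lib.MP_04add8_pr.U

open Pool.Agent.Lib.MP_04add8_pr.Gen Pool.Agent.Lib.MP_04add8_pr.Cv

variable {h h' : ℝ → ℝ} {μ ν : Measure ℝ} [IsProbabilityMeasure μ]
  [IsProbabilityMeasure ν]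

private lemma exactU_two (S : StdC μ ν h h') :
    Tendsto (fun x : ℝ => K2 μ ν * integratedTail μ x ^ 2 / (Qf h h' x) ^ 2) atTop
      (𝓝 (K2 μ ν)) := by
  have h1 := (Cv.integratedTail_asymp S.haz S.law).pow 2
  have h2 := h1.const_mul (K2 μ ν)
  rw [one_pow, mul_one] at h2
  refine h2.congr fun x => ?_
  rw [div_pow]
  ring

/-- from a lower bound and an upper bound with a slack to the limit of the ratio; `f` is the
one-big-job term -/
private lemma exactU_ratio (S : StdC μ ν h h') {f : ℝ → ℝ} (hf0 : ∀ᶠ x : ℝ in atTop, 0 ≤ f x)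
    {π : Measure (ℝ × ℝ)} (hπ : IsStationaryKW μ ν π)
    (hu : ∀ ω : ℝ, 0 < ω → ∀ᶠ x : ℝ in atTop, π {w | x < w.1} ≤
      ENNReal.ofReal ((1 + ω) * f x + (K2 μ ν + ω) * (Qf h h' x) ^ 2))
    (hl : ∀ ω : ℝ, 0 < ω → ω < 1 → ω < K2 μ ν → ∀ᶠ x : ℝ in atTop,
      ENNReal.ofReal ((1 - ω) * f x + (K2 μ ν - ω) * (Qf h h' x) ^ 2) ≤ π {w | x < w.1}) :
    Tendsto (fun x : ℝ => π.real {w | x < w.1} /
      (f x + K2 μ ν * integratedTail μ x ^ 2)) atTop (𝓝 1) := by
  have hp : IsProbabilityMeasure π := hπ.1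
  have hT := exactU_two (ν := ν) S
  have hK20 : 0 < K2 μ ν := by
    have h1 := S.hm
    have h2 := S.hlt
    have h3 : 0 < 2 * (∫ t, t ∂ν) - ∫ s, s ∂μ := by linarith
    unfold K2
    positivity
  obtain ⟨k, hk⟩ : ∃ k : ℝ, k = K2 μ ν := ⟨_, rfl⟩
  rw [← hk] at hT hK20
  rw [Metric.tendsto_atTop']
  intro η hη
  -- the slack
  obtain ⟨ω, hω, hω1, hωK, hωη, hωη1⟩ : ∃ ω : ℝ, 0 < ω ∧ ω < 1 ∧ ω < k ∧ ω ≤ η / 2 ∧
      4 * ω ≤ η * k := by
    refine ⟨min (min (1 / 2) (k / 2)) (min (η / 2) (η * k / 4)), ?_, ?_, ?_, ?_, ?_⟩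
    · exact lt_min (lt_min (by norm_num) (by positivity)) (lt_min (by positivity) (by positivity))
    · exact lt_of_le_of_lt ((min_le_left _ _).trans (min_le_left _ _)) (by norm_num)
    · exact lt_of_le_of_lt ((min_le_left _ _).trans (min_le_right _ _)) (by linarith)
    · exact (min_le_right _ _).trans (min_le_left _ _)
    · have : min (min (1 / 2) (k / 2)) (min (η / 2) (η * k / 4)) ≤ η * k / 4 :=
        (min_le_right _ _).trans (min_le_right _ _)
      linarith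
  replace hu := hu ω hω
  replace hl := hl ω hω hω1 (by rw [← hk]; exact hωK)
  -- the second term against `Qf ^ 2`
  have hT1 : ∀ᶠ x : ℝ in atTop, (k + ω) / (1 + η / 2) ≤
      k * integratedTail μ x ^ 2 / (Qf h h' x) ^ 2 := by
    apply hT.eventually_const_le
    rw [div_lt_iff₀ (by positivity)]
    nlinarith
  have hT2 : ∀ᶠ x : ℝ in atTop,
      (1 - η / 2) * (k * integratedTail μ x ^ 2 / (Qf h h' x) ^ 2) ≤ k - ω := by
    apply (hT.const_mul (1 - η / 2)).eventually_le_const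
    nlinarith
  obtain ⟨x0, hx0⟩ := eventually_atTop.mp
    ((hu.and hl).and ((hT1.and hT2).and ((eventually_gt_atTop 0).and hf0)))
  refine ⟨x0, ?_⟩
  intro x hx
  obtain ⟨⟨hu'', hl''⟩, ⟨hT1', hT2'⟩, hxpos, hf1⟩ := hx0 x hx.le
  rw [← hk] at hu'' hl'' ⊢
  have hQ0 : 0 < Qf h h' x := Qf_pos S.haz hxpos
  obtain ⟨f, hf⟩ : ∃ y : ℝ, y = f x := ⟨_, rfl⟩
  obtain ⟨Q, hQ⟩ : ∃ Q : ℝ, Q = Qf h h' x := ⟨_, rfl⟩
  obtain ⟨g, hg⟩ : ∃ g : ℝ, g = k * integratedTail μ x ^ 2 := ⟨_, rfl⟩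
  rw [← hf, ← hQ] at hu'' hl''
  rw [← hf, ← hg]
  rw [← hQ, ← hg] at hT1' hT2'
  rw [← hQ] at hQ0
  rw [← hf] at hf1
  rw [le_div_iff₀ (by positivity), div_mul_eq_mul_div, div_le_iff₀ (by positivity)] at hT1'
  rw [mul_div_assoc', div_le_iff₀ (by positivity)] at hT2'
  have hf2 : 0 < g := by
    have : 0 < (k + ω) * Q ^ 2 := by positivity
    have h3 : 0 < g * (1 + η / 2) := lt_of_lt_of_le this hT1'
    by_contra hcon
    push Not at hcon
    have : g * (1 + η / 2) ≤ 0 := mul_nonpos_of_nonpos_of_nonneg hcon (by positivity)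
    linarith
  have hfg : 0 < f + g := by positivity
  have e1 : π.real {w | x < w.1} ≤ (1 + ω) * f + (k + ω) * Q ^ 2 := by
    rw [measureReal_def]
    exact ENNReal.toReal_le_of_le_ofReal (by positivity) hu''
  have e2 : (1 - ω) * f + (k - ω) * Q ^ 2 ≤ π.real {w | x < w.1} := by
    rw [measureReal_def]
    exact (ENNReal.ofReal_le_iff_le_toReal (measure_ne_top _ _)).mp hl''
  rw [Real.dist_eq, abs_lt]
  constructor
  · rw [lt_sub_iff_add_lt, lt_div_iff₀ hfg]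
    nlinarith
  · rw [sub_lt_iff_lt_add, div_lt_iff₀ hfg]
    nlinarith

/-- **Exact asymptotics**, canonical slope, from the lower bound -/
theorem gexactU_of {B v : ℝ → ℝ} (S : StdC μ ν h h') (T : Thr h h' B v)
    {π : Measure (ℝ × ℝ)} (hπ : IsStationaryKW μ ν π)
    (hlow : ∀ ω : ℝ, 0 < ω → ω < 1 → ω < K2 μ ν → ∀ᶠ x : ℝ in atTop,
      ENNReal.ofReal ((1 - ω) * fS h h' μ ν (betaStar μ ν) x +
        (K2 μ ν - ω) * (Qf h h' x) ^ 2) ≤ π {w | x < w.1}) :
    Tendsto (fun x : ℝ => π.real {w | x < w.1} /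
      (fS h h' μ ν (betaStar μ ν) x + K2 μ ν * integratedTail μ x ^ 2)) atTop (𝓝 1) := by
  refine exactU_ratio S ?_ hπ ?_ hlow
  · filter_upwards [eventually_gt_atTop 0] with x hx
    exact (fS_pos S _ hx).le
  · intro ω hω
    filter_upwards [gupperU S T hω] with x hx
    exact hx π hπ

/-- the same with `Qf` in place of the integrated tail -/
theorem gexactU_Q (S : StdC μ ν h h') {P : ℝ → ℝ}
    (hex : Tendsto (fun x : ℝ => P x /
      (fS h h' μ ν (betaStar μ ν) x + K2 μ ν * integratedTail μ x ^ 2)) atTop (𝓝 1)) :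
    Tendsto (fun x : ℝ => P x /
      (fS h h' μ ν (betaStar μ ν) x + K2 μ ν * (Qf h h' x) ^ 2)) atTop (𝓝 1) := by
  have hK2 : 0 < K2 μ ν := by
    have h1 := S.hm
    have h2 := S.hlt
    have h3 : 0 < 2 * (∫ t, t ∂ν) - ∫ s, s ∂μ := by linarith
    unfold K2
    positivity
  have hI : Tendsto (fun x : ℝ => (integratedTail μ x / Qf h h' x) ^ 2) atTop (𝓝 1) := by
    have := (Cv.integratedTail_asymp S.haz S.law).pow 2
    rwa [one_pow] at this
  have hr : Tendsto (fun x : ℝ => (fS h h' μ ν (betaStar μ ν) x + K2 μ ν * integratedTail μ x ^ 2) /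
      (fS h h' μ ν (betaStar μ ν) x + K2 μ ν * (Qf h h' x) ^ 2)) atTop (𝓝 1) := by
    have h1 : Tendsto (fun x : ℝ => |(integratedTail μ x / Qf h h' x) ^ 2 - 1|) atTop (𝓝 0) := by
      have := (hI.sub_const 1).abs
      simpa using this
    rw [tendsto_iff_norm_sub_tendsto_zero]
    refine squeeze_zero' (Eventually.of_forall fun x => norm_nonneg _) ?_ h1
    filter_upwards [eventually_gt_atTop 0] with x hx
    have h2 := fS_pos S (betaStar μ ν) hx
    have h3 := Qf_pos S.haz hx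
    generalize fS h h' μ ν (betaStar μ ν) x = A at h2 ⊢
    generalize Qf h h' x = Q at h3 ⊢
    generalize integratedTail μ x = J
    generalize K2 μ ν = k at hK2 ⊢
    have h4 : 0 < A + k * Q ^ 2 := by positivity
    have h5 : (A + k * J ^ 2) / (A + k * Q ^ 2) - 1 =
        k * Q ^ 2 * ((J / Q) ^ 2 - 1) / (A + k * Q ^ 2) := by
      field_simp
      ring
    have h6 : 0 < k * Q ^ 2 := by positivity
    rw [h5, Real.norm_eq_abs, abs_div, abs_mul, abs_of_pos h6, abs_of_pos h4, div_le_iff₀ h4]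
    have h7 : 0 ≤ |(J / Q) ^ 2 - 1| := abs_nonneg _
    nlinarith [mul_nonneg h7 h2.le]
  have h2 := hex.mul hr
  rw [mul_one] at h2
  refine h2.congr' ?_
  filter_upwards [eventually_gt_atTop 0] with x hx
  have h2 := fS_pos S (betaStar μ ν) hx
  have h3 : 0 < fS h h' μ ν (betaStar μ ν) x + K2 μ ν * integratedTail μ x ^ 2 := by positivity
  rw [div_mul_div_cancel₀ h3.ne']

end Pool.Agent.Lib.MP_04add8_pr.U
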