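import Mathlib
import Pool.Agent.Lib.MP_04add8_pr.U.MStar

open MeasureTheory ProbabilityTheory Filter Topology
open scoped ENNReal

set_option linter.unusedSectionVars false

namespace Pool.Agent.Lib.MP_04add8_pr.U

open Pool.Agent.Lib.MP_04add8_pr.Gen Pool.Agent.Lib.MP_04add8_pr.Cv

/-- the correction of the slope `(η - 1) θ` by the canonical root -/
noncomputable def kapS (μ ν : Measure ℝ) (θ : ℝ) : ℝ := (eta μ ν - 1) * θ - betaStar μ ν θ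

/-- what the rate function needs from the correction `k` -/
structure KapR (k : ℝ → ℝ) : Prop where
  nn : ∀ᶠ θ : ℝ in 𝓝[>] 0, 0 ≤ k θ
  lim : Tendsto (fun θ => k θ / θ) (𝓝[>] 0) (𝓝 0)
  low : ∃ c : ℝ, 0 < c ∧ ∀ᶠ θ : ℝ in 𝓝[>] 0, c * θ ^ 2 ≤ k θ
  reg : ∃ C : ℝ, 0 ≤ C ∧ ∀ ε : ℝ, 0 < ε → ∀ᶠ θ : ℝ in 𝓝[>] 0, ∀ u : ℝ, |u| ≤ 1 / 2 →
    k (θ * (1 + u)) ≤ (1 + ε + C * |u|) * k θ

end Pool.Agent.Lib.MP_04add8_pr.U
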