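import Mathlib
import Pool.Agent.Lib.MP_04add8_pr.U.Comp
import Pool.Agent.Lib.MP_04add8_pr.Gen.WBeta

open MeasureTheory ProbabilityTheory Filter Topology
open scoped ENNReal

set_option linter.unusedSectionVars false

namespace Pool.Agent.Lib.MP_04add8_pr.U

open Pool.Agent.Lib.MP_04add8_pr.Gen Pool.Agent.Lib.MP_04add8_pr.Cv

variable {h h' : ℝ → ℝ} {μ ν : Measure ℝ} [IsProbabilityMeasure μ]
  [IsProbabilityMeasure ν]

/-- second order behaviour of the tempered moment generating function -/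
lemma mStar_second (S : StdC μ ν h h') :
    Tendsto (fun β => (mStar μ β - 1 - (∫ s, s ∂μ) * β) / β ^ 2) (𝓝[>] 0)
      (𝓝 ((∫ s, s ^ 2 ∂μ) / 2)) := by
  obtain ⟨C, hC, hle⟩ := kS_le S.haz S.law
  have hE := law_integrable_pow S.haz S.law 1
  simp only [pow_one] at hE
  have hi2 : Integrable (fun s : ℝ => 2 * (s ^ 2 * (C * Real.exp (1 / 2 * h s)))) μ := by
    refine ((law_integrable S.haz S.law (c := 1 / 2) (by norm_num) 2).const_mul (2 * C)).congr ?_
    filter_upwards with s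
    ring
  have he2 : (2 : ℝ) ≤ Real.exp 1 := by
    have := Real.add_one_le_exp (1 : ℝ)
    linarith
  have h1 : Tendsto (fun β : ℝ => ∫ s, (min (Real.exp (β * s)) (kS μ s) - 1 - β * s) / β ^ 2 ∂μ)
      (𝓝[>] 0) (𝓝 (∫ s, s ^ 2 / 2 ∂μ)) := by
    apply tendsto_integral_filter_of_dominated_convergence
      (fun s => 2 * (s ^ 2 * (C * Real.exp (1 / 2 * h s))))
    · filter_upwards with β
      have : Measurable fun s : ℝ => min (Real.exp (β * s)) (kS μ s) :=
        Measurable.min (by fun_prop) kS_meas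
      exact ((this.sub_const 1).sub (by fun_prop)).div_const _ |>.aestronglyMeasurable
    · filter_upwards [self_mem_nhdsWithin] with β hβ
      have hβ : 0 < β := hβ
      filter_upwards [S.law.nn] with s hs
      have hβs : 0 ≤ β * s := mul_nonneg hβ.le hs
      have hk := kS_ge S.law s
      have hk0 : 0 < kS μ s := (Real.exp_pos 1).trans_le hk
      have key : |min (Real.exp (β * s)) (kS μ s) - 1 - β * s| ≤ 2 * ((β * s) ^ 2 * kS μ s) := by
        rcases le_or_gt (β * s) 1 with h3 | h3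
        · have h5 : Real.exp (β * s) ≤ kS μ s := (Real.exp_le_exp.2 h3).trans hk
          rw [min_eq_left h5]
          have h4 := (exp_tay (a := 1) (x := β * s) (y := 0) (r := β * s) zero_le_one le_rfl
            hβs).2
          simp only [mul_one, Real.exp_zero, one_pow, one_mul, sub_zero] at h4
          have h6 : Real.exp (β * s) * (β * s) ^ 2 ≤ (β * s) ^ 2 * kS μ s := by
            rw [mul_comm]
            exact mul_le_mul_of_nonneg_left h5 (sq_nonneg _)
          have h7 := Real.add_one_le_exp (β * s)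
          have h8 : 0 ≤ (β * s) ^ 2 * kS μ s := by positivity
          rw [abs_le]
          constructor <;> linarith
        · have h4 : 1 ≤ (β * s) ^ 2 := by nlinarith
          have h5 : 0 < min (Real.exp (β * s)) (kS μ s) := lt_min (Real.exp_pos _) hk0
          have h6 : min (Real.exp (β * s)) (kS μ s) ≤ kS μ s := min_le_right _ _
          have h7 : kS μ s ≤ (β * s) ^ 2 * kS μ s := le_mul_of_one_le_left hk0.le h4
          have h8 : β * s ≤ (β * s) ^ 2 := by nlinarith
          have h9 : 2 * (β * s) ^ 2 ≤ (β * s) ^ 2 * kS μ s := by nlinarith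
          rw [abs_le]
          constructor <;> linarith
      rw [Real.norm_eq_abs, abs_div, abs_of_pos (by positivity : 0 < β ^ 2),
        div_le_iff₀ (by positivity)]
      refine key.trans ?_
      have h10 : (β * s) ^ 2 * kS μ s ≤ (β * s) ^ 2 * (C * Real.exp (1 / 2 * h s)) :=
        mul_le_mul_of_nonneg_left (hle s) (sq_nonneg _)
      calc 2 * ((β * s) ^ 2 * kS μ s) ≤ 2 * ((β * s) ^ 2 * (C * Real.exp (1 / 2 * h s))) := by
            linarith
        _ = _ := by ring
    · exact hi2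
    · filter_upwards [S.law.nn] with s hs
      rcases hs.eq_or_lt with h0 | h0
      · have hk := kS_ge S.law 0
        have : (1 : ℝ) ≤ kS μ 0 := by linarith
        rw [← h0]
        simp [min_eq_left this]
      · have h4 : Tendsto (fun β : ℝ => β * s) (𝓝[>] 0) (𝓝[≠] 0) := by
          apply tendsto_nhdsWithin_of_tendsto_nhds_of_eventually_within
          · have : Tendsto (fun β : ℝ => β * s) (𝓝 0) (𝓝 (0 * s)) := by
              apply Continuous.tendsto
              fun_prop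
            rw [zero_mul] at this
            exact this.mono_left nhdsWithin_le_nhds
          · filter_upwards [self_mem_nhdsWithin] with β hβ
            have hβ : 0 < β := hβ
            have : 0 < β * s := by positivity
            simp only [Set.mem_compl_iff, Set.mem_singleton_iff]
            exact this.ne'
        have h5 := (BetaTwo.tendsto_exp_second.comp h4).const_mul (s ^ 2)
        have e : s ^ 2 * (1 / 2) = s ^ 2 / 2 := by ring
        rw [e] at h5
        refine h5.congr' ?_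
        have h6 : ∀ᶠ β : ℝ in 𝓝[>] 0, β < 1 / s :=
          Filter.Eventually.filter_mono nhdsWithin_le_nhds (gt_mem_nhds (by positivity))
        filter_upwards [self_mem_nhdsWithin, h6] with β hβ hβ1
        have hβ : 0 < β := hβ
        rw [lt_div_iff₀ h0] at hβ1
        have h7 : Real.exp (β * s) ≤ kS μ s :=
          (Real.exp_le_exp.2 hβ1.le).trans (kS_ge S.law s)
        rw [min_eq_left h7]
        simp only [Function.comp]
        field_simp
  rw [integral_div] at h1
  refine h1.congr' ?_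
  filter_upwards [self_mem_nhdsWithin] with β hβ
  have hβ : 0 < β := hβ
  have i0 := (mStar_int S β).1
  have i1 : Integrable (fun s : ℝ => min (Real.exp (β * s)) (kS μ s) - 1) μ :=
    i0.sub (integrable_const _)
  have e1 : ∫ s, (min (Real.exp (β * s)) (kS μ s) - 1 - β * s) ∂μ =
      mStar μ β - 1 - (∫ s, s ∂μ) * β := by
    rw [integral_sub i1 (hE.const_mul β), integral_sub i0 (integrable_const _),
      integral_const_mul]
    simp only [integral_const, probReal_univ, smul_eq_mul, mul_one]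
    change mStar μ β - 1 - β * (∫ s, s ∂μ) = _
    ring
  rw [integral_div, e1]

/-- the canonical root to first order, as a limit -/
lemma betaStar_limit (S : StdC μ ν h h') :
    Tendsto (fun θ => betaStar μ ν θ / θ) (𝓝[>] 0) (𝓝 (eta μ ν - 1)) := by
  rw [Metric.tendsto_nhds]
  intro ε hε
  obtain ⟨θ0, hθ0, hb⟩ := betaStar_basic S (ω := ε / 2) (by positivity)
  have hev : ∀ᶠ θ : ℝ in 𝓝[>] 0, θ < θ0 :=
    Filter.Eventually.filter_mono nhdsWithin_le_nhds (gt_mem_nhds hθ0)
  filter_upwards [hev, self_mem_nhdsWithin] with θ hθ1 hθ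
  have hθ : 0 < θ := hθ
  obtain ⟨-, g1, g2, -⟩ := hb θ hθ hθ1.le
  rw [Real.dist_eq]
  have h1 : |betaStar μ ν θ / θ - (eta μ ν - 1)| ≤ ε / 2 := by
    rw [abs_le]
    constructor
    · have : eta μ ν - 1 - ε / 2 ≤ betaStar μ ν θ / θ := by
        rw [le_div_iff₀ hθ]
        exact g1
      linarith
    · have : betaStar μ ν θ / θ ≤ eta μ ν - 1 + ε / 2 := by
        rw [div_le_iff₀ hθ]
        exact g2
      linarith
  linarith

open BetaAux BetaTwo in
/-- the canonical root to second order -/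
theorem betaStar_second (S : StdC μ ν h h') (hν2 : Integrable (fun t : ℝ => t ^ 2) ν) :
    Tendsto (fun θ => (θ + betaStar μ ν θ - eta μ ν * θ) / θ ^ 2) (𝓝[>] 0)
      (𝓝 (-kap μ ν)) := by
  unfold kap
  have hν0 := ae_nonneg S.hν
  have hνi := S.hνi
  have hgt := S.hgt
  have hlim := betaStar_limit S
  have hη2 := two_lt_eta S
  obtain ⟨θ0, hθ0, hbasic0⟩ := betaStar_basic S (ω := (eta μ ν - 2) / 2) (by linarith)
  have hbasic : ∀ θ : ℝ, 0 < θ → θ < θ0 → θ < betaStar μ ν θ ∧
      mStar μ (betaStar μ ν θ) * lap ν (betaStar μ ν θ + θ) = 1 := by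
    intro θ hθ hθ1
    obtain ⟨-, g1, -, g2⟩ := hbasic0 θ hθ hθ1.le
    refine ⟨lt_of_lt_of_le ?_ g1, g2⟩
    nlinarith
  have hηdef : eta μ ν = (∫ s, s ∂μ) / ((∫ s, s ∂μ) - ∫ t, t ∂ν) := rfl
  set η := eta μ ν with hηη
  set E := ∫ s, s ∂μ with hE
  set m := ∫ t, t ∂ν with hmdef
  set E2 := ∫ s, s ^ 2 ∂μ with hE2
  set T2 := ∫ t, t ^ 2 ∂ν with hT2
  have hd : 0 < E - m := by linarith
  set b : ℝ → ℝ := fun θ => betaStar μ ν θ / θ with hb
  have hid : Tendsto (fun θ : ℝ => θ) (𝓝[>] (0 : ℝ)) (𝓝 0) :=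
    (continuous_id.tendsto 0).mono_left nhdsWithin_le_nhds
  have hev : ∀ᶠ θ : ℝ in 𝓝[>] 0, θ < θ0 :=
    Filter.Eventually.filter_mono nhdsWithin_le_nhds (gt_mem_nhds hθ0)
  -- the argument of the Laplace transform
  have hq0 : Tendsto (fun θ : ℝ => betaStar μ ν θ + θ) (𝓝[>] 0) (𝓝[>] 0) := by
    apply tendsto_nhdsWithin_of_tendsto_nhds_of_eventually_within
    · have h1 := (hlim.add_const 1).mul hid
      rw [mul_zero] at h1
      refine h1.congr' ?_
      filter_upwards [self_mem_nhdsWithin] with θ hθ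
      have hθ : 0 < θ := hθ
      rw [add_mul, div_mul_cancel₀ _ hθ.ne', one_mul]
    · filter_upwards [self_mem_nhdsWithin] with θ hθ
      have hθ : 0 < θ := hθ
      have : 0 ≤ betaStar μ ν θ := rootM_nonneg _ _
      exact Set.mem_Ioi.mpr (by linarith)
  have hr0 : Tendsto (fun θ : ℝ => betaStar μ ν θ) (𝓝[>] 0) (𝓝[>] 0) := by
    apply tendsto_nhdsWithin_of_tendsto_nhds_of_eventually_within
    · have h1 := hlim.mul hid
      rw [mul_zero] at h1
      refine h1.congr' ?_
      filter_upwards [self_mem_nhdsWithin] with θ hθ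
      have hθ : 0 < θ := hθ
      rw [div_mul_cancel₀ _ hθ.ne']
    · filter_upwards [hev, self_mem_nhdsWithin] with θ hθ1 hθ
      have hθ : 0 < θ := hθ
      obtain ⟨g1, -⟩ := hbasic θ hθ hθ1
      exact Set.mem_Ioi.mpr (by linarith)
  have hs := (tendsto_lap_second hν0 hνi hν2).comp hq0
  rw [← hmdef, ← hT2] at hs
  set s : ℝ → ℝ := fun θ => ((fun q => (lap ν q - 1 + m * q) / q ^ 2) ∘
    fun θ => betaStar μ ν θ + θ) θ with hsdef
  have hs' : Tendsto s (𝓝[>] 0) (𝓝 (T2 / 2)) := hs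
  have hp := (mStar_second S).comp hr0
  rw [← hE, ← hE2] at hp
  set p : ℝ → ℝ := fun θ => ((fun β => (mStar μ β - 1 - E * β) / β ^ 2) ∘
    fun θ => betaStar μ ν θ) θ with hpdef
  have hp' : Tendsto p (𝓝[>] 0) (𝓝 (E2 / 2)) := hp
  have hbl : Tendsto b (𝓝[>] 0) (𝓝 (η - 1)) := hlim
  set Φ : ℝ → ℝ := fun θ => -((p θ * b θ ^ 2 - E * m * b θ * (b θ + 1) +
      s θ * (b θ + 1) ^ 2) + θ * (E * b θ * s θ * (b θ + 1) ^ 2 - m * (b θ + 1) * (p θ *
        b θ ^ 2)) + θ ^ 2 * (p θ * b θ ^ 2 * s θ * (b θ + 1) ^ 2)) / (E - m) with hΦ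
  have hΦlim : Tendsto Φ (𝓝[>] 0) (𝓝 (-((E2 / 2 * (η - 1) ^ 2 - E * m * (η - 1) *
      ((η - 1) + 1) + T2 / 2 * ((η - 1) + 1) ^ 2) + 0 * (E * (η - 1) * (T2 / 2) *
      ((η - 1) + 1) ^ 2 - m * ((η - 1) + 1) * (E2 / 2 * (η - 1) ^ 2)) +
      0 ^ 2 * (E2 / 2 * (η - 1) ^ 2 * (T2 / 2) * ((η - 1) + 1) ^ 2)) / (E - m))) := by
    have hb1 := hbl.add_const 1
    refine Tendsto.div_const (Tendsto.neg (Tendsto.add (Tendsto.add (Tendsto.add (Tendsto.sub
      ?_ ?_) ?_) ?_) ?_)) _
    · exact hp'.mul (hbl.pow 2)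
    · exact (hbl.const_mul (E * m)).mul hb1
    · exact hs'.mul (hb1.pow 2)
    · refine hid.mul (Tendsto.sub ?_ ?_)
      · exact ((hbl.const_mul E).mul hs').mul (hb1.pow 2)
      · exact (hb1.const_mul m).mul (hp'.mul (hbl.pow 2))
    · exact (hid.pow 2).mul (((hp'.mul (hbl.pow 2)).mul hs').mul (hb1.pow 2))
  have hval : -((E2 / 2 * (η - 1) ^ 2 - E * m * (η - 1) *
      ((η - 1) + 1) + T2 / 2 * ((η - 1) + 1) ^ 2) + 0 * (E * (η - 1) * (T2 / 2) *
      ((η - 1) + 1) ^ 2 - m * ((η - 1) + 1) * (E2 / 2 * (η - 1) ^ 2)) +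
      0 ^ 2 * (E2 / 2 * (η - 1) ^ 2 * (T2 / 2) * ((η - 1) + 1) ^ 2)) / (E - m) =
      -(((E2 - E ^ 2) * (η - 1) ^ 2 + (T2 - m ^ 2) * η ^ 2) / (2 * (E - m))) := by
    have h0 : E * (η - 1) - m * η = 0 := by
      rw [hηdef]; field_simp; ring
    have h1 : (E * (η - 1) - m * η) ^ 2 = 0 := by rw [h0]; ring
    field_simp
    nlinarith
  rw [hval] at hΦlim
  refine hΦlim.congr' ?_
  filter_upwards [hev, self_mem_nhdsWithin] with θ hθ1 hθ
  have hθ : 0 < θ := hθ
  obtain ⟨g1, g2⟩ := hbasic θ hθ hθ1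
  set β := betaStar μ ν θ with hβ
  have hβ0 : 0 < β := hθ.trans g1
  have hq : 0 < β + θ := by positivity
  have hsθ : s θ = (lap ν (β + θ) - 1 + m * (β + θ)) / (β + θ) ^ 2 := rfl
  have hpθ : p θ = (mStar μ β - 1 - E * β) / β ^ 2 := rfl
  have hL : lap ν (β + θ) = 1 - m * (β + θ) + s θ * (β + θ) ^ 2 := by
    rw [hsθ]; field_simp; ring
  have hM : mStar μ β = 1 + E * β + p θ * β ^ 2 := by
    rw [hpθ]; field_simp; ring
  have hbθ : β = b θ * θ := by
    rw [hb]; simp only; rw [← hβ]; field_simp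
  rw [hL, hM] at g2
  change Φ θ = (θ + β - η * θ) / θ ^ 2
  have h0 : (E - m) * (η - 1) = m := by
    rw [hηdef]; field_simp; ring
  rw [hΦ]
  simp only
  rw [hbθ] at g2 ⊢
  generalize s θ = T at g2 ⊢
  generalize p θ = P at g2 ⊢
  generalize b θ = B at g2 ⊢
  have key : (E - m) * (B - (η - 1)) * θ + ((P * B ^ 2 - E * m * B * (B + 1) +
      T * (B + 1) ^ 2) * θ ^ 2 + (E * B * T * (B + 1) ^ 2 - m * (B + 1) * (P *
        B ^ 2)) * θ ^ 3 + (P * B ^ 2 * T * (B + 1) ^ 2) * θ ^ 4) = 0 := by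
    linear_combination g2 - θ * h0
  rw [div_eq_div_iff hd.ne' (by positivity)]
  linear_combination (-1) * key

/-- the service law is not degenerate (its tail is positive everywhere), so `Var σ > 0`;
`Var t ≥ 0` (Jensen) -/
theorem kapC_pos (S : StdC μ ν h h') (hν2 : Integrable (fun t : ℝ => t ^ 2) ν) :
    0 < kap μ ν := by
  unfold kap
  have hgt := S.hgt
  have hlt := S.hlt
  have h2η := two_lt_eta S
  have i1 : Integrable (fun s : ℝ => s) μ := by
    simpa using law_integrable_pow S.haz S.law 1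
  have i2 : Integrable (fun s : ℝ => s ^ 2) μ := law_integrable_pow S.haz S.law 2
  have hvar : ∀ (ρ : Measure ℝ) [IsProbabilityMeasure ρ], Integrable (fun s : ℝ => s) ρ →
      Integrable (fun s : ℝ => s ^ 2) ρ →
      ∫ s, (s - ∫ s, s ∂ρ) ^ 2 ∂ρ = (∫ s, s ^ 2 ∂ρ) - (∫ s, s ∂ρ) ^ 2 ∧
        Integrable (fun s : ℝ => (s - ∫ s, s ∂ρ) ^ 2) ρ := by
    intro ρ _ j1 j2
    set c := ∫ s, s ∂ρ with hc
    have e : ∀ s : ℝ, (s - c) ^ 2 = s ^ 2 - (2 * c) * s + c ^ 2 := fun s => by ring
    simp_rw [e]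
    have j3 : Integrable (fun s : ℝ => (2 * c) * s) ρ := j1.const_mul _
    have j4 : Integrable (fun s : ℝ => s ^ 2 - (2 * c) * s) ρ := j2.sub j3
    constructor
    · rw [integral_add j4 (integrable_const _), integral_sub j2 j3, integral_const_mul,
        ← hc, integral_const, probReal_univ, one_smul]
      ring
    · exact j4.add (integrable_const _)
  obtain ⟨v1, v2⟩ := hvar ν S.hνi hν2
  obtain ⟨w1, w2⟩ := hvar μ i1 i2
  rw [← v1, ← w1]
  have hA : 0 < ∫ s, (s - ∫ s, s ∂μ) ^ 2 ∂μ := by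
    rcases (integral_nonneg (μ := μ) (f := fun s : ℝ => (s - ∫ s, s ∂μ) ^ 2)
      (fun s => sq_nonneg _)).lt_or_eq with hl | hl
    · exact hl
    · exfalso
      have h0 := (integral_eq_zero_iff_of_nonneg (fun s : ℝ => sq_nonneg _) w2).1 hl.symm
      obtain ⟨x, hx1, hx2⟩ := ((S.law.asy (1 / 2) (by norm_num)).and
        (eventually_ge_atTop (∫ s, s ∂μ))).exists
      have h1 : μ (Set.Ioi x) = 0 := by
        rw [← compl_mem_ae_iff]
        filter_upwards [h0] with s hs
        simp only [Pi.zero_apply] at hs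
        have : s - ∫ s, s ∂μ = 0 := by
          exact pow_eq_zero_iff (two_ne_zero) |>.1 hs
        simp only [Set.mem_compl_iff, Set.mem_Ioi, not_lt]
        linarith
      have h2 := hx1.1
      rw [h1] at h2
      have h3 : 0 < (1 - 1 / 2) * Real.exp (-(h x)) := by positivity
      have h4 := ENNReal.ofReal_pos.2 h3
      exact absurd h2 (not_le.2 h4)
  have hB : 0 ≤ ∫ t, (t - ∫ t, t ∂ν) ^ 2 ∂ν := integral_nonneg (fun s => sq_nonneg _)
  have hη1 : 0 < (eta μ ν - 1) ^ 2 := by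
    have : 0 < eta μ ν - 1 := by linarith
    positivity
  apply div_pos
  · have := mul_pos hA hη1
    have := mul_nonneg hB (sq_nonneg (eta μ ν))
    linarith
  · linarith

end Pool.Agent.Lib.MP_04add8_pr.U
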