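import Mathlib
import Pool.Agent.Lib.MP_04add8_pr.U.WRateU
import Pool.Agent.Lib.MP_04add8_pr.Cv.TailInt

open MeasureTheory ProbabilityTheory Filter Topology
open scoped ENNReal

set_option linter.unusedSectionVars false

namespace Pool.Agent.Lib.MP_04add8_pr.U

open Pool.Agent.Lib.MP_04add8_pr.Gen Pool.Agent.Lib.MP_04add8_pr.Cv

variable {h h' : ℝ → ℝ} {μ ν : Measure ℝ} [IsProbabilityMeasure μ]
  [IsProbabilityMeasure ν]

variable {B v : ℝ → ℝ}

/-- one big job dominates -/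
theorem twoU_small (S : StdC μ ν h h') (T : Thr h h' B v) {δ : ℝ} (hδ0 : 0 < δ)
    (hdom : ∀ᶠ x : ℝ in atTop, (1 + δ) * h (eta μ ν * x) ≤ 2 * h x) :
    Tendsto (fun x : ℝ => (Qf h h' x) ^ 2 / fS h h' μ ν (betaStar μ ν) x) atTop (𝓝 0) := by
  have H := S.haz
  have TB := T.slvl H
  have hB := thr_hB H T
  have Psl := slp_root S TB hB
  rw [Metric.tendsto_nhds]
  intro ε hε
  filter_upwards [hdom, eventually_gt_atTop 0, H.deriv_ge 1,
    gerr_one S Psl hδ0 (show 0 < ε / 4 by positivity) 1 2,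
    fS_cmp S Psl (fun θ => rootM_nonneg (ν := ν) (mStar μ) θ)
      (fun M ω hω => beta_cmp S TB hB M hω) one_pos] with x h3 hx h4 h5 h6
  have hf := fS_pos S (betaStar μ ν) hx
  have h61 : fS h h' μ ν (fun θ => rootM ν (mgB μ (B x)) θ) x ≤
      (1 + 1) * fS h h' μ ν (betaStar μ ν) x := h6.1
  generalize fS h h' μ ν (betaStar μ ν) x = f at hf h61 ⊢
  have h51 : 1 * x ^ (2 : ℝ) * Real.exp (-((1 + δ) * h (eta μ ν * x))) ≤
      ε / 4 * fS h h' μ ν (fun θ => rootM ν (mgB μ (B x)) θ) x := h5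
  generalize fS h h' μ ν (fun θ => rootM ν (mgB μ (B x)) θ) x = g at h61 h51
  have hh' := H.pos x hx
  have h7 : (Qf h h' x) ^ 2 ≤ ε / 4 * g := by
    refine le_trans ?_ h51
    have h6 : (h' x)⁻¹ ≤ x := by
      rw [inv_le_comm₀ hh' hx, ← one_div]
      exact h4
    have h7 : (Qf h h' x) ^ 2 = ((h' x)⁻¹) ^ 2 * Real.exp (-(2 * h x)) := by
      rw [Qf, div_eq_mul_inv, mul_pow, ← Real.exp_nat_mul]
      push_cast
      rw [show (2 : ℝ) * -h x = -(2 * h x) by ring]
      ring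
    rw [h7, one_mul, Real.rpow_two]
    refine mul_le_mul (pow_le_pow_left₀ (inv_nonneg.2 hh'.le) h6 2) ?_ (Real.exp_pos _).le
      (by positivity)
    rw [Real.exp_le_exp]
    linarith
  rw [Real.dist_eq, sub_zero, abs_of_nonneg (div_nonneg (sq_nonneg _) hf.le), div_lt_iff₀ hf]
  have h8 : ε / 4 * g ≤ ε / 4 * ((1 + 1) * f) := mul_le_mul_of_nonneg_left h61 (by positivity)
  have h9 : 0 < ε * f := by positivity
  linarith

/-- the one-job form -/
theorem formU_one (S : StdC μ ν h h') (T : Thr h h' B v) {δ : ℝ} (hδ0 : 0 < δ)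
    (hdom : ∀ᶠ x : ℝ in atTop, (1 + δ) * h (eta μ ν * x) ≤ 2 * h x) {P : ℝ → ℝ}
    (hE : Tendsto (fun x : ℝ => P x / (fS h h' μ ν (betaStar μ ν) x +
      K2 μ ν * (Qf h h' x) ^ 2)) atTop (𝓝 1)) :
    Tendsto (fun x : ℝ => P x / fS h h' μ ν (betaStar μ ν) x) atTop (𝓝 1) := by
  have hk2 : 0 < K2 μ ν := by
    unfold K2
    have h1 := S.hm
    have h2 := S.hlt
    have h3 : 0 < 2 * (∫ t, t ∂ν) - ∫ s, s ∂μ := by linarith
    positivity
  have hs := twoU_small S T hδ0 hdom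
  have h3 : Tendsto (fun x : ℝ => 1 + K2 μ ν *
      ((Qf h h' x) ^ 2 / fS h h' μ ν (betaStar μ ν) x)) atTop (𝓝 1) := by
    have := (tendsto_const_nhds (x := (1 : ℝ)) (f := (atTop : Filter ℝ))).add
      (hs.const_mul (K2 μ ν))
    simpa using this
  have h4 := hE.mul h3
  rw [mul_one] at h4
  refine h4.congr' ?_
  filter_upwards [eventually_gt_atTop 0] with x hx
  have p1 := fS_pos S (betaStar μ ν) hx
  have p2 := Qf_pos S.haz hx
  generalize P x = P
  generalize fS h h' μ ν (betaStar μ ν) x = A at p1 ⊢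
  generalize Qf h h' x = Q at p2 ⊢
  have p4 : 0 < A + K2 μ ν * Q ^ 2 := by positivity
  field_simp

/-- the quotient with the integrated tail at `η x`:
`fS = exp (h (η x) - hRate) Qf (η x) / (2m - E)` -/
theorem quotU (S : StdC μ ν h h') (T : Thr h h' B v) {δ : ℝ} (hδ0 : 0 < δ)
    (hdom : ∀ᶠ x : ℝ in atTop, (1 + δ) * h (eta μ ν * x) ≤ 2 * h x) {P : ℝ → ℝ}
    (hE : Tendsto (fun x : ℝ => P x / (fS h h' μ ν (betaStar μ ν) x +
      K2 μ ν * (Qf h h' x) ^ 2)) atTop (𝓝 1)) :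
    Tendsto (fun x : ℝ => P x /
      (Real.exp (h (eta μ ν * x) - hRate h (betaStar μ ν) x) /
        (2 * (∫ t, t ∂ν) - ∫ s, s ∂μ) * integratedTail μ (eta μ ν * x))) atTop (𝓝 1) := by
  have hη0 : 0 < eta μ ν := by linarith [two_lt_eta S]
  have h1 := formU_one S T hδ0 hdom hE
  have hi : Tendsto (fun x : ℝ => eta μ ν * x) atTop atTop := tendsto_id.const_mul_atTop hη0
  have hI := (Cv.integratedTail_asymp S.haz S.law).comp hi
  have hprod := h1.div hI one_ne_zero
  rw [div_one] at hprod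
  refine hprod.congr' ?_
  filter_upwards [eventually_gt_atTop 0] with x hx
  rw [Pi.div_apply]
  simp only [Function.comp]
  have hy0 : 0 < eta μ ν * x := by positivity
  have p1 := S.haz.pos _ hy0
  have hD : 0 < 2 * (∫ t, t ∂ν) - ∫ s, s ∂μ := by linarith [S.hlt]
  unfold fS Qf
  have e1 : Real.exp (-(hRate h (betaStar μ ν) x)) =
      Real.exp (h (eta μ ν * x) - hRate h (betaStar μ ν) x) *
        Real.exp (-(h (eta μ ν * x))) := by
    rw [← Real.exp_add]; congr 1; ring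
  rw [e1]
  generalize integratedTail μ (eta μ ν * x) = J
  generalize P x = P
  generalize hA : Real.exp (h (eta μ ν * x) - hRate h (betaStar μ ν) x) = A
  have hA0 : 0 < A := by rw [← hA]; exact Real.exp_pos _
  generalize hB : Real.exp (-(h (eta μ ν * x))) = B
  have hB0 : 0 < B := by rw [← hB]; exact Real.exp_pos _
  generalize h' (eta μ ν * x) = X at p1 ⊢
  generalize 2 * (∫ t, t ∂ν) - ∫ s, s ∂μ = D at hD ⊢
  by_cases hJ : J = 0
  · simp [hJ]
  · field_simp

/-- **Whitt's formula is true** if `x h' x ^ 2 → c` -/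
theorem whittU_true (S : StdC μ ν h h') (T : Thr h h' B v)
    (hν2 : Integrable (fun t : ℝ => t ^ 2) ν) {δ : ℝ} (hδ0 : 0 < δ)
    (hdom : ∀ᶠ x : ℝ in atTop, (1 + δ) * h (eta μ ν * x) ≤ 2 * h x) {P : ℝ → ℝ}
    (hE : Tendsto (fun x : ℝ => P x / (fS h h' μ ν (betaStar μ ν) x +
      K2 μ ν * (Qf h h' x) ^ 2)) atTop (𝓝 1)) {c : ℝ}
    (hc : Tendsto (fun x : ℝ => x * h' x ^ 2) atTop (𝓝 c)) :
    Tendsto (fun x : ℝ => P x /
      (Real.exp (kap μ ν * (c / eta μ ν)) /
        (2 * (∫ t, t ∂ν) - ∫ s, s ∂μ) * integratedTail μ (eta μ ν * x))) atTop (𝓝 1) := by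
  have hη0 : 0 < eta μ ν := by linarith [two_lt_eta S]
  have hq := quotU S T hδ0 hdom hE
  have hi : Tendsto (fun x : ℝ => eta μ ν * x) atTop atTop := tendsto_id.const_mul_atTop hη0
  -- `x h' (η x) ^ 2 → c / η`
  have hu : Tendsto (fun x : ℝ => x * h' (eta μ ν * x) ^ 2) atTop (𝓝 (c / eta μ ν)) := by
    have := (hc.comp hi).div_const (eta μ ν)
    refine this.congr fun x => ?_
    simp only [Function.comp]
    field_simp
  -- the difference
  have hd : Tendsto (fun x : ℝ => h (eta μ ν * x) - hRate h (betaStar μ ν) x) atTop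
      (𝓝 (kap μ ν * (c / eta μ ν))) := by
    obtain ⟨C, hC0, hC⟩ : ∃ C : ℝ, 0 < C ∧ c / eta μ ν < C :=
      ⟨max 1 (c / eta μ ν + 1), by positivity, lt_of_lt_of_le (by linarith) (le_max_right _ _)⟩
    have h3 : Tendsto (fun x : ℝ => h (eta μ ν * x) - hRate h (betaStar μ ν) x -
        kap μ ν * (x * h' (eta μ ν * x) ^ 2)) atTop (𝓝 0) := by
      rw [Metric.tendsto_nhds]
      intro ε hε
      filter_upwards [rateU_second S T hν2 (ω := ε / (2 * (C + 1))) (by positivity),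
        hu.eventually_lt_const hC, eventually_gt_atTop 0] with x h1 h2 hx0
      rw [Real.dist_eq, sub_zero]
      refine lt_of_le_of_lt h1 ?_
      have h3 : ε / (2 * (C + 1)) * (x * h' (eta μ ν * x) ^ 2) + ε / (2 * (C + 1)) ≤
          ε / (2 * (C + 1)) * (C + 1) := by
        have h4 : 0 < ε / (2 * (C + 1)) := by positivity
        have h5 := mul_le_mul_of_nonneg_left h2.le h4.le
        linarith
      have h4 : ε / (2 * (C + 1)) * (C + 1) = ε / 2 := by field_simp
      linarith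
    have h4 := h3.add (hu.const_mul (kap μ ν))
    rw [zero_add] at h4
    refine h4.congr fun x => ?_
    ring
  have he : Tendsto (fun x : ℝ => Real.exp (h (eta μ ν * x) - hRate h (betaStar μ ν) x))
      atTop (𝓝 (Real.exp (kap μ ν * (c / eta μ ν)))) := (Real.continuous_exp.tendsto _).comp hd
  have hprod := hq.mul (he.div_const (Real.exp (kap μ ν * (c / eta μ ν))))
  rw [div_self (Real.exp_pos _).ne', mul_one] at hprod
  refine hprod.congr' ?_
  filter_upwards [eventually_gt_atTop 0] with x hx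
  have hD : 0 < 2 * (∫ t, t ∂ν) - ∫ s, s ∂μ := by linarith [S.hlt]
  generalize integratedTail μ (eta μ ν * x) = J
  generalize P x = P
  generalize hA : Real.exp (h (eta μ ν * x) - hRate h (betaStar μ ν) x) = A
  have hA0 : 0 < A := by rw [← hA]; exact Real.exp_pos _
  generalize hC : Real.exp (kap μ ν * (c / eta μ ν)) = C
  have hC0 : 0 < C := by rw [← hC]; exact Real.exp_pos _
  generalize 2 * (∫ t, t ∂ν) - ∫ s, s ∂μ = D at hD ⊢
  by_cases hJ : J = 0
  · simp [hJ]
  · field_simp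

end Pool.Agent.Lib.MP_04add8_pr.U
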