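import Mathlib
import Pool.Agent.Lib.MP_04add8_pr.U.WFormU

open MeasureTheory ProbabilityTheory Filter Topology
open scoped ENNReal

set_option linter.unusedSectionVars false

namespace Pool.Agent.Lib.MP_04add8_pr.U

open Pool.Agent.Lib.MP_04add8_pr.Gen Pool.Agent.Lib.MP_04add8_pr.Cv

variable {h h' : ℝ → ℝ} {μ ν : Measure ℝ} [IsProbabilityMeasure μ]
  [IsProbabilityMeasure ν]

variable {B v : ℝ → ℝ}

private lemma WOnlyU_bounds (S : StdC μ ν h h') {u : ℝ} (hu : 0 < u) :
    ∀ᶠ x : ℝ in atTop, 0 < integratedTail μ (u * x) ∧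
      integratedTail μ (u * x) ≤ 2 * Qf h h' (u * x) ∧
      Qf h h' (u * x) ≤ 2 * integratedTail μ (u * x) := by
  have hi : Tendsto (fun x : ℝ => u * x) atTop atTop := tendsto_id.const_mul_atTop hu
  have hI := (Cv.integratedTail_asymp S.haz S.law).comp hi
  have h1 := hI.eventually_lt_const (show (1 : ℝ) < 2 by norm_num)
  have h2 := hI.eventually_const_lt (show (1 / 2 : ℝ) < 1 by norm_num)
  filter_upwards [h1, h2, eventually_gt_atTop 0] with x g1 g2 hx
  simp only [Function.comp] at g1 g2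
  have p := Qf_pos S.haz (show 0 < u * x by positivity)
  rw [div_lt_iff₀ p] at g1
  rw [lt_div_iff₀ p] at g2
  refine ⟨by linarith, g1.le, by linarith⟩

/-- integrated tails at different proportional points are not comparable, even up to
`exp (δ x h' x)`: `h (b x) - h (a x) ≥ (b - a) x h' (b x) ≥ c x h' x`. -/
theorem itailU_far (S : StdC μ ν h h') {u v : ℝ} (hu : 0 < u) (huv : u < v) :
    ∃ c : ℝ, 0 < c ∧ ∀ᶠ x : ℝ in atTop,
      integratedTail μ (v * x) ≤ integratedTail μ (u * x) * Real.exp (-(c * (x * h' x))) := by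
  have H := S.haz
  have hv : 0 < v := hu.trans huv
  obtain ⟨C, hC0, hcv⟩ := H.curv
  obtain ⟨k, hk⟩ : ∃ k : ℝ, k = min 1 (v ^ (-C)) := ⟨_, rfl⟩
  have hk0 : 0 < k := by rw [hk]; exact lt_min one_pos (Real.rpow_pos_of_pos hv _)
  obtain ⟨c, hc⟩ : ∃ c : ℝ, c = (v - u) * k := ⟨_, rfl⟩
  have hc0 : 0 < c := by rw [hc]; exact mul_pos (by linarith) hk0
  obtain ⟨M, hM⟩ : ∃ M : ℝ, M = (v / u) ^ C := ⟨_, rfl⟩
  have hM0 : 0 < M := by rw [hM]; exact Real.rpow_pos_of_pos (by positivity) _
  refine ⟨c / 2, by positivity, ?_⟩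
  have e3 : ∀ᶠ x : ℝ in atTop, 4 * M ≤ Real.exp (c / 2 * (x * h' x)) :=
    (Real.tendsto_exp_atTop.comp (H.big.const_mul_atTop (show 0 < c / 2 by positivity)))
      |>.eventually_ge_atTop _
  filter_upwards [e3, WOnlyU_bounds S hu, WOnlyU_bounds S hv, eventually_gt_atTop 0] with
    x g3 ⟨gu0, gu1, gu2⟩ ⟨gv0, gv1, gv2⟩ hx
  have hq := H.pos x hx
  have hux : 0 < u * x := by positivity
  have hvx : 0 < v * x := by positivity
  have hqu := H.pos _ hux
  have hqv := H.pos _ hvx
  have g1 : k * h' x ≤ h' (v * x) := by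
    rcases le_total v 1 with hv1 | hv1
    · have g2 : h' x ≤ h' (v * x) := H.anti _ _ hvx (by nlinarith)
      have g3 : k * h' x ≤ 1 * h' x :=
        mul_le_mul_of_nonneg_right (by rw [hk]; exact min_le_left _ _) hq.le
      linarith
    · have g2 := hcv x (v * x) hx (by nlinarith)
      rw [Real.mul_rpow hv.le hx.le] at g2
      have hxC : 0 < x ^ C := Real.rpow_pos_of_pos hx _
      have hvC : 0 < v ^ C := Real.rpow_pos_of_pos hv _
      have g3 : h' x ≤ v ^ C * h' (v * x) := by
        have g4 : x ^ C * h' x ≤ x ^ C * (v ^ C * h' (v * x)) := by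
          calc x ^ C * h' x ≤ v ^ C * x ^ C * h' (v * x) := g2
            _ = _ := by ring
        exact le_of_mul_le_mul_left g4 hxC
      have g4 : k * h' x ≤ v ^ (-C) * h' x :=
        mul_le_mul_of_nonneg_right (by rw [hk]; exact min_le_right _ _) hq.le
      have g5 : v ^ (-C) * h' x ≤ v ^ (-C) * (v ^ C * h' (v * x)) :=
        mul_le_mul_of_nonneg_left g3 (Real.rpow_pos_of_pos hv _).le
      have g6 : v ^ (-C) * (v ^ C * h' (v * x)) = h' (v * x) := by
        rw [← mul_assoc, ← Real.rpow_add hv, neg_add_cancel, Real.rpow_zero, one_mul]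
      linarith
  have k1 := H.lower_deriv hux.le (show u * x ≤ v * x by nlinarith) hvx
  have k2 : c * (x * h' x) ≤ h (v * x) - h (u * x) := by
    refine le_trans ?_ k1
    rw [hc]
    have : (v - u) * x * (k * h' x) ≤ (v - u) * x * h' (v * x) :=
      mul_le_mul_of_nonneg_left g1 (mul_nonneg (by linarith) hx.le)
    nlinarith
  have k3 : h' (u * x) ≤ M * h' (v * x) := by
    have g2 := hcv (u * x) (v * x) hux (by nlinarith)
    have huC : 0 < (u * x) ^ C := Real.rpow_pos_of_pos hux _
    have g4 : (u * x) ^ C * h' (u * x) ≤ (u * x) ^ C * (M * h' (v * x)) := by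
      refine g2.trans (le_of_eq ?_)
      have : (v * x) ^ C = (u * x) ^ C * M := by
        rw [hM, ← Real.mul_rpow hux.le (by positivity)]
        congr 1
        field_simp
      rw [this]
      ring
    exact le_of_mul_le_mul_left g4 huC
  have k4 : Qf h h' (v * x) ≤ M * Real.exp (-(c * (x * h' x))) * Qf h h' (u * x) := by
    unfold Qf
    rw [div_le_iff₀ hqv]
    have h5 : Real.exp (-(h (v * x))) ≤
        Real.exp (-(c * (x * h' x))) * Real.exp (-(h (u * x))) := by
      rw [← Real.exp_add]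
      apply Real.exp_le_exp.2
      linarith
    have h6 : (1 : ℝ) ≤ M * h' (v * x) / h' (u * x) := by
      rw [le_div_iff₀ hqu, one_mul]
      exact k3
    calc Real.exp (-(h (v * x))) ≤ Real.exp (-(c * (x * h' x))) * Real.exp (-(h (u * x))) := h5
      _ = Real.exp (-(c * (x * h' x))) * Real.exp (-(h (u * x))) * 1 := (mul_one _).symm
      _ ≤ Real.exp (-(c * (x * h' x))) * Real.exp (-(h (u * x))) *
          (M * h' (v * x) / h' (u * x)) := mul_le_mul_of_nonneg_left h6 (by positivity)
      _ = M * Real.exp (-(c * (x * h' x))) * (Real.exp (-(h (u * x))) / h' (u * x)) *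
          h' (v * x) := by ring
  have k5 : Real.exp (-(c * (x * h' x))) * (4 * M) ≤ Real.exp (-(c / 2 * (x * h' x))) := by
    calc Real.exp (-(c * (x * h' x))) * (4 * M) ≤
        Real.exp (-(c * (x * h' x))) * Real.exp (c / 2 * (x * h' x)) :=
          mul_le_mul_of_nonneg_left g3 (Real.exp_pos _).le
      _ = Real.exp (-(c / 2 * (x * h' x))) := by
          rw [← Real.exp_add]
          congr 1
          ring
  calc integratedTail μ (v * x) ≤ 2 * Qf h h' (v * x) := gv1
    _ ≤ 2 * (M * Real.exp (-(c * (x * h' x))) * Qf h h' (u * x)) := by linarith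
    _ ≤ 2 * (M * Real.exp (-(c * (x * h' x))) * (2 * integratedTail μ (u * x))) := by
        have : 0 ≤ M * Real.exp (-(c * (x * h' x))) := by positivity
        have := mul_le_mul_of_nonneg_left gu2 this
        linarith
    _ = integratedTail μ (u * x) * (Real.exp (-(c * (x * h' x))) * (4 * M)) := by ring
    _ ≤ integratedTail μ (u * x) * Real.exp (-(c / 2 * (x * h' x))) :=
        mul_le_mul_of_nonneg_left k5 gu0.le

/-- the difference is small compared with `x h' x` -/
private lemma WOnlyU_close (S : StdC μ ν h h') (T : Thr h h' B v) {ω : ℝ} (hω : 0 < ω) :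
    ∀ᶠ x : ℝ in atTop, |h (eta μ ν * x) - hRate h (betaStar μ ν) x| ≤ ω * (x * h' x) := by
  have hη2 := two_lt_eta S
  filter_upwards [rateU_close S T (ω := ω / 2) (by positivity), eventually_gt_atTop 0,
    S.haz.big.eventually_ge_atTop 1] with x hx hx0 hb
  refine hx.trans ?_
  have h1 : h' (eta μ ν * x) ≤ h' x := S.haz.anti _ _ hx0 (by nlinarith)
  have h2 := mul_le_mul_of_nonneg_left h1 (mul_nonneg hω.le hx0.le)
  have h3 := mul_le_mul_of_nonneg_left hb hω.le
  linarith

/-- if `P (D > x) ~ γ I (η' x)`, then `η' = η` and `h (η x) - hRate` converges -/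
theorem whittU_core (S : StdC μ ν h h') (T : Thr h h' B v) {δ : ℝ} (hδ0 : 0 < δ)
    (hdom : ∀ᶠ x : ℝ in atTop, (1 + δ) * h (eta μ ν * x) ≤ 2 * h x) {P : ℝ → ℝ}
    (hE : Tendsto (fun x : ℝ => P x / (fS h h' μ ν (betaStar μ ν) x +
      K2 μ ν * (Qf h h' x) ^ 2)) atTop (𝓝 1)) {γ η' : ℝ}
    (hγ : 0 < γ) (hη' : 0 < η')
    (hlim : Tendsto (fun x : ℝ => P x / (γ * integratedTail μ (η' * x))) atTop (𝓝 1)) :
    η' = eta μ ν ∧ Tendsto (fun x : ℝ => h (eta μ ν * x) - hRate h (betaStar μ ν) x) atTop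
      (𝓝 (Real.log ((2 * (∫ t, t ∂ν) - ∫ s, s ∂μ) * γ))) := by
  have H := S.haz
  have hη0 : 0 < eta μ ν := by linarith [two_lt_eta S]
  have hq := quotU S T hδ0 hdom hE
  have hD : 0 < 2 * (∫ t, t ∂ν) - ∫ s, s ∂μ := by linarith [S.hlt]
  obtain ⟨D, hDe⟩ : ∃ D, D = 2 * (∫ t, t ∂ν) - ∫ s, s ∂μ := ⟨_, rfl⟩
  rw [← hDe] at hq hD
  obtain ⟨d, hd⟩ : ∃ d : ℝ → ℝ, d = fun x => h (eta μ ν * x) - hRate h (betaStar μ ν) x :=
    ⟨_, rfl⟩
  have hdx : ∀ x, h (eta μ ν * x) - hRate h (betaStar μ ν) x = d x := fun x => by rw [hd]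
  simp only [hdx] at hq
  -- the ratio of the two equivalents
  have hr : Tendsto (fun x : ℝ => Real.exp (d x) / (D * γ) *
      (integratedTail μ (eta μ ν * x) / integratedTail μ (η' * x))) atTop (𝓝 1) := by
    have h3 := hlim.div hq one_ne_zero
    rw [div_one] at h3
    refine h3.congr' ?_
    have hP : ∀ᶠ x : ℝ in atTop, P x ≠ 0 := by
      filter_upwards [hlim.eventually_const_lt (show (0 : ℝ) < 1 by norm_num)] with x hx hP
      rw [hP, zero_div] at hx
      exact lt_irrefl _ hx
    filter_upwards [hP, WOnlyU_bounds S hη0, WOnlyU_bounds S hη'] with x k1 ⟨k2, _, _⟩ ⟨k3, _, _⟩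
    rw [Pi.div_apply]
    have hA0 : 0 < Real.exp (d x) := Real.exp_pos _
    generalize Real.exp (d x) = A at hA0 ⊢
    generalize integratedTail μ (eta μ ν * x) = I at k2 ⊢
    generalize integratedTail μ (η' * x) = J at k3 ⊢
    generalize P x = P at k1 ⊢
    field_simp
  -- `η' = η`
  have heq : η' = eta μ ν := by
    rcases lt_trichotomy η' (eta μ ν) with hlt | heq | hgt
    · exfalso
      obtain ⟨c, hc, hf⟩ := itailU_far S hη' hlt
      have e1 := WOnlyU_close S T (show 0 < c / 2 by positivity)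
      have e2 : Tendsto (fun x : ℝ => Real.exp (-(c / 2 * (x * h' x)))) atTop (𝓝 0) :=
        Real.tendsto_exp_neg_atTop_nhds_zero.comp
          (H.big.const_mul_atTop (show 0 < c / 2 by positivity))
      have e3 := e2.eventually_lt_const (show 0 < D * γ / 2 by positivity)
      have e4 := hr.eventually_const_lt (show (1 / 2 : ℝ) < 1 by norm_num)
      obtain ⟨x, k1, k2, k3, k4, ⟨k5, -, -⟩, k6⟩ := (hf.and (e1.and (e3.and (e4.and
        ((WOnlyU_bounds S hη').and (eventually_gt_atTop 0)))))).exists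
      rw [hdx] at k2
      have k7 : integratedTail μ (eta μ ν * x) / integratedTail μ (η' * x) ≤
          Real.exp (-(c * (x * h' x))) := by
        rw [div_le_iff₀ k5]
        linarith [k1]
      have k8 : Real.exp (d x) * Real.exp (-(c * (x * h' x))) ≤
          Real.exp (-(c / 2 * (x * h' x))) := by
        rw [← Real.exp_add]
        apply Real.exp_le_exp.2
        have := (abs_le.1 k2).2
        linarith
      have k9 : Real.exp (d x) / (D * γ) *
          (integratedTail μ (eta μ ν * x) / integratedTail μ (η' * x)) ≤ 1 / 2 := by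
        calc Real.exp (d x) / (D * γ) *
            (integratedTail μ (eta μ ν * x) / integratedTail μ (η' * x)) ≤
            Real.exp (d x) / (D * γ) * Real.exp (-(c * (x * h' x))) :=
              mul_le_mul_of_nonneg_left k7 (by positivity)
          _ = Real.exp (d x) * Real.exp (-(c * (x * h' x))) / (D * γ) := by ring
          _ ≤ (D * γ / 2) / (D * γ) := by
              apply div_le_div_of_nonneg_right (k8.trans k3.le) (by positivity)
          _ = 1 / 2 := by
              field_simp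
      linarith
    · exact heq
    · exfalso
      obtain ⟨c, hc, hf⟩ := itailU_far S hη0 hgt
      have e1 := WOnlyU_close S T (show 0 < c / 2 by positivity)
      have e2 : Tendsto (fun x : ℝ => Real.exp (c / 2 * (x * h' x))) atTop atTop :=
        Real.tendsto_exp_atTop.comp
          (H.big.const_mul_atTop (show 0 < c / 2 by positivity))
      have e3 := e2.eventually_gt_atTop (2 * (D * γ))
      have e4 := hr.eventually_lt_const (show (1 : ℝ) < 2 by norm_num)
      obtain ⟨x, k1, k2, k3, k4, ⟨k5, -, -⟩, k6⟩ := (hf.and (e1.and (e3.and (e4.and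
        ((WOnlyU_bounds S hη').and (eventually_gt_atTop 0)))))).exists
      rw [hdx] at k2
      have k7 : Real.exp (c * (x * h' x)) ≤
          integratedTail μ (eta μ ν * x) / integratedTail μ (η' * x) := by
        rw [le_div_iff₀ k5]
        calc Real.exp (c * (x * h' x)) * integratedTail μ (η' * x) ≤
            Real.exp (c * (x * h' x)) *
              (integratedTail μ (eta μ ν * x) * Real.exp (-(c * (x * h' x)))) :=
              mul_le_mul_of_nonneg_left k1 (Real.exp_pos _).le
          _ = integratedTail μ (eta μ ν * x) *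
              (Real.exp (c * (x * h' x)) * Real.exp (-(c * (x * h' x)))) := by ring
          _ = integratedTail μ (eta μ ν * x) := by
              rw [← Real.exp_add, add_neg_cancel, Real.exp_zero, mul_one]
      have k8 : Real.exp (c / 2 * (x * h' x)) ≤
          Real.exp (d x) * Real.exp (c * (x * h' x)) := by
        rw [← Real.exp_add]
        apply Real.exp_le_exp.2
        have := (abs_le.1 k2).1
        linarith
      have k9 : 2 ≤ Real.exp (d x) / (D * γ) *
          (integratedTail μ (eta μ ν * x) / integratedTail μ (η' * x)) := by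
        calc (2 : ℝ) = (2 * (D * γ)) / (D * γ) := by
              field_simp
          _ ≤ Real.exp (d x) * Real.exp (c * (x * h' x)) / (D * γ) :=
              div_le_div_of_nonneg_right (k3.le.trans k8) (by positivity)
          _ = Real.exp (d x) / (D * γ) * Real.exp (c * (x * h' x)) := by ring
          _ ≤ _ := mul_le_mul_of_nonneg_left k7 (by positivity)
      linarith
  rw [heq] at hr
  -- the difference converges
  have hdl : Tendsto d atTop (𝓝 (Real.log (D * γ))) := by
    have h3 : Tendsto (fun x => Real.exp (d x) / (D * γ)) atTop (𝓝 1) := by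
      refine hr.congr' ?_
      filter_upwards [WOnlyU_bounds S hη0] with x ⟨k2, _, _⟩
      rw [div_self k2.ne', mul_one]
    have h4 := h3.mul_const (D * γ)
    rw [one_mul] at h4
    have h5 := h4.log (show D * γ ≠ 0 by positivity)
    refine h5.congr fun x => ?_
    rw [div_mul_cancel₀ _ (show D * γ ≠ 0 by positivity), Real.log_exp]
  refine ⟨heq, ?_⟩
  rw [← hDe]
  refine hdl.congr fun x => ?_
  rw [hdx]

/-- **Only if**: if `P (D > x) ~ γ I (η' x)`, then `η' = η`, so `h (η x) - hRate` converges, and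
`x h' (η x) ^ 2` converges; replace `x` by `x / η`. -/
theorem whittU_only (S : StdC μ ν h h') (T : Thr h h' B v)
    (hν2 : Integrable (fun t : ℝ => t ^ 2) ν) {δ : ℝ} (hδ0 : 0 < δ)
    (hdom : ∀ᶠ x : ℝ in atTop, (1 + δ) * h (eta μ ν * x) ≤ 2 * h x) {P : ℝ → ℝ}
    (hE : Tendsto (fun x : ℝ => P x / (fS h h' μ ν (betaStar μ ν) x +
      K2 μ ν * (Qf h h' x) ^ 2)) atTop (𝓝 1)) {γ η' : ℝ}
    (hγ : 0 < γ) (hη' : 0 < η')
    (hlim : Tendsto (fun x : ℝ => P x / (γ * integratedTail μ (η' * x))) atTop (𝓝 1)) :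
    ∃ c : ℝ, Tendsto (fun x : ℝ => x * h' x ^ 2) atTop (𝓝 c) := by
  have H := S.haz
  have hη0 : 0 < eta μ ν := by linarith [two_lt_eta S]
  have hκ := kapC_pos S hν2
  obtain ⟨-, hdl0⟩ := whittU_core S T hδ0 hdom hE hγ hη' hlim
  have hD : 0 < 2 * (∫ t, t ∂ν) - ∫ s, s ∂μ := by linarith [S.hlt]
  obtain ⟨D, hDe⟩ : ∃ D, D = 2 * (∫ t, t ∂ν) - ∫ s, s ∂μ := ⟨_, rfl⟩
  rw [← hDe] at hD hdl0
  obtain ⟨d, hd⟩ : ∃ d : ℝ → ℝ, d = fun x => h (eta μ ν * x) - hRate h (betaStar μ ν) x :=
    ⟨_, rfl⟩
  have hdx : ∀ x, h (eta μ ν * x) - hRate h (betaStar μ ν) x = d x := fun x => by rw [hd]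
  have hdl : Tendsto d atTop (𝓝 (Real.log (D * γ))) := by
    rw [hd]
    exact hdl0
  -- second order
  obtain ⟨L, hL⟩ : ∃ L : ℝ, L = |Real.log (D * γ)| + 1 := ⟨_, rfl⟩
  have hL0 : 0 < L := by rw [hL]; positivity
  have hdL : ∀ᶠ x : ℝ in atTop, d x < L := by
    apply hdl.eventually_lt_const
    have := le_abs_self (Real.log (D * γ))
    linarith
  -- `x h' (η x) ^ 2` is bounded
  obtain ⟨A, hA⟩ : ∃ A : ℝ, A = (L + kap μ ν) * (2 / kap μ ν) := ⟨_, rfl⟩
  have hA0 : 0 < A := by rw [hA]; positivity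
  have hbd : ∀ᶠ x : ℝ in atTop, x * h' (eta μ ν * x) ^ 2 ≤ A := by
    filter_upwards [rateU_second S T hν2 (show 0 < kap μ ν / 2 by positivity), hdL] with x hx hx2
    rw [hdx] at hx
    have h3 := (abs_le.1 hx).1
    rw [hA, mul_div_assoc', le_div_iff₀ hκ]
    linarith
  have h3 : Tendsto (fun x : ℝ => d x - kap μ ν * (x * h' (eta μ ν * x) ^ 2)) atTop (𝓝 0) := by
    rw [Metric.tendsto_nhds]
    intro ε hε
    filter_upwards [rateU_second S T hν2 (ω := ε / (2 * (A + 1))) (by positivity), hbd] with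
      x h1 h2
    rw [hdx] at h1
    rw [Real.dist_eq, sub_zero]
    refine lt_of_le_of_lt h1 ?_
    have h3 : ε / (2 * (A + 1)) * (x * h' (eta μ ν * x) ^ 2) + ε / (2 * (A + 1)) ≤
        ε / (2 * (A + 1)) * (A + 1) := by
      have h4 : 0 < ε / (2 * (A + 1)) := by positivity
      have h5 := mul_le_mul_of_nonneg_left h2 h4.le
      linarith
    have h4 : ε / (2 * (A + 1)) * (A + 1) = ε / 2 := by field_simp
    linarith
  have hu : Tendsto (fun x : ℝ => x * h' (eta μ ν * x) ^ 2) atTop
      (𝓝 (Real.log (D * γ) / kap μ ν)) := by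
    have h4 := (hdl.sub h3).div_const (kap μ ν)
    rw [sub_zero] at h4
    refine h4.congr fun x => ?_
    field_simp
    ring
  refine ⟨eta μ ν * (Real.log (D * γ) / kap μ ν), ?_⟩
  have hj : Tendsto (fun x : ℝ => x / eta μ ν) atTop atTop := tendsto_id.atTop_div_const hη0
  have h5 := (hu.comp hj).const_mul (eta μ ν)
  refine h5.congr fun x => ?_
  simp only [Function.comp]
  have h6 : eta μ ν * (x / eta μ ν) = x := by field_simp
  rw [h6, ← mul_assoc, h6]

end Pool.Agent.Lib.MP_04add8_pr.U
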