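import Mathlib
import Pool.Agent.Lib.MP_04add8_pr.U.WOnlyU
import Pool.Agent.Lib.MP_04add8_pr.U.KapDef

open MeasureTheory ProbabilityTheory Filter Topology
open scoped ENNReal

set_option linter.unusedSectionVars false

namespace Pool.Agent.Lib.MP_04add8_pr.U

open Pool.Agent.Lib.MP_04add8_pr.Gen Pool.Agent.Lib.MP_04add8_pr.Cv

variable {h h' : ℝ → ℝ} {μ ν : Measure ℝ} [IsProbabilityMeasure μ]
  [IsProbabilityMeasure ν]

variable {B v : ℝ → ℝ}

/-- **The rate and the correction of the slope**, every interarrival law -/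
theorem rateU_kap (S : StdC μ ν h h') (T : Thr h h' B v) (K : KapR (kapS μ ν)) {ω : ℝ}
    (hω : 0 < ω) :
    ∀ᶠ x : ℝ in atTop,
      0 ≤ x * kapS μ ν (h' (eta μ ν * x)) ∧
      x * kapS μ ν (h' (eta μ ν * x)) ≤ h (eta μ ν * x) - hRate h (betaStar μ ν) x ∧
      h (eta μ ν * x) - hRate h (betaStar μ ν) x ≤
        (1 + ω) * (x * kapS μ ν (h' (eta μ ν * x))) + ω := by
  have H := S.haz
  have TB := T.slvl H
  have hB := thr_hB H T
  have Psl := slp_root S TB hB
  have hη2 := two_lt_eta S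
  have hη0 : 0 < eta μ ν := by linarith
  have hγ0 : ∀ θ, 0 ≤ betaStar μ ν θ := fun θ => rootM_nonneg _ _
  obtain ⟨C, hC, hreg⟩ := K.reg
  obtain ⟨w, hw0, hw1, hw2⟩ : ∃ w : ℝ, 0 < w ∧ w ≤ 1 / 2 ∧ C * w ≤ ω / 2 := by
    refine ⟨min (1 / 2) (ω / (2 * (C + 1))), by positivity, min_le_left _ _, ?_⟩
    have h1 : C * min (1 / 2) (ω / (2 * (C + 1))) ≤ C * (ω / (2 * (C + 1))) :=
      mul_le_mul_of_nonneg_left (min_le_right _ _) hC
    have h2 : C * (ω / (2 * (C + 1))) ≤ ω / 2 := by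
      rw [mul_div_assoc', div_le_div_iff₀ (by positivity) (by positivity)]
      nlinarith
    linarith
  have ho := gopt S Psl hw0
  have hcmp := beta_cmp S TB hB (2 * (1 + w)) (show 0 < ω / 2 by positivity)
  have hrc := rate_cmp S Psl hγ0 (fun M ω hω => beta_cmp S TB hB M hω)
    (show 0 < ω / 2 by positivity)
  have hk := K.nn.and (hreg (ω / 2) (by positivity))
  rw [eventually_nhdsWithin_iff, Metric.eventually_nhds_iff] at hk
  obtain ⟨d, hd, hd2⟩ := hk
  have hy_top : Tendsto (fun x : ℝ => eta μ ν * x) atTop atTop :=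
    Tendsto.const_mul_atTop hη0 tendsto_id
  have e1 := hy_top.eventually (H.tendsto_deriv.eventually_lt_const hd)
  filter_upwards [ho, e1, hcmp, hrc, eventually_gt_atTop (0 : ℝ)] with x hx1 hx2 hcx hrx hx0
  obtain ⟨θ, X, hθ, hX, -, hθq, -, hR, -, -⟩ := hx1
  obtain ⟨R0, hR0⟩ : ∃ R0, R0 = hRate h (fun θ => rootM ν (mgB μ (B x)) θ) x := ⟨_, rfl⟩
  obtain ⟨bx, hbx⟩ : ∃ bx, bx = rootM ν (mgB μ (B x)) θ := ⟨_, rfl⟩
  rw [← hR0] at hR hrx
  have hqx : h' (eta μ ν * x) ≤ h x / x := by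
    rw [le_div_iff₀ hx0]
    have e3 := H.mul_deriv_le hx0
    have e4 := H.anti x (eta μ ν * x) hx0 (by nlinarith)
    have e5 := mul_le_mul_of_nonneg_left e4 hx0.le
    linarith
  set y := eta μ ν * x with hy
  have hy0 : 0 < y := by positivity
  obtain ⟨q, hq⟩ : ∃ q, q = h' y := ⟨_, rfl⟩
  rw [← hq] at hx2 hθq hqx ⊢
  have hq0 : 0 < q := by rw [hq]; exact H.pos y hy0
  obtain ⟨k1, k2⟩ := hd2 (y := q) (by rw [Real.dist_eq, sub_zero, abs_of_pos hq0]; exact hx2) hq0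
  have hθM : θ ≤ 2 * (1 + w) * (h x / x) := by
    have hθle : θ ≤ (1 + w) * q := by linarith [(abs_le.1 hθq).2]
    have k1 : (1 + w) * q ≤ (1 + w) * (h x / x) := mul_le_mul_of_nonneg_left hqx (by positivity)
    have k2 : 0 ≤ (1 + w) * (h x / x) := le_trans (by positivity) k1
    linarith
  have hbb := (abs_le.1 (hcx θ hθ hθM)).1
  rw [← hbx] at hbb
  have hbdd : BddBelow ((fun θ : ℝ => hG h θ + x * (θ + betaStar μ ν θ)) '' Set.Ioi 0) := by
    refine ⟨0, ?_⟩
    rintro _ ⟨t, ht, rfl⟩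
    have ht' : (0 : ℝ) < t := ht
    have g1 := hG_nonneg H ht'
    have g2 : 0 ≤ x * (t + betaStar μ ν t) := mul_nonneg hx0.le (by linarith [hγ0 t])
    change 0 ≤ hG h t + x * (t + betaStar μ ν t)
    linarith
  have up : hRate h (betaStar μ ν) x ≤ hG h q + x * (q + betaStar μ ν q) :=
    csInf_le hbdd ⟨q, hq0, rfl⟩
  have hGq : hG h q = h y - q * y := by rw [hq]; exact hG_deriv H hy0
  rw [hGq] at up
  have low := le_hG H hθ hy0.le
  -- the correction at the optimal tilt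
  obtain ⟨u, hu⟩ : ∃ u, u = θ / q - 1 := ⟨_, rfl⟩
  have hθu : θ = q * (1 + u) := by rw [hu]; field_simp; ring
  have huw : |u| ≤ w := by
    have h1 : |q * u| ≤ w * q := by
      have : q * u = θ - q := by rw [hθu]; ring
      rw [this]
      exact hθq
    rw [abs_mul, abs_of_pos hq0, mul_comm] at h1
    exact le_of_mul_le_mul_right h1 hq0
  have k3 := k2 u (huw.trans hw1)
  rw [← hθu] at k3
  have k4 : kapS μ ν θ ≤ (1 + ω) * kapS μ ν q := by
    refine k3.trans (mul_le_mul_of_nonneg_right ?_ k1)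
    have : C * |u| ≤ C * w := mul_le_mul_of_nonneg_left huw hC
    linarith
  have hyx : q * y = x * (eta μ ν * q) := by rw [hy]; ring
  have hyx' : θ * y = x * (eta μ ν * θ) := by rw [hy]; ring
  have hR' : R0 = hG h θ + x * (θ + bx) := by rw [hR, hbx]
  have c5 : x * (betaStar μ ν θ - ω / 2 / x) ≤ x * bx :=
    mul_le_mul_of_nonneg_left (by linarith) hx0.le
  have c6 : x * (betaStar μ ν θ - ω / 2 / x) = x * betaStar μ ν θ - ω / 2 := by
    field_simp
  rw [c6] at c5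
  have c7 := (abs_le.1 hrx).2
  have c8 : x * (θ + bx) = x * θ + x * bx := by ring
  have c9 : x * kapS μ ν θ ≤ (1 + ω) * (x * kapS μ ν q) := by
    calc x * kapS μ ν θ ≤ x * ((1 + ω) * kapS μ ν q) := mul_le_mul_of_nonneg_left k4 hx0.le
      _ = _ := by ring
  refine ⟨mul_nonneg hx0.le k1, ?_, ?_⟩
  · have e1 : x * kapS μ ν q = x * (eta μ ν * q) - x * (q + betaStar μ ν q) := by
      unfold kapS
      ring
    rw [e1]
    linarith
  · have e1 : x * kapS μ ν θ = x * (eta μ ν * θ) - x * θ - x * betaStar μ ν θ := by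
      unfold kapS
      ring
    linarith

/-- the one-job form with a convergent correction -/
theorem whittU_of_d (S : StdC μ ν h h') (T : Thr h h' B v) {δ : ℝ} (hδ0 : 0 < δ)
    (hdom : ∀ᶠ x : ℝ in atTop, (1 + δ) * h (eta μ ν * x) ≤ 2 * h x) {P : ℝ → ℝ}
    (hE : Tendsto (fun x : ℝ => P x / (fS h h' μ ν (betaStar μ ν) x +
      K2 μ ν * (Qf h h' x) ^ 2)) atTop (𝓝 1)) {l : ℝ}
    (hd : Tendsto (fun x : ℝ => h (eta μ ν * x) - hRate h (betaStar μ ν) x) atTop (𝓝 l)) :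
    Tendsto (fun x : ℝ => P x /
      (Real.exp l /
        (2 * (∫ t, t ∂ν) - ∫ s, s ∂μ) * integratedTail μ (eta μ ν * x))) atTop (𝓝 1) := by
  have hq := quotU S T hδ0 hdom hE
  have he : Tendsto (fun x : ℝ => Real.exp (h (eta μ ν * x) - hRate h (betaStar μ ν) x))
      atTop (𝓝 (Real.exp l)) := (Real.continuous_exp.tendsto _).comp hd
  have hprod := hq.mul (he.div_const (Real.exp l))
  rw [div_self (Real.exp_pos _).ne', mul_one] at hprod
  refine hprod.congr' ?_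
  filter_upwards [eventually_gt_atTop 0] with x hx
  have hD : 0 < 2 * (∫ t, t ∂ν) - ∫ s, s ∂μ := by linarith [S.hlt]
  generalize integratedTail μ (eta μ ν * x) = J
  generalize P x = P
  generalize hA : Real.exp (h (eta μ ν * x) - hRate h (betaStar μ ν) x) = A
  have hA0 : 0 < A := by rw [← hA]; exact Real.exp_pos _
  generalize hC : Real.exp l = C
  have hC0 : 0 < C := by rw [← hC]; exact Real.exp_pos _
  generalize 2 * (∫ t, t ∂ν) - ∫ s, s ∂μ = D at hD ⊢
  by_cases hJ : J = 0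
  · simp [hJ]
  · field_simp

/-- **Whitt's formula is true** if `x κ (h' x) → c`, every interarrival law -/
theorem whittK_true (S : StdC μ ν h h') (T : Thr h h' B v) (K : KapR (kapS μ ν))
    {δ : ℝ} (hδ0 : 0 < δ)
    (hdom : ∀ᶠ x : ℝ in atTop, (1 + δ) * h (eta μ ν * x) ≤ 2 * h x) {P : ℝ → ℝ}
    (hE : Tendsto (fun x : ℝ => P x / (fS h h' μ ν (betaStar μ ν) x +
      K2 μ ν * (Qf h h' x) ^ 2)) atTop (𝓝 1)) {c : ℝ}
    (hc : Tendsto (fun x : ℝ => x * kapS μ ν (h' x)) atTop (𝓝 c)) :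
    Tendsto (fun x : ℝ => P x /
      (Real.exp (c / eta μ ν) /
        (2 * (∫ t, t ∂ν) - ∫ s, s ∂μ) * integratedTail μ (eta μ ν * x))) atTop (𝓝 1) := by
  have hη0 : 0 < eta μ ν := by linarith [two_lt_eta S]
  have hi : Tendsto (fun x : ℝ => eta μ ν * x) atTop atTop := tendsto_id.const_mul_atTop hη0
  apply whittU_of_d S T hδ0 hdom hE
  have hu : Tendsto (fun x : ℝ => x * kapS μ ν (h' (eta μ ν * x))) atTop
      (𝓝 (c / eta μ ν)) := by
    have := (hc.comp hi).div_const (eta μ ν)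
    refine this.congr fun x => ?_
    simp only [Function.comp]
    field_simp
  rw [Metric.tendsto_nhds]
  intro ε hε
  obtain ⟨L, hL⟩ : ∃ L : ℝ, L = |c / eta μ ν| + 1 := ⟨_, rfl⟩
  have hL0 : 0 < L := by rw [hL]; positivity
  have hLc : c / eta μ ν < L := by
    rw [hL]
    linarith [le_abs_self (c / eta μ ν)]
  have h1 := hu.eventually (Metric.ball_mem_nhds (c / eta μ ν) (show 0 < ε / 2 by positivity))
  filter_upwards [h1, rateU_kap S T K (ω := ε / (4 * (L + 1))) (by positivity),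
    hu.eventually_lt_const hLc] with x g1 g2 g3
  obtain ⟨g20, g21, g22⟩ := g2
  rw [Real.dist_eq, abs_lt] at g1
  rw [Real.dist_eq, abs_lt]
  have h4 : 0 < ε / (4 * (L + 1)) := by positivity
  have h5 := mul_le_mul_of_nonneg_left g3.le h4.le
  have h6 : ε / (4 * (L + 1)) * (L + 1) = ε / 4 := by field_simp
  constructor
  · linarith
  · have h7 : (1 + ε / (4 * (L + 1))) * (x * kapS μ ν (h' (eta μ ν * x))) =
      x * kapS μ ν (h' (eta μ ν * x)) +
        ε / (4 * (L + 1)) * (x * kapS μ ν (h' (eta μ ν * x))) := by ring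
    have h8 : ε / (4 * (L + 1)) * (L + 1) = ε / (4 * (L + 1)) * L + ε / (4 * (L + 1)) := by
      ring
    linarith

/-- **Only if**, every interarrival law -/
theorem whittK_only (S : StdC μ ν h h') (T : Thr h h' B v) (K : KapR (kapS μ ν))
    {δ : ℝ} (hδ0 : 0 < δ)
    (hdom : ∀ᶠ x : ℝ in atTop, (1 + δ) * h (eta μ ν * x) ≤ 2 * h x) {P : ℝ → ℝ}
    (hE : Tendsto (fun x : ℝ => P x / (fS h h' μ ν (betaStar μ ν) x +
      K2 μ ν * (Qf h h' x) ^ 2)) atTop (𝓝 1)) {γ η' : ℝ}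
    (hγ : 0 < γ) (hη' : 0 < η')
    (hlim : Tendsto (fun x : ℝ => P x / (γ * integratedTail μ (η' * x))) atTop (𝓝 1)) :
    ∃ c : ℝ, Tendsto (fun x : ℝ => x * kapS μ ν (h' x)) atTop (𝓝 c) := by
  have hη0 : 0 < eta μ ν := by linarith [two_lt_eta S]
  obtain ⟨-, hdl⟩ := whittU_core S T hδ0 hdom hE hγ hη' hlim
  obtain ⟨l, hl⟩ : ∃ l : ℝ, l = Real.log ((2 * (∫ t, t ∂ν) - ∫ s, s ∂μ) * γ) := ⟨_, rfl⟩
  rw [← hl] at hdl
  have hu : Tendsto (fun x : ℝ => x * kapS μ ν (h' (eta μ ν * x))) atTop (𝓝 l) := by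
    rw [Metric.tendsto_nhds]
    intro ε hε
    obtain ⟨L, hL⟩ : ∃ L : ℝ, L = |l| + 1 := ⟨_, rfl⟩
    have hL0 : 0 < L := by rw [hL]; positivity
    have hLc : l < L := by
      rw [hL]
      linarith [le_abs_self l]
    have h1 := hdl.eventually (Metric.ball_mem_nhds l (show 0 < ε / 2 by positivity))
    filter_upwards [h1, rateU_kap S T K (ω := ε / (4 * (L + 1))) (by positivity),
      hdl.eventually_lt_const hLc] with x g1 g2 g3
    obtain ⟨g20, g21, g22⟩ := g2
    rw [Real.dist_eq, abs_lt] at g1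
    rw [Real.dist_eq, abs_lt]
    have h4 : 0 < ε / (4 * (L + 1)) := by positivity
    have h5 := mul_le_mul_of_nonneg_left (g21.trans g3.le) h4.le
    have h6 : ε / (4 * (L + 1)) * (L + 1) = ε / 4 := by field_simp
    constructor
    · have h7 : (1 + ε / (4 * (L + 1))) * (x * kapS μ ν (h' (eta μ ν * x))) =
        x * kapS μ ν (h' (eta μ ν * x)) +
          ε / (4 * (L + 1)) * (x * kapS μ ν (h' (eta μ ν * x))) := by ring
      have h8 : ε / (4 * (L + 1)) * (L + 1) = ε / (4 * (L + 1)) * L + ε / (4 * (L + 1)) := by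
        ring
      linarith
    · linarith
  refine ⟨eta μ ν * l, ?_⟩
  have hj : Tendsto (fun x : ℝ => x / eta μ ν) atTop atTop := tendsto_id.atTop_div_const hη0
  have h5 := (hu.comp hj).const_mul (eta μ ν)
  refine h5.congr fun x => ?_
  simp only [Function.comp]
  have h6 : eta μ ν * (x / eta μ ν) = x := by field_simp
  rw [h6, ← mul_assoc, h6]

end Pool.Agent.Lib.MP_04add8_pr.U
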