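import Mathlib
import Pool.Agent.Lib.MP_04add8_pr.U.ExactU
import Pool.Agent.Lib.MP_04add8_pr.U.WKap
import Pool.Agent.Lib.MP_04add8_pr.Cv.Intr
import Pool.Agent.Lib.MP_04add8_pr.Cv.FinC

open MeasureTheory ProbabilityTheory Filter Topology
open scoped ENNReal

set_option linter.unusedSectionVars false

namespace Pool.Agent.Lib.MP_04add8_pr.U

open Pool.Agent.Lib.MP_04add8_pr.Gen Pool.Agent.Lib.MP_04add8_pr.Cv

variable {h h' : ℝ → ℝ} {μ ν : Measure ℝ} [IsProbabilityMeasure μ]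
  [IsProbabilityMeasure ν]

private lemma finU_beta (S : StdC μ ν h h') :
    ∃ C θ0 : ℝ, 0 < θ0 ∧ ∀ θ : ℝ, 0 < θ → θ < θ0 → betaStar μ ν θ ≤ C * θ := by
  obtain ⟨θ0, hθ0, hb⟩ := betaStar_basic S one_pos
  exact ⟨eta μ ν - 1 + 1, θ0, hθ0, fun θ h1 h2 => (hb θ h1 h2.le).2.2.1⟩

/-- **Exact asymptotics, intrinsic form** (the rate function of the law itself) -/
theorem gexactU_intr (S : StdC μ ν h h') {P : ℝ → ℝ}
    (hex : Tendsto (fun x : ℝ => P x /
      (fS h h' μ ν (betaStar μ ν) x + K2 μ ν * integratedTail μ x ^ 2)) atTop (𝓝 1)) :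
    Tendsto (fun x : ℝ => P x /
      (Real.exp (-(tRate μ (betaStar μ ν) x)) *
          (integratedTail μ (eta μ ν * x) / μ.real (Set.Ioi (eta μ ν * x))) /
          (2 * (∫ t, t ∂ν) - ∫ s, s ∂μ) +
        K2 μ ν * integratedTail μ x ^ 2)) atTop (𝓝 1) := by
  have hc : 0 < 2 * (∫ t, t ∂ν) - ∫ s, s ∂μ := by linarith [S.hlt]
  have hη := two_lt_eta S
  have hK2 : 0 ≤ K2 μ ν := by
    unfold K2
    have := S.hm
    positivity
  have hcl := trate_close S.haz S.law (β := betaStar μ ν) (fun θ => rootM_nonneg _ _)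
    (finU_beta S)
  have hres : Tendsto (fun x : ℝ => integratedTail μ (eta μ ν * x) /
      μ.real (Set.Ioi (eta μ ν * x)) * h' (eta μ ν * x)) atTop (𝓝 1) :=
    (resid_asymp S.haz S.law).comp (tendsto_id.const_mul_atTop (by linarith : 0 < eta μ ν))
  -- the ratio of the first terms
  have hq : Tendsto (fun x : ℝ => Real.exp (-(tRate μ (betaStar μ ν) x -
      hRate h (betaStar μ ν) x)) * (integratedTail μ (eta μ ν * x) /
      μ.real (Set.Ioi (eta μ ν * x)) * h' (eta μ ν * x))) atTop (𝓝 1) := by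
    have h1 : Tendsto (fun x : ℝ => Real.exp (-(tRate μ (betaStar μ ν) x -
      hRate h (betaStar μ ν) x))) atTop (𝓝 (Real.exp (-0))) :=
      (Real.continuous_exp.tendsto _).comp hcl.neg
    have h2 := h1.mul hres
    simpa using h2
  set A : ℝ → ℝ := fun x => fS h h' μ ν (betaStar μ ν) x with hA
  set A' : ℝ → ℝ := fun x => Real.exp (-(tRate μ (betaStar μ ν) x)) *
          (integratedTail μ (eta μ ν * x) / μ.real (Set.Ioi (eta μ ν * x))) /
          (2 * (∫ t, t ∂ν) - ∫ s, s ∂μ) with hA'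
  set B : ℝ → ℝ := fun x => K2 μ ν * integratedTail μ x ^ 2 with hB
  have hB0 : ∀ x, 0 ≤ B x := fun x => mul_nonneg hK2 (sq_nonneg _)
  have hA0 : ∀ x, 0 < x → 0 < A x := by
    intro x hx
    have h1 := S.haz.pos (eta μ ν * x) (mul_pos (by linarith) hx)
    simp only [hA]
    unfold fS
    positivity
  have hAA : ∀ x, 0 < x → A' x = A x * (Real.exp (-(tRate μ (betaStar μ ν) x -
      hRate h (betaStar μ ν) x)) * (integratedTail μ (eta μ ν * x) /
      μ.real (Set.Ioi (eta μ ν * x)) * h' (eta μ ν * x))) := by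
    intro x hx
    have h1 := S.haz.pos (eta μ ν * x) (mul_pos (by linarith) hx)
    simp only [hA, hA']
    unfold fS
    have h2 : Real.exp (-(tRate μ (betaStar μ ν) x)) =
        Real.exp (-(hRate h (betaStar μ ν) x)) * Real.exp (-(tRate μ (betaStar μ ν) x -
          hRate h (betaStar μ ν) x)) := by
      rw [← Real.exp_add]
      ring_nf
    rw [h2]
    field_simp
  set q : ℝ → ℝ := fun x => Real.exp (-(tRate μ (betaStar μ ν) x -
      hRate h (betaStar μ ν) x)) * (integratedTail μ (eta μ ν * x) /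
      μ.real (Set.Ioi (eta μ ν * x)) * h' (eta μ ν * x)) with hqdef
  have hr : Tendsto (fun x => (A' x + B x) / (A x + B x)) atTop (𝓝 1) := by
    have h1 : Tendsto (fun x => |q x - 1|) atTop (𝓝 0) := by
      have := (hq.sub_const 1).abs
      simpa using this
    rw [tendsto_iff_norm_sub_tendsto_zero]
    refine squeeze_zero' (Eventually.of_forall fun x => norm_nonneg _) ?_ h1
    filter_upwards [eventually_gt_atTop 0] with x hx
    have h2 := hA0 x hx
    have h3 := hB0 x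
    have h4 : 0 < A x + B x := by linarith
    have h5 : (A' x + B x) / (A x + B x) - 1 = A x * (q x - 1) / (A x + B x) := by
      rw [hAA x hx]
      field_simp
      ring
    rw [h5, Real.norm_eq_abs, abs_div, abs_mul, abs_of_pos h2, abs_of_pos h4, div_le_iff₀ h4]
    have h6 : 0 ≤ |q x - 1| := abs_nonneg _
    nlinarith [mul_nonneg h6 h3]
  have hr' := hex.div hr one_ne_zero
  rw [div_one] at hr'
  refine hr'.congr' ?_
  filter_upwards [eventually_gt_atTop 0] with x hx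
  have h2 := hA0 x hx
  have h3 := hB0 x
  have h4 : 0 < A x + B x := by linarith
  show P x / (A x + B x) / ((A' x + B x) / (A x + B x)) =
    P x / (A' x + B x)
  rw [div_div, mul_div_cancel₀ _ h4.ne']


/-- the constants in terms of the load -/
lemma finU_facts {μ ν : Measure ℝ} [IsProbabilityMeasure μ] [IsProbabilityMeasure ν]
    (hν : ν (Set.Iio 0) = 0) {ρ : ℝ} (hρ : ρ = (∫ s, s ∂μ) / (∫ t, t ∂ν))
    (hρ1 : 1 < ρ) (hρ2 : ρ < 2) :
    2 * (∫ t, t ∂ν) - ∫ s, s ∂μ = (2 - ρ) * ∫ t, t ∂ν ∧ eta μ ν = ρ / (ρ - 1) ∧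
      2 / ((2 - ρ) ^ 3 * (∫ t, t ∂ν) ^ 2) = K2 μ ν := by
  obtain ⟨hm, hgt, hlt, hη0⟩ := load_facts (a := 1) one_pos hν hρ hρ1 hρ2
  have h1 : 2 * (∫ t, t ∂ν) - ∫ s, s ∂μ = (2 - ρ) * ∫ t, t ∂ν := by
    rw [hρ]; field_simp
  have h2 : (2 - ρ) ≠ 0 := by linarith
  refine ⟨h1, ?_, ?_⟩
  · unfold eta
    rw [hη0]
  · unfold K2
    rw [h1]
    field_simp

/-- **Exact asymptotics for every concave hazard function**, final form -/
theorem finalU {B v : ℝ → ℝ} (S : StdC μ ν h h') (T : Thr h h' B v) {ρ : ℝ}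
    (hρ : ρ = (∫ s, s ∂μ) / (∫ t, t ∂ν)) (hρ1 : 1 < ρ) (hρ2 : ρ < 2)
    {π : Measure (ℝ × ℝ)} (hπ : IsStationaryKW μ ν π)
    (hlow : ∀ ω : ℝ, 0 < ω → ω < 1 → ω < K2 μ ν → ∀ᶠ x : ℝ in atTop,
      ENNReal.ofReal ((1 - ω) * fS h h' μ ν (betaStar μ ν) x +
        (K2 μ ν - ω) * (Qf h h' x) ^ 2) ≤ π {w | x < w.1}) :
    Tendsto (fun x : ℝ => π.real {w | x < w.1} /
      (Real.exp (-(tRate μ (betaStar μ ν) x)) / ((2 - ρ) * (∫ t, t ∂ν)) *
          (integratedTail μ (ρ / (ρ - 1) * x) / μ.real (Set.Ioi (ρ / (ρ - 1) * x))) +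
        2 / ((2 - ρ) ^ 3 * (∫ t, t ∂ν) ^ 2) * integratedTail μ x ^ 2)) atTop (𝓝 1) := by
  obtain ⟨h1, e2, e⟩ := finU_facts S.hν hρ hρ1 hρ2
  have hfin := gexactU_intr S (gexactU_of S T hπ hlow)
  rw [e]
  refine hfin.congr fun x => ?_
  rw [h1, e2]
  congr 2
  ring

end Pool.Agent.Lib.MP_04add8_pr.U
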