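import Mathlib
import Pool.Agent.Lib.MP_04add8_pr.U.PotS
import Pool.Agent.Lib.MP_04add8_pr.U.KapDef
import Pool.Agent.Lib.MP_04add8_pr.Crit.BetaTwo

open MeasureTheory ProbabilityTheory Filter Topology
open scoped ENNReal

set_option linter.unusedSectionVars false

namespace Pool.Agent.Lib.MP_04add8_pr.U

open Pool.Agent.Lib.MP_04add8_pr.Gen Pool.Agent.Lib.MP_04add8_pr.Cv

variable {h h' : ℝ → ℝ} {μ ν : Measure ℝ} [IsProbabilityMeasure μ]
  [IsProbabilityMeasure ν]

/-- `mStar` to second order at `0` -/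
theorem mStar_sec2 (S : StdC μ ν h h') :
    Tendsto (fun β => (mStar μ β - 1 - (∫ s, s ∂μ) * β) / β ^ 2) (𝓝[>] 0)
      (𝓝 ((∫ s, s ^ 2 ∂μ) / 2)) := by
  have H := S.haz
  have L := S.law
  have hnn := L.nn
  have hE := law_integrable_pow H L 1
  simp only [pow_one] at hE
  obtain ⟨C, hC, hle⟩ := kS_le H L
  have hi2 : Integrable (fun s : ℝ => s ^ 2 * (C * Real.exp (1 / 2 * h s))) μ := by
    refine ((law_integrable H L (c := 1 / 2) (by norm_num) 2).const_mul C).congr ?_
    filter_upwards with s
    ring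
  have hkm := kS_meas (μ := μ)
  have h1 : Tendsto (fun β : ℝ => ∫ s, (min (Real.exp (β * s)) (kS μ s) - 1 - β * s) / β ^ 2 ∂μ)
      (𝓝[>] 0) (𝓝 (∫ s, s ^ 2 / 2 ∂μ)) := by
    apply tendsto_integral_filter_of_dominated_convergence
      (fun s => s ^ 2 * (C * Real.exp (1 / 2 * h s)))
    · filter_upwards with β
      exact (((Measurable.min (by fun_prop) hkm).sub_const 1).sub (by fun_prop)).div_const _
        |>.aestronglyMeasurable
    · filter_upwards [self_mem_nhdsWithin] with β hβ
      have hβ : 0 < β := hβ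
      filter_upwards [hnn] with s hs
      have hβs : 0 ≤ β * s := mul_nonneg hβ.le hs
      have hk := kS_ge L s
      have hk0 : 0 < kS μ s := (Real.exp_pos 1).trans_le hk
      have he1 : (1 : ℝ) ≤ Real.exp 1 := Real.one_le_exp zero_le_one
      have h3 : (min (Real.exp (β * s)) (kS μ s) - 1 - β * s) ≤ (β * s) ^ 2 * kS μ s := by
        rcases le_or_gt (β * s) 1 with h3 | h3
        · have h4 := (exp_tay (a := 1) (x := β * s) (y := 0) (r := β * s) zero_le_one le_rfl
            hβs).2
          simp only [mul_one, Real.exp_zero, one_pow, one_mul, sub_zero] at h4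
          have h5 : Real.exp (β * s) ≤ kS μ s := (Real.exp_le_exp.2 h3).trans hk
          have h6 : Real.exp (β * s) * (β * s) ^ 2 ≤ (β * s) ^ 2 * kS μ s := by
            rw [mul_comm]
            exact mul_le_mul_of_nonneg_left h5 (sq_nonneg _)
          have h7 := min_le_left (Real.exp (β * s)) (kS μ s)
          linarith
        · have h4 : kS μ s ≤ (β * s) ^ 2 * kS μ s := by
            apply le_mul_of_one_le_left hk0.le
            nlinarith
          have h7 := min_le_right (Real.exp (β * s)) (kS μ s)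
          linarith
      have h4 : -((β * s) ^ 2 * kS μ s) ≤ min (Real.exp (β * s)) (kS μ s) - 1 - β * s := by
        rcases le_or_gt (β * s) 1 with h3 | h3
        · have h5 : Real.exp (β * s) ≤ kS μ s := (Real.exp_le_exp.2 h3).trans hk
          rw [min_eq_left h5]
          have h6 := Real.add_one_le_exp (β * s)
          have h7 : 0 ≤ (β * s) ^ 2 * kS μ s := by positivity
          linarith
        · have h5 : 1 ≤ min (Real.exp (β * s)) (kS μ s) :=
            le_min (Real.one_le_exp hβs) (he1.trans hk)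
          have h6 : β * s ≤ (β * s) ^ 2 * kS μ s := by
            calc β * s ≤ (β * s) ^ 2 * 1 := by nlinarith
              _ ≤ (β * s) ^ 2 * kS μ s :=
                mul_le_mul_of_nonneg_left (he1.trans hk) (sq_nonneg _)
          linarith
      have h5 : |min (Real.exp (β * s)) (kS μ s) - 1 - β * s| ≤ (β * s) ^ 2 * kS μ s :=
        abs_le.2 ⟨h4, h3⟩
      rw [Real.norm_eq_abs, abs_div, abs_of_pos (by positivity : (0 : ℝ) < β ^ 2),
        div_le_iff₀ (by positivity)]
      refine h5.trans ?_
      calc (β * s) ^ 2 * kS μ s ≤ (β * s) ^ 2 * (C * Real.exp (1 / 2 * h s)) :=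
            mul_le_mul_of_nonneg_left (hle s) (sq_nonneg _)
        _ = _ := by ring
    · exact hi2
    · filter_upwards [hnn] with s hs
      rcases hs.eq_or_lt with h0 | h0
      · have e : ∀ β : ℝ, (min (Real.exp (β * s)) (kS μ s) - 1 - β * s) / β ^ 2 = s ^ 2 / 2 := by
          intro β
          rw [← h0]
          have h2 := kS_ge L (0 : ℝ)
          have := Real.add_one_le_exp (1 : ℝ)
          rw [mul_zero, Real.exp_zero, min_eq_left (by linarith)]
          simp
        simp only [e]
        exact tendsto_const_nhds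
      · have h4 : Tendsto (fun β : ℝ => β * s) (𝓝[>] 0) (𝓝[≠] 0) := by
          apply tendsto_nhdsWithin_of_tendsto_nhds_of_eventually_within
          · have : Tendsto (fun β : ℝ => β * s) (𝓝 0) (𝓝 (0 * s)) := by
              apply Continuous.tendsto
              fun_prop
            rw [zero_mul] at this
            exact this.mono_left nhdsWithin_le_nhds
          · filter_upwards [self_mem_nhdsWithin] with β hβ
            have hβ : 0 < β := hβ
            have : 0 < β * s := by positivity
            exact this.ne'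
        have h5 := (BetaTwo.tendsto_exp_second.comp h4).const_mul (s ^ 2)
        have e : s ^ 2 * (1 / 2) = s ^ 2 / 2 := by ring
        rw [e] at h5
        refine h5.congr' ?_
        have hev : ∀ᶠ β : ℝ in 𝓝[>] 0, β < 1 / s :=
          Filter.Eventually.filter_mono nhdsWithin_le_nhds (gt_mem_nhds (by positivity))
        filter_upwards [self_mem_nhdsWithin, hev] with β hβ hβ1
        have hβ : 0 < β := hβ
        have h6 : β * s ≤ 1 := by
          rw [lt_div_iff₀ h0] at hβ1
          exact hβ1.le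
        have h7 : Real.exp (β * s) ≤ kS μ s := (Real.exp_le_exp.2 h6).trans (kS_ge L s)
        rw [min_eq_left h7]
        simp only [Function.comp]
        field_simp
  rw [integral_div] at h1
  refine h1.congr' ?_
  filter_upwards [self_mem_nhdsWithin] with β hβ
  have hβ : 0 < β := hβ
  have i1 := (mStar_int S β).1
  have e1 : ∫ s, (min (Real.exp (β * s)) (kS μ s) - 1 - β * s) ∂μ =
      mStar μ β - 1 - (∫ s, s ∂μ) * β := by
    have i2 : Integrable (fun s : ℝ => min (Real.exp (β * s)) (kS μ s) - 1) μ :=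
      i1.sub (integrable_const _)
    rw [integral_sub i2 (hE.const_mul β), integral_sub i1 (integrable_const _),
      integral_const_mul]
    simp only [integral_const, probReal_univ, smul_eq_mul, mul_one]
    change mStar μ β - 1 - β * (∫ s, s ∂μ) = _
    ring
  rw [integral_div, e1]

/-- the second order part of the Laplace transform -/
noncomputable def lphi (ν : Measure ℝ) (s : ℝ) : ℝ := lap ν s - 1 + (∫ t, t ∂ν) * s

lemma lphi_eq (hν0 : ∀ᵐ t ∂ν, 0 ≤ t) (hνi : Integrable (fun t : ℝ => t) ν) {s : ℝ}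
    (hs : 0 ≤ s) : lphi ν s = ∫ t, (Real.exp (-(s * t)) - 1 + s * t) ∂ν := by
  have i0 := BetaAux.integrable_lap hν0 hs
  have i1 : Integrable (fun t : ℝ => Real.exp (-(s * t)) - 1) ν := i0.sub (integrable_const _)
  rw [integral_add i1 (hνi.const_mul s), integral_sub i0 (integrable_const _),
    integral_const_mul]
  simp only [integral_const, probReal_univ, smul_eq_mul, mul_one]
  unfold lphi lap
  ring

lemma lphi_nonneg (hν0 : ∀ᵐ t ∂ν, 0 ≤ t) (hνi : Integrable (fun t : ℝ => t) ν) {s : ℝ}
    (hs : 0 ≤ s) : 0 ≤ lphi ν s := by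
  rw [lphi_eq hν0 hνi hs]
  apply integral_nonneg
  intro t
  have := Real.add_one_le_exp (-(s * t))
  simp only [Pi.zero_apply]
  linarith

private lemma efun_mono {u v : ℝ} (hu : 0 ≤ u) (huv : u ≤ v) :
    Real.exp (-u) - 1 + u ≤ Real.exp (-v) - 1 + v := by
  have h1 : Real.exp (-v) = Real.exp (-u) * Real.exp (-(v - u)) := by
    rw [← Real.exp_add]; ring_nf
  have h2 := Real.add_one_le_exp (-(v - u))
  have h3 : Real.exp (-u) ≤ 1 := Real.exp_le_one_iff.2 (by linarith)
  have h4 := Real.exp_pos (-u)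
  rw [h1]
  nlinarith

/-- `(e^{-u} - 1 + u) / u²` is nonincreasing -/
private lemma efun_sq {u r : ℝ} (hu : 0 ≤ u) (hr : 1 ≤ r) :
    Real.exp (-(r * u)) - 1 + r * u ≤ r ^ 2 * (Real.exp (-u) - 1 + u) := by
  -- the function `g(u) = r² (e^{-u} - 1 + u) - (e^{-ru} - 1 + r u)` has `g(0) = 0`, `g' ≥ 0`
  have hd : ∀ x : ℝ, HasDerivAt (fun x : ℝ => r ^ 2 * (Real.exp (-x) - 1 + x) -
      (Real.exp (-(r * x)) - 1 + r * x))
      (r ^ 2 * (-Real.exp (-x) + 1) - (Real.exp (-(r * x)) * (-r) + r)) x := by
    intro x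
    have a1 : HasDerivAt (fun x : ℝ => Real.exp (-x)) (-Real.exp (-x)) x := by
      have := (hasDerivAt_neg x).exp
      simpa using this
    have a2 : HasDerivAt (fun x : ℝ => Real.exp (-(r * x))) (Real.exp (-(r * x)) * (-r)) x := by
      have := (((hasDerivAt_id x).const_mul r).neg).exp
      simpa using this
    have a3 : HasDerivAt (fun x : ℝ => r * x) r x := by
      simpa using (hasDerivAt_id x).const_mul r
    exact (((a1.sub_const 1).add (hasDerivAt_id x)).const_mul (r ^ 2)).sub
      ((a2.sub_const 1).add a3)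
  have hmono : MonotoneOn (fun x : ℝ => r ^ 2 * (Real.exp (-x) - 1 + x) -
      (Real.exp (-(r * x)) - 1 + r * x)) (Set.Ici 0) := by
    apply monotoneOn_of_deriv_nonneg (convex_Ici 0)
    · exact fun x _ => (hd x).continuousAt.continuousWithinAt
    · exact fun x _ => (hd x).differentiableAt.differentiableWithinAt
    · intro x hx
      rw [interior_Ici] at hx
      have hx : 0 < x := hx
      rw [(hd x).deriv]
      -- `r² (1 - e^{-x}) ≥ r (1 - e^{-rx})`
      have h1 : 1 - Real.exp (-(r * x)) ≤ r * (1 - Real.exp (-x)) := by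
        have hb := one_add_mul_self_le_rpow_one_add (s := Real.exp (-x) - 1)
          (by linarith [Real.exp_pos (-x)]) hr
        rw [add_sub_cancel, ← Real.exp_mul] at hb
        have e : -x * r = -(r * x) := by ring
        rw [e] at hb
        linarith
      nlinarith
  have h0 := hmono (Set.mem_Ici.2 le_rfl) (Set.mem_Ici.2 hu) hu
  simp at h0
  linarith

lemma lphi_mono (hν0 : ∀ᵐ t ∂ν, 0 ≤ t) (hνi : Integrable (fun t : ℝ => t) ν) {s s' : ℝ}
    (hs : 0 ≤ s) (hss : s ≤ s') : lphi ν s ≤ lphi ν s' := by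
  have hs' : 0 ≤ s' := hs.trans hss
  rw [lphi_eq hν0 hνi hs, lphi_eq hν0 hνi hs']
  have i : ∀ s : ℝ, 0 ≤ s → Integrable (fun t : ℝ => Real.exp (-(s * t)) - 1 + s * t) ν :=
    fun s hs => ((BetaAux.integrable_lap hν0 hs).sub (integrable_const _)).add (hνi.const_mul s)
  apply integral_mono_ae (i s hs) (i s' hs')
  filter_upwards [hν0] with t ht
  exact efun_mono (mul_nonneg hs ht) (mul_le_mul_of_nonneg_right hss ht)

lemma lphi_scale (hν0 : ∀ᵐ t ∂ν, 0 ≤ t) (hνi : Integrable (fun t : ℝ => t) ν) {s r : ℝ}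
    (hs : 0 ≤ s) (hr : 1 ≤ r) : lphi ν (r * s) ≤ r ^ 2 * lphi ν s := by
  have hs' : 0 ≤ r * s := by positivity
  rw [lphi_eq hν0 hνi hs, lphi_eq hν0 hνi hs', ← integral_const_mul]
  have i : ∀ s : ℝ, 0 ≤ s → Integrable (fun t : ℝ => Real.exp (-(s * t)) - 1 + s * t) ν :=
    fun s hs => ((BetaAux.integrable_lap hν0 hs).sub (integrable_const _)).add (hνi.const_mul s)
  apply integral_mono_ae (i _ hs') ((i s hs).const_mul _)
  filter_upwards [hν0] with t ht
  have := efun_sq (u := s * t) (mul_nonneg hs ht) hr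
  rw [mul_assoc]
  exact this

/-- `φ(s) = o(s)` -/
lemma lphi_lin (hν0 : ∀ᵐ t ∂ν, 0 ≤ t) (hνi : Integrable (fun t : ℝ => t) ν) :
    Tendsto (fun s => lphi ν s / s) (𝓝[>] 0) (𝓝 0) := by
  have h1 : Tendsto (fun s : ℝ => ∫ t, (Real.exp (-(s * t)) - 1 + s * t) / s ∂ν) (𝓝[>] 0)
      (𝓝 (∫ _, (0 : ℝ) ∂ν)) := by
    apply tendsto_integral_filter_of_dominated_convergence (fun t => t)
    · filter_upwards with s
      fun_prop
    · filter_upwards [self_mem_nhdsWithin] with s hs
      have hs : 0 < s := hs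
      filter_upwards [hν0] with t ht
      have h2 := Real.add_one_le_exp (-(s * t))
      have h3 : Real.exp (-(s * t)) ≤ 1 := Real.exp_le_one_iff.2 (by
        have := mul_nonneg hs.le ht
        linarith)
      rw [Real.norm_eq_abs, abs_of_nonneg (div_nonneg (by linarith) hs.le), div_le_iff₀ hs]
      linarith
    · exact hνi
    · filter_upwards [hν0] with t ht
      have hb : ∀ᶠ s : ℝ in 𝓝[>] 0, (Real.exp (-(s * t)) - 1 + s * t) / s ≤ s * (t ^ 2 / 2) := by
        filter_upwards [self_mem_nhdsWithin] with s hs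
        have hs : 0 < s := hs
        have h2 := BetaTwo.exp_neg_le_quad (u := s * t) (by positivity)
        rw [div_le_iff₀ hs]
        linarith
      have hb0 : ∀ᶠ s : ℝ in 𝓝[>] 0, 0 ≤ (Real.exp (-(s * t)) - 1 + s * t) / s := by
        filter_upwards [self_mem_nhdsWithin] with s hs
        have hs : 0 < s := hs
        have h2 := Real.add_one_le_exp (-(s * t))
        exact div_nonneg (by linarith) hs.le
      have ht : Tendsto (fun s : ℝ => s * (t ^ 2 / 2)) (𝓝[>] 0) (𝓝 0) := by
        have : Tendsto (fun s : ℝ => s * (t ^ 2 / 2)) (𝓝 0) (𝓝 (0 * (t ^ 2 / 2))) := by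
          apply Continuous.tendsto
          fun_prop
        rw [zero_mul] at this
        exact this.mono_left nhdsWithin_le_nhds
      exact tendsto_of_tendsto_of_tendsto_of_le_of_le' tendsto_const_nhds ht hb0 hb
  rw [integral_zero] at h1
  refine h1.congr' ?_
  filter_upwards [self_mem_nhdsWithin] with s hs
  have hs : 0 < s := hs
  rw [lphi_eq hν0 hνi hs.le, integral_div]

/-- Jensen: `φ(s) ≥ (m² / 2 - ε) s²` for small `s` -/
lemma lphi_jensen (hν0 : ∀ᵐ t ∂ν, 0 ≤ t) (hνi : Integrable (fun t : ℝ => t) ν)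
    (hm : 0 < ∫ t, t ∂ν) {ε : ℝ} (hε : 0 < ε) :
    ∀ᶠ s : ℝ in 𝓝[>] 0, ((∫ t, t ∂ν) ^ 2 / 2 - ε) * s ^ 2 ≤ lphi ν s := by
  obtain ⟨m, hmm⟩ : ∃ m, m = ∫ t, t ∂ν := ⟨_, rfl⟩
  rw [← hmm] at hm
  have h1 : Tendsto (fun s : ℝ => -(m * s)) (𝓝[>] 0) (𝓝[≠] 0) := by
    apply tendsto_nhdsWithin_of_tendsto_nhds_of_eventually_within
    · have : Tendsto (fun s : ℝ => -(m * s)) (𝓝 0) (𝓝 (-(m * 0))) := by
        apply Continuous.tendsto
        fun_prop
      rw [mul_zero, neg_zero] at this
      exact this.mono_left nhdsWithin_le_nhds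
    · filter_upwards [self_mem_nhdsWithin] with s hs
      have hs : 0 < s := hs
      have : 0 < m * s := by positivity
      simp only [Set.mem_compl_iff, Set.mem_singleton_iff]
      linarith
  have h2 := BetaTwo.tendsto_exp_second.comp h1
  have h3 : 1 / 2 - ε / m ^ 2 < (1 / 2 : ℝ) := by
    have : 0 < ε / m ^ 2 := by positivity
    linarith
  filter_upwards [h2.eventually (lt_mem_nhds h3), self_mem_nhdsWithin] with s h4 hs
  have hs : 0 < s := hs
  simp only [Function.comp] at h4
  have hms : 0 < (-(m * s)) ^ 2 := by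
    have h5 : 0 < m * s := by positivity
    rw [neg_sq]
    exact pow_pos h5 2
  rw [lt_div_iff₀ hms] at h4
  have e : (1 / 2 - ε / m ^ 2) * (-(m * s)) ^ 2 = (m ^ 2 / 2 - ε) * s ^ 2 := by
    field_simp
  rw [e] at h4
  -- Jensen
  have hJ : Real.exp (-(m * s)) ≤ lap ν s := by
    -- tangent line at `m`
    have hi := BetaAux.integrable_lap hν0 hs.le
    have hlin : Integrable (fun t : ℝ => Real.exp (-(m * s)) * (1 + -(s * t) + m * s)) ν := by
      apply Integrable.const_mul
      exact ((integrable_const _).add (hνi.const_mul s).neg).add (integrable_const _)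
    have h5 : ∫ t, Real.exp (-(m * s)) * (1 + -(s * t) + m * s) ∂ν ≤
        ∫ t, Real.exp (-(s * t)) ∂ν := by
      apply integral_mono hlin hi
      intro t
      have h6 := Real.add_one_le_exp (-(s * t) + m * s)
      have h7 : Real.exp (-(s * t)) = Real.exp (-(m * s)) * Real.exp (-(s * t) + m * s) := by
        rw [← Real.exp_add]
        ring_nf
      simp only
      rw [h7]
      apply mul_le_mul_of_nonneg_left _ (Real.exp_pos _).le
      linarith
    have h8 : ∫ t, Real.exp (-(m * s)) * (1 + -(s * t) + m * s) ∂ν = Real.exp (-(m * s)) := by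
      rw [integral_const_mul]
      have i0 : Integrable (fun t : ℝ => -(s * t)) ν := (hνi.const_mul s).neg
      have i1 : Integrable (fun t : ℝ => 1 + -(s * t)) ν := (integrable_const _).add i0
      rw [integral_add i1 (integrable_const _), integral_add (integrable_const _) i0,
        integral_neg, integral_const_mul, ← hmm]
      simp only [integral_const, probReal_univ, smul_eq_mul, mul_one]
      ring
    rw [h8] at h5
    exact h5
  unfold lphi
  rw [← hmm]
  linarith

end Pool.Agent.Lib.MP_04add8_pr.U
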