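import Mathlib
import Pool.Agent.Lib.MP_04add8_pr.U.KapA

open MeasureTheory ProbabilityTheory Filter Topology
open scoped ENNReal

set_option linter.unusedSectionVars false

namespace Pool.Agent.Lib.MP_04add8_pr.U

open Pool.Agent.Lib.MP_04add8_pr.Gen Pool.Agent.Lib.MP_04add8_pr.Cv

variable {h h' : ℝ → ℝ} {μ ν : Measure ℝ} [IsProbabilityMeasure μ]
  [IsProbabilityMeasure ν]

/-- `β*(θ) / θ → η - 1` -/
lemma betaStar_lim (S : StdC μ ν h h') :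
    Tendsto (fun θ => betaStar μ ν θ / θ) (𝓝[>] 0) (𝓝 (eta μ ν - 1)) := by
  rw [Metric.tendsto_nhds]
  intro ε hε
  obtain ⟨θ0, hθ0, hb⟩ := betaStar_basic S (ω := ε / 2) (by positivity)
  have hev : ∀ᶠ θ : ℝ in 𝓝[>] 0, θ < θ0 :=
    Filter.Eventually.filter_mono nhdsWithin_le_nhds (gt_mem_nhds hθ0)
  filter_upwards [hev, self_mem_nhdsWithin] with θ h1 hθ
  have hθ : 0 < θ := hθ
  obtain ⟨-, h2, h3, -⟩ := hb θ hθ h1.le
  rw [Real.dist_eq, abs_lt]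
  constructor
  · have : eta μ ν - 1 - ε / 2 ≤ betaStar μ ν θ / θ := by rwa [le_div_iff₀ hθ]
    linarith
  · have : betaStar μ ν θ / θ ≤ eta μ ν - 1 + ε / 2 := by rwa [div_le_iff₀ hθ]
    linarith

lemma betaStar_one (S : StdC μ ν h h') :
    ∀ᶠ θ : ℝ in 𝓝[>] 0, mStar μ (betaStar μ ν θ) * lap ν (betaStar μ ν θ + θ) = 1 := by
  obtain ⟨θ0, hθ0, hb⟩ := betaStar_basic S one_pos
  have hev : ∀ᶠ θ : ℝ in 𝓝[>] 0, θ < θ0 :=
    Filter.Eventually.filter_mono nhdsWithin_le_nhds (gt_mem_nhds hθ0)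
  filter_upwards [hev, self_mem_nhdsWithin] with θ h1 hθ
  exact (hb θ hθ h1.le).2.2.2

/-- the constant of the second order part of `kapS` -/
noncomputable def kA (μ ν : Measure ℝ) : ℝ :=
  ((∫ s, s ^ 2 ∂μ) / 2 * (eta μ ν - 1) ^ 2 - (∫ t, t ∂ν) ^ 2 * (eta μ ν) ^ 2)

/-- `(E - m) κ(θ) = M(β) φ(β + θ) + (A + o(1)) θ²` -/
lemma kap_expand (S : StdC μ ν h h') :
    Tendsto (fun θ => (((∫ s, s ∂μ) - ∫ t, t ∂ν) * kapS μ ν θ -
      mStar μ (betaStar μ ν θ) * lphi ν (betaStar μ ν θ + θ)) / θ ^ 2) (𝓝[>] 0)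
      (𝓝 (kA μ ν)) := by
  have hν0 := BetaAux.ae_nonneg S.hν
  have hνi := S.hνi
  have hgt := S.hgt
  have hη2 := two_lt_eta S
  have hlim := betaStar_lim S
  have hone := betaStar_one S
  have hηdef : eta μ ν = (∫ s, s ∂μ) / ((∫ s, s ∂μ) - ∫ t, t ∂ν) := rfl
  unfold kA
  obtain ⟨η, hη⟩ : ∃ η, η = eta μ ν := ⟨_, rfl⟩
  obtain ⟨E, hE⟩ : ∃ E, E = ∫ s, s ∂μ := ⟨_, rfl⟩
  obtain ⟨m, hm⟩ : ∃ m, m = ∫ t, t ∂ν := ⟨_, rfl⟩
  obtain ⟨E2, hE2⟩ : ∃ E2, E2 = ∫ s, s ^ 2 ∂μ := ⟨_, rfl⟩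
  have hid : Tendsto (fun θ : ℝ => θ) (𝓝[>] (0 : ℝ)) (𝓝 0) :=
    (continuous_id.tendsto 0).mono_left nhdsWithin_le_nhds
  have hr0 : Tendsto (fun θ : ℝ => betaStar μ ν θ) (𝓝[>] 0) (𝓝[>] 0) := by
    apply tendsto_nhdsWithin_of_tendsto_nhds_of_eventually_within
    · have h1 := hlim.mul hid
      rw [mul_zero] at h1
      refine h1.congr' ?_
      filter_upwards [self_mem_nhdsWithin] with θ hθ
      have hθ : 0 < θ := hθ
      rw [div_mul_cancel₀ _ hθ.ne']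
    · filter_upwards [hlim.eventually (lt_mem_nhds (show (0 : ℝ) < eta μ ν - 1 by linarith)),
        self_mem_nhdsWithin] with θ h1 hθ
      have hθ : 0 < θ := hθ
      rw [lt_div_iff₀ hθ, zero_mul] at h1
      exact Set.mem_Ioi.2 h1
  have hp := (mStar_sec2 S).comp hr0
  rw [← hE, ← hE2] at hp
  obtain ⟨p, hpd⟩ : ∃ p : ℝ → ℝ, p = (fun β => (mStar μ β - 1 - E * β) / β ^ 2) ∘
    fun θ => betaStar μ ν θ := ⟨_, rfl⟩
  rw [← hpd] at hp
  obtain ⟨b, hb⟩ : ∃ b : ℝ → ℝ, b = fun θ => betaStar μ ν θ / θ := ⟨_, rfl⟩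
  rw [← hb] at hlim
  have hlimΦ : Tendsto (fun θ => p θ * b θ ^ 2 - E * m * b θ * (b θ + 1) -
      m * (b θ + 1) * (p θ * b θ ^ 2) * θ) (𝓝[>] 0)
      (𝓝 (E2 / 2 * (η - 1) ^ 2 - E * m * (η - 1) * ((η - 1) + 1) -
        m * ((η - 1) + 1) * (E2 / 2 * (η - 1) ^ 2) * 0)) := by
    rw [hη]
    have hb1 := hlim.add_const 1
    refine Tendsto.sub (Tendsto.sub ?_ ?_) ?_
    · exact hp.mul (hlim.pow 2)
    · exact (hlim.const_mul (E * m)).mul hb1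
    · exact ((hb1.const_mul m).mul (hp.mul (hlim.pow 2))).mul hid
  have hval : E2 / 2 * (η - 1) ^ 2 - E * m * (η - 1) * ((η - 1) + 1) -
      m * ((η - 1) + 1) * (E2 / 2 * (η - 1) ^ 2) * 0 =
      E2 / 2 * (η - 1) ^ 2 - m ^ 2 * η ^ 2 := by
    have hd : 0 < E - m := by rw [hE, hm]; linarith
    have h0 : E * (η - 1) = m * η := by
      rw [hη, hηdef, ← hE, ← hm]; field_simp; ring
    linear_combination (-(m * η)) * h0
  rw [hval] at hlimΦ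
  rw [← hE, ← hm, ← hE2, ← hη]
  refine hlimΦ.congr' ?_
  filter_upwards [hone, hr0.eventually self_mem_nhdsWithin, self_mem_nhdsWithin]
    with θ h1 hβ hθ
  have hθ : 0 < θ := hθ
  have hβ : 0 < betaStar μ ν θ := hβ
  have hd : 0 < E - m := by rw [hE, hm]; linarith
  have h0 : (E - m) * (η - 1) = m := by
    rw [hη, hηdef, ← hE, ← hm]; field_simp; ring
  have hpθ : p θ = (mStar μ (betaStar μ ν θ) - 1 - E * betaStar μ ν θ) /
      betaStar μ ν θ ^ 2 := by rw [hpd]; rfl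
  have hbθ : betaStar μ ν θ = b θ * θ := by
    rw [hb]; simp only; field_simp
  have hM : mStar μ (betaStar μ ν θ) = 1 + E * betaStar μ ν θ +
      p θ * betaStar μ ν θ ^ 2 := by
    rw [hpθ]; field_simp; ring
  have hL : lap ν (betaStar μ ν θ + θ) = 1 - m * (betaStar μ ν θ + θ) +
      lphi ν (betaStar μ ν θ + θ) := by
    unfold lphi
    rw [← hm]
    ring
  unfold kapS
  rw [← hη]
  rw [hL] at h1
  rw [hM] at h1 ⊢
  generalize lphi ν (betaStar μ ν θ + θ) = φ at h1 ⊢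
  rw [hbθ] at h1 ⊢
  generalize p θ = P at h1 ⊢
  generalize b θ = B at h1 ⊢
  rw [eq_div_iff (by positivity)]
  linear_combination h1 - θ * h0

end Pool.Agent.Lib.MP_04add8_pr.U
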