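import Mathlib
import Pool.Agent.Lib.MP_04add8_pr.U.Kap
import Pool.Agent.Lib.MP_04add8_pr.Gen.WBeta

open MeasureTheory ProbabilityTheory Filter Topology
open scoped ENNReal

set_option linter.unusedSectionVars false

namespace Pool.Agent.Lib.MP_04add8_pr.U

open Pool.Agent.Lib.MP_04add8_pr.Gen Pool.Agent.Lib.MP_04add8_pr.Cv

variable {h h' : ℝ → ℝ} {μ ν : Measure ℝ} [IsProbabilityMeasure μ]
  [IsProbabilityMeasure ν]

lemma varS_pos (S : StdC μ ν h h') : 0 < (∫ s, s ^ 2 ∂μ) - (∫ s, s ∂μ) ^ 2 := by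
  have i1 : Integrable (fun s : ℝ => s) μ := by
    simpa using law_integrable_pow S.haz S.law 1
  have i2 : Integrable (fun s : ℝ => s ^ 2) μ := law_integrable_pow S.haz S.law 2
  obtain ⟨c, hc⟩ : ∃ c, c = ∫ s, s ∂μ := ⟨_, rfl⟩
  have e : ∀ s : ℝ, (s - c) ^ 2 = s ^ 2 - (2 * c) * s + c ^ 2 := fun s => by ring
  have j3 : Integrable (fun s : ℝ => (2 * c) * s) μ := i1.const_mul _
  have j4 : Integrable (fun s : ℝ => s ^ 2 - (2 * c) * s) μ := i2.sub j3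
  have v1 : ∫ s, (s - c) ^ 2 ∂μ = (∫ s, s ^ 2 ∂μ) - c ^ 2 := by
    simp_rw [e]
    rw [integral_add j4 (integrable_const _), integral_sub i2 j3, integral_const_mul,
      ← hc, integral_const, probReal_univ, one_smul]
    ring
  have v2 : Integrable (fun s : ℝ => (s - c) ^ 2) μ := by
    simp_rw [e]
    exact j4.add (integrable_const _)
  rw [← hc, ← v1]
  rcases (integral_nonneg (μ := μ) (f := fun s : ℝ => (s - c) ^ 2)
    (fun s => sq_nonneg _)).lt_or_eq with hl | hl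
  · exact hl
  · exfalso
    have h0 := (integral_eq_zero_iff_of_nonneg (fun s : ℝ => sq_nonneg _) v2).1 hl.symm
    obtain ⟨x, hx1, hx2⟩ := ((S.law.asy (1 / 2) (by norm_num)).and
      (eventually_ge_atTop c)).exists
    have h1 : μ (Set.Ioi x) = 0 := by
      rw [← compl_mem_ae_iff]
      filter_upwards [h0] with s hs
      simp only [Pi.zero_apply] at hs
      have : s - c = 0 := by
        exact pow_eq_zero_iff (two_ne_zero) |>.1 hs
      simp only [Set.mem_compl_iff, Set.mem_Ioi, not_lt]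
      linarith
    have h2 := hx1.1
    rw [h1] at h2
    have h3 : 0 < (1 - 1 / 2) * Real.exp (-(h x)) := by positivity
    have h4 := ENNReal.ofReal_pos.2 h3
    exact absurd h2 (not_le.2 h4)

lemma one_le_mStar (S : StdC μ ν h h') {β : ℝ} (hβ : 0 ≤ β) : 1 ≤ mStar μ β := by
  have h1 : ∫ _, (1 : ℝ) ∂μ ≤ ∫ s, min (Real.exp (β * s)) (kS μ s) ∂μ := by
    apply integral_mono_ae (integrable_const _) (mStar_int S β).1
    filter_upwards [S.law.nn] with s hs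
    refine le_min (Real.one_le_exp (mul_nonneg hβ hs)) ?_
    have h2 := kS_ge S.law s
    have h3 : (1 : ℝ) ≤ Real.exp 1 := Real.one_le_exp zero_le_one
    exact h3.trans h2
  rw [integral_const, probReal_univ, one_smul] at h1
  exact h1

/-- the argument `β*(θ) + θ` of the Laplace transform -/
lemma sarg (S : StdC μ ν h h') :
    Tendsto (fun θ => (betaStar μ ν θ + θ) / θ) (𝓝[>] 0) (𝓝 (eta μ ν)) ∧
    Tendsto (fun θ => betaStar μ ν θ + θ) (𝓝[>] 0) (𝓝[>] 0) := by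
  have hη2 := two_lt_eta S
  have h1 : Tendsto (fun θ => (betaStar μ ν θ + θ) / θ) (𝓝[>] 0) (𝓝 (eta μ ν)) := by
    have h2 := (betaStar_lim S).add_const 1
    rw [sub_add_cancel] at h2
    refine h2.congr' ?_
    filter_upwards [self_mem_nhdsWithin] with θ hθ
    have hθ : 0 < θ := hθ
    field_simp
  refine ⟨h1, ?_⟩
  have hid : Tendsto (fun θ : ℝ => θ) (𝓝[>] (0 : ℝ)) (𝓝 0) :=
    (continuous_id.tendsto 0).mono_left nhdsWithin_le_nhds
  apply tendsto_nhdsWithin_of_tendsto_nhds_of_eventually_within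
  · have h2 := h1.mul hid
    rw [mul_zero] at h2
    refine h2.congr' ?_
    filter_upwards [self_mem_nhdsWithin] with θ hθ
    have hθ : 0 < θ := hθ
    rw [div_mul_cancel₀ _ hθ.ne']
  · filter_upwards [self_mem_nhdsWithin] with θ hθ
    have hθ : 0 < θ := hθ
    have : 0 ≤ betaStar μ ν θ := rootM_nonneg _ _
    exact Set.mem_Ioi.2 (by linarith)

/-- the correction is at least quadratic -/
theorem kap_low (S : StdC μ ν h h') :
    ∃ c : ℝ, 0 < c ∧ ∀ᶠ θ : ℝ in 𝓝[>] 0, c * θ ^ 2 ≤ kapS μ ν θ := by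
  have hν0 := BetaAux.ae_nonneg S.hν
  have hνi := S.hνi
  have hgt := S.hgt
  have hm0 := S.hm
  have hη2 := two_lt_eta S
  have hv := varS_pos S
  have hηdef : eta μ ν = (∫ s, s ∂μ) / ((∫ s, s ∂μ) - ∫ t, t ∂ν) := rfl
  have hexp := kap_expand S
  obtain ⟨hs1, hs2⟩ := sarg S
  have hkA : kA μ ν = ((∫ s, s ^ 2 ∂μ) - (∫ s, s ∂μ) ^ 2) / 2 * (eta μ ν - 1) ^ 2 -
      (∫ t, t ∂ν) ^ 2 / 2 * (eta μ ν) ^ 2 := by
    have hd : 0 < (∫ s, s ∂μ) - ∫ t, t ∂ν := by linarith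
    have h0 : (∫ s, s ∂μ) * (eta μ ν - 1) = (∫ t, t ∂ν) * eta μ ν := by
      rw [hηdef]; field_simp; ring
    unfold kA
    have h1 : ((∫ s, s ∂μ) * (eta μ ν - 1)) ^ 2 = ((∫ t, t ∂ν) * eta μ ν) ^ 2 := by rw [h0]
    linear_combination (1 / 2) * h1
  rw [hkA] at hexp
  obtain ⟨η, hη⟩ : ∃ η, η = eta μ ν := ⟨_, rfl⟩
  obtain ⟨E, hE⟩ : ∃ E, E = ∫ s, s ∂μ := ⟨_, rfl⟩
  obtain ⟨m, hm⟩ : ∃ m, m = ∫ t, t ∂ν := ⟨_, rfl⟩
  rw [← hE, ← hm] at hgt
  rw [← hη] at hη2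
  rw [← hη, ← hE, ← hm] at hexp
  rw [← hη] at hs1
  rw [← hE] at hv
  have hd : 0 < E - m := by linarith
  obtain ⟨v, hvd⟩ : ∃ v, v = ((∫ s, s ^ 2 ∂μ) - E ^ 2) / 2 * (η - 1) ^ 2 := ⟨_, rfl⟩
  have hv0 : 0 < v := by
    rw [hvd]
    have : 0 < η - 1 := by linarith
    positivity
  rw [← hvd] at hexp
  obtain ⟨ε, hε⟩ : ∃ ε, ε = v / (4 * (η ^ 2 + 1)) := ⟨_, rfl⟩
  have hε0 : 0 < ε := by rw [hε]; positivity
  have hJ := hs2.eventually (lphi_jensen hν0 hνi S.hm hε0)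
  rw [← hm] at hJ
  have hlim2 : Tendsto (fun θ => (m ^ 2 / 2 - ε) * ((betaStar μ ν θ + θ) / θ) ^ 2) (𝓝[>] 0)
      (𝓝 ((m ^ 2 / 2 - ε) * η ^ 2)) := (hs1.pow 2).const_mul _
  refine ⟨v / (4 * (E - m)), by positivity, ?_⟩
  filter_upwards [hexp.eventually (lt_mem_nhds (sub_lt_self _ hε0)), hJ,
    hlim2.eventually (lt_mem_nhds (sub_lt_self _ hε0)), self_mem_nhdsWithin]
    with θ h1 h2 h3 hθ
  have hθ : 0 < θ := hθ
  have hβ0 : 0 ≤ betaStar μ ν θ := rootM_nonneg _ _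
  have hM := one_le_mStar S hβ0
  have hφ := lphi_nonneg hν0 hνi (s := betaStar μ ν θ + θ) (by linarith)
  rw [lt_div_iff₀ (by positivity)] at h1
  have h4 : lphi ν (betaStar μ ν θ + θ) ≤
      mStar μ (betaStar μ ν θ) * lphi ν (betaStar μ ν θ + θ) :=
    le_mul_of_one_le_left hφ hM
  have h5 : (m ^ 2 / 2 - ε) * ((betaStar μ ν θ + θ) / θ) ^ 2 * θ ^ 2 =
      (m ^ 2 / 2 - ε) * (betaStar μ ν θ + θ) ^ 2 := by
    field_simp
  have h6 : ((m ^ 2 / 2 - ε) * η ^ 2 - ε) * θ ^ 2 ≤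
      (m ^ 2 / 2 - ε) * (betaStar μ ν θ + θ) ^ 2 := by
    rw [← h5]
    exact mul_le_mul_of_nonneg_right h3.le (sq_nonneg θ)
  have h7 : ε * (η ^ 2 + 1) = v / 4 := by rw [hε]; field_simp
  have h8 : v / 4 * θ ^ 2 ≤ (E - m) * kapS μ ν θ := by
    have e1 : ((m ^ 2 / 2 - ε) * η ^ 2 - ε) * θ ^ 2 + (v - m ^ 2 / 2 * η ^ 2 - ε) * θ ^ 2 =
        (v - ε * (η ^ 2 + 1) - ε) * θ ^ 2 := by ring
    have e2 : ε ≤ v / 4 := by
      rw [← h7]
      have : 0 ≤ ε * η ^ 2 := by positivity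
      linarith
    have e3 : v / 4 * θ ^ 2 ≤ (v - ε * (η ^ 2 + 1) - ε) * θ ^ 2 := by
      apply mul_le_mul_of_nonneg_right _ (sq_nonneg θ)
      rw [h7]
      linarith
    linarith
  rw [div_mul_eq_mul_div, div_le_iff₀ (by positivity)]
  linarith

/-- `κ(θ) = o(θ)` -/
theorem kap_lim (S : StdC μ ν h h') : Tendsto (fun θ => kapS μ ν θ / θ) (𝓝[>] 0) (𝓝 0) := by
  have h1 := (betaStar_lim S).const_sub (eta μ ν - 1)
  rw [sub_self] at h1
  refine h1.congr' ?_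
  filter_upwards [self_mem_nhdsWithin] with θ hθ
  have hθ : 0 < θ := hθ
  unfold kapS
  field_simp

/-- second moment: `κ(θ) / θ² → κ₂` -/
theorem kap_two (S : StdC μ ν h h') (hν2 : Integrable (fun t : ℝ => t ^ 2) ν) :
    Tendsto (fun θ => kapS μ ν θ / θ ^ 2) (𝓝[>] 0) (𝓝 (kap μ ν)) := by
  have hν0 := BetaAux.ae_nonneg S.hν
  have hνi := S.hνi
  have hgt := S.hgt
  have hη2 := two_lt_eta S
  have hηdef : eta μ ν = (∫ s, s ∂μ) / ((∫ s, s ∂μ) - ∫ t, t ∂ν) := rfl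
  obtain ⟨hs1, hs2⟩ := sarg S
  have h1 := (BetaTwo.tendsto_lap_second hν0 hνi hν2).comp hs2
  have hid : Tendsto (fun θ : ℝ => θ) (𝓝[>] (0 : ℝ)) (𝓝 0) :=
    (continuous_id.tendsto 0).mono_left nhdsWithin_le_nhds
  have hM : Tendsto (fun θ => mStar μ (betaStar μ ν θ)) (𝓝[>] 0) (𝓝 1) := by
    have h2 : Tendsto (fun θ => betaStar μ ν θ) (𝓝[>] 0) (𝓝 0) := by
      have h3 := (betaStar_lim S).mul hid
      rw [mul_zero] at h3
      refine h3.congr' ?_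
      filter_upwards [self_mem_nhdsWithin] with θ hθ
      have hθ : 0 < θ := hθ
      rw [div_mul_cancel₀ _ hθ.ne']
    have h4 := ((mStar_cont S).tendsto 0).comp h2
    rw [mStar_zero S] at h4
    exact h4
  have h2 := (hM.mul (h1.mul (hs1.pow 2))).add (kap_expand S)
  have hd : (∫ s, s ∂μ) - ∫ t, t ∂ν ≠ 0 := by
    have : 0 < (∫ s, s ∂μ) - ∫ t, t ∂ν := by linarith
    exact this.ne'
  have h3 := h2.div_const ((∫ s, s ∂μ) - ∫ t, t ∂ν)
  have hval : (1 * ((∫ t, t ^ 2 ∂ν) / 2 * eta μ ν ^ 2) + kA μ ν) /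
      ((∫ s, s ∂μ) - ∫ t, t ∂ν) = kap μ ν := by
    unfold kA kap
    have h0 : (∫ s, s ∂μ) * (eta μ ν - 1) = (∫ t, t ∂ν) * eta μ ν := by
      rw [hηdef]; field_simp; ring
    have h1 : ((∫ s, s ∂μ) * (eta μ ν - 1)) ^ 2 = ((∫ t, t ∂ν) * eta μ ν) ^ 2 := by rw [h0]
    rw [div_eq_div_iff hd (by
      intro h4
      apply hd
      linarith)]
    linear_combination ((∫ s, s ∂μ) - ∫ t, t ∂ν) * h1
  rw [hval] at h3
  refine h3.congr' ?_
  filter_upwards [self_mem_nhdsWithin] with θ hθ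
  have hθ : 0 < θ := hθ
  have hβ0 : 0 ≤ betaStar μ ν θ := rootM_nonneg _ _
  have hs : betaStar μ ν θ + θ ≠ 0 := by
    have : 0 < betaStar μ ν θ + θ := by linarith
    exact this.ne'
  simp only [Function.comp]
  unfold lphi
  field_simp
  ring

end Pool.Agent.Lib.MP_04add8_pr.U
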