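import Mathlib
import Pool.Agent.Lib.MP_04add8_pr.U.KapB

open MeasureTheory ProbabilityTheory Filter Topology
open scoped ENNReal

set_option linter.unusedSectionVars false

namespace Pool.Agent.Lib.MP_04add8_pr.U

open Pool.Agent.Lib.MP_04add8_pr.Gen Pool.Agent.Lib.MP_04add8_pr.Cv

variable {h h' : ℝ → ℝ} {μ ν : Measure ℝ} [IsProbabilityMeasure μ]
  [IsProbabilityMeasure ν]

private lemma KapC_alg {ε a : ℝ} (hε : 0 < ε) (hε1 : ε ≤ 1) (ha : 0 ≤ a) (ha1 : a ≤ 1 / 2) :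
    (1 + ε) * ((1 + a) * (1 + ε)) ^ 2 ≤ 1 + 16 * ε + 5 / 2 * a := by
  have h1 : (1 + ε) ^ 3 ≤ 1 + 7 * ε := by nlinarith [mul_nonneg hε.le hε.le]
  have h2 : (1 + a) ^ 2 ≤ 1 + 5 / 2 * a := by nlinarith
  calc (1 + ε) * ((1 + a) * (1 + ε)) ^ 2 = (1 + ε) ^ 3 * (1 + a) ^ 2 := by ring
    _ ≤ (1 + 7 * ε) * (1 + 5 / 2 * a) := mul_le_mul h1 h2 (by positivity) (by positivity)
    _ ≤ 1 + 16 * ε + 5 / 2 * a := by nlinarith [mul_nonneg hε.le ha]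

/-- regularity of the correction -/
theorem kap_reg (S : StdC μ ν h h') :
    ∃ C : ℝ, 0 ≤ C ∧ ∀ ε : ℝ, 0 < ε → ∀ᶠ θ : ℝ in 𝓝[>] 0, ∀ u : ℝ, |u| ≤ 1 / 2 →
      kapS μ ν (θ * (1 + u)) ≤ (1 + ε + C * |u|) * kapS μ ν θ := by
  have hν0 := BetaAux.ae_nonneg S.hν
  have hνi := S.hνi
  have hgt := S.hgt
  have hη2 := two_lt_eta S
  have hexp := kap_expand S
  obtain ⟨hs1, hs2⟩ := sarg S
  obtain ⟨c, hc, hlow⟩ := kap_low S
  obtain ⟨η, hη⟩ : ∃ η, η = eta μ ν := ⟨_, rfl⟩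
  obtain ⟨E, hE⟩ : ∃ E, E = ∫ s, s ∂μ := ⟨_, rfl⟩
  obtain ⟨m, hm⟩ : ∃ m, m = ∫ t, t ∂ν := ⟨_, rfl⟩
  obtain ⟨A, hA⟩ : ∃ A, A = kA μ ν := ⟨_, rfl⟩
  rw [← hE, ← hm] at hgt hexp
  rw [← hA] at hexp
  rw [← hη] at hη2 hs1
  have hd : 0 < E - m := by linarith
  obtain ⟨c1, hc1⟩ : ∃ c1, c1 = c * (E - m) := ⟨_, rfl⟩
  have hc10 : 0 < c1 := by rw [hc1]; positivity
  -- `F ≤ C2 X`, `T ≤ X / c1`
  obtain ⟨C2, hC2⟩ : ∃ C2, C2 = 1 + (|A| + 1) / c1 := ⟨_, rfl⟩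
  have hC20 : 0 < C2 := by rw [hC2]; positivity
  refine ⟨5 / 2 * C2 + 5 / 2 * |A| / c1, by positivity, fun ε hε => ?_⟩
  -- the small parameter
  obtain ⟨e, he, he1, he2⟩ : ∃ e : ℝ, 0 < e ∧ e ≤ 1 ∧ 16 * C2 * e + 4 / c1 * e ≤ ε := by
    refine ⟨min 1 (ε / (16 * C2 + 4 / c1)), by positivity, min_le_left _ _, ?_⟩
    have h1 : min 1 (ε / (16 * C2 + 4 / c1)) ≤ ε / (16 * C2 + 4 / c1) := min_le_right _ _
    rw [le_div_iff₀ (by positivity)] at h1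
    linarith
  -- the eventual facts at a point
  have hMt : Tendsto (fun θ => mStar μ (betaStar μ ν θ)) (𝓝[>] 0) (𝓝 1) := by
    have hid : Tendsto (fun θ : ℝ => θ) (𝓝[>] (0 : ℝ)) (𝓝 0) :=
      (continuous_id.tendsto 0).mono_left nhdsWithin_le_nhds
    have h2 : Tendsto (fun θ => betaStar μ ν θ) (𝓝[>] 0) (𝓝 0) := by
      have h3 := (betaStar_lim S).mul hid
      rw [mul_zero] at h3
      refine h3.congr' ?_
      filter_upwards [self_mem_nhdsWithin] with θ hθ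
      have hθ : 0 < θ := hθ
      rw [div_mul_cancel₀ _ hθ.ne']
    have h4 := ((mStar_cont S).tendsto 0).comp h2
    rw [mStar_zero S] at h4
    exact h4
  have hη0 : 0 < η := by linarith
  have hup : η < η * (1 + e / 4) := by nlinarith
  have hlo : η * (1 - e / 4) < η := by nlinarith
  have hall : ∀ᶠ θ : ℝ in 𝓝[>] 0,
      (((E - m) * kapS μ ν θ - mStar μ (betaStar μ ν θ) *
        lphi ν (betaStar μ ν θ + θ)) / θ ^ 2 < A + e ∧
      A - e < ((E - m) * kapS μ ν θ - mStar μ (betaStar μ ν θ) *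
        lphi ν (betaStar μ ν θ + θ)) / θ ^ 2) ∧
      mStar μ (betaStar μ ν θ) < 1 + e ∧
      (betaStar μ ν θ + θ) / θ < η * (1 + e / 4) ∧
      η * (1 - e / 4) < (betaStar μ ν θ + θ) / θ ∧ c * θ ^ 2 ≤ kapS μ ν θ := by
    filter_upwards [hexp.eventually (gt_mem_nhds (show A < A + e by linarith)),
      hexp.eventually (lt_mem_nhds (show A - e < A by linarith)),
      hMt.eventually (gt_mem_nhds (show (1 : ℝ) < 1 + e by linarith)),
      hs1.eventually (gt_mem_nhds hup), hs1.eventually (lt_mem_nhds hlo), hlow]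
      with θ h1 h2 h3 h4 h5 h6
    exact ⟨⟨h1, h2⟩, h3, h4, h5, h6⟩
  obtain ⟨δ, hδ, hδ2⟩ := mem_nhdsGT_iff_exists_Ioo_subset.1 hall
  have hδ0 : 0 < δ := hδ
  have hev : ∀ᶠ θ : ℝ in 𝓝[>] 0, θ < δ / 2 :=
    Filter.Eventually.filter_mono nhdsWithin_le_nhds (gt_mem_nhds (by positivity))
  filter_upwards [hev, self_mem_nhdsWithin] with θ hθ1 hθ u hu
  have hθ : 0 < θ := hθ
  have hu' := abs_le.1 hu
  have hua := abs_nonneg u
  have hu1 : 0 < 1 + u := by linarith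
  obtain ⟨θ', hθ'⟩ : ∃ θ', θ' = θ * (1 + u) := ⟨_, rfl⟩
  have hθ'0 : 0 < θ' := by rw [hθ']; positivity
  have hθ'δ : θ' < δ := by
    rw [hθ']
    nlinarith
  obtain ⟨⟨a1, a2⟩, a3, a4, a5, a6⟩ := hδ2 (show θ ∈ Set.Ioo 0 δ from ⟨hθ, by linarith⟩)
  obtain ⟨⟨b1, b2⟩, b3, b4, b5, b6⟩ := hδ2 (show θ' ∈ Set.Ioo 0 δ from ⟨hθ'0, hθ'δ⟩)
  have hβ : 0 ≤ betaStar μ ν θ := rootM_nonneg _ _
  have hβ' : 0 ≤ betaStar μ ν θ' := rootM_nonneg _ _
  rw [← hθ']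
  obtain ⟨s, hs⟩ : ∃ s, s = betaStar μ ν θ + θ := ⟨_, rfl⟩
  obtain ⟨s', hs'⟩ : ∃ s', s' = betaStar μ ν θ' + θ' := ⟨_, rfl⟩
  rw [← hs] at a1 a2 a4 a5
  rw [← hs'] at b1 b2 b4 b5
  have hs0 : 0 < s := by rw [hs]; linarith
  have hs'0 : 0 < s' := by rw [hs']; linarith
  have hM := one_le_mStar S hβ
  have hF := lphi_nonneg hν0 hνi hs0.le
  have hF' := lphi_nonneg hν0 hνi hs'0.le
  rw [div_lt_iff₀ (by positivity)] at a1 b1 a4 b4
  rw [lt_div_iff₀ (by positivity)] at a2 b2 a5 b5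
  -- comparison of the arguments
  obtain ⟨r, hr⟩ : ∃ r, r = (1 + |u|) * (1 + e) := ⟨_, rfl⟩
  have hr1 : 1 ≤ r := by rw [hr]; nlinarith
  have hss : s' ≤ r * s := by
    have h1 : s' ≤ η * (1 + e / 4) * θ' := b4.le
    have h2 : η * (1 - e / 4) * θ ≤ s := a5.le
    have h3 : (1 + e / 4) ≤ (1 + e) * (1 - e / 4) := by nlinarith
    have h4 : 1 + u ≤ 1 + |u| := by linarith [le_abs_self u]
    calc s' ≤ η * (1 + e / 4) * θ' := h1
      _ = η * θ * ((1 + e / 4) * (1 + u)) := by rw [hθ']; ring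
      _ ≤ η * θ * (((1 + e) * (1 - e / 4)) * (1 + |u|)) := by
          apply mul_le_mul_of_nonneg_left _ (by positivity)
          exact mul_le_mul h3 h4 hu1.le (by nlinarith)
      _ = r * (η * (1 - e / 4) * θ) := by rw [hr]; ring
      _ ≤ r * s := mul_le_mul_of_nonneg_left h2 (by linarith)
  have hFF : lphi ν s' ≤ r ^ 2 * lphi ν s :=
    (lphi_mono hν0 hνi hs'0.le hss).trans (lphi_scale hν0 hνi hs0.le hr1)
  obtain ⟨X, hX⟩ : ∃ X, X = (E - m) * kapS μ ν θ := ⟨_, rfl⟩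
  obtain ⟨X', hX'⟩ : ∃ X', X' = (E - m) * kapS μ ν θ' := ⟨_, rfl⟩
  rw [← hX] at a1 a2
  rw [← hX'] at b1 b2
  obtain ⟨F, hFd⟩ : ∃ F, F = lphi ν s := ⟨_, rfl⟩
  obtain ⟨F', hFd'⟩ : ∃ F', F' = lphi ν s' := ⟨_, rfl⟩
  rw [← hFd] at a1 a2 hF hFF
  rw [← hFd'] at b1 b2 hF' hFF
  have hT : θ ^ 2 ≤ X / c1 := by
    rw [le_div_iff₀ hc10, hX, hc1]
    have := mul_le_mul_of_nonneg_left a6 hd.le
    linarith
  have hX0 : 0 ≤ X := by
    rw [hX]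
    have : 0 ≤ kapS μ ν θ := le_trans (by positivity) a6
    positivity
  have hFX : F ≤ C2 * X := by
    have h1 : F ≤ mStar μ (betaStar μ ν θ) * F := le_mul_of_one_le_left hF hM
    have h2 : F ≤ X - (A - e) * θ ^ 2 := by linarith
    have h3 : -(A - e) * θ ^ 2 ≤ (|A| + 1) * θ ^ 2 := by
      apply mul_le_mul_of_nonneg_right _ (sq_nonneg θ)
      linarith [neg_abs_le A]
    have h4 : (|A| + 1) * θ ^ 2 ≤ (|A| + 1) * (X / c1) :=
      mul_le_mul_of_nonneg_left hT (by positivity)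
    have h5 : C2 * X = X + (|A| + 1) * (X / c1) := by
      rw [hC2]
      field_simp
    rw [h5]
    linarith
  -- the main comparison
  have k1 : X' ≤ (1 + e) * F' + (A + e) * θ' ^ 2 := by
    have h1 : mStar μ (betaStar μ ν θ') * F' ≤ (1 + e) * F' :=
      mul_le_mul_of_nonneg_right b3.le hF'
    linarith
  have k2 : (1 + e) * F' ≤ (1 + 16 * e + 5 / 2 * |u|) * F := by
    calc (1 + e) * F' ≤ (1 + e) * (r ^ 2 * F) :=
          mul_le_mul_of_nonneg_left hFF (by linarith)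
      _ = ((1 + e) * ((1 + |u|) * (1 + e)) ^ 2) * F := by rw [hr]; ring
      _ ≤ _ := mul_le_mul_of_nonneg_right (KapC_alg he he1 hua hu) hF
  have k3 : F + (A - e) * θ ^ 2 ≤ X := by
    have h1 : F ≤ mStar μ (betaStar μ ν θ) * F := le_mul_of_one_le_left hF hM
    linarith
  have k4 : (A + e) * θ' ^ 2 - (A - e) * θ ^ 2 ≤ (5 / 2 * |A| * |u| + 4 * e) * θ ^ 2 := by
    have h1 : (A + e) * θ' ^ 2 - (A - e) * θ ^ 2 =
        (A * (2 * u + u ^ 2) + e * (1 + (1 + u) ^ 2)) * θ ^ 2 := by rw [hθ']; ring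
    rw [h1]
    apply mul_le_mul_of_nonneg_right _ (sq_nonneg θ)
    have h2 : A * (2 * u + u ^ 2) ≤ |A| * (5 / 2 * |u|) := by
      have h3 : |2 * u + u ^ 2| ≤ 5 / 2 * |u| := by
        have h4 : 2 * u + u ^ 2 = u * (2 + u) := by ring
        rw [h4, abs_mul, abs_of_pos (show 0 < 2 + u by linarith)]
        nlinarith
      calc A * (2 * u + u ^ 2) ≤ |A * (2 * u + u ^ 2)| := le_abs_self _
        _ = |A| * |2 * u + u ^ 2| := abs_mul _ _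
        _ ≤ |A| * (5 / 2 * |u|) := mul_le_mul_of_nonneg_left h3 (abs_nonneg A)
    have h5 : (1 + u) ^ 2 ≤ 3 := by nlinarith
    nlinarith
  have k5 : X' ≤ X + (16 * e + 5 / 2 * |u|) * F + (5 / 2 * |A| * |u| + 4 * e) * θ ^ 2 := by
    linarith
  have k6 : (16 * e + 5 / 2 * |u|) * F ≤ (16 * e + 5 / 2 * |u|) * (C2 * X) :=
    mul_le_mul_of_nonneg_left hFX (by positivity)
  have k7 : (5 / 2 * |A| * |u| + 4 * e) * θ ^ 2 ≤ (5 / 2 * |A| * |u| + 4 * e) * (X / c1) :=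
    mul_le_mul_of_nonneg_left hT (by positivity)
  have k8 : X' ≤ (1 + ε + (5 / 2 * C2 + 5 / 2 * |A| / c1) * |u|) * X := by
    have h1 : X + (16 * e + 5 / 2 * |u|) * (C2 * X) + (5 / 2 * |A| * |u| + 4 * e) * (X / c1) =
        (1 + (16 * C2 * e + 4 / c1 * e) + (5 / 2 * C2 + 5 / 2 * |A| / c1) * |u|) * X := by
      field_simp
      ring
    have h2 : (1 + (16 * C2 * e + 4 / c1 * e) + (5 / 2 * C2 + 5 / 2 * |A| / c1) * |u|) * X ≤
        (1 + ε + (5 / 2 * C2 + 5 / 2 * |A| / c1) * |u|) * X :=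
      mul_le_mul_of_nonneg_right (by linarith) hX0
    linarith
  rw [hX, hX'] at k8
  have k9 : (E - m) * kapS μ ν θ' ≤
      (E - m) * ((1 + ε + (5 / 2 * C2 + 5 / 2 * |A| / c1) * |u|) * kapS μ ν θ) := by
    linarith
  exact le_of_mul_le_mul_left k9 hd

/-- **the correction is regular** -/
theorem kapR (S : StdC μ ν h h') : KapR (kapS μ ν) := by
  obtain ⟨c, hc, hlow⟩ := kap_low S
  refine ⟨?_, kap_lim S, ⟨c, hc, hlow⟩, kap_reg S⟩
  filter_upwards [hlow] with θ h1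
  exact le_trans (by positivity) h1

end Pool.Agent.Lib.MP_04add8_pr.U
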