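import Mathlib
import Pool.Agent.Lib.MP_04add8_pr.U.KapC

open MeasureTheory ProbabilityTheory Filter Topology
open scoped ENNReal

set_option linter.unusedSectionVars false

namespace Pool.Agent.Lib.MP_04add8_pr.U

open Pool.Agent.Lib.MP_04add8_pr.Gen Pool.Agent.Lib.MP_04add8_pr.Cv

variable {h h' : ℝ → ℝ} {μ ν : Measure ℝ} [IsProbabilityMeasure μ]
  [IsProbabilityMeasure ν]

private lemma tendsto_mul_one_iff {F : Filter ℝ} {f g : ℝ → ℝ} {L : ℝ}
    (hg : Tendsto g F (𝓝 1)) : Tendsto (fun x => g x * f x) F (𝓝 L) ↔ Tendsto f F (𝓝 L) := by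
  constructor
  · intro h1
    have h2 := h1.div hg one_ne_zero
    rw [div_one] at h2
    refine h2.congr' ?_
    filter_upwards [hg.eventually_ne one_ne_zero] with x hx
    simp only [Pi.div_apply]
    field_simp
  · intro h1
    have h2 := hg.mul h1
    rwa [one_mul] at h2

private lemma tendsto_add_iff {F : Filter ℝ} {f g : ℝ → ℝ} {L z : ℝ}
    (hg : Tendsto g F (𝓝 z)) :
    Tendsto (fun x => f x + g x) F (𝓝 (L + z)) ↔ Tendsto f F (𝓝 L) := by
  constructor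
  · intro h1
    have h2 := h1.sub hg
    rw [add_sub_cancel_right] at h2
    refine h2.congr fun x => ?_
    ring
  · intro h1
    exact h1.add hg

lemma mulr_nhds {r : ℝ} (hr : 0 < r) : Tendsto (fun θ : ℝ => r * θ) (𝓝[>] 0) (𝓝[>] 0) :=
  BetaAux.tendsto_mul_right_zero hr

/-- `φ(β + θ)` and `φ(η θ)` are comparable up to `1 + o(1)` -/
lemma lphi_cmp (S : StdC μ ν h h') {e : ℝ} (he : 0 < e) :
    ∀ᶠ θ : ℝ in 𝓝[>] 0, lphi ν (betaStar μ ν θ + θ) ≤ (1 + e) * lphi ν (eta μ ν * θ) ∧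
      lphi ν (eta μ ν * θ) ≤ (1 + e) * lphi ν (betaStar μ ν θ + θ) := by
  have hν0 := BetaAux.ae_nonneg S.hν
  have hνi := S.hνi
  have hη2 := two_lt_eta S
  obtain ⟨hs1, -⟩ := sarg S
  obtain ⟨η, hη⟩ : ∃ η, η = eta μ ν := ⟨_, rfl⟩
  rw [← hη] at hs1 hη2 ⊢
  have hη0 : 0 < η := by linarith
  obtain ⟨r, hr1, hr2⟩ : ∃ r : ℝ, 1 < r ∧ r ^ 2 ≤ 1 + e := by
    refine ⟨√(1 + e), ?_, ?_⟩
    · rw [Real.lt_sqrt (by norm_num)]
      linarith
    · rw [Real.sq_sqrt (by linarith)]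
  have k1 : η < r * η := by nlinarith
  have k2 : η / r < η := div_lt_self hη0 hr1
  filter_upwards [hs1.eventually (gt_mem_nhds k1), hs1.eventually (lt_mem_nhds k2),
    self_mem_nhdsWithin] with θ h1 h2 hθ
  have hθ : 0 < θ := hθ
  have hβ : 0 ≤ betaStar μ ν θ := rootM_nonneg _ _
  have hs0 : 0 < betaStar μ ν θ + θ := by linarith
  rw [div_lt_iff₀ hθ] at h1
  rw [lt_div_iff₀ hθ] at h2
  have hηθ : 0 < η * θ := by positivity
  have hF := lphi_nonneg hν0 hνi hs0.le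
  have hF' := lphi_nonneg hν0 hνi hηθ.le
  constructor
  · have h3 : betaStar μ ν θ + θ ≤ r * (η * θ) := by linarith
    have h4 := (lphi_mono hν0 hνi hs0.le h3).trans (lphi_scale hν0 hνi hηθ.le hr1.le)
    exact h4.trans (mul_le_mul_of_nonneg_right hr2 hF')
  · have h3 : η * θ ≤ r * (betaStar μ ν θ + θ) := by
      have : r * (η / r * θ) ≤ r * (betaStar μ ν θ + θ) :=
        mul_le_mul_of_nonneg_left h2.le (by linarith)
      have e1 : r * (η / r * θ) = η * θ := by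
        field_simp
      linarith
    have h4 := (lphi_mono hν0 hνi hηθ.le h3).trans (lphi_scale hν0 hνi hs0.le hr1.le)
    exact h4.trans (mul_le_mul_of_nonneg_right hr2 hF)

private lemma cmp_tendsto {F : Filter ℝ} {f g w : ℝ → ℝ} {L : ℝ} (hw : ∀ᶠ x in F, 0 < w x)
    (hf : ∀ᶠ x in F, 0 ≤ f x)
    (hfg : ∀ e : ℝ, 0 < e → ∀ᶠ x in F, f x ≤ (1 + e) * g x ∧ g x ≤ (1 + e) * f x)
    (hL : Tendsto (fun x => f x / w x) F (𝓝 L)) : Tendsto (fun x => g x / w x) F (𝓝 L) := by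
  rw [Metric.tendsto_nhds] at hL ⊢
  intro ε hε
  obtain ⟨e, he, he1, he2⟩ : ∃ e : ℝ, 0 < e ∧ e ≤ 1 ∧ e * (|L| + 1) ≤ ε / 4 := by
    refine ⟨min 1 (ε / (4 * (|L| + 1))), by positivity, min_le_left _ _, ?_⟩
    have h1 : min 1 (ε / (4 * (|L| + 1))) ≤ ε / (4 * (|L| + 1)) := min_le_right _ _
    rw [le_div_iff₀ (by positivity)] at h1
    linarith
  filter_upwards [hw, hf, hfg e he, hL (min 1 (ε / 4)) (by positivity)] with x h1 h2 h3 h4
  rw [Real.dist_eq, abs_lt] at h4 ⊢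
  obtain ⟨h31, h32⟩ := h3
  obtain ⟨F1, hF1⟩ : ∃ F1, F1 = f x / w x := ⟨_, rfl⟩
  obtain ⟨G1, hG1⟩ : ∃ G1, G1 = g x / w x := ⟨_, rfl⟩
  have hF0 : 0 ≤ F1 := by rw [hF1]; exact div_nonneg h2 h1.le
  have h5 : F1 ≤ (1 + e) * G1 := by
    rw [hF1, hG1, ← mul_div_assoc]
    exact div_le_div_of_nonneg_right h31 h1.le
  have h6 : G1 ≤ (1 + e) * F1 := by
    rw [hF1, hG1, ← mul_div_assoc]
    exact div_le_div_of_nonneg_right h32 h1.le
  rw [← hF1] at h4
  rw [← hG1]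
  have m1 : min 1 (ε / 4) ≤ 1 := min_le_left _ _
  have m2 : min 1 (ε / 4) ≤ ε / 4 := min_le_right _ _
  have hFL : F1 ≤ |L| + 1 := by
    have := le_abs_self L
    linarith
  have h7 : e * F1 ≤ ε / 4 := (mul_le_mul_of_nonneg_left hFL he.le).trans he2
  constructor
  · -- `G1 ≥ F1 / (1 + e) ≥ F1 - e F1`
    have h8 : F1 - e * F1 ≤ G1 := by
      have h9 : (F1 - e * F1) * (1 + e) ≤ F1 := by
        have h11 : (F1 - e * F1) * (1 + e) = F1 - e ^ 2 * F1 := by ring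
        rw [h11]
        have : 0 ≤ e ^ 2 * F1 := by positivity
        linarith
      have h10 : (F1 - e * F1) * (1 + e) ≤ G1 * (1 + e) := by
        rw [mul_comm G1]
        exact h9.trans h5
      have h12 : 0 < 1 + e := by linarith
      exact le_of_mul_le_mul_right h10 h12
    linarith
  · linarith

/-- **power behaviour of the correction**: `κ(θ) θ^{-p}` converges iff `φ(s) s^{-p}` does -/
theorem kap_pow (S : StdC μ ν h h') {p : ℝ} (hp : p ≤ 2) (L : ℝ) :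
    Tendsto (fun s => lphi ν s / s ^ p) (𝓝[>] 0) (𝓝 L) ↔
      Tendsto (fun θ => kapS μ ν θ / θ ^ p) (𝓝[>] 0)
        (𝓝 ((L * eta μ ν ^ p + (if p = 2 then kA μ ν else 0)) /
          ((∫ s, s ∂μ) - ∫ t, t ∂ν))) := by
  have hν0 := BetaAux.ae_nonneg S.hν
  have hνi := S.hνi
  have hgt := S.hgt
  have hη2 := two_lt_eta S
  have hexp := kap_expand S
  obtain ⟨d, hd⟩ : ∃ d, d = (∫ s, s ∂μ) - ∫ t, t ∂ν := ⟨_, rfl⟩
  have hd0 : 0 < d := by rw [hd]; linarith
  rw [← hd] at hexp ⊢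
  have hcmp := fun (e : ℝ) (he : 0 < e) => lphi_cmp S (e := e) he
  obtain ⟨η, hη⟩ : ∃ η, η = eta μ ν := ⟨_, rfl⟩
  rw [← hη] at hη2 hcmp ⊢
  have hη0 : 0 < η := by linarith
  obtain ⟨z, hz⟩ : ∃ z : ℝ, z = if p = 2 then kA μ ν else 0 := ⟨_, rfl⟩
  rw [← hz]
  have hid : Tendsto (fun θ : ℝ => θ) (𝓝[>] (0 : ℝ)) (𝓝 0) :=
    (continuous_id.tendsto 0).mono_left nhdsWithin_le_nhds
  have hMt : Tendsto (fun θ => mStar μ (betaStar μ ν θ)) (𝓝[>] 0) (𝓝 1) := by
    have h2 : Tendsto (fun θ => betaStar μ ν θ) (𝓝[>] 0) (𝓝 0) := by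
      have h3 := (betaStar_lim S).mul hid
      rw [mul_zero] at h3
      refine h3.congr' ?_
      filter_upwards [self_mem_nhdsWithin] with θ hθ
      have hθ : 0 < θ := hθ
      rw [div_mul_cancel₀ _ hθ.ne']
    have h4 := ((mStar_cont S).tendsto 0).comp h2
    rw [mStar_zero S] at h4
    exact h4
  -- step B
  have hB : Tendsto (fun s => lphi ν s / s ^ p) (𝓝[>] 0) (𝓝 L) ↔
      Tendsto (fun θ => lphi ν (η * θ) / θ ^ p) (𝓝[>] 0) (𝓝 (L * η ^ p)) := by
    have hηp : 0 < η ^ p := Real.rpow_pos_of_pos hη0 p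
    constructor
    · intro h1
      have h2 := (h1.comp (mulr_nhds hη0)).mul_const (η ^ p)
      refine h2.congr' ?_
      filter_upwards [self_mem_nhdsWithin] with θ hθ
      have hθ : 0 < θ := hθ
      simp only [Function.comp]
      rw [Real.mul_rpow hη0.le hθ.le]
      field_simp
    · intro h1
      have h2 := (h1.comp (mulr_nhds (inv_pos.2 hη0))).div_const (η ^ p)
      rw [mul_div_cancel_right₀ _ hηp.ne'] at h2
      refine h2.congr' ?_
      filter_upwards [self_mem_nhdsWithin] with s hs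
      have hs : 0 < s := hs
      simp only [Function.comp]
      rw [Real.mul_rpow (inv_nonneg.2 hη0.le) hs.le, Real.inv_rpow hη0.le]
      have e1 : η * (η⁻¹ * s) = s := by field_simp
      rw [e1]
      field_simp
  rw [hB]
  -- step A
  have hpos : ∀ᶠ θ : ℝ in 𝓝[>] 0, 0 < θ ^ p := by
    filter_upwards [self_mem_nhdsWithin] with θ hθ
    exact Real.rpow_pos_of_pos hθ p
  have hf1 : ∀ᶠ θ : ℝ in 𝓝[>] 0, 0 ≤ lphi ν (η * θ) := by
    filter_upwards [self_mem_nhdsWithin] with θ hθ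
    have hθ : 0 < θ := hθ
    exact lphi_nonneg hν0 hνi (by positivity)
  have hf2 : ∀ᶠ θ : ℝ in 𝓝[>] 0, 0 ≤ lphi ν (betaStar μ ν θ + θ) := by
    filter_upwards [self_mem_nhdsWithin] with θ hθ
    have hθ : 0 < θ := hθ
    have hβ : 0 ≤ betaStar μ ν θ := rootM_nonneg _ _
    exact lphi_nonneg hν0 hνi (by linarith)
  have hA : Tendsto (fun θ => lphi ν (η * θ) / θ ^ p) (𝓝[>] 0) (𝓝 (L * η ^ p)) ↔
      Tendsto (fun θ => lphi ν (betaStar μ ν θ + θ) / θ ^ p) (𝓝[>] 0) (𝓝 (L * η ^ p)) := by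
    constructor
    · intro h1
      apply cmp_tendsto hpos hf1 _ h1
      intro e he
      filter_upwards [hcmp e he] with θ hθ
      exact ⟨hθ.2, hθ.1⟩
    · intro h1
      exact cmp_tendsto hpos hf2 hcmp h1
  rw [hA, ← tendsto_mul_one_iff hMt]
  -- step C
  have hC : Tendsto (fun θ => (d * kapS μ ν θ - mStar μ (betaStar μ ν θ) *
      lphi ν (betaStar μ ν θ + θ)) / θ ^ 2 * θ ^ (2 - p)) (𝓝[>] 0) (𝓝 z) := by
    rcases hp.eq_or_lt with h2 | h2
    · rw [h2] at hz ⊢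
      rw [if_pos rfl] at hz
      rw [hz]
      simpa using hexp
    · rw [if_neg h2.ne] at hz
      rw [hz]
      have h3 : Tendsto (fun θ : ℝ => θ ^ (2 - p)) (𝓝[>] 0) (𝓝 0) := by
        have h4 := (Real.continuousAt_rpow_const 0 (2 - p) (Or.inr (by linarith))).tendsto
        rw [Real.zero_rpow (by linarith)] at h4
        exact h4.mono_left nhdsWithin_le_nhds
      have h5 := hexp.mul h3
      rwa [mul_zero] at h5
  rw [← tendsto_add_iff hC]
  constructor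
  · intro h1
    have h2 := h1.div_const d
    refine h2.congr' ?_
    filter_upwards [self_mem_nhdsWithin] with θ hθ
    have hθ : 0 < θ := hθ
    have hθp : 0 < θ ^ p := Real.rpow_pos_of_pos hθ p
    have e1 : θ ^ (2 - p) = θ ^ 2 / θ ^ p := by
      rw [Real.rpow_sub hθ]
      norm_cast
    rw [e1]
    field_simp
    ring
  · intro h1
    have h2 := h1.mul_const d
    rw [div_mul_cancel₀ _ hd0.ne'] at h2
    refine h2.congr' ?_
    filter_upwards [self_mem_nhdsWithin] with θ hθ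
    have hθ : 0 < θ := hθ
    have hθp : 0 < θ ^ p := Real.rpow_pos_of_pos hθ p
    have e1 : θ ^ (2 - p) = θ ^ 2 / θ ^ p := by
      rw [Real.rpow_sub hθ]
      norm_cast
    rw [e1]
    field_simp
    ring

/-- bounded version -/
theorem kap_pow_bdd (S : StdC μ ν h h') {p : ℝ} (hp : p ≤ 2) :
    (∃ C : ℝ, ∀ᶠ s : ℝ in 𝓝[>] 0, lphi ν s ≤ C * s ^ p) ↔
      ∃ C : ℝ, ∀ᶠ θ : ℝ in 𝓝[>] 0, kapS μ ν θ ≤ C * θ ^ p := by
  have hν0 := BetaAux.ae_nonneg S.hν
  have hνi := S.hνi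
  have hgt := S.hgt
  have hη2 := two_lt_eta S
  have hexp := kap_expand S
  obtain ⟨d, hd⟩ : ∃ d, d = (∫ s, s ∂μ) - ∫ t, t ∂ν := ⟨_, rfl⟩
  have hd0 : 0 < d := by rw [hd]; linarith
  rw [← hd] at hexp
  obtain ⟨A, hA⟩ : ∃ A, A = kA μ ν := ⟨_, rfl⟩
  rw [← hA] at hexp
  have hcmp := lphi_cmp S (e := 1) one_pos
  obtain ⟨η, hη⟩ : ∃ η, η = eta μ ν := ⟨_, rfl⟩
  rw [← hη] at hη2 hcmp
  have hη0 : 0 < η := by linarith
  have hid : Tendsto (fun θ : ℝ => θ) (𝓝[>] (0 : ℝ)) (𝓝 0) :=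
    (continuous_id.tendsto 0).mono_left nhdsWithin_le_nhds
  have hMt : Tendsto (fun θ => mStar μ (betaStar μ ν θ)) (𝓝[>] 0) (𝓝 1) := by
    have h2 : Tendsto (fun θ => betaStar μ ν θ) (𝓝[>] 0) (𝓝 0) := by
      have h3 := (betaStar_lim S).mul hid
      rw [mul_zero] at h3
      refine h3.congr' ?_
      filter_upwards [self_mem_nhdsWithin] with θ hθ
      have hθ : 0 < θ := hθ
      rw [div_mul_cancel₀ _ hθ.ne']
    have h4 := ((mStar_cont S).tendsto 0).comp h2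
    rw [mStar_zero S] at h4
    exact h4
  have hlt1 : ∀ᶠ θ : ℝ in 𝓝[>] 0, θ < 1 :=
    Filter.Eventually.filter_mono nhdsWithin_le_nhds (gt_mem_nhds one_pos)
  have hsq : ∀ θ : ℝ, 0 < θ → θ < 1 → θ ^ 2 ≤ θ ^ p := by
    intro θ h1 h2
    have h3 := Real.rpow_le_rpow_of_exponent_ge h1 h2.le hp
    norm_cast at h3
  constructor
  · rintro ⟨C, hC⟩
    refine ⟨(2 * 2 * |C| * η ^ p + (|A| + 1)) / d, ?_⟩
    filter_upwards [hexp.eventually (gt_mem_nhds (show A < A + 1 by linarith)),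
      hMt.eventually (gt_mem_nhds (show (1 : ℝ) < 2 by norm_num)), hcmp,
      (mulr_nhds hη0).eventually hC, hlt1, self_mem_nhdsWithin] with θ h1 h2 h3 h4 h5 hθ
    have hθ : 0 < θ := hθ
    have hβ : 0 ≤ betaStar μ ν θ := rootM_nonneg _ _
    have hF := lphi_nonneg hν0 hνi (s := betaStar μ ν θ + θ) (by linarith)
    rw [div_lt_iff₀ (by positivity)] at h1
    have h6 : mStar μ (betaStar μ ν θ) * lphi ν (betaStar μ ν θ + θ) ≤
        2 * lphi ν (betaStar μ ν θ + θ) := mul_le_mul_of_nonneg_right h2.le hF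
    have hθp : 0 < θ ^ p := Real.rpow_pos_of_pos hθ p
    have hηp : 0 < η ^ p := Real.rpow_pos_of_pos hη0 p
    have h7 : lphi ν (η * θ) ≤ |C| * (η ^ p * θ ^ p) := by
      refine h4.trans ?_
      rw [Real.mul_rpow hη0.le hθ.le]
      exact mul_le_mul_of_nonneg_right (le_abs_self C) (by positivity)
    have h8 : (A + 1) * θ ^ 2 ≤ (|A| + 1) * θ ^ p := by
      have h9 : (A + 1) * θ ^ 2 ≤ (|A| + 1) * θ ^ 2 :=
        mul_le_mul_of_nonneg_right (by linarith [le_abs_self A]) (sq_nonneg θ)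
      have h10 : (|A| + 1) * θ ^ 2 ≤ (|A| + 1) * θ ^ p :=
        mul_le_mul_of_nonneg_left (hsq θ hθ h5) (by positivity)
      linarith
    have h9 : d * kapS μ ν θ ≤ (2 * 2 * |C| * η ^ p + (|A| + 1)) * θ ^ p := by
      have h10 : 2 * lphi ν (betaStar μ ν θ + θ) ≤ 2 * (2 * (|C| * (η ^ p * θ ^ p))) := by
        linarith [h3.1]
      have h11 : 2 * (2 * (|C| * (η ^ p * θ ^ p))) = 2 * 2 * |C| * η ^ p * θ ^ p := by ring
      rw [add_mul]
      linarith
    rw [div_mul_eq_mul_div, le_div_iff₀ hd0]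
    linarith
  · rintro ⟨C, hC⟩
    refine ⟨2 * (d * |C| + (|A| + 1)) * (η⁻¹) ^ p, ?_⟩
    have hev : ∀ᶠ θ : ℝ in 𝓝[>] 0, lphi ν (η * θ) ≤ 2 * (d * |C| + (|A| + 1)) * θ ^ p := by
      filter_upwards [hexp.eventually (lt_mem_nhds (show A - 1 < A by linarith)), hcmp, hC,
        hlt1, self_mem_nhdsWithin] with θ h1 h3 h4 h5 hθ
      have hθ : 0 < θ := hθ
      have hβ : 0 ≤ betaStar μ ν θ := rootM_nonneg _ _
      have hF := lphi_nonneg hν0 hνi (s := betaStar μ ν θ + θ) (by linarith)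
      rw [lt_div_iff₀ (by positivity)] at h1
      have hM := one_le_mStar S hβ
      have h6 : lphi ν (betaStar μ ν θ + θ) ≤
          mStar μ (betaStar μ ν θ) * lphi ν (betaStar μ ν θ + θ) :=
        le_mul_of_one_le_left hF hM
      have hθp : 0 < θ ^ p := Real.rpow_pos_of_pos hθ p
      have h7 : d * kapS μ ν θ ≤ d * (|C| * θ ^ p) :=
        mul_le_mul_of_nonneg_left (h4.trans (mul_le_mul_of_nonneg_right (le_abs_self C)
          hθp.le)) hd0.le
      have h8 : -((|A| + 1) * θ ^ p) ≤ (A - 1) * θ ^ 2 := by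
        have h9 : -((|A| + 1) * θ ^ 2) ≤ (A - 1) * θ ^ 2 := by
          rw [← neg_mul]
          exact mul_le_mul_of_nonneg_right (by linarith [neg_abs_le A]) (sq_nonneg θ)
        have h10 : (|A| + 1) * θ ^ 2 ≤ (|A| + 1) * θ ^ p :=
          mul_le_mul_of_nonneg_left (hsq θ hθ h5) (by positivity)
        linarith
      have h9 : lphi ν (betaStar μ ν θ + θ) ≤ (d * |C| + (|A| + 1)) * θ ^ p := by
        rw [add_mul]
        linarith
      linarith [h3.2]
    filter_upwards [(mulr_nhds (inv_pos.2 hη0)).eventually hev, self_mem_nhdsWithin] with s h1 hs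
    have hs : 0 < s := hs
    have e1 : η * (η⁻¹ * s) = s := by field_simp
    rw [e1, Real.mul_rpow (inv_nonneg.2 hη0.le) hs.le] at h1
    linarith

end Pool.Agent.Lib.MP_04add8_pr.U
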