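import Mathlib
import Pool.Agent.Lib.MP_04add8_pr.Cv.SLvl
import Pool.Agent.Lib.MP_04add8_pr.Cv.Base

open MeasureTheory ProbabilityTheory Filter Topology
open scoped ENNReal

set_option linter.unusedSectionVars false

namespace Pool.Agent.Lib.MP_04add8_pr.U

open Pool.Agent.Lib.MP_04add8_pr.Gen Pool.Agent.Lib.MP_04add8_pr.Cv

variable {h h' : ℝ → ℝ}

lemma slvl_max {B B' : ℝ → ℝ} (T : SLvl h B) (T' : SLvl h B') :
    SLvl h (fun x => max (B x) (B' x)) := by
  refine ⟨tendsto_atTop_mono (fun x => le_max_left _ _) T.top, fun M => ?_⟩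
  filter_upwards [T.tilt M, T'.tilt M] with x h1 h2 s hs hsB
  rcases le_max_iff.1 hsB with h3 | h3
  · exact h1 s hs h3
  · exact h2 s hs h3

/-- the level `C / h' (η x)` is a level of small jobs -/
theorem slvl_inv (H : HazC h h') {η C : ℝ} (hη : 1 ≤ η) (hC : 0 < C) :
    SLvl h (fun x => C / h' (η * x)) := by
  have hη0 : 0 < η := by linarith
  have hηx : Tendsto (fun x : ℝ => η * x) atTop atTop := tendsto_id.const_mul_atTop hη0
  have htop : Tendsto (fun x : ℝ => C / h' (η * x)) atTop atTop := by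
    have e1 : Tendsto (fun x : ℝ => h' (η * x)) atTop (𝓝[>] 0) := by
      rw [tendsto_nhdsWithin_iff]
      constructor
      · exact H.tendsto_deriv.comp hηx
      · filter_upwards [eventually_gt_atTop 0] with x hx
        exact H.pos _ (by positivity)
    exact (tendsto_inv_nhdsGT_zero.comp e1).const_mul_atTop hC
  refine ⟨htop, fun M => ?_⟩
  obtain ⟨N, hN⟩ : ∃ N : ℝ, N = |M| + 1 := ⟨_, rfl⟩
  have hN0 : 0 < N := by rw [hN]; positivity
  obtain ⟨ε, hε⟩ : ∃ ε : ℝ, ε = min (1 / (8 * N)) 1 := ⟨_, rfl⟩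
  have hε0 : 0 < ε := by rw [hε]; positivity
  have hεN : 8 * N * ε ≤ 1 := by
    calc 8 * N * ε ≤ 8 * N * (1 / (8 * N)) := by
          gcongr
          rw [hε]
          exact min_le_left _ _
      _ = 1 := by field_simp
  have hε1 : ε ≤ 1 := by rw [hε]; exact min_le_right _ _
  obtain ⟨C0, hC0, hdb⟩ := H.doubling
  obtain ⟨K, hK⟩ : ∃ K : ℝ, K = (η / ε) ^ C0 := ⟨_, rfl⟩
  have hK0 : 0 < K := by rw [hK]; positivity
  filter_upwards [(H.big.comp hηx).eventually_ge_atTop (η * (C / ε)),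
    (H.tendsto_h.comp htop).eventually_ge_atTop (C * K / ε), eventually_gt_atTop 0]
    with x h1 h2 hx
  simp only [Function.comp_apply] at h1 h2
  obtain ⟨q, hq⟩ : ∃ q, q = h' (η * x) := ⟨_, rfl⟩
  have hq0 : 0 < q := by rw [hq]; exact H.pos _ (by positivity)
  rw [← hq] at h1 h2 ⊢
  obtain ⟨Y, hY⟩ : ∃ Y, Y = C / q := ⟨_, rfl⟩
  rw [← hY] at h2 ⊢
  have hY0 : 0 < Y := by rw [hY]; positivity
  have hYq : Y * q = C := by rw [hY]; field_simp
  have hYx : Y ≤ ε * x := by
    have h3 : C / ε ≤ x * q := by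
      have : η * (C / ε) ≤ η * (x * q) := by linarith
      exact le_of_mul_le_mul_left this hη0
    rw [hY, div_le_iff₀ hq0]
    rw [div_le_iff₀ hε0] at h3
    linarith
  have hεx : 0 < ε * x := by positivity
  have h3 : h' (ε * x) ≤ K * q := by
    have h4 := hdb (ε * x) (η / ε) hεx (by
      rw [le_div_iff₀ hε0]
      linarith)
    have h5 : η / ε * (ε * x) = η * x := by field_simp
    rw [h5, ← hK, ← hq] at h4
    exact h4
  have h4 : h x - h (ε * x) ≤ (x - ε * x) * h' (ε * x) := H.upper_deriv hεx (by nlinarith)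
  have h5 : Y * h (ε * x) ≤ ε * x * h Y := H.mul_le hY0 hYx
  have h6 : h x ≤ h (ε * x) + x * (K * q) := by
    have h7 : (x - ε * x) * h' (ε * x) ≤ x * (K * q) := by
      apply mul_le_mul (by linarith) h3 (H.pos _ hεx).le hx.le
    linarith
  have h7 : Y * h x ≤ 2 * ε * x * h Y := by
    have h8 : Y * h x ≤ Y * h (ε * x) + x * (K * (Y * q)) := by
      have := mul_le_mul_of_nonneg_left h6 hY0.le
      nlinarith
    rw [hYq] at h8
    rw [div_le_iff₀ hε0] at h2
    have h9 : x * (K * C) ≤ x * (h Y * ε) := by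
      apply mul_le_mul_of_nonneg_left _ hx.le
      linarith
    nlinarith
  intro s hs hsY
  rcases hs.eq_or_lt with rfl | hs0
  · rw [mul_zero]
    have := H.nonneg 0
    linarith
  have h8 : s * h Y ≤ Y * h s := H.mul_le hs0 hsY
  have hMN : M * (h x / x) * s ≤ N * (h x / x) * s := by
    have h9 : 0 ≤ h x / x := div_nonneg (H.nonneg x) hx.le
    have h10 : M ≤ N := by rw [hN]; linarith [le_abs_self M]
    gcongr
  refine hMN.trans ?_
  have e5 : N * (h x / x) * s = N * h x * s / x := by field_simp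
  rw [e5, div_le_iff₀ hx]
  have hhs := H.nonneg s
  have hhY := H.nonneg Y
  have e6 : Y * (N * h x * s) ≤ Y * (h s / 4 * x) := by
    calc Y * (N * h x * s) = N * s * (Y * h x) := by ring
      _ ≤ N * s * (2 * ε * x * h Y) := by gcongr
      _ = 2 * ε * N * x * (s * h Y) := by ring
      _ ≤ 2 * ε * N * x * (Y * h s) := by gcongr
      _ = (8 * N * ε) * (Y * (h s / 4 * x)) := by ring
      _ ≤ 1 * (Y * (h s / 4 * x)) := by
          apply mul_le_mul_of_nonneg_right hεN
          positivity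
      _ = _ := one_mul _
  exact le_of_mul_le_mul_left e6 hY0

end Pool.Agent.Lib.MP_04add8_pr.U
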