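import Mathlib
import Pool.Agent.Lib.MP_04add8_pr.Cv.LawM
import Pool.Agent.Lib.MP_04add8_pr.Cv.Lapl
import Pool.Agent.Lib.MP_04add8_pr.Cv.Phi
import Pool.Agent.Lib.MP_04add8_pr.One.BetaA
import Pool.Agent.Lib.MP_04add8_pr.One.Lvl

open MeasureTheory ProbabilityTheory Filter Topology
open scoped ENNReal

set_option linter.unusedSectionVars false

namespace Pool.Agent.Lib.MP_04add8_pr.U

open Pool.Agent.Lib.MP_04add8_pr.Gen Pool.Agent.Lib.MP_04add8_pr.Cv BetaAux

variable {h h' : ℝ → ℝ} {μ ν : Measure ℝ} [IsProbabilityMeasure μ]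
  [IsProbabilityMeasure ν]

/-- the overshoot supersolution -/
noncomputable def ovV (y0 y : ℝ) : ℝ := if y < 0 then -y else 2 * y0 + y0 * y / (y0 + y)

lemma ovV_meas (y0 : ℝ) : Measurable (ovV y0) := by
  unfold ovV
  apply Measurable.ite (measurableSet_lt measurable_id measurable_const)
  · exact measurable_id.neg
  · have h1 : Measurable fun y : ℝ => y0 * y := measurable_id.const_mul y0
    have h2 : Measurable fun y : ℝ => y0 + y := measurable_id.const_add y0
    exact (h1.div h2).const_add _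

lemma ovV_nonneg {y0 : ℝ} (h0 : 0 < y0) (y : ℝ) : 0 ≤ ovV y0 y := by
  unfold ovV
  split_ifs with h
  · linarith
  · push Not at h
    positivity

lemma ovV_le {y0 y : ℝ} (h0 : 0 < y0) (hy : 0 ≤ y) : ovV y0 y ≤ 3 * y0 := by
  unfold ovV
  rw [if_neg (not_lt.2 hy)]
  have h1 : y0 * y / (y0 + y) ≤ y0 := by
    rw [div_le_iff₀ (by positivity)]
    nlinarith
  linarith

lemma ovV_step {y0 y s a : ℝ} (h0 : 0 < y0) (hy : 0 ≤ y) (hs : 0 ≤ s) (ha : 0 ≤ a) :
    ovV y0 (y - (s - a)) + (y0 / (y0 + y)) ^ 2 * s ≤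
      ovV y0 y + (y0 / (y0 + y)) ^ 2 * a + 8 / (y0 + y) ^ 2 * s ^ 3 := by
  have hD : 0 < y0 + y := by positivity
  obtain ⟨g, hg⟩ : ∃ g, g = (y0 / (y0 + y)) ^ 2 := ⟨_, rfl⟩
  have hg0 : 0 ≤ g := by rw [hg]; positivity
  have hg1 : g ≤ 1 := by
    rw [hg]
    apply pow_le_one₀ (by positivity)
    rw [div_le_one hD]
    linarith
  have h3 : 0 ≤ 8 / (y0 + y) ^ 2 * s ^ 3 := by positivity
  have hVy : ovV y0 y = 2 * y0 + y0 * y / (y0 + y) := by
    unfold ovV
    rw [if_neg (not_lt.2 hy)]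
  rw [← hg, hVy]
  by_cases hc : y - (s - a) < 0
  · have hV : ovV y0 (y - (s - a)) = -(y - (s - a)) := by
      unfold ovV
      rw [if_pos hc]
    rw [hV]
    have h4 : 0 ≤ y0 * y / (y0 + y) := by positivity
    have h5 : 0 ≤ g * a := mul_nonneg hg0 ha
    rcases le_or_gt s y0 with h6 | h6
    · have h7 : g * s ≤ s := mul_le_of_le_one_left hs hg1
      linarith
    · have h8 : y0 + y ≤ 2 * s := by linarith
      have h9 : 2 * s ≤ 8 / (y0 + y) ^ 2 * s ^ 3 := by
        rw [div_mul_eq_mul_div, le_div_iff₀ (by positivity)]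
        have h10 : (y0 + y) ^ 2 ≤ (2 * s) ^ 2 := pow_le_pow_left₀ hD.le h8 2
        calc 2 * s * (y0 + y) ^ 2 ≤ 2 * s * (2 * s) ^ 2 := by gcongr
          _ = 8 * s ^ 3 := by ring
      have h7 : g * s ≤ s := mul_le_of_le_one_left hs hg1
      linarith
  · push Not at hc
    have hV : ovV y0 (y - (s - a)) = 2 * y0 + y0 * (y - (s - a)) / (y0 + (y - (s - a))) := by
      unfold ovV
      rw [if_neg (not_lt.2 hc)]
    rw [hV]
    have hD' : 0 < y0 + (y - (s - a)) := by positivity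
    obtain ⟨D, hDD⟩ : ∃ D, D = y0 + y := ⟨_, rfl⟩
    obtain ⟨D', hDD'⟩ : ∃ D', D' = y0 + (y - (s - a)) := ⟨_, rfl⟩
    have e1 : y0 * (y - (s - a)) / (y0 + (y - (s - a))) = y0 - y0 ^ 2 / D' := by
      rw [← hDD']
      rw [← hDD'] at hD'
      have : y - (s - a) = D' - y0 := by rw [hDD']; ring
      rw [this]
      field_simp
    have e2 : y0 * y / (y0 + y) = y0 - y0 ^ 2 / D := by
      rw [← hDD]
      rw [← hDD] at hD
      have : y = D - y0 := by rw [hDD]; ring
      rw [this]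
      field_simp
    rw [e1, e2]
    have e3 : g = y0 ^ 2 / D ^ 2 := by rw [hg, ← hDD, div_pow]
    have e4 : s = a + (D - D') := by rw [hDD, hDD']; ring
    rw [← hDD] at hD h3
    rw [← hDD'] at hD'
    have key : y0 ^ 2 / D ^ 2 * (D - D') ≤ y0 ^ 2 / D' - y0 ^ 2 / D := by
      have h5 : y0 ^ 2 / D' - y0 ^ 2 / D - y0 ^ 2 / D ^ 2 * (D - D') =
          y0 ^ 2 * (D - D') ^ 2 / (D' * D ^ 2) := by
        field_simp
      have h6 : 0 ≤ y0 ^ 2 * (D - D') ^ 2 / (D' * D ^ 2) := by positivity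
      linarith
    have h7 : g * s = g * a + y0 ^ 2 / D ^ 2 * (D - D') := by
      rw [e3]
      nth_rewrite 1 [e4]
      ring
    rw [← hDD]
    linarith

/-- the supersolution -/
noncomputable def ovW (K β y0 y c : ℝ) : ℝ≥0∞ :=
  ENNReal.ofReal (K / c) + ENNReal.ofReal (β * ovV y0 y)

lemma ovW_meas (K β y0 : ℝ) : Measurable (fun q : ℝ × ℝ => ovW K β y0 q.1 q.2) := by
  unfold ovW
  have h1 : Measurable fun q : ℝ × ℝ => ENNReal.ofReal (K / q.2) :=
    (measurable_const.div measurable_snd).ennreal_ofReal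
  have h2 : Measurable fun q : ℝ × ℝ => ENNReal.ofReal (β * ovV y0 q.1) :=
    (((ovV_meas y0).comp measurable_fst).const_mul β).ennreal_ofReal
  exact h1.add h2

lemma ovW_neg {K β y0 y : ℝ} (hβ : 0 ≤ β) (c : ℝ) (hy : y < 0) :
    ENNReal.ofReal (Real.exp (-(β * y))) ≤
      1 + ENNReal.ofReal (Real.exp (-(β * y))) * ovW K β y0 y c := by
  have h1 : ENNReal.ofReal (β * -y) ≤ ovW K β y0 y c := by
    unfold ovW ovV
    rw [if_pos hy]
    exact le_add_self
  refine le_trans ?_ (add_le_add le_rfl (mul_le_mul_right h1 _))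
  have hyn : 0 ≤ β * -y := mul_nonneg hβ (by linarith)
  rw [← ENNReal.ofReal_mul (Real.exp_pos _).le, ← ENNReal.ofReal_one,
    ← ENNReal.ofReal_add zero_le_one (by positivity)]
  apply ENNReal.ofReal_le_ofReal
  have h2 := Real.add_one_le_exp (β * y)
  have h3 : Real.exp (-(β * y)) * Real.exp (β * y) = 1 := by
    rw [← Real.exp_add]
    simp
  have h4 := Real.exp_pos (-(β * y))
  nlinarith [mul_le_mul_of_nonneg_left h2 h4.le]

/-- the weight of a tilted small job -/
noncomputable def twt (B β θ : ℝ) (p : ℝ × ℝ) : ℝ≥0∞ :=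
  lvlG B θ p * ENNReal.ofReal (Real.exp (β * (p.1 - p.2)))

lemma twt_meas (B β θ : ℝ) : Measurable (twt B β θ) := by
  unfold twt
  exact (lvlG_meas B θ).mul (by fun_prop)

lemma twt_int (B β θ : ℝ) : ∫⁻ p, twt B β θ p ∂(μ.prod ν) = trPhi μ ν B β θ := by
  unfold twt lvlG trPhi
  apply lintegral_congr
  intro p
  rw [mul_assoc, ← ENNReal.ofReal_mul (Real.exp_nonneg _), ← Real.exp_add]
  congr 3
  ring

/-- supersolution property of the first part -/
lemma ovK_int (hp0 : ∀ᵐ p ∂(μ.prod ν), 0 ≤ p.1 ∧ 0 ≤ p.2) {B β θ K b c : ℝ} (hK : 0 ≤ K)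
    (hb : 0 < b) (hc : b ≤ c)
    (hfin : ∫⁻ p, twt B β θ p * ENNReal.ofReal p.1 ∂(μ.prod ν) ≠ ∞)
    (hm : ENNReal.ofReal (K / b + 1) * ∫⁻ p, twt B β θ p * ENNReal.ofReal (p.1 ^ 2) ∂(μ.prod ν) ≤
      ENNReal.ofReal K * ∫⁻ p, twt B β θ p * ENNReal.ofReal p.1 ∂(μ.prod ν)) :
    ∫⁻ p, twt B β θ p * (if p.1 ≤ c then ENNReal.ofReal (K / (c + p.1)) else 1) ∂(μ.prod ν) ≤
      trPhi μ ν B β θ * ENNReal.ofReal (K / c) := by
  have hc0 : 0 < c := hb.trans_le hc
  set m1 := ∫⁻ p, twt B β θ p * ENNReal.ofReal p.1 ∂(μ.prod ν) with hm1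
  set m2 := ∫⁻ p, twt B β θ p * ENNReal.ofReal (p.1 ^ 2) ∂(μ.prod ν) with hm2
  have hT := twt_meas B β θ
  have hpt : ∀ᵐ p ∂(μ.prod ν), twt B β θ p *
      (if p.1 ≤ c then ENNReal.ofReal (K / (c + p.1)) else 1) +
        ENNReal.ofReal (K / c ^ 2) * (twt B β θ p * ENNReal.ofReal p.1) ≤
      twt B β θ p * ENNReal.ofReal (K / c) +
        ENNReal.ofReal ((K / c + 1) / c ^ 2) * (twt B β θ p * ENNReal.ofReal (p.1 ^ 2)) := by
    filter_upwards [hp0] with p hp
    have h1 : (if p.1 ≤ c then ENNReal.ofReal (K / (c + p.1)) else 1) +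
        ENNReal.ofReal (K / c ^ 2) * ENNReal.ofReal p.1 ≤ ENNReal.ofReal (K / c) +
        ENNReal.ofReal ((K / c + 1) / c ^ 2) * ENNReal.ofReal (p.1 ^ 2) := by
      obtain ⟨s, hs⟩ : ∃ s, s = p.1 := ⟨_, rfl⟩
      rw [← hs] at hp ⊢
      have hs0 : 0 ≤ s := hp.1
      have e0 : K / (c + s) + K / c ^ 2 * s ≤ K / c + K / c ^ 3 * s ^ 2 := by
        have : K / c + K / c ^ 3 * s ^ 2 - (K / (c + s) + K / c ^ 2 * s) =
            K * s ^ 3 / (c ^ 3 * (c + s)) := by
          field_simp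
          ring
        have h3 : 0 ≤ K * s ^ 3 / (c ^ 3 * (c + s)) := by positivity
        linarith
      have e1 : K / c ^ 3 * s ^ 2 ≤ (K / c + 1) / c ^ 2 * s ^ 2 := by
        have h4 : K / c ^ 3 ≤ (K / c + 1) / c ^ 2 := by
          have h5 : (K / c + 1) / c ^ 2 = K / c ^ 3 + 1 / c ^ 2 := by
            field_simp
          rw [h5]
          have : 0 ≤ 1 / c ^ 2 := by positivity
          linarith
        gcongr
      have hK1 : 0 ≤ K / (c + s) := by positivity
      have hK2 : 0 ≤ K / c ^ 2 := by positivity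
      have hK3 : 0 ≤ K / c := by positivity
      have hK4 : 0 ≤ (K / c + 1) / c ^ 2 := by positivity
      rw [← ENNReal.ofReal_mul hK2, ← ENNReal.ofReal_mul hK4,
        ← ENNReal.ofReal_add hK3 (by positivity)]
      split_ifs with hsc
      · rw [← ENNReal.ofReal_add hK1 (by positivity)]
        apply ENNReal.ofReal_le_ofReal
        linarith
      · push Not at hsc
        rw [← ENNReal.ofReal_one, ← ENNReal.ofReal_add zero_le_one (by positivity)]
        apply ENNReal.ofReal_le_ofReal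
        have e2 : (K / c + 1) / c ^ 2 * s ^ 2 = K / c ^ 3 * s ^ 2 + s ^ 2 / c ^ 2 := by
          field_simp
        have e3 : 1 ≤ s ^ 2 / c ^ 2 := by
          rw [one_le_div (by positivity)]
          exact pow_le_pow_left₀ hc0.le hsc.le 2
        linarith
    calc twt B β θ p * (if p.1 ≤ c then ENNReal.ofReal (K / (c + p.1)) else 1) +
          ENNReal.ofReal (K / c ^ 2) * (twt B β θ p * ENNReal.ofReal p.1)
        = twt B β θ p * ((if p.1 ≤ c then ENNReal.ofReal (K / (c + p.1)) else 1) +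
            ENNReal.ofReal (K / c ^ 2) * ENNReal.ofReal p.1) := by ring
      _ ≤ twt B β θ p * (ENNReal.ofReal (K / c) +
            ENNReal.ofReal ((K / c + 1) / c ^ 2) * ENNReal.ofReal (p.1 ^ 2)) := by gcongr
      _ = _ := by ring
  have hint := lintegral_mono_ae hpt
  have hA1 : Measurable fun p : ℝ × ℝ => ENNReal.ofReal (K / c ^ 2) *
      (twt B β θ p * ENNReal.ofReal p.1) := by fun_prop
  have hA2 : Measurable fun p : ℝ × ℝ => twt B β θ p * ENNReal.ofReal p.1 := by fun_prop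
  have hA3 : Measurable fun p : ℝ × ℝ => twt B β θ p * ENNReal.ofReal (p.1 ^ 2) := by fun_prop
  have hA4 : Measurable fun p : ℝ × ℝ => twt B β θ p * ENNReal.ofReal (K / c) := by fun_prop
  rw [lintegral_add_right _ hA1, lintegral_const_mul _ hA2, lintegral_add_left hA4,
    lintegral_const_mul _ hA3, lintegral_mul_const _ hT, twt_int, ← hm1, ← hm2] at hint
  -- cancel
  have hle : ENNReal.ofReal ((K / c + 1) / c ^ 2) * m2 ≤ ENNReal.ofReal (K / c ^ 2) * m1 := by
    have e1 : (K / c + 1) / c ^ 2 = 1 / c ^ 2 * (K / c + 1) := by ring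
    have e2 : K / c ^ 2 = 1 / c ^ 2 * K := by ring
    have h5 : 0 ≤ 1 / c ^ 2 := by positivity
    rw [e1, e2, ENNReal.ofReal_mul h5, ENNReal.ofReal_mul h5, mul_assoc, mul_assoc]
    refine mul_le_mul_right (le_trans ?_ hm) _
    gcongr
  refine ENNReal.le_of_add_le_add_right (ENNReal.mul_ne_top ENNReal.ofReal_ne_top hfin)
    (hint.trans ?_)
  gcongr

/-- supersolution property of the second part -/
lemma ovV_int (hp0 : ∀ᵐ p ∂(μ.prod ν), 0 ≤ p.1 ∧ 0 ≤ p.2) {B β θ y0 y : ℝ} (h0 : 0 < y0)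
    (hy : 0 ≤ y) (hfin : ∫⁻ p, twt B β θ p * ENNReal.ofReal p.1 ∂(μ.prod ν) ≠ ∞)
    (hm : ∫⁻ p, twt B β θ p * ENNReal.ofReal p.2 ∂(μ.prod ν) +
      ENNReal.ofReal (8 / y0 ^ 2) * ∫⁻ p, twt B β θ p * ENNReal.ofReal (p.1 ^ 3) ∂(μ.prod ν) ≤
      ∫⁻ p, twt B β θ p * ENNReal.ofReal p.1 ∂(μ.prod ν)) :
    ∫⁻ p, twt B β θ p * ENNReal.ofReal (ovV y0 (y - (p.1 - p.2))) ∂(μ.prod ν) ≤
      trPhi μ ν B β θ * ENNReal.ofReal (ovV y0 y) := by
  have hD : 0 < y0 + y := by positivity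
  set m1 := ∫⁻ p, twt B β θ p * ENNReal.ofReal p.1 ∂(μ.prod ν) with hm1
  set ma := ∫⁻ p, twt B β θ p * ENNReal.ofReal p.2 ∂(μ.prod ν) with hma
  set m3 := ∫⁻ p, twt B β θ p * ENNReal.ofReal (p.1 ^ 3) ∂(μ.prod ν) with hm3
  have hT := twt_meas B β θ
  obtain ⟨g, hg⟩ : ∃ g, g = (y0 / (y0 + y)) ^ 2 := ⟨_, rfl⟩
  have hg0 : 0 ≤ g := by rw [hg]; positivity
  have hD8 : 0 ≤ 8 / (y0 + y) ^ 2 := by positivity
  have hpt : ∀ᵐ p ∂(μ.prod ν), twt B β θ p * ENNReal.ofReal (ovV y0 (y - (p.1 - p.2))) +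
      ENNReal.ofReal g * (twt B β θ p * ENNReal.ofReal p.1) ≤
      twt B β θ p * ENNReal.ofReal (ovV y0 y) +
        (ENNReal.ofReal g * (twt B β θ p * ENNReal.ofReal p.2) +
        ENNReal.ofReal (8 / (y0 + y) ^ 2) * (twt B β θ p * ENNReal.ofReal (p.1 ^ 3))) := by
    filter_upwards [hp0] with p hp
    have h1 := ovV_step h0 hy hp.1 hp.2
    rw [← hg] at h1
    have h2 : ENNReal.ofReal (ovV y0 (y - (p.1 - p.2))) + ENNReal.ofReal g * ENNReal.ofReal p.1 ≤
        ENNReal.ofReal (ovV y0 y) + (ENNReal.ofReal g * ENNReal.ofReal p.2 +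
        ENNReal.ofReal (8 / (y0 + y) ^ 2) * ENNReal.ofReal (p.1 ^ 3)) := by
      have k1 := ovV_nonneg h0 (y - (p.1 - p.2))
      have k2 := ovV_nonneg h0 y
      have k3 : 0 ≤ p.1 ^ 3 := pow_nonneg hp.1 3
      rw [← ENNReal.ofReal_mul hg0, ← ENNReal.ofReal_mul hg0, ← ENNReal.ofReal_mul hD8,
        ← ENNReal.ofReal_add k1 (mul_nonneg hg0 hp.1),
        ← ENNReal.ofReal_add (mul_nonneg hg0 hp.2) (mul_nonneg hD8 k3),
        ← ENNReal.ofReal_add k2 (add_nonneg (mul_nonneg hg0 hp.2) (mul_nonneg hD8 k3))]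
      apply ENNReal.ofReal_le_ofReal
      linarith
    calc twt B β θ p * ENNReal.ofReal (ovV y0 (y - (p.1 - p.2))) +
          ENNReal.ofReal g * (twt B β θ p * ENNReal.ofReal p.1)
        = twt B β θ p * (ENNReal.ofReal (ovV y0 (y - (p.1 - p.2))) +
            ENNReal.ofReal g * ENNReal.ofReal p.1) := by ring
      _ ≤ twt B β θ p * (ENNReal.ofReal (ovV y0 y) + (ENNReal.ofReal g * ENNReal.ofReal p.2 +
        ENNReal.ofReal (8 / (y0 + y) ^ 2) * ENNReal.ofReal (p.1 ^ 3))) := by gcongr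
      _ = _ := by ring
  have hint := lintegral_mono_ae hpt
  have hA1 : Measurable fun p : ℝ × ℝ => ENNReal.ofReal g *
      (twt B β θ p * ENNReal.ofReal p.1) := by fun_prop
  have hA2 : Measurable fun p : ℝ × ℝ => twt B β θ p * ENNReal.ofReal p.1 := by fun_prop
  have hA3 : Measurable fun p : ℝ × ℝ => twt B β θ p * ENNReal.ofReal (p.1 ^ 3) := by fun_prop
  have hA4 : Measurable fun p : ℝ × ℝ => twt B β θ p * ENNReal.ofReal (ovV y0 y) := by fun_prop
  have hA5 : Measurable fun p : ℝ × ℝ => twt B β θ p * ENNReal.ofReal p.2 := by fun_prop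
  have hA6 : Measurable fun p : ℝ × ℝ => ENNReal.ofReal g *
      (twt B β θ p * ENNReal.ofReal p.2) := by fun_prop
  rw [lintegral_add_right _ hA1, lintegral_const_mul _ hA2, lintegral_add_left hA4,
    lintegral_add_left hA6, lintegral_const_mul _ hA5,
    lintegral_const_mul _ hA3, lintegral_mul_const _ hT, twt_int, ← hm1, ← hma, ← hm3] at hint
  have hle : ENNReal.ofReal g * ma + ENNReal.ofReal (8 / (y0 + y) ^ 2) * m3 ≤
      ENNReal.ofReal g * m1 := by
    have e1 : 8 / (y0 + y) ^ 2 = g * (8 / y0 ^ 2) := by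
      rw [hg]
      field_simp
    rw [e1, ENNReal.ofReal_mul hg0, mul_assoc, ← mul_add]
    exact mul_le_mul_right hm _
  refine ENNReal.le_of_add_le_add_right (ENNReal.mul_ne_top ENNReal.ofReal_ne_top hfin)
    (hint.trans ?_)
  gcongr

/-- **the supersolution** -/
theorem ovW_int (hp0 : ∀ᵐ p ∂(μ.prod ν), 0 ≤ p.1 ∧ 0 ≤ p.2) {B β θ K b y0 : ℝ} (hK : 0 ≤ K)
    (hβ : 0 ≤ β) (hb : 0 < b) (h0 : 0 < y0)
    (hfin : ∫⁻ p, twt B β θ p * ENNReal.ofReal p.1 ∂(μ.prod ν) ≠ ∞)
    (hm2 : ENNReal.ofReal (K / b + 1) * ∫⁻ p, twt B β θ p * ENNReal.ofReal (p.1 ^ 2) ∂(μ.prod ν) ≤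
      ENNReal.ofReal K * ∫⁻ p, twt B β θ p * ENNReal.ofReal p.1 ∂(μ.prod ν))
    (hm3 : ∫⁻ p, twt B β θ p * ENNReal.ofReal p.2 ∂(μ.prod ν) +
      ENNReal.ofReal (8 / y0 ^ 2) * ∫⁻ p, twt B β θ p * ENNReal.ofReal (p.1 ^ 3) ∂(μ.prod ν) ≤
      ∫⁻ p, twt B β θ p * ENNReal.ofReal p.1 ∂(μ.prod ν)) (y c : ℝ) (hy : 0 ≤ y) (hc : b ≤ c) :
    ∫⁻ p, lvlG B θ p * ENNReal.ofReal (Real.exp (-(β * (y - (p.1 - p.2))))) *
        (if p.1 ≤ c then ovW K β y0 (y - (p.1 - p.2)) (c + p.1) else 1) ∂(μ.prod ν) ≤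
      max 1 (trPhi μ ν B β θ) * (ENNReal.ofReal (Real.exp (-(β * y))) * ovW K β y0 y c) := by
  have hT := twt_meas B β θ
  have hm1' : Measurable fun p : ℝ × ℝ => twt B β θ p *
      (if p.1 ≤ c then ENNReal.ofReal (K / (c + p.1)) else 1) := by
    apply hT.mul
    apply Measurable.ite (measurableSet_le measurable_fst measurable_const) _ measurable_const
    exact (measurable_const.div (measurable_fst.const_add c)).ennreal_ofReal
  have hmV : Measurable fun p : ℝ × ℝ => ENNReal.ofReal (ovV y0 (y - (p.1 - p.2))) := by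
    have h1 : Measurable fun p : ℝ × ℝ => y - (p.1 - p.2) := by fun_prop
    exact ((ovV_meas y0).comp h1).ennreal_ofReal
  have hpt : ∀ p : ℝ × ℝ, lvlG B θ p * ENNReal.ofReal (Real.exp (-(β * (y - (p.1 - p.2))))) *
        (if p.1 ≤ c then ovW K β y0 (y - (p.1 - p.2)) (c + p.1) else 1) ≤
      ENNReal.ofReal (Real.exp (-(β * y))) * (twt B β θ p *
        (if p.1 ≤ c then ENNReal.ofReal (K / (c + p.1)) else 1) +
        ENNReal.ofReal β * (twt B β θ p * ENNReal.ofReal (ovV y0 (y - (p.1 - p.2))))) := by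
    intro p
    have e1 : ENNReal.ofReal (Real.exp (-(β * (y - (p.1 - p.2))))) =
        ENNReal.ofReal (Real.exp (-(β * y))) * ENNReal.ofReal (Real.exp (β * (p.1 - p.2))) := by
      rw [← ENNReal.ofReal_mul (Real.exp_pos _).le, ← Real.exp_add]
      congr 2
      ring
    have e2 : (if p.1 ≤ c then ovW K β y0 (y - (p.1 - p.2)) (c + p.1) else 1) ≤
        (if p.1 ≤ c then ENNReal.ofReal (K / (c + p.1)) else 1) +
          ENNReal.ofReal β * ENNReal.ofReal (ovV y0 (y - (p.1 - p.2))) := by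
      split_ifs with h1
      · unfold ovW
        rw [ENNReal.ofReal_mul hβ]
      · exact le_self_add
    rw [e1]
    unfold twt
    calc lvlG B θ p * (ENNReal.ofReal (Real.exp (-(β * y))) *
          ENNReal.ofReal (Real.exp (β * (p.1 - p.2)))) *
          (if p.1 ≤ c then ovW K β y0 (y - (p.1 - p.2)) (c + p.1) else 1)
        ≤ lvlG B θ p * (ENNReal.ofReal (Real.exp (-(β * y))) *
          ENNReal.ofReal (Real.exp (β * (p.1 - p.2)))) *
          ((if p.1 ≤ c then ENNReal.ofReal (K / (c + p.1)) else 1) +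
          ENNReal.ofReal β * ENNReal.ofReal (ovV y0 (y - (p.1 - p.2)))) := by gcongr
      _ = _ := by ring
  refine (lintegral_mono hpt).trans ?_
  have hmVT : Measurable fun p : ℝ × ℝ => twt B β θ p *
      ENNReal.ofReal (ovV y0 (y - (p.1 - p.2))) := hT.mul hmV
  have hsum : Measurable fun p : ℝ × ℝ => twt B β θ p *
        (if p.1 ≤ c then ENNReal.ofReal (K / (c + p.1)) else 1) +
        ENNReal.ofReal β * (twt B β θ p * ENNReal.ofReal (ovV y0 (y - (p.1 - p.2)))) :=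
    hm1'.add (hmVT.const_mul _)
  rw [lintegral_const_mul _ hsum, lintegral_add_left hm1', lintegral_const_mul _ hmVT]
  have k1 := ovK_int hp0 hK hb hc hfin hm2
  have k2 := ovV_int hp0 h0 hy hfin hm3
  calc ENNReal.ofReal (Real.exp (-(β * y))) *
        (∫⁻ p, twt B β θ p * (if p.1 ≤ c then ENNReal.ofReal (K / (c + p.1)) else 1) ∂(μ.prod ν) +
        ENNReal.ofReal β * ∫⁻ p, twt B β θ p *
          ENNReal.ofReal (ovV y0 (y - (p.1 - p.2))) ∂(μ.prod ν))
      ≤ ENNReal.ofReal (Real.exp (-(β * y))) * (trPhi μ ν B β θ * ENNReal.ofReal (K / c) +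
        ENNReal.ofReal β * (trPhi μ ν B β θ * ENNReal.ofReal (ovV y0 y))) := by gcongr
    _ = trPhi μ ν B β θ * (ENNReal.ofReal (Real.exp (-(β * y))) * ovW K β y0 y c) := by
        unfold ovW
        rw [ENNReal.ofReal_mul hβ]
        ring
    _ ≤ _ := by
        gcongr
        exact le_max_right _ _

private lemma sup_fac (hν : ν (Set.Iio 0) = 0) {B β θ : ℝ} {f g : ℝ → ℝ≥0∞} (hf : Measurable f)
    (hg : Measurable g) :
    ∫⁻ p, twt B β θ p * (f p.1 * g p.2) ∂(μ.prod ν) =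
      (∫⁻ s, (Set.Iic B).indicator (fun _ => (1 : ℝ≥0∞)) s * ENNReal.ofReal (Real.exp (β * s)) *
        f s ∂μ) * ∫⁻ t, ENNReal.ofReal (Real.exp (-((β + θ) * t))) * g t ∂ν := by
  have hI : Measurable fun s : ℝ => (Set.Iic B).indicator (fun _ => (1 : ℝ≥0∞)) s :=
    measurable_const.indicator measurableSet_Iic
  have hf' : Measurable fun s : ℝ => (Set.Iic B).indicator (fun _ => (1 : ℝ≥0∞)) s *
      ENNReal.ofReal (Real.exp (β * s)) * f s := (hI.mul (by fun_prop)).mul hf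
  have hg' : Measurable fun t : ℝ => ENNReal.ofReal (Real.exp (-((β + θ) * t))) * g t :=
    Measurable.mul (by fun_prop) hg
  rw [← lintegral_prod_mul hf'.aemeasurable hg'.aemeasurable]
  apply lintegral_congr
  intro p
  unfold twt lvlG
  have e1 : ENNReal.ofReal (Real.exp (-(θ * p.2))) *
      ENNReal.ofReal (Real.exp (β * (p.1 - p.2))) =
      ENNReal.ofReal (Real.exp (β * p.1)) * ENNReal.ofReal (Real.exp (-((β + θ) * p.2))) := by
    rw [← ENNReal.ofReal_mul (Real.exp_pos _).le, ← ENNReal.ofReal_mul (Real.exp_pos _).le,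
      ← Real.exp_add, ← Real.exp_add]
    congr 2
    ring
  calc (Set.Iic B).indicator (fun _ => (1 : ℝ≥0∞)) p.1 * ENNReal.ofReal (Real.exp (-(θ * p.2))) *
        ENNReal.ofReal (Real.exp (β * (p.1 - p.2))) * (f p.1 * g p.2)
      = (Set.Iic B).indicator (fun _ => (1 : ℝ≥0∞)) p.1 *
          (ENNReal.ofReal (Real.exp (-(θ * p.2))) *
            ENNReal.ofReal (Real.exp (β * (p.1 - p.2)))) * (f p.1 * g p.2) := by ring
    _ = _ := by
        rw [e1]
        ring

private lemma sup_pow (S : StdC μ ν h h') (k : ℕ) :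
    ∃ C : ℝ, 0 ≤ C ∧ ∀ B β θ : ℝ, 0 ≤ β + θ → Tilt h β B →
      ∫⁻ p, twt B β θ p * ENNReal.ofReal (p.1 ^ k) ∂(μ.prod ν) ≤ ENNReal.ofReal C := by
  have H := S.haz
  have L := S.law
  have hi : Integrable (fun s : ℝ => s ^ k * Real.exp (1 / 4 * h s)) μ :=
    law_integrable H L (by norm_num) k
  have hnn : 0 ≤ᵐ[μ] fun s : ℝ => s ^ k * Real.exp (1 / 4 * h s) := by
    filter_upwards [L.nn] with s hs
    change 0 ≤ s ^ k * Real.exp (1 / 4 * h s)
    positivity
  refine ⟨∫ s, s ^ k * Real.exp (1 / 4 * h s) ∂μ, integral_nonneg_of_ae hnn, ?_⟩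
  intro B β θ hβθ hT
  have e1 : ∀ p : ℝ × ℝ, twt B β θ p * ENNReal.ofReal (p.1 ^ k) =
      twt B β θ p * (ENNReal.ofReal (p.1 ^ k) * 1) := by
    intro p
    rw [mul_one]
  simp only [e1]
  rw [sup_fac S.hν (f := fun s => ENNReal.ofReal (s ^ k)) (g := fun _ => 1) (by fun_prop)
    measurable_const]
  have h1 : ∫⁻ t, ENNReal.ofReal (Real.exp (-((β + θ) * t))) * 1 ∂ν ≤ 1 := by
    simp only [mul_one]
    rw [lap_lintegral S.hν hβθ]
    exact ENNReal.ofReal_le_one.2 (lap_le_one S.hν hβθ)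
  have h2 : ∫⁻ s, (Set.Iic B).indicator (fun _ => (1 : ℝ≥0∞)) s *
      ENNReal.ofReal (Real.exp (β * s)) * ENNReal.ofReal (s ^ k) ∂μ ≤
      ENNReal.ofReal (∫ s, s ^ k * Real.exp (1 / 4 * h s) ∂μ) := by
    rw [ofReal_integral_eq_lintegral_ofReal hi hnn]
    apply lintegral_mono_ae
    filter_upwards [L.nn] with s hs
    by_cases hsx : s ∈ Set.Iic B
    · rw [Set.indicator_of_mem hsx, one_mul, ← ENNReal.ofReal_mul (Real.exp_pos _).le]
      apply ENNReal.ofReal_le_ofReal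
      have h3 : β * s ≤ 1 / 4 * h s := by
        have := hT s hs hsx
        linarith
      rw [mul_comm]
      have h4 : Real.exp (β * s) ≤ Real.exp (1 / 4 * h s) := Real.exp_le_exp.2 h3
      exact mul_le_mul_of_nonneg_left h4 (pow_nonneg hs k)
    · rw [Set.indicator_of_notMem hsx, zero_mul, zero_mul]
      exact zero_le
  calc _ ≤ ENNReal.ofReal (∫ s, s ^ k * Real.exp (1 / 4 * h s) ∂μ) * 1 := mul_le_mul' h2 h1
    _ = _ := mul_one _

/-- **the moments of the tilted small jobs** -/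
theorem sup_moments (S : StdC μ ν h h') :
    ∃ δ y0 K b0 : ℝ, 0 < δ ∧ 0 < y0 ∧ 0 < K ∧ 0 < b0 ∧ ∀ B β θ : ℝ, b0 ≤ B → 0 ≤ β → β ≤ δ →
      0 ≤ θ → θ ≤ δ → Tilt h β B →
      ∫⁻ p, twt B β θ p * ENNReal.ofReal p.1 ∂(μ.prod ν) ≠ ∞ ∧
      (∀ b : ℝ, K ≤ b → ENNReal.ofReal (K / b + 1) *
        ∫⁻ p, twt B β θ p * ENNReal.ofReal (p.1 ^ 2) ∂(μ.prod ν) ≤
        ENNReal.ofReal K * ∫⁻ p, twt B β θ p * ENNReal.ofReal p.1 ∂(μ.prod ν)) ∧
      ∫⁻ p, twt B β θ p * ENNReal.ofReal p.2 ∂(μ.prod ν) +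
        ENNReal.ofReal (8 / y0 ^ 2) * ∫⁻ p, twt B β θ p * ENNReal.ofReal (p.1 ^ 3) ∂(μ.prod ν) ≤
        ∫⁻ p, twt B β θ p * ENNReal.ofReal p.1 ∂(μ.prod ν) := by
  have H := S.haz
  have L := S.law
  have hν0 : ∀ᵐ t ∂ν, 0 ≤ t := ae_nonneg_of_Iio S.hν
  obtain ⟨C1, hC1, hm1⟩ := sup_pow S 1
  obtain ⟨C2, hC2, hm2⟩ := sup_pow S 2
  obtain ⟨C3, hC3, hm3⟩ := sup_pow S 3
  set E := ∫ s, s ∂μ with hE
  set m := ∫ t, t ∂ν with hm
  have hm0 : 0 < m := S.hm
  have hEm : m < E := S.hgt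
  have hE0 : 0 < E := by linarith
  have hd : 0 < E - m := by linarith
  -- constants for the law `μ`
  have hi1 : Integrable (fun s : ℝ => s) μ := by
    have := law_integrable_pow H L 1
    simpa using this
  have hi2 : Integrable (fun s : ℝ => s ^ 2) μ := law_integrable_pow H L 2
  have hie : Integrable (fun s : ℝ => s ^ 1 * Real.exp (1 / 4 * h s)) μ :=
    law_integrable H L (by norm_num) 1
  obtain ⟨M2, hM2⟩ : ∃ M2, M2 = ∫ s, s ^ 2 ∂μ := ⟨_, rfl⟩
  have hM20 : 0 ≤ M2 := by rw [hM2]; exact integral_nonneg fun s => sq_nonneg s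
  obtain ⟨Me, hMe⟩ : ∃ Me, Me = ∫ s, s ^ 1 * Real.exp (1 / 4 * h s) ∂μ := ⟨_, rfl⟩
  have hMe0 : 0 ≤ Me := by
    rw [hMe]
    apply integral_nonneg_of_ae
    filter_upwards [L.nn] with s hs
    change 0 ≤ s ^ 1 * Real.exp (1 / 4 * h s)
    positivity
  -- lower bound for the first moment
  have hlow : ∀ B β θ : ℝ, 0 < B → 0 ≤ β → 0 ≤ θ →
      ENNReal.ofReal (E - M2 / B - E * (m * (β + θ))) ≤
        ∫⁻ p, twt B β θ p * ENNReal.ofReal p.1 ∂(μ.prod ν) := by
    intro B β θ hB hβ hθ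
    have e1 : ∀ p : ℝ × ℝ, twt B β θ p * ENNReal.ofReal p.1 =
        twt B β θ p * (ENNReal.ofReal p.1 * 1) := by
      intro p
      rw [mul_one]
    simp only [e1]
    rw [sup_fac S.hν (f := fun s => ENNReal.ofReal s) (g := fun _ => 1) (by fun_prop)
      measurable_const]
    simp only [mul_one]
    rw [lap_lintegral S.hν (by linarith : 0 ≤ β + θ)]
    have h1 : ENNReal.ofReal (E - M2 / B) ≤ ∫⁻ s, (Set.Iic B).indicator (fun _ => (1 : ℝ≥0∞)) s *
        ENNReal.ofReal (Real.exp (β * s)) * ENNReal.ofReal s ∂μ := by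
      have h2 : ENNReal.ofReal E ≤ ∫⁻ s, (Set.Iic B).indicator (fun _ => (1 : ℝ≥0∞)) s *
        ENNReal.ofReal (Real.exp (β * s)) * ENNReal.ofReal s ∂μ + ENNReal.ofReal (M2 / B) := by
        have e2 : ENNReal.ofReal E = ∫⁻ s, ENNReal.ofReal s ∂μ := by
          rw [hE]
          exact ofReal_integral_eq_lintegral_ofReal hi1 L.nn
        have e3 : ENNReal.ofReal (M2 / B) = ∫⁻ s, ENNReal.ofReal (s ^ 2 / B) ∂μ := by
          rw [hM2, ← integral_div]
          exact ofReal_integral_eq_lintegral_ofReal (hi2.div_const B)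
            (Eventually.of_forall fun s => by positivity)
        have hm : Measurable fun s : ℝ => ENNReal.ofReal (s ^ 2 / B) := by fun_prop
        rw [e2, e3, ← lintegral_add_right _ hm]
        apply lintegral_mono_ae
        filter_upwards [L.nn] with s hs
        have hs' : 0 ≤ s := hs
        by_cases hsx : s ∈ Set.Iic B
        · rw [Set.indicator_of_mem hsx, one_mul]
          refine le_trans ?_ le_self_add
          have : (1 : ℝ≥0∞) ≤ ENNReal.ofReal (Real.exp (β * s)) := by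
            rw [ENNReal.one_le_ofReal]
            exact Real.one_le_exp (mul_nonneg hβ hs')
          calc ENNReal.ofReal s = 1 * ENNReal.ofReal s := (one_mul _).symm
            _ ≤ _ := mul_le_mul_left this _
        · rw [Set.indicator_of_notMem hsx, zero_mul, zero_mul, zero_add]
          apply ENNReal.ofReal_le_ofReal
          rw [le_div_iff₀ hB]
          have : B < s := not_le.1 hsx
          nlinarith
      rw [ENNReal.ofReal_sub _ (by positivity)]
      exact tsub_le_iff_right.2 h2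
    have h3 := lap_ge hν0 S.hνi (q := β + θ) (by linarith)
    rw [← hm] at h3
    have h4 : ENNReal.ofReal (1 - m * (β + θ)) ≤ ENNReal.ofReal (lap ν (β + θ)) :=
      ENNReal.ofReal_le_ofReal h3
    rcases le_or_gt (E - M2 / B) 0 with h5 | h5
    · have : E - M2 / B - E * (m * (β + θ)) ≤ 0 := by
        have : 0 ≤ E * (m * (β + θ)) := by positivity
        linarith
      rw [ENNReal.ofReal_of_nonpos this]
      exact zero_le
    · calc ENNReal.ofReal (E - M2 / B - E * (m * (β + θ)))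
          ≤ ENNReal.ofReal ((E - M2 / B) * (1 - m * (β + θ))) := by
            apply ENNReal.ofReal_le_ofReal
            have h6 : (E - M2 / B) * (m * (β + θ)) ≤ E * (m * (β + θ)) := by
              have : 0 ≤ M2 / B := by positivity
              gcongr
              linarith
            linarith
        _ = ENNReal.ofReal (E - M2 / B) * ENNReal.ofReal (1 - m * (β + θ)) :=
            ENNReal.ofReal_mul h5.le
        _ ≤ _ := mul_le_mul' h1 h4
  -- upper bound for the mean interarrival time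
  have hma : ∀ B β θ : ℝ, 0 ≤ β → 0 ≤ θ → Tilt h β B →
      ∫⁻ p, twt B β θ p * ENNReal.ofReal p.2 ∂(μ.prod ν) ≤ ENNReal.ofReal ((1 + β * Me) * m) := by
    intro B β θ hβ hθ hT
    have e1 : ∀ p : ℝ × ℝ, twt B β θ p * ENNReal.ofReal p.2 =
        twt B β θ p * (1 * ENNReal.ofReal p.2) := by
      intro p
      rw [one_mul]
    simp only [e1]
    rw [sup_fac S.hν (f := fun _ => 1) (g := fun t => ENNReal.ofReal t) measurable_const
      (by fun_prop)]
    simp only [mul_one]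
    have h1 : ∫⁻ s, (Set.Iic B).indicator (fun _ => (1 : ℝ≥0∞)) s *
        ENNReal.ofReal (Real.exp (β * s)) ∂μ ≤ ENNReal.ofReal (1 + β * Me) := by
      have e2 : ENNReal.ofReal (1 + β * Me) =
          ∫⁻ s, ENNReal.ofReal (1 + β * (s ^ 1 * Real.exp (1 / 4 * h s))) ∂μ := by
        have h2 := ofReal_integral_eq_lintegral_ofReal (f := fun s : ℝ =>
          1 + β * (s ^ 1 * Real.exp (1 / 4 * h s))) (μ := μ)
          ((integrable_const _).add (hie.const_mul _)) (by
            filter_upwards [L.nn] with s hs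
            change 0 ≤ 1 + β * (s ^ 1 * Real.exp (1 / 4 * h s))
            positivity)
        rw [← h2]
        congr 1
        rw [integral_add (integrable_const _) (hie.const_mul _), integral_const_mul, ← hMe]
        simp
      rw [e2]
      apply lintegral_mono_ae
      filter_upwards [L.nn] with s hs
      have hs' : 0 ≤ s := hs
      by_cases hsx : s ∈ Set.Iic B
      · rw [Set.indicator_of_mem hsx, one_mul]
        apply ENNReal.ofReal_le_ofReal
        have h3 : β * s ≤ 1 / 4 * h s := by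
          have := hT s hs hsx
          linarith
        have h4 : Real.exp (β * s) ≤ 1 + β * s * Real.exp (β * s) := by
          have h5 := Real.add_one_le_exp (-(β * s))
          have h6 : Real.exp (β * s) * Real.exp (-(β * s)) = 1 := by
            rw [← Real.exp_add]
            simp
          nlinarith [mul_le_mul_of_nonneg_left h5 (Real.exp_pos (β * s)).le]
        have h5 : Real.exp (β * s) ≤ Real.exp (1 / 4 * h s) := Real.exp_le_exp.2 h3
        calc Real.exp (β * s) ≤ 1 + β * s * Real.exp (β * s) := h4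
          _ ≤ 1 + β * s * Real.exp (1 / 4 * h s) := by gcongr
          _ = _ := by ring
      · rw [Set.indicator_of_notMem hsx, zero_mul]
        exact zero_le
    have h2 : ∫⁻ t, ENNReal.ofReal (Real.exp (-((β + θ) * t))) * ENNReal.ofReal t ∂ν ≤
        ENNReal.ofReal m := by
      rw [hm, ofReal_integral_eq_lintegral_ofReal S.hνi hν0]
      apply lintegral_mono_ae
      filter_upwards [hν0] with t ht
      have : ENNReal.ofReal (Real.exp (-((β + θ) * t))) ≤ 1 := by
        rw [ENNReal.ofReal_le_one, Real.exp_le_one_iff]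
        have : 0 ≤ (β + θ) * t := by positivity
        linarith
      calc _ ≤ 1 * ENNReal.ofReal t := mul_le_mul_left this _
        _ = _ := one_mul _
    rw [ENNReal.ofReal_mul (by positivity)]
    exact mul_le_mul' h1 h2
  -- choice of the constants
  obtain ⟨δ, hδ0, hδ1, hδ2⟩ : ∃ δ : ℝ, 0 < δ ∧ 2 * (E * m) * δ ≤ (E - m) / 4 ∧
      m * Me * δ ≤ (E - m) / 4 := by
    refine ⟨min ((E - m) / (8 * (E * m))) ((E - m) / (4 * (m * Me + 1))), by positivity, ?_, ?_⟩
    · calc 2 * (E * m) * min ((E - m) / (8 * (E * m))) ((E - m) / (4 * (m * Me + 1)))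
          ≤ 2 * (E * m) * ((E - m) / (8 * (E * m))) := by
            gcongr
            exact min_le_left _ _
        _ = (E - m) / 4 := by field_simp; ring
    · calc m * Me * min ((E - m) / (8 * (E * m))) ((E - m) / (4 * (m * Me + 1)))
          ≤ (m * Me + 1) * ((E - m) / (4 * (m * Me + 1))) := by
            have : 0 ≤ m * Me := by positivity
            apply mul_le_mul (by linarith) (min_le_right _ _) (by positivity) (by positivity)
        _ = (E - m) / 4 := by field_simp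
  obtain ⟨y0, hy0, hy01⟩ : ∃ y0 : ℝ, 0 < y0 ∧ 8 / y0 ^ 2 * C3 ≤ (E - m) / 4 := by
    refine ⟨32 * C3 / (E - m) + 1, by positivity, ?_⟩
    have h1 : 1 ≤ 32 * C3 / (E - m) + 1 := by
      have : 0 ≤ 32 * C3 / (E - m) := by positivity
      linarith
    obtain ⟨Y, hY⟩ : ∃ Y, Y = 32 * C3 / (E - m) + 1 := ⟨_, rfl⟩
    rw [← hY] at h1 ⊢
    have h2 : Y ≤ Y ^ 2 := by nlinarith
    have h3 : 32 * C3 ≤ (E - m) * Y ^ 2 := by
      have h4 : 32 * C3 ≤ (E - m) * Y := by
        rw [hY, mul_add]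
        have : (E - m) * (32 * C3 / (E - m)) = 32 * C3 := by field_simp
        linarith
      nlinarith
    rw [div_mul_eq_mul_div, div_le_iff₀ (by positivity)]
    linarith
  refine ⟨δ, y0, 4 * C2 / E + 1, 4 * M2 / (E - m) + 1, hδ0, hy0, by positivity, by positivity, ?_⟩
  intro B β θ hB hβ0 hβδ hθ0 hθδ hT
  have hB0 : 0 < B := by
    have : 0 ≤ 4 * M2 / (E - m) := by positivity
    linarith
  have hl := hlow B β θ hB0 hβ0 hθ0
  have hbase : E - (E - m) / 2 ≤ E - M2 / B - E * (m * (β + θ)) := by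
    have h1 : M2 / B ≤ (E - m) / 4 := by
      rw [div_le_iff₀ hB0]
      have h2 : (E - m) / 4 * (4 * M2 / (E - m) + 1) ≤ (E - m) / 4 * B := by gcongr
      have h3 : (E - m) / 4 * (4 * M2 / (E - m) + 1) = M2 + (E - m) / 4 := by field_simp
      linarith
    have h2 : E * (m * (β + θ)) ≤ (E - m) / 4 := by
      calc E * (m * (β + θ)) ≤ E * (m * (δ + δ)) := by gcongr
        _ = 2 * (E * m) * δ := by ring
        _ ≤ _ := hδ1
    linarith
  have hl' : ENNReal.ofReal (E - (E - m) / 2) ≤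
      ∫⁻ p, twt B β θ p * ENNReal.ofReal p.1 ∂(μ.prod ν) :=
    (ENNReal.ofReal_le_ofReal hbase).trans hl
  have hβθ : 0 ≤ β + θ := by linarith
  have u1 := hm1 B β θ hβθ hT
  simp only [pow_one] at u1
  refine ⟨ne_top_of_le_ne_top ENNReal.ofReal_ne_top u1, ?_, ?_⟩
  · intro b hb
    have hK0 : 0 < 4 * C2 / E + 1 := by positivity
    have hb0 : 0 < b := hK0.trans_le hb
    calc ENNReal.ofReal ((4 * C2 / E + 1) / b + 1) *
          ∫⁻ p, twt B β θ p * ENNReal.ofReal (p.1 ^ 2) ∂(μ.prod ν)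
        ≤ ENNReal.ofReal 2 * ENNReal.ofReal C2 := by
          apply mul_le_mul' _ (hm2 B β θ hβθ hT)
          apply ENNReal.ofReal_le_ofReal
          have : (4 * C2 / E + 1) / b ≤ 1 := by rwa [div_le_one hb0]
          linarith
      _ = ENNReal.ofReal (2 * C2) := (ENNReal.ofReal_mul (by norm_num)).symm
      _ ≤ ENNReal.ofReal ((4 * C2 / E + 1) * (E - (E - m) / 2)) := by
          apply ENNReal.ofReal_le_ofReal
          have h1 : (4 * C2 / E + 1) * (E / 2) ≤ (4 * C2 / E + 1) * (E - (E - m) / 2) := by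
            gcongr
            linarith
          have h2 : (4 * C2 / E + 1) * (E / 2) = 2 * C2 + E / 2 := by
            field_simp
            ring
          linarith
      _ = ENNReal.ofReal (4 * C2 / E + 1) * ENNReal.ofReal (E - (E - m) / 2) :=
          ENNReal.ofReal_mul hK0.le
      _ ≤ _ := mul_le_mul_right hl' _
  · refine le_trans ?_ hl'
    calc ∫⁻ p, twt B β θ p * ENNReal.ofReal p.2 ∂(μ.prod ν) + ENNReal.ofReal (8 / y0 ^ 2) *
          ∫⁻ p, twt B β θ p * ENNReal.ofReal (p.1 ^ 3) ∂(μ.prod ν)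
        ≤ ENNReal.ofReal ((1 + β * Me) * m) + ENNReal.ofReal (8 / y0 ^ 2) * ENNReal.ofReal C3 :=
          add_le_add (hma B β θ hβ0 hθ0 hT) (mul_le_mul_right (hm3 B β θ hβθ hT) _)
      _ = ENNReal.ofReal ((1 + β * Me) * m + 8 / y0 ^ 2 * C3) := by
          rw [← ENNReal.ofReal_mul (by positivity), ← ENNReal.ofReal_add (by positivity)
            (by positivity)]
      _ ≤ _ := by
          apply ENNReal.ofReal_le_ofReal
          have h1 : m * Me * β ≤ m * Me * δ := by gcongr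
          have h2 : (1 + β * Me) * m = m + m * Me * β := by ring
          linarith

end Pool.Agent.Lib.MP_04add8_pr.U
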