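import Mathlib
import Pool.Agent.Lib.MP_04add8_pr.Cv.QU
import Pool.Agent.Lib.MP_04add8_pr.Cv.QL
import Pool.Agent.Lib.MP_04add8_pr.Cv.LowEv
import Pool.Agent.Lib.MP_04add8_pr.U.Comp
import Pool.Agent.Lib.MP_04add8_pr.U.OmTilt
import Pool.Agent.Lib.MP_04add8_pr.U.CoreG
import Pool.Agent.Lib.MP_04add8_pr.U.SupG
import Pool.Agent.Lib.MP_04add8_pr.U.SLvlM

open MeasureTheory ProbabilityTheory Filter Topology
open scoped ENNReal

set_option linter.unusedSectionVars false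

namespace Pool.Agent.Lib.MP_04add8_pr.U

open Pool.Agent.Lib.MP_04add8_pr.Gen Pool.Agent.Lib.MP_04add8_pr.Cv

variable {h h' : ℝ → ℝ} {μ ν : Measure ℝ} [IsProbabilityMeasure μ]
  [IsProbabilityMeasure ν]

/-- a smaller slope makes the tilted walk strictly submarkovian -/
lemma trPhi_sub (S : StdC μ ν h h') : ∃ σ θ0 : ℝ, 0 < σ ∧ 0 < θ0 ∧ ∀ B β θ : ℝ, 0 < θ →
    θ ≤ θ0 → |β - (eta μ ν - 1) * θ| ≤ σ * θ → Tilt h β B →
    trPhi μ ν B (β - θ) θ ≤
      ENNReal.ofReal (1 - ((∫ s, s ∂μ) - ∫ t, t ∂ν) / 4 * θ) := by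
  have H := S.haz
  have hν0 : ∀ᵐ t ∂ν, 0 ≤ t := ae_nonneg_of_Iio S.hν
  obtain ⟨C, hC, hφ⟩ := gphi_upper S 1
  have hη2 := two_lt_eta S
  set E := ∫ s, s ∂μ with hE
  set m := ∫ t, t ∂ν with hm
  have hm0 : 0 < m := S.hm
  have hd : 0 < E - m := by have := S.hgt; linarith
  obtain ⟨η, hη⟩ : ∃ η, η = eta μ ν := ⟨_, rfl⟩
  have hηE : (E - m) * (η - 1) = m := by
    rw [hη]
    unfold eta
    rw [← hE, ← hm]
    field_simp
    ring
  rw [← hη] at hη2 ⊢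
  have hE0 : 0 < E := by linarith
  -- constants
  obtain ⟨τ, hτ, hτ1, hτ2⟩ : ∃ τ : ℝ, 0 < τ ∧ τ * (2 * η) ≤ (E - m) / 4 ∧ τ ≤ m := by
    refine ⟨min ((E - m) / (8 * η)) m, by positivity, ?_, min_le_right _ _⟩
    have : min ((E - m) / (8 * η)) m ≤ (E - m) / (8 * η) := min_le_left _ _
    calc min ((E - m) / (8 * η)) m * (2 * η) ≤ (E - m) / (8 * η) * (2 * η) := by gcongr
      _ = (E - m) / 4 := by field_simp; ring
  have hlap : ∀ᶠ q in 𝓝[>] (0 : ℝ), lap ν q ≤ 1 - (m - τ) * q := by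
    filter_upwards [(BetaAux.tendsto_lap hν0 S.hνi).eventually
      (lt_mem_nhds (show m - τ < ∫ t, t ∂ν by rw [← hm]; linarith)),
      self_mem_nhdsWithin] with q h1 hq
    have hq : 0 < q := hq
    rw [lt_div_iff₀ hq] at h1
    linarith
  obtain ⟨q0, hq0, hq⟩ := (mem_nhdsGT_iff_exists_Ioo_subset).1 hlap
  have hq0 : 0 < q0 := hq0
  obtain ⟨θ0, hθ0, hθ1, hθ2⟩ : ∃ θ0 : ℝ, 0 < θ0 ∧ 2 * η * θ0 < q0 ∧
      C * (2 * η) ^ 2 * θ0 ≤ (E - m) / 8 := by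
    refine ⟨min (q0 / (4 * η)) ((E - m) / (8 * (C * (2 * η) ^ 2 + 1))), by positivity, ?_, ?_⟩
    · calc 2 * η * min (q0 / (4 * η)) ((E - m) / (8 * (C * (2 * η) ^ 2 + 1)))
          ≤ 2 * η * (q0 / (4 * η)) := by
            gcongr
            exact min_le_left _ _
        _ = q0 / 2 := by field_simp; ring
        _ < q0 := by linarith
    · calc C * (2 * η) ^ 2 * min (q0 / (4 * η)) ((E - m) / (8 * (C * (2 * η) ^ 2 + 1)))
          ≤ (C * (2 * η) ^ 2 + 1) * ((E - m) / (8 * (C * (2 * η) ^ 2 + 1))) := by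
            apply mul_le_mul (by linarith) (min_le_right _ _) (by positivity) (by positivity)
        _ = (E - m) / 8 := by field_simp
  refine ⟨min (1 / 4) (η - 2), θ0, lt_min (by norm_num) (by linarith), hθ0, ?_⟩
  intro B β θ hθ hθθ0 hβ hT
  have hβ' := abs_le.1 hβ
  have hσ1 : min (1 / 4) (η - 2) * θ ≤ 1 / 4 * θ :=
    mul_le_mul_of_nonneg_right (min_le_left _ _) hθ.le
  have hσ2 : min (1 / 4) (η - 2) * θ ≤ (η - 2) * θ :=
    mul_le_mul_of_nonneg_right (min_le_right _ _) hθ.le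
  have hβθ : θ ≤ β := by
    have : (η - 1) * θ = (η - 2) * θ + θ := by ring
    linarith
  have hβu : β ≤ (η - 3 / 4) * θ := by
    have : (η - 3 / 4) * θ = (η - 1) * θ + 1 / 4 * θ := by ring
    linarith
  have hβu2 : β ≤ 2 * η * θ := by nlinarith
  have hβ1 : 0 ≤ β - θ := by linarith
  have hTl : Tilt h (β - θ) B := by
    intro s hs hsB
    exact (mul_le_mul_of_nonneg_right (by linarith) hs).trans (hT s hs hsB)
  refine (hφ B (β - θ) θ hβ1 hθ.le hTl).trans (ENNReal.ofReal_le_ofReal ?_)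
  have e1 : momPoly μ 1 (β - θ) = 1 + E * (β - θ) := by
    unfold momPoly
    rw [Finset.sum_range_succ, Finset.sum_range_succ, Finset.sum_range_zero]
    simp [hE]
  have e2 : β - θ + θ = β := by ring
  rw [e1, e2]
  have hβ0 : 0 < β := by linarith
  have hβq : β < q0 := by
    have : 2 * η * θ ≤ 2 * η * θ0 := by gcongr
    linarith
  have h1 : lap ν β ≤ 1 - (m - τ) * β := hq (⟨hβ0, hβq⟩ : β ∈ Set.Ioo 0 q0)
  have h2 : 0 ≤ 1 + E * (β - θ) := by positivity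
  have h3 : (1 + E * (β - θ)) * lap ν β ≤ 1 + E * (β - θ) - (m - τ) * β := by
    have h4 := mul_le_mul_of_nonneg_left h1 h2
    have h5 : 0 ≤ E * (β - θ) * ((m - τ) * β) := by
      have : 0 ≤ m - τ := by linarith
      positivity
    nlinarith
  have h4 : C * (β - θ) ^ (1 + 1) ≤ (E - m) / 8 * θ := by
    have h5 : (β - θ) ^ 2 ≤ (2 * η * θ) ^ 2 := pow_le_pow_left₀ hβ1 (by linarith) 2
    calc C * (β - θ) ^ (1 + 1) ≤ C * (2 * η * θ) ^ 2 := by gcongr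
      _ = C * (2 * η) ^ 2 * θ * θ := by ring
      _ ≤ C * (2 * η) ^ 2 * θ0 * θ := by gcongr
      _ ≤ _ := by gcongr
  have h5 : (E - m) * β ≤ m * θ + (E - m) / 4 * θ := by
    have h6 : (E - m) * β ≤ (E - m) * ((η - 1) * θ + 1 / 4 * θ) := by
      apply mul_le_mul_of_nonneg_left _ hd.le
      linarith
    have h7 : (E - m) * ((η - 1) * θ + 1 / 4 * θ) = ((E - m) * (η - 1)) * θ +
      (E - m) / 4 * θ := by ring
    rw [h7, hηE] at h6
    exact h6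
  have h6 : τ * β ≤ (E - m) / 4 * θ := by
    calc τ * β ≤ τ * (2 * η * θ) := by gcongr
      _ = τ * (2 * η) * θ := by ring
      _ ≤ _ := by gcongr
  have h7 : 0 < (E - m) * θ := by positivity
  nlinarith

private lemma LowOneU_small {Z : ℝ} (H : HazC h h') {η : ℝ} (hη : 0 < η) (hZ : 0 < Z) (M : ℝ) :
    ∀ᶠ x : ℝ in atTop, M ≤ x * h' (η * x) ∧ 2 * h' (η * x) < Z := glow_xh H hη M hZ

/-- **Lower bound**, one big job, as a sum, canonical slope. -/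
theorem glower_one_sumU (S : StdC μ ν h h') {B : ℝ → ℝ} (T : SLvl h B)
    (hB : ∀ K : ℝ, ∀ᶠ x : ℝ in atTop, K * Real.log x ≤ h (B x))
    (hBq : ∀ᶠ x : ℝ in atTop, 1 / h' (eta μ ν * x) ≤ B x) {ω : ℝ} (hω : 0 < ω) :
    ∀ᶠ x : ℝ in atTop, ∃ (b θ τ : ℝ) (M : ℕ), 0 ≤ b ∧ 0 < θ ∧ 0 ≤ τ ∧ B x ≤ x / 2 ∧
      ENNReal.ofReal ((1 - ω) * fS h h' μ ν (betaStar μ ν) x) ≤ ∑ n ∈ Finset.range M,
        ν (Set.Iic τ) * ENNReal.ofReal (Real.exp (-(hG h θ + θ * (b + τ)))) *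
          midG μ ν x (B x) b θ n := by
  have H := S.haz
  have hz0 := law_noise_nonneg (μ := μ) (ν := ν) S.law S.hν
  have hp0 : ∀ᵐ p ∂(μ.prod ν), 0 ≤ p.1 ∧ 0 ≤ p.2 := law_prod_nonneg S.law S.hν
  have P := slp_root S T hB
  obtain ⟨β, hβdef⟩ : ∃ β : ℝ → ℝ → ℝ, β = fun x θ => rootM ν (mgB μ (B x)) θ := ⟨_, rfl⟩
  rw [← hβdef] at P
  have hγ : ∀ θ, 0 ≤ betaStar μ ν θ := fun θ => rootM_nonneg _ _
  have hcmp : ∀ M ω : ℝ, 0 < ω → ∀ᶠ x : ℝ in atTop, ∀ θ : ℝ, 0 < θ → θ ≤ M * (h x / x) →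
      |β x θ - betaStar μ ν θ| ≤ ω / x := by
    rw [hβdef]
    exact fun M ω hω => beta_cmp S T hB M hω
  have hfS := fun (e : ℝ) (he : 0 < e) => fS_cmp S P hγ hcmp he
  -- numerical constants
  set E := ∫ s, s ∂μ with hE
  set m := ∫ t, t ∂ν with hmdef
  have hEm : m < E := S.hgt
  have hE2m : E < 2 * m := S.hlt
  have hd0 : 0 < E - m := by linarith
  have hη2 : 2 < eta μ ν := two_lt_eta S
  obtain ⟨ω1, hω1, hω1a, hω1b⟩ : ∃ ω1 : ℝ, 0 < ω1 ∧ ω1 ≤ 1 / 4 ∧ ω1 ≤ ω / 3 :=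
    ⟨min (1 / 4) (ω / 3), by positivity, min_le_left _ _, min_le_right _ _⟩
  obtain ⟨t, ht, ht16, ht12⟩ : ∃ t : ℝ, 0 < t ∧ t ≤ 1 / 16 ∧ 12 * t ≤ ω1 :=
    ⟨min (1 / 16) (ω1 / 12), by positivity, min_le_left _ _, by
      have : min (1 / 16) (ω1 / 12) ≤ ω1 / 12 := min_le_right _ _
      linarith⟩
  obtain ⟨τ, hτ, hντ⟩ := exists_tau (ν := ν) ht
  obtain ⟨A, θq, hA, hθq, hQL⟩ := gqsum_lower S (δ := t) (ω := t) ht ht
  obtain ⟨θq', hθq', hQU⟩ := gqsum_upper S (ω := 1) one_pos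
  obtain ⟨σ, θs, hσ, hθs, hsub⟩ := trPhi_sub S
  obtain ⟨δ, y0, K, b0, hδ, hy0, hK, hb0, hmom⟩ := sup_moments S
  set η := eta μ ν with hη
  have hη0 : 0 < η := by linarith
  have hD : 0 < 2 * m - E := by linarith
  set c1 : ℝ := 8 / (E - m) + 3 with hc1
  have hc10 : 0 < c1 := by positivity
  obtain ⟨κ, hκ, hκ1, hκ2⟩ : ∃ κ : ℝ, 0 < κ ∧ c1 * κ ≤ t ∧ c1 * κ ≤ Real.log (1 + t) := by
    have hl : 0 < Real.log (1 + t) := Real.log_pos (by linarith)
    refine ⟨min (t / c1) (Real.log (1 + t) / c1), by positivity, ?_, ?_⟩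
    · calc c1 * min (t / c1) (Real.log (1 + t) / c1) ≤ c1 * (t / c1) := by
            gcongr
            exact min_le_left _ _
        _ = t := by field_simp
    · calc c1 * min (t / c1) (Real.log (1 + t) / c1) ≤ c1 * (Real.log (1 + t) / c1) := by
            gcongr
            exact min_le_right _ _
        _ = _ := by field_simp
  obtain ⟨ω', hω', hω'1, hω'2⟩ : ∃ ω' : ℝ, 0 < ω' ∧ ω' ≤ 1 / 2 ∧ ω' ≤ ω1 :=
    ⟨min (1 / 2) ω1, by positivity, min_le_left _ _, min_le_right _ _⟩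
  -- upper bounds for `θ`
  obtain ⟨Z, hZ0, hZ1, hZ2, hZ3, hZ4, hZ5, hZ6, hZ7, hZ8⟩ : ∃ Z : ℝ, 0 < Z ∧ Z ≤ θq ∧
      Z ≤ θq' ∧ Z ≤ θs ∧ Z ≤ δ / (2 * η) ∧ Z ≤ t / (τ + 1) ∧ Z ≤ t ^ 2 / (2 * K) ∧
      Z ≤ t / (12 * η * y0) ∧ Z ≤ 4 / (E - m) := by
    refine ⟨min (min (min θq θq') (min θs (δ / (2 * η)))) (min (min (t / (τ + 1))
      (t ^ 2 / (2 * K))) (min (t / (12 * η * y0)) (4 / (E - m)))), by positivity,
      ?_, ?_, ?_, ?_, ?_, ?_, ?_, ?_⟩
    · exact (min_le_left _ _).trans ((min_le_left _ _).trans (min_le_left _ _))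
    · exact (min_le_left _ _).trans ((min_le_left _ _).trans (min_le_right _ _))
    · exact (min_le_left _ _).trans ((min_le_right _ _).trans (min_le_left _ _))
    · exact (min_le_left _ _).trans ((min_le_right _ _).trans (min_le_right _ _))
    · exact (min_le_right _ _).trans ((min_le_left _ _).trans (min_le_left _ _))
    · exact (min_le_right _ _).trans ((min_le_left _ _).trans (min_le_right _ _))
    · exact (min_le_right _ _).trans ((min_le_right _ _).trans (min_le_left _ _))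
    · exact (min_le_right _ _).trans ((min_le_right _ _).trans (min_le_right _ _))
  obtain ⟨M1, hM1a, hM1b, hM1c, hM1d⟩ : ∃ M1 : ℝ, 2 * A ≤ M1 ∧ 2 * |Real.log (t / 2)| ≤ M1 ∧
      8 * |Real.log (t / 4)| / (η - 2) ≤ M1 ∧ 0 ≤ M1 := by
    refine ⟨max (2 * A) (max (2 * |Real.log (t / 2)|) (8 * |Real.log (t / 4)| / (η - 2))),
      le_max_left _ _, (le_max_left _ _).trans (le_max_right _ _),
      (le_max_right _ _).trans (le_max_right _ _), ?_⟩
    exact le_trans (by positivity) (le_max_left _ _)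
  obtain ⟨σ', hσ', hσ'1, hσ'2⟩ : ∃ σ' : ℝ, 0 < σ' ∧ σ' ≤ σ ∧ σ' ≤ (η - 2) / 2 := by
    have : 0 < (η - 2) / 2 := by linarith
    exact ⟨min σ ((η - 2) / 2), lt_min hσ this, min_le_left _ _, min_le_right _ _⟩
  filter_upwards [gopt S P hω', LowOneU_small H hη0 hZ0 M1, P.lim 2 σ' hσ', P.phi 2 κ hκ,
    P.phil 2 κ hκ, T.tilt (4 * η), hBq, T.top.eventually_ge_atTop b0, T.le H (e := 1 / 2)
    (by norm_num), hfS ω1 hω1, eventually_ge_atTop 1] with x e1 e2 e3 e4 e5 e6 e7 e8 e9 e10 hx1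
  obtain ⟨θ, X, hθ, hX, hXθ, g1, g2, g3, -, -⟩ := e1
  obtain ⟨ev2, ev1⟩ := e2
  rw [← hη] at g1 e3
  have hx0 : 0 < x := by linarith
  obtain ⟨q, hq⟩ : ∃ q, q = h' (η * x) := ⟨_, rfl⟩
  have hq0 : 0 < q := by rw [hq]; exact H.pos _ (by positivity)
  rw [← hq] at g1 ev1 ev2 e7
  have hxq : q ≤ h x / x := by
    rw [hq, le_div_iff₀ hx0]
    have h1 := H.anti x (η * x) hx0 (le_mul_of_one_le_left hx0.le (by linarith only [hη2]))
    have h2 := H.mul_deriv_le hx0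
    calc h' (η * x) * x ≤ h' x * x := mul_le_mul_of_nonneg_right h1 hx0.le
      _ = x * h' x := mul_comm _ _
      _ ≤ h x := h2
  have hg1 := abs_le.1 g1
  have hω'q : ω' * q ≤ 1 / 2 * q := mul_le_mul_of_nonneg_right hω'1 hq0.le
  have hθl : q / 2 ≤ θ := by linarith
  have hθu : θ ≤ 2 * q := by linarith
  have hθM : θ ≤ 2 * (h x / x) := by linarith
  have hθZ : θ < Z := lt_of_le_of_lt hθu ev1
  have hb := abs_le.1 (e3 θ hθ hθM)
  have hφu := e4 θ hθ hθM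
  have hφl := e5 θ hθ hθM
  obtain ⟨bt, hbt⟩ : ∃ bt, bt = β x θ := ⟨_, rfl⟩
  rw [← hbt] at hb hφu hφl g3
  have hbu : bt ≤ 2 * η * θ := by
    have h1 : σ' * θ ≤ (η - 2) / 2 * θ := mul_le_mul_of_nonneg_right hσ'2 hθ.le
    linarith only [h1, hb.2, mul_pos hη0 hθ, hθ]
  have hbl : (1 + (η - 2) / 2) * θ ≤ bt := by
    have h1 : σ' * θ ≤ (η - 2) / 2 * θ := mul_le_mul_of_nonneg_right hσ'2 hθ.le
    linarith only [h1, hb.1]
  have hθb : θ ≤ bt := by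
    have : 0 ≤ (η - 2) / 2 * θ := by
      have : 0 < η - 2 := by linarith
      positivity
    linarith
  have hb0' : 0 ≤ bt := hθ.le.trans hθb
  have hqx0 : 0 ≤ h x / x := div_nonneg (H.nonneg x) hx0.le
  have hTilt : ∀ c : ℝ, c ≤ 4 * η * (h x / x) → Tilt h c (B x) := by
    intro c hc s hs hsB
    exact (mul_le_mul_of_nonneg_right hc hs).trans (e6 s hs hsB)
  have hTb : Tilt h bt (B x) := by
    apply hTilt
    calc bt ≤ 2 * η * θ := hbu
      _ ≤ 2 * η * (2 * (h x / x)) := by gcongr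
      _ = _ := by ring
  have hTθ : Tilt h θ (B x) := by
    apply hTilt
    have : 2 * (h x / x) ≤ 4 * η * (h x / x) := by gcongr; linarith
    linarith
  -- the counts
  have h8x : 0 < 8 * x / (E - m) := by positivity
  have hNl : 8 * x / (E - m) ≤ ⌈8 * x / (E - m)⌉₊ := Nat.le_ceil _
  have hNu : (⌈8 * x / (E - m)⌉₊ : ℝ) ≤ 8 * x / (E - m) + 1 := (Nat.ceil_lt_add_one h8x.le).le
  have hJl : A / θ ≤ ⌈A / θ⌉₊ := Nat.le_ceil _
  have hJu : (⌈A / θ⌉₊ : ℝ) ≤ A / θ + 1 := (Nat.ceil_lt_add_one (by positivity)).le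
  have hNpos : 0 < ⌈8 * x / (E - m)⌉₊ := Nat.ceil_pos.mpr h8x
  have hN1 : (1 : ℝ) ≤ ⌈8 * x / (E - m)⌉₊ := by exact_mod_cast hNpos
  generalize ⌈8 * x / (E - m)⌉₊ = N at hNl hNu hNpos hN1
  generalize ⌈A / θ⌉₊ = J at hJl hJu
  have hAθ : A / θ ≤ x := by
    rw [div_le_iff₀ hθ]
    have h1 : x * (q / 2) ≤ x * θ := mul_le_mul_of_nonneg_left hθl hx0.le
    linarith
  obtain ⟨hNJ, hNle⟩ := NJ_fact hx1 hNu hJu hAθ
  have hc1x : 0 ≤ c1 * x := by positivity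
  have hκx : 0 ≤ κ / x := by positivity
  have hpow : ∀ M : ℕ, (M : ℝ) ≤ c1 * x → (max 1 (trPhi μ ν (B x) bt θ)) ^ M ≤
      ENNReal.ofReal (1 + t) := by
    intro M hM
    refine low_hpow (C1 := κ / x) (β := 1) (cβ := 1) (c1 := c1) (K := 0) hκx zero_le_one ?_ hM
      le_rfl hc1x ?_
    · simpa using hφu
    · have h1 : c1 * x * (κ / x * 1 ^ (0 + 1)) = c1 * κ := by
        rw [one_pow, mul_one]
        field_simp
      rw [h1]
      calc Real.exp (c1 * κ) ≤ Real.exp (Real.log (1 + t)) := Real.exp_le_exp.2 hκ2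
        _ = 1 + t := Real.exp_log (by linarith)
  have hΦ1 : ENNReal.ofReal (1 - t) ≤ trPhi μ ν (B x) bt θ ^ N := by
    refine low_hPhi1 hφl hκx ?_ hN1 (by linarith)
    calc (N : ℝ) * (κ / x) ≤ (c1 * x) * (κ / x) := by gcongr
      _ = c1 * κ := by field_simp
      _ ≤ t := hκ1
  have hΦl : trPhi μ ν (B x) (bt - θ) θ ^ N ≤ ENNReal.ofReal (Real.exp (-(2 * θ * x))) := by
    have h1 := hsub (B x) bt θ hθ (hθZ.le.trans hZ3) (by
      rw [abs_le]
      have h2 : σ' * θ ≤ σ * θ := mul_le_mul_of_nonneg_right hσ'1 hθ.le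
      constructor <;> linarith) hTb
    refine low_hPhil hd0 hθ h1 ?_ hNl
    have h2 := hθZ.le.trans hZ8
    rw [le_div_iff₀ hd0] at h2
    linarith
  have hbB : t / θ ≤ B x := by
    refine le_trans ?_ e7
    rw [div_le_div_iff₀ hθ hq0]
    have h1 : t * q ≤ 1 / 16 * q := mul_le_mul_of_nonneg_right ht16 hq0.le
    linarith only [h1, hθl, hq0]
  have hQ : ENNReal.ofReal ((1 - 2 * t) / ((2 * m - E) * θ)) ≤
      ∑ n ∈ Finset.range J, lvlA μ ν (B x) θ n := by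
    refine le_trans (ENNReal.ofReal_le_ofReal ?_) ((hQL θ hθ (hθZ.trans_le hZ1) J
      (by rwa [div_le_iff₀ hθ] at hJl)).trans
      (Finset.sum_le_sum fun n _ => lvlA_mono hbB θ n))
    have hDθ : 0 < (2 * m - E) * θ := by positivity
    apply div_le_div_of_nonneg_right _ hDθ.le
    linarith
  have hQ2 : ∑ n ∈ Finset.range (N + J), lvlA μ ν (B x) θ n ≤
      ENNReal.ofReal (2 / ((2 * m - E) * θ)) := by
    have h5 := hQU θ hθ (hθZ.le.trans hZ2) (B x) hTθ (N + J)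
    have e1 : (1 : ℝ) + 1 = 2 := by norm_num
    rwa [e1] at h5
  have hxθ : x * q ≤ 2 * (x * θ) := by
    have := mul_le_mul_of_nonneg_left hθl hx0.le
    linarith
  have hs1 : 2 * Real.exp (-(θ * x)) ≤ t := by
    apply low_exp ht _ two_pos
    have h1 : 2 * |Real.log (t / 2)| ≤ 2 * (x * θ) := (hM1b.trans ev2).trans hxθ
    rw [mul_comm θ x]
    exact le_of_mul_le_mul_left h1 two_pos
  have hs2 : 4 * Real.exp (-((bt - θ) * x / 2)) ≤ t :=
    low_exp ht (s2_fact hx0 hη2 (hM1c.trans ev2) hxθ hbl) (by norm_num)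
  have h2t : ENNReal.ofReal (1 + t) ≤ ENNReal.ofReal 2 :=
    ENNReal.ofReal_le_ofReal (by linarith)
  -- the supersolution
  have hbtδ : bt ≤ δ := by
    have h1 := hθZ.le.trans hZ4
    rw [le_div_iff₀ (by positivity)] at h1
    linarith
  have hθδ : θ ≤ δ := hθb.trans hbtδ
  obtain ⟨k1, k2, k3⟩ := hmom (B x) bt θ e8 hb0' hbtδ hθ.le hθδ hTb
  have hbpos : 0 < t / θ := by positivity
  have hθK : K * θ ≤ t * t / 2 := by
    have h1 := hθZ.le.trans hZ6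
    rw [le_div_iff₀ (by positivity)] at h1
    linarith only [h1]
  have hKb : K ≤ t / θ := by
    rw [le_div_iff₀ hθ]
    have h1 : t * t ≤ 1 / 16 * t := mul_le_mul_of_nonneg_right ht16 ht.le
    linarith only [h1, hθK, ht]
  have hW2 := ovW_int hp0 (B := B x) (β := bt) (θ := θ) (K := K) (b := t / θ) (y0 := y0) hK.le
    hb0' hbpos hy0 k1 (k2 (t / θ) hKb) k3
  have hW3 : ovW K bt y0 x (t / θ) ≤ ENNReal.ofReal t := by
    unfold ovW
    have hv := ovV_nonneg hy0 x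
    rw [← ENNReal.ofReal_add (by positivity) (by positivity)]
    apply ENNReal.ofReal_le_ofReal
    have h1 : K / (t / θ) ≤ t / 2 := by
      rw [div_le_iff₀ hbpos]
      have : t / 2 * (t / θ) = (t * t / 2) / θ := by ring
      rw [this, le_div_iff₀ hθ]
      exact hθK
    have h2 : bt * ovV y0 x ≤ t / 2 := by
      have h3 := ovV_le hy0 hx0.le
      have h4 := hθZ.le.trans hZ7
      rw [le_div_iff₀ (by positivity)] at h4
      calc bt * ovV y0 x ≤ (2 * η * θ) * (3 * y0) := by gcongr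
        _ = θ * (12 * η * y0) / 2 := by ring
        _ ≤ _ := by linarith
    linarith
  have hθτ : θ * τ ≤ t := tau_fact hτ hθ (hθZ.le.trans hZ5)
  have hfin := core_sumG (μ := μ) (ν := ν) hz0 hp0 (G := hG h θ) (x := x) (θ := θ) (β := bt)
    (B := B x) (b := t / θ) (τ := τ) (t := t) (D := 2 * m - E) (hh := θ) (N := N) (J := J)
    hx0 hθ hθ hD ht ht16 (by field_simp; exact le_rfl) (by linarith) hτ hντ hθτ hθb
    (ovW_meas K bt y0) (fun y c hy => ovW_neg hb0' c hy) hW2 hW3 hQ hQ2 hΦ1 (hpow N hNle)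
    ((hpow (N + J) hNJ).trans h2t) hΦl hs1 hs2
  refine ⟨t / θ, θ, τ, N + J, hbpos.le, hθ, hτ, by linarith, ?_⟩
  refine le_trans (ENNReal.ofReal_le_ofReal ?_) hfin
  -- the constants
  have hS := e10.2
  have hfS1 : fS h h' μ ν (β x) x = Real.exp (-(hG h θ + x * (θ + bt))) / ((2 * m - E) * q) := by
    unfold fS
    rw [← hη, ← hmdef, ← hE, g3, hq]
  obtain ⟨e, he⟩ : ∃ e, e = Real.exp (-(hG h θ + x * (θ + bt))) := ⟨_, rfl⟩
  have he0 : 0 < e := by rw [he]; exact Real.exp_pos _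
  rw [← he] at hfS1 ⊢
  have hDp : 0 < (2 * m - E) * q := mul_pos hD hq0
  have hDθ : 0 < (2 * m - E) * θ := mul_pos hD hθ
  have hθp : θ ≤ (1 + ω1) * q := by
    have h2 : ω' * q ≤ ω1 * q := mul_le_mul_of_nonneg_right hω'2 hq0.le
    linarith
  have k1 : (1 - ω1) * (e / ((2 * m - E) * q)) ≤ e / ((2 * m - E) * θ) := by
    rw [mul_div_assoc', div_le_div_iff₀ hDp hDθ]
    have h3 : (1 - ω1) * θ ≤ q := by
      have h4 : (1 - ω1) * θ ≤ (1 - ω1) * ((1 + ω1) * q) :=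
        mul_le_mul_of_nonneg_left hθp (by linarith)
      have h5 : (1 - ω1) * ((1 + ω1) * q) = q - ω1 ^ 2 * q := by ring
      have h6 : 0 ≤ ω1 ^ 2 * q := by positivity
      linarith
    calc (1 - ω1) * e * ((2 * m - E) * θ) = e * (2 * m - E) * ((1 - ω1) * θ) := by ring
      _ ≤ e * (2 * m - E) * q := mul_le_mul_of_nonneg_left h3 (by positivity)
      _ = e * ((2 * m - E) * q) := by ring
  have hfs0 : 0 < fS h h' μ ν (β x) x := fS_pos S _ hx0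
  have hfs1 : 0 < fS h h' μ ν (betaStar μ ν) x := fS_pos S _ hx0
  rw [← hfS1] at k1
  obtain ⟨f, hf⟩ : ∃ f, f = fS h h' μ ν (β x) x := ⟨_, rfl⟩
  obtain ⟨g, hg⟩ : ∃ g, g = fS h h' μ ν (betaStar μ ν) x := ⟨_, rfl⟩
  rw [← hf] at k1 hfs0 hS
  rw [← hg] at hS hfs1 ⊢
  have h12 : 0 ≤ 1 - 12 * t := by linarith
  calc (1 - ω) * g ≤ (1 - 3 * ω1) * g := by
        apply mul_le_mul_of_nonneg_right _ hfs1.le
        linarith
    _ ≤ (1 - ω1) * (1 - ω1) * f := by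
        have h1 : (1 - 3 * ω1) * g ≤ (1 - 3 * ω1) * ((1 + ω1) * f) :=
          mul_le_mul_of_nonneg_left hS (by linarith)
        have h2 : (1 - 3 * ω1) * (1 + ω1) ≤ (1 - ω1) * (1 - ω1) := by
          linarith only [mul_pos hω1 hω1]
        calc (1 - 3 * ω1) * g ≤ (1 - 3 * ω1) * ((1 + ω1) * f) := h1
          _ = ((1 - 3 * ω1) * (1 + ω1)) * f := by ring
          _ ≤ _ := mul_le_mul_of_nonneg_right h2 hfs0.le
    _ = (1 - ω1) * ((1 - ω1) * f) := by ring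
    _ ≤ (1 - 12 * t) * ((1 - ω1) * f) := by
        apply mul_le_mul_of_nonneg_right (by linarith)
        exact mul_nonneg (by linarith) hfs0.le
    _ ≤ (1 - 12 * t) * (e / ((2 * m - E) * θ)) := mul_le_mul_of_nonneg_left k1 h12

end Pool.Agent.Lib.MP_04add8_pr.U
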