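import Mathlib
import Pool.Agent.Lib.MP_04add8_pr.Cv.LowTwo
import Pool.Agent.Lib.MP_04add8_pr.Cv.LowBoth
import Pool.Agent.Lib.MP_04add8_pr.U.UpperU
import Pool.Agent.Lib.MP_04add8_pr.U.LowOneU

open MeasureTheory ProbabilityTheory Filter Topology
open scoped ENNReal

set_option linter.unusedSectionVars false

namespace Pool.Agent.Lib.MP_04add8_pr.U

open Pool.Agent.Lib.MP_04add8_pr.Gen Pool.Agent.Lib.MP_04add8_pr.Cv

variable {h h' : ℝ → ℝ} {μ ν : Measure ℝ} [IsProbabilityMeasure μ]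
  [IsProbabilityMeasure ν]

variable {B v : ℝ → ℝ}

/-- **Lower bound**, canonical slope, both scenarios together. -/
theorem glowerU (S : StdC μ ν h h') (T : Thr h h' B v) {ω : ℝ} (hω : 0 < ω) (hω1 : ω < 1)
    (hω2 : ω < K2 μ ν) :
    ∀ᶠ x : ℝ in atTop, ∀ π : Measure (ℝ × ℝ), IsStationaryKW μ ν π →
      ENNReal.ofReal ((1 - ω) * fS h h' μ ν (betaStar μ ν) x +
        (K2 μ ν - ω) * (Qf h h' x) ^ 2) ≤ π {w | x < w.1} := by
  have H := S.haz
  have hη1 : 1 ≤ eta μ ν := by linarith [two_lt_eta S]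
  have TB := T.slvl H
  have hB := thr_hB H T
  have TM := slvl_max TB (slvl_inv H hη1 one_pos)
  have hBM : ∀ K : ℝ, ∀ᶠ x : ℝ in atTop,
      K * Real.log x ≤ h (max (B x) (1 / h' (eta μ ν * x))) := by
    intro K
    filter_upwards [hB K] with x hx
    exact hx.trans (H.mono (le_max_left _ _))
  obtain ⟨C, hC, hup⟩ := S.law.up
  have hlim := (S.haz.rpow_exp 1 (c := 1 / 2) (by norm_num)).const_mul C
  rw [mul_zero] at hlim
  obtain ⟨x1, hx1⟩ := (S.law.asy (ω / 4) (by positivity)).exists_forall_of_atTop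
  filter_upwards [glower_one_sumU S TM hBM (Eventually.of_forall fun x => le_max_right _ _)
    (show 0 < ω / 4 by positivity), glower_two_sum S hω,
    hlim.eventually_le_const (show 0 < ω / 4 by positivity), eventually_gt_atTop 0,
    eventually_ge_atTop (2 * x1)] with x h1 h2 hsm hx hxx1 π hπ
  have hp : IsProbabilityMeasure π := hπ.1
  obtain ⟨b, θ, τ, M, hb, hθ, hτ, hBx, h1⟩ := h1
  obtain ⟨n0, P, hP, h2⟩ := h2
  have h2' := h2 π hπ
  set Q := Qf h h' x with hQ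
  have hf0 : 0 < fS h h' μ ν (betaStar μ ν) x := fS_pos S _ hx
  have hF0 : 0 ≤ 1 - ω / 4 := by linarith
  set ε := C * Real.exp (-(h (x / 2))) with hε
  have hε0 : 0 ≤ ε := by positivity
  have hFx : ∀ X : ℝ, x / 2 ≤ X →
      ENNReal.ofReal ((1 - ω / 4) * Real.exp (-(h X))) ≤ μ (Set.Ioi X) :=
    fun X hX => (hx1 X (by linarith)).1
  have hb := glower_both hπ hx hBx hε0 (hup (x / 2)) M P n0
    (fun n => ENNReal.ofReal (1 - ω / 4) *
      (ν (Set.Iic τ) * ENNReal.ofReal (Real.exp (-(hG h θ + θ * (b + τ)))) *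
      midG μ ν x (max (B x) (1 / h' (eta μ ν * x))) b θ n))
    (fun n _ w hw0 hw1 => goneBig_lower_good S hF0 hx hb hθ hτ hFx n hw0 hw1)
  refine le_trans ?_ hb
  have hPe : 1 - ω / 4 ≤ 1 - P * ε := by
    have e1 : h x ≤ 2 * h (x / 2) := by
      have := S.haz.mul_ge (c := 2) (x := x / 2) (by norm_num) (by positivity)
      rwa [mul_div_cancel₀ x two_ne_zero] at this
    have e2 : Real.exp (-(h (x / 2))) ≤ Real.exp (-(1 / 2 * h x)) :=
      Real.exp_le_exp.mpr (by linarith)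
    rw [Real.rpow_one] at hsm
    have : P * ε ≤ C * (x * Real.exp (-(1 / 2 * h x))) := by
      calc P * ε = C * (P * Real.exp (-(h (x / 2)))) := by rw [hε]; ring
        _ ≤ C * (x * Real.exp (-(1 / 2 * h x))) := by gcongr
    linarith
  have hK2w : 0 ≤ (K2 μ ν - ω) * Q ^ 2 := mul_nonneg (by linarith) (by positivity)
  have h1ω : 0 ≤ (1 - ω) * fS h h' μ ν (betaStar μ ν) x := mul_nonneg (by linarith) hf0.le
  rw [ENNReal.ofReal_add h1ω hK2w]
  refine add_le_add ?_ h2'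
  generalize fS h h' μ ν (betaStar μ ν) x = F at h1 hf0 h1ω ⊢
  calc ENNReal.ofReal ((1 - ω) * F)
      ≤ ENNReal.ofReal ((1 - ω / 4) * ((1 - ω / 4) * ((1 - ω / 4) * F))) := by
        apply ENNReal.ofReal_le_ofReal
        have h3 : (1 - ω) ≤ (1 - ω / 4) * ((1 - ω / 4) * (1 - ω / 4)) := by
          nlinarith [mul_pos hω hω, mul_pos (mul_pos hω hω) hω]
        have h4 : (1 - ω) * F ≤ ((1 - ω / 4) * ((1 - ω / 4) * (1 - ω / 4))) * F := by
          gcongr
        linarith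
    _ = ENNReal.ofReal (1 - ω / 4) * (ENNReal.ofReal (1 - ω / 4) *
          ENNReal.ofReal ((1 - ω / 4) * F)) := by
        rw [ENNReal.ofReal_mul hF0, ENNReal.ofReal_mul hF0]
    _ ≤ ENNReal.ofReal (1 - P * ε) * (ENNReal.ofReal (1 - ω / 4) *
          ∑ n ∈ Finset.range M, ν (Set.Iic τ) *
            ENNReal.ofReal (Real.exp (-(hG h θ + θ * (b + τ)))) *
            midG μ ν x (max (B x) (1 / h' (eta μ ν * x))) b θ n) := by
        gcongr
    _ = _ := by rw [Finset.mul_sum]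

end Pool.Agent.Lib.MP_04add8_pr.U
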