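import Mathlib
import Pool.Agent.Lib.MP_04add8_pr.U.WKap

open MeasureTheory ProbabilityTheory Filter Topology
open scoped ENNReal

set_option linter.unusedSectionVars false

namespace Pool.Agent.Lib.MP_04add8_pr.U

open Pool.Agent.Lib.MP_04add8_pr.Gen Pool.Agent.Lib.MP_04add8_pr.Cv

variable {h h' : ℝ → ℝ} {μ ν : Measure ℝ} [IsProbabilityMeasure μ]
  [IsProbabilityMeasure ν]

variable {B v : ℝ → ℝ}

private lemma WBdd_pos (S : StdC μ ν h h') {u : ℝ} (hu : 0 < u) :
    ∀ᶠ x : ℝ in atTop, 0 < integratedTail μ (u * x) := by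
  have hi : Tendsto (fun x : ℝ => u * x) atTop atTop := tendsto_id.const_mul_atTop hu
  have hI := (Cv.integratedTail_asymp S.haz S.law).comp hi
  have h2 := hI.eventually_const_lt (show (1 / 2 : ℝ) < 1 by norm_num)
  filter_upwards [h2, eventually_gt_atTop 0] with x g2 hx
  simp only [Function.comp] at g2
  have p := Qf_pos S.haz (show 0 < u * x by positivity)
  rw [lt_div_iff₀ p] at g2
  linarith

private lemma WBdd_close (S : StdC μ ν h h') (T : Thr h h' B v) {ω : ℝ} (hω : 0 < ω) :
    ∀ᶠ x : ℝ in atTop, |h (eta μ ν * x) - hRate h (betaStar μ ν) x| ≤ ω * (x * h' x) := by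
  have hη2 := two_lt_eta S
  filter_upwards [rateU_close S T (ω := ω / 2) (by positivity), eventually_gt_atTop 0,
    S.haz.big.eventually_ge_atTop 1] with x hx hx0 hb
  refine hx.trans ?_
  have h1 : h' (eta μ ν * x) ≤ h' x := S.haz.anti _ _ hx0 (by nlinarith)
  have h2 := mul_le_mul_of_nonneg_left h1 (mul_nonneg hω.le hx0.le)
  have h3 := mul_le_mul_of_nonneg_left hb hω.le
  linarith

/-- bounds for `P` from the exact asymptotics -/
private lemma WBdd_two (S : StdC μ ν h h') (T : Thr h h' B v) {δ : ℝ} (hδ0 : 0 < δ)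
    (hdom : ∀ᶠ x : ℝ in atTop, (1 + δ) * h (eta μ ν * x) ≤ 2 * h x) {P : ℝ → ℝ}
    (hE : Tendsto (fun x : ℝ => P x / (fS h h' μ ν (betaStar μ ν) x +
      K2 μ ν * (Qf h h' x) ^ 2)) atTop (𝓝 1)) {D : ℝ}
    (hD : D = 2 * (∫ t, t ∂ν) - ∫ s, s ∂μ) :
    ∀ᶠ x : ℝ in atTop,
      Real.exp (h (eta μ ν * x) - hRate h (betaStar μ ν) x) / (2 * D) *
        integratedTail μ (eta μ ν * x) ≤ P x ∧
      P x ≤ 2 * Real.exp (h (eta μ ν * x) - hRate h (betaStar μ ν) x) / D *
        integratedTail μ (eta μ ν * x) := by
  have hη0 : 0 < eta μ ν := by linarith [two_lt_eta S]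
  have hq := quotU S T hδ0 hdom hE
  rw [← hD] at hq
  have hD0 : 0 < D := by rw [hD]; linarith [S.hlt]
  filter_upwards [hq.eventually_lt_const (show (1 : ℝ) < 2 by norm_num),
    hq.eventually_const_lt (show (1 / 2 : ℝ) < 1 by norm_num), WBdd_pos S hη0] with x g1 g2 g3
  have hA0 := Real.exp_pos (h (eta μ ν * x) - hRate h (betaStar μ ν) x)
  generalize Real.exp (h (eta μ ν * x) - hRate h (betaStar μ ν) x) = A at *
  generalize integratedTail μ (eta μ ν * x) = I at *
  generalize P x = P at *
  have h1 : 0 < A / D * I := by positivity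
  rw [div_lt_iff₀ h1] at g1
  rw [lt_div_iff₀ h1] at g2
  constructor
  · calc A / (2 * D) * I = 1 / 2 * (A / D * I) := by field_simp
      _ ≤ P := g2.le
  · calc P ≤ 2 * (A / D * I) := g1.le
      _ = 2 * A / D * I := by ring

/-- **Whitt's formula with a bounded prefactor** -/
theorem whittK_bdd (S : StdC μ ν h h') (T : Thr h h' B v) (K : KapR (kapS μ ν))
    {δ : ℝ} (hδ0 : 0 < δ)
    (hdom : ∀ᶠ x : ℝ in atTop, (1 + δ) * h (eta μ ν * x) ≤ 2 * h x) {P : ℝ → ℝ}
    (hE : Tendsto (fun x : ℝ => P x / (fS h h' μ ν (betaStar μ ν) x +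
      K2 μ ν * (Qf h h' x) ^ 2)) atTop (𝓝 1)) :
    (∃ η' c₁ c₂ : ℝ, 0 < η' ∧ 0 < c₁ ∧ ∀ᶠ x : ℝ in atTop,
      c₁ * integratedTail μ (η' * x) ≤ P x ∧ P x ≤ c₂ * integratedTail μ (η' * x)) ↔
    ∃ C : ℝ, ∀ᶠ x : ℝ in atTop, x * kapS μ ν (h' x) ≤ C := by
  have H := S.haz
  have hη0 : 0 < eta μ ν := by linarith [two_lt_eta S]
  obtain ⟨D, hDe⟩ : ∃ D, D = 2 * (∫ t, t ∂ν) - ∫ s, s ∂μ := ⟨_, rfl⟩
  have hD : 0 < D := by rw [hDe]; linarith [S.hlt]
  have htwo := WBdd_two S T hδ0 hdom hE hDe
  constructor
  · rintro ⟨η', c₁, c₂, hη', hc₁, hP⟩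
    -- `η' = η`
    have heq : η' = eta μ ν := by
      rcases lt_trichotomy η' (eta μ ν) with hlt | heq | hgt
      · exfalso
        obtain ⟨c, hc, hf⟩ := itailU_far S hη' hlt
        have e1 := WBdd_close S T (show 0 < c / 2 by positivity)
        have e2 : Tendsto (fun x : ℝ => Real.exp (-(c / 2 * (x * h' x)))) atTop (𝓝 0) :=
          Real.tendsto_exp_neg_atTop_nhds_zero.comp
            (H.big.const_mul_atTop (show 0 < c / 2 by positivity))
        have e3 := e2.eventually_lt_const (show 0 < D * c₁ / 4 by positivity)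
        obtain ⟨x, k1, k2, k3, k4, k5, k6⟩ := (hf.and (e1.and (e3.and (hP.and
          ((WBdd_pos S hη').and htwo))))).exists
        have k7 : Real.exp (h (eta μ ν * x) - hRate h (betaStar μ ν) x) *
            Real.exp (-(c * (x * h' x))) ≤ Real.exp (-(c / 2 * (x * h' x))) := by
          rw [← Real.exp_add]
          apply Real.exp_le_exp.2
          have := (abs_le.1 k2).2
          linarith
        have k8 : P x ≤ c₁ / 2 * integratedTail μ (η' * x) := by
          refine k6.2.trans ?_
          have hA0 := Real.exp_pos (h (eta μ ν * x) - hRate h (betaStar μ ν) x)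
          calc 2 * Real.exp (h (eta μ ν * x) - hRate h (betaStar μ ν) x) / D *
                integratedTail μ (eta μ ν * x) ≤
              2 * Real.exp (h (eta μ ν * x) - hRate h (betaStar μ ν) x) / D *
                (integratedTail μ (η' * x) * Real.exp (-(c * (x * h' x)))) :=
                mul_le_mul_of_nonneg_left k1 (by positivity)
            _ = 2 / D * (Real.exp (h (eta μ ν * x) - hRate h (betaStar μ ν) x) *
                Real.exp (-(c * (x * h' x)))) * integratedTail μ (η' * x) := by ring
            _ ≤ 2 / D * (D * c₁ / 4) * integratedTail μ (η' * x) := by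
                apply mul_le_mul_of_nonneg_right _ k5.le
                exact mul_le_mul_of_nonneg_left (k7.trans k3.le) (by positivity)
            _ = c₁ / 2 * integratedTail μ (η' * x) := by
                field_simp
                ring
        have k9 := k4.1
        have k10 : 0 < c₁ * integratedTail μ (η' * x) := by positivity
        linarith
      · exact heq
      · exfalso
        obtain ⟨c, hc, hf⟩ := itailU_far S hη0 hgt
        have e1 := WBdd_close S T (show 0 < c / 2 by positivity)
        have e2 : Tendsto (fun x : ℝ => Real.exp (c / 2 * (x * h' x))) atTop atTop :=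
          Real.tendsto_exp_atTop.comp
            (H.big.const_mul_atTop (show 0 < c / 2 by positivity))
        have e3 := e2.eventually_gt_atTop (2 * D * (|c₂| + 1))
        obtain ⟨x, k1, k2, k3, k4, k5, k6⟩ := (hf.and (e1.and (e3.and (hP.and
          ((WBdd_pos S hη').and htwo))))).exists
        have k8 : Real.exp (c / 2 * (x * h' x)) ≤
            Real.exp (h (eta μ ν * x) - hRate h (betaStar μ ν) x) *
              Real.exp (c * (x * h' x)) := by
          rw [← Real.exp_add]
          apply Real.exp_le_exp.2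
          have := (abs_le.1 k2).1
          linarith
        have k7 : Real.exp (c * (x * h' x)) * integratedTail μ (η' * x) ≤
            integratedTail μ (eta μ ν * x) := by
          calc Real.exp (c * (x * h' x)) * integratedTail μ (η' * x) ≤
              Real.exp (c * (x * h' x)) *
                (integratedTail μ (eta μ ν * x) * Real.exp (-(c * (x * h' x)))) :=
                mul_le_mul_of_nonneg_left k1 (Real.exp_pos _).le
            _ = integratedTail μ (eta μ ν * x) *
                (Real.exp (c * (x * h' x)) * Real.exp (-(c * (x * h' x)))) := by ring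
            _ = integratedTail μ (eta μ ν * x) := by
                rw [← Real.exp_add, add_neg_cancel, Real.exp_zero, mul_one]
        have hA0 := Real.exp_pos (h (eta μ ν * x) - hRate h (betaStar μ ν) x)
        have k9 : (|c₂| + 1) * integratedTail μ (η' * x) ≤ P x := by
          refine le_trans ?_ k6.1
          calc (|c₂| + 1) * integratedTail μ (η' * x) =
              1 / (2 * D) * (2 * D * (|c₂| + 1)) * integratedTail μ (η' * x) := by
                field_simp
            _ ≤ 1 / (2 * D) * (Real.exp (h (eta μ ν * x) - hRate h (betaStar μ ν) x) *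
                Real.exp (c * (x * h' x))) * integratedTail μ (η' * x) := by
                apply mul_le_mul_of_nonneg_right _ k5.le
                exact mul_le_mul_of_nonneg_left (k3.le.trans k8) (by positivity)
            _ = Real.exp (h (eta μ ν * x) - hRate h (betaStar μ ν) x) / (2 * D) *
                (Real.exp (c * (x * h' x)) * integratedTail μ (η' * x)) := by ring
            _ ≤ Real.exp (h (eta μ ν * x) - hRate h (betaStar μ ν) x) / (2 * D) *
                integratedTail μ (eta μ ν * x) :=
                mul_le_mul_of_nonneg_left k7 (by positivity)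
        have k10 := k4.2
        have k11 : c₂ * integratedTail μ (η' * x) ≤ |c₂| * integratedTail μ (η' * x) :=
          mul_le_mul_of_nonneg_right (le_abs_self _) k5.le
        linarith
    rw [heq] at hP
    obtain ⟨L, hL⟩ : ∃ L : ℝ, L = Real.log (2 * D * (|c₂| + 1)) := ⟨_, rfl⟩
    have hu : ∀ᶠ x : ℝ in atTop, x * kapS μ ν (h' (eta μ ν * x)) ≤ L := by
      filter_upwards [rateU_kap S T K one_pos, hP, htwo, WBdd_pos S hη0] with x g1 g2 g3 g4
      refine g1.2.1.trans ?_
      rw [hL, Real.le_log_iff_exp_le (by positivity)]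
      have k1 := g3.1.trans g2.2
      have k2 := le_of_mul_le_mul_right k1 g4
      rw [div_le_iff₀ (by positivity)] at k2
      have k3 : c₂ * (2 * D) ≤ (|c₂| + 1) * (2 * D) :=
        mul_le_mul_of_nonneg_right (by linarith [le_abs_self c₂]) (by positivity)
      linarith
    have hj : Tendsto (fun x : ℝ => x / eta μ ν) atTop atTop := tendsto_id.atTop_div_const hη0
    refine ⟨eta μ ν * L, ?_⟩
    filter_upwards [hj.eventually hu] with x hx
    have h6 : eta μ ν * (x / eta μ ν) = x := by field_simp
    rw [h6] at hx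
    have h7 := mul_le_mul_of_nonneg_left hx hη0.le
    rwa [← mul_assoc, h6] at h7
  · rintro ⟨C, hC⟩
    have hi : Tendsto (fun x : ℝ => eta μ ν * x) atTop atTop := tendsto_id.const_mul_atTop hη0
    refine ⟨eta μ ν, 1 / (2 * D), 2 * Real.exp (2 * (C / eta μ ν) + 1) / D, hη0,
      by positivity, ?_⟩
    filter_upwards [hi.eventually hC, rateU_kap S T K one_pos, htwo, WBdd_pos S hη0] with
      x g1 g2 g3 g4
    obtain ⟨g20, g21, g22⟩ := g2
    have k1 : x * kapS μ ν (h' (eta μ ν * x)) ≤ C / eta μ ν := by
      rw [le_div_iff₀ hη0]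
      calc x * kapS μ ν (h' (eta μ ν * x)) * eta μ ν =
          eta μ ν * x * kapS μ ν (h' (eta μ ν * x)) := by ring
        _ ≤ C := g1
    have k2 : 1 ≤ Real.exp (h (eta μ ν * x) - hRate h (betaStar μ ν) x) := by
      rw [Real.one_le_exp_iff]
      linarith
    have k3 : Real.exp (h (eta μ ν * x) - hRate h (betaStar μ ν) x) ≤
        Real.exp (2 * (C / eta μ ν) + 1) := by
      apply Real.exp_le_exp.2
      linarith
    constructor
    · refine le_trans ?_ g3.1
      apply mul_le_mul_of_nonneg_right _ g4.le
      exact div_le_div_of_nonneg_right k2 (by positivity)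
    · refine g3.2.trans ?_
      apply mul_le_mul_of_nonneg_right _ g4.le
      apply div_le_div_of_nonneg_right _ hD.le
      linarith

end Pool.Agent.Lib.MP_04add8_pr.U
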